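import Pool.Agent.Lib.BE.U.ObQ
import Pool.Agent.Lib.MP_9f2731_nt.SS.SpecB

/-!
PROJECT BU, module ChQ (helper60; from ChV of helper89 and LnM of helper92): clusters of m primes at a proportion 1/R' of
the places j < L (the bins are (j, i), i < U0 m), m rough values (absolute exponent) at every place.
-/

set_option autoImplicit false

namespace Pool.Agent.Lib.BE

open Finset
open Pool.Agent.Lib.MP_9f2731_nt.GP Pool.Agent.Lib.MP_9f2731_nt.CG
open Pool.Agent.Lib.MP_9f2731_nt.CG.Mf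

/-- SYSTEMS a_j u_(j,i) n + h_(j,i), j < L, i < m: all terms have at most C prime factors, all at least the (1/C)-th power of
the term, with an ABSOLUTE constant C; for a positive proportion (independent of m) of the places j, J, all m terms are primes;
J contains k equally spaced places. -/
def ChQStmt (R : ℝ) : Prop := ∃ C : ℕ, ∀ k m : ℕ, 1 ≤ k → 1 ≤ m → ∃ L₀ : ℕ, ∀ L : ℕ, L₀ ≤ L →
  ∀ (a : ℕ → ℕ) (M : ℕ) (S : Set (ℕ × ℤ)),
  (∀ j, j < L → 1 ≤ a j) → 1 ≤ M → (∀ s ∈ S, 1 ≤ s.1) → ((fun s : ℕ × ℤ => (s.2 : ℚ) / s.1) '' S).Infinite →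
  (∀ s ∈ S, IsCoprime (M : ℤ) s.2 ∧ (∀ j, j < L → IsCoprime (a j : ℤ) s.2) ∧ ∀ s' ∈ S, IsCoprime (s'.1 : ℤ) s.2) →
  ∃ (u : ℕ → ℕ → ℕ) (h : ℕ → ℕ → ℤ) (J : Finset ℕ), (∀ j i, j < L → i < m → (u j i, h j i) ∈ S) ∧
    (∀ j i j' i', j < L → i < m → j' < L → i' < m → (j, i) ≠ (j', i') →
      (u j i : ℤ) * h j' i' ≠ u j' i' * h j i) ∧
    J ⊆ Finset.range L ∧ (L : ℝ) / R ≤ (J.card : ℝ) ∧ (∃ x₀ d, 1 ≤ d ∧ ∀ i, i < k → x₀ + i * d ∈ J) ∧
    {n : ℕ | M ∣ n ∧ ∃ x : ℕ → ℕ → ℕ, (∀ j i, j < L → i < m →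
        (x j i : ℤ) = (a j : ℤ) * u j i * n + h j i ∧ 1 ≤ x j i ∧
        (x j i).primeFactorsList.length ≤ C ∧ ∀ p : ℕ, p.Prime → p ∣ x j i → x j i ≤ p ^ C) ∧
      ∀ j ∈ J, ∀ i, i < m → (x j i).Prime}.Infinite

/-- pigeonhole: one element of a finite type works for arbitrarily large numbers -/
private theorem ChQ_pigeon {S : Type} [Finite S] (P : S → ℕ → Prop)
    (h : ∀ Y : ℕ, ∃ s : S, ∃ N : ℕ, Y ≤ N ∧ P s N) : ∃ s : S, ∀ Y : ℕ, ∃ N : ℕ, Y ≤ N ∧ P s N := by
  classical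
  have := Fintype.ofFinite S
  by_contra hcon
  push Not at hcon
  choose Y hY using hcon
  obtain ⟨s, N, hN, hP⟩ := h (∑ s, Y s)
  exact hY s N (le_trans (Finset.single_le_sum (f := Y) (fun _ _ => Nat.zero_le _) (mem_univ s)) hN) hP

private theorem ChQ_root (Y : ℕ) : ((Y ^ 5 : ℕ) : ℝ) ^ ((1 : ℝ) / 5) = Y := by
  have h : (Y : ℝ) ^ (5 : ℕ) = (Y : ℝ) ^ ((5 : ℕ) : ℝ) := (Real.rpow_natCast _ _).symm
  rw [Nat.cast_pow, h, ← Real.rpow_mul (Nat.cast_nonneg Y)]
  norm_num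

/-- progressions in sets of places of density 1/R -/
private theorem ChQ_sz (h : MP_9f2731_nt.SS.S_Szm) (R : ℝ) (hR : 0 < R) (k : ℕ) (hk : 1 ≤ k) : ∃ L₀ : ℕ, 1 ≤ L₀ ∧
    ∀ L : ℕ, L₀ ≤ L → ∀ J : Finset ℕ, (∀ j ∈ J, j < L) → (L : ℝ) / R ≤ (J.card : ℝ) →
    ∃ x₀ d : ℕ, 1 ≤ d ∧ ∀ i, i < k → x₀ + i * d ∈ J := by
  classical
  obtain ⟨D, hD1, hD⟩ := h k (1 / (2 * R)) hk (by positivity)
  refine ⟨D + 1, by omega, fun L hL J hJ hc => ?_⟩
  by_contra hcon
  push Not at hcon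
  have hD0 : (0 : ℝ) < D := by exact_mod_cast hD1
  -- the blocks
  have hblk : ∀ b : ℕ, (((range D).filter (fun x => b * D + x ∈ J)).card : ℝ) ≤ 1 / (2 * R) * D := by
    intro b
    by_contra hb
    obtain ⟨e, d, hd, hed⟩ := hD ((range D).filter (fun x => b * D + x ∈ J)) (filter_subset _ _) (le_of_lt (not_le.1 hb))
    obtain ⟨i, hi, hni⟩ := hcon (b * D + e) d hd
    apply hni
    have h1 := (mem_filter.1 (hed i hi)).2
    rwa [← add_assoc] at h1
  have hsub : J ⊆ (range (L / D + 1)).biUnion (fun b => ((range D).filter (fun x => b * D + x ∈ J)).image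
      (fun x => b * D + x)) := by
    intro j hj
    rw [mem_biUnion]
    refine ⟨j / D, ?_, ?_⟩
    · rw [mem_range]
      have := hJ j hj
      exact Nat.lt_succ_of_le (Nat.div_le_div_right this.le)
    · rw [mem_image]
      have h1 : j / D * D + j % D = j := by
        rw [mul_comm]
        exact Nat.div_add_mod j D
      refine ⟨j % D, mem_filter.2 ⟨mem_range.2 (Nat.mod_lt _ hD1), ?_⟩, h1⟩
      rw [h1]
      exact hj
  have hcard : (J.card : ℝ) ≤ ((L / D : ℕ) + 1) * (1 / (2 * R) * D) := by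
    have h1 : (J.card : ℝ) ≤ ∑ b ∈ range (L / D + 1), (((range D).filter (fun x => b * D + x ∈ J)).card : ℝ) := by
      have h2 : J.card ≤ ∑ b ∈ range (L / D + 1), ((range D).filter (fun x => b * D + x ∈ J)).card :=
        (card_le_card hsub).trans (card_biUnion_le.trans (sum_le_sum fun b _ => card_image_le))
      exact_mod_cast h2
    refine h1.trans ((sum_le_sum fun b _ => hblk b).trans ?_)
    rw [sum_const, card_range, nsmul_eq_mul]
    push_cast
    exact le_rfl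
  have hdiv : ((L / D : ℕ) : ℝ) * D ≤ L := by
    exact_mod_cast Nat.div_mul_le_self L D
  have hLD : (D : ℝ) + 1 ≤ L := by exact_mod_cast hL
  have h3 : ((L / D : ℕ) + 1) * (1 / (2 * R) * (D : ℝ)) =
      (((L / D : ℕ) : ℝ) * D + D) / (2 * R) := by
    field_simp
  rw [h3] at hcard
  have h4 : (((L / D : ℕ) : ℝ) * D + D) / (2 * R) < (L : ℝ) / R := by
    rw [div_lt_div_iff₀ (by positivity) hR]
    nlinarith
  linarith

open Classical in
/-- many places have m occupied sub-bins -/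
private theorem ChQ_count (q u m : ℕ) (O : Finset (Fin (q * u))) :
    O.card ≤ (univ.filter (fun x : Fin q =>
      m ≤ (univ.filter (fun y : Fin u => finProdFinEquiv (x, y) ∈ O)).card)).card * u + q * m := by
  have h1 : O.card = ∑ x : Fin q, (univ.filter (fun y : Fin u => finProdFinEquiv (x, y) ∈ O)).card := by
    have e1 : O.card = ∑ p : Fin q × Fin u, if finProdFinEquiv p ∈ O then 1 else 0 := by
      rw [← card_filter]
      refine (card_bij (fun p _ => finProdFinEquiv p) ?_ ?_ ?_).symm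
      · intro p hp
        exact (mem_filter.1 hp).2
      · intro p _ p' _ he
        exact finProdFinEquiv.injective he
      · intro i hi
        exact ⟨finProdFinEquiv.symm i, mem_filter.2 ⟨mem_univ _, by rwa [Equiv.apply_symm_apply]⟩,
          Equiv.apply_symm_apply _ _⟩
    rw [e1, Fintype.sum_prod_type]
    refine sum_congr rfl fun x _ => ?_
    rw [card_filter]
  have h2 : ∀ x : Fin q, (univ.filter (fun y : Fin u => finProdFinEquiv (x, y) ∈ O)).card ≤
      (if m ≤ (univ.filter (fun y : Fin u => finProdFinEquiv (x, y) ∈ O)).card then u else 0) + m := by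
    intro x
    split_ifs with h
    · have h3 := card_le_univ (univ.filter (fun y : Fin u => finProdFinEquiv (x, y) ∈ O))
      rw [Fintype.card_fin] at h3
      omega
    · omega
  rw [h1]
  refine le_trans (sum_le_sum fun x _ => h2 x) (le_of_eq ?_)
  rw [sum_add_distrib, ← sum_filter, sum_const, sum_const, card_univ, Fintype.card_fin, smul_eq_mul,
    smul_eq_mul]

theorem tChQ (R R' : ℝ) (U0 : ℕ) (hU0 : 1 ≤ U0) (hR' : 0 < R') (hRR : (U0 : ℝ) / R' + 1 ≤ U0 / R)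
    (h1 : ObQStmt R) (h2 : HsPStmt) (h3 : ApPStmt) (h4 : MP_9f2731_nt.SS.S_Szm) : ChQStmt R' := by
  classical
  obtain ⟨C0, h1⟩ := h1
  refine ⟨C0 + 1, ?_⟩
  intro k m hk hm
  obtain ⟨L₀, hL₀, hsz⟩ := ChQ_sz h4 R' hR' k hk
  refine ⟨L₀, ?_⟩
  intro L hL a M S ha hM hS1 hInf hcop
  have hL1 : 1 ≤ L := hL₀.trans hL
  obtain ⟨U, hU⟩ : ∃ U : ℕ, U = U0 * m := ⟨_, rfl⟩
  have hmU : m ≤ U := by
    rw [hU]
    exact Nat.le_mul_of_pos_left m hU0
  have hU1 : 1 ≤ U := hm.trans hmU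
  obtain ⟨n, C, hn1, hn⟩ := h1 (L * U) (Nat.mul_pos hL1 hU1)
  -- the bound for the multipliers
  obtain ⟨B, hB⟩ : ∃ B : ℕ, B = M * ∑ j ∈ range L, a j := ⟨_, rfl⟩
  have haB : ∀ j, j < L → M * a j ≤ B := by
    intro j hj
    rw [hB]
    exact Nat.mul_le_mul_left _ (single_le_sum (f := a) (fun _ _ => Nat.zero_le _) (mem_range.2 hj))
  have ha1 : ∀ j, j < L → 1 ≤ M * a j := fun j hj => Nat.mul_pos hM (ha j hj)
  have hB1 : 1 ≤ B := (ha1 0 hL1).trans (haB 0 hL1)
  obtain ⟨σ, hσ, hdvd, hne⟩ := h2 (L * U * n) B S hS1 hInf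
  -- the place of an index
  obtain ⟨pl, hpl, hplL⟩ : ∃ pl : Fin (L * U * n) → ℕ,
      (∀ i y s, pl (finProdFinEquiv (finProdFinEquiv (i, y), s)) = (i : ℕ)) ∧ ∀ l, pl l < L :=
    ⟨fun l => ((finProdFinEquiv.symm (finProdFinEquiv.symm l).1).1 : ℕ),
      fun i y s => by simp only [Equiv.symm_apply_apply],
      fun l => (finProdFinEquiv.symm (finProdFinEquiv.symm l).1).1.isLt⟩
  have hcop' : ∀ i j, IsCoprime (((σ i).1 * (M * a (pl i)) : ℕ) : ℤ) (σ j).2 := by
    intro i j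
    rw [Nat.cast_mul, Nat.cast_mul]
    exact IsCoprime.mul_left ((hcop _ (hσ j)).2.2 _ (hσ i))
      (IsCoprime.mul_left (hcop _ (hσ j)).1 ((hcop _ (hσ j)).2.1 _ (hplL i)))
  have hch : ∀ p : ℕ, ∃ c : ℕ, p.Prime →
      ∀ l, ¬ (p : ℤ) ∣ (((σ l).1 * (M * a (pl l)) : ℕ) : ℤ) * c + (σ l).2 := by
    intro p
    by_cases hp : p.Prime
    · obtain ⟨c, hc⟩ := h3 (L * U * n) p (fun l => (σ l).1 * (M * a (pl l))) (fun l => (σ l).2) hp hcop' hdvd
      exact ⟨c, fun _ => hc⟩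
    · exact ⟨0, fun h => absurd h hp⟩
  choose cl hcl using hch
  obtain ⟨X0, hX0⟩ := hn (fun l => (σ l).1 * (M * a (pl l))) (fun l => (σ l).2) cl 0
    (fun l => Nat.mul_pos (hS1 _ (hσ l)) (ha1 _ (hplL l))) (fun p hp l => hcl p hp l)
    (fun i j hij => hne i j hij _ _ (ha1 _ (hplL i)) (haB _ (hplL i)) (ha1 _ (hplL j)) (haB _ (hplL j)))
  -- one set of places and one choice of the forms
  obtain ⟨⟨J0, c⟩, hJc⟩ := ChQ_pigeon (S := Finset (Fin L) × (Fin L → Fin m → Fin U × Fin n))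
    (fun s N => ((L : ℝ) / R' ≤ (s.1.card : ℝ) ∧ ∀ i : Fin L, Function.Injective (fun e => (s.2 i e).1)) ∧
      ∀ (i : Fin L) (e : Fin m), ∃ q : ℕ, 1 ≤ q ∧
      (q : ℤ) = (((σ (finProdFinEquiv (finProdFinEquiv (i, (s.2 i e).1), (s.2 i e).2))).1 * (M * a i) : ℕ) : ℤ) * N +
        (σ (finProdFinEquiv (finProdFinEquiv (i, (s.2 i e).1), (s.2 i e).2))).2 ∧
      (∀ p : ℕ, p.Prime → p ∣ q → q ≤ p ^ (C0 + 1)) ∧ (i ∈ s.1 → q.Prime)) (by
    intro Y
    obtain ⟨N, hN, -, hq, hall, hcard⟩ := hX0 (max ⌈X0⌉₊ (Y ^ 5))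
      (le_trans (Nat.le_ceil X0) (by exact_mod_cast le_max_left _ _))
    have hYN : Y ≤ N := by
      have h5 : (Y : ℝ) ≤ N := by
        rw [← ChQ_root Y]
        refine le_trans (Real.rpow_le_rpow (Nat.cast_nonneg _) ?_ (by norm_num)) hN
        exact_mod_cast le_max_right _ _
      exact_mod_cast h5
    -- the occupied bins
    obtain ⟨O, hO⟩ : ∃ O : Finset (Fin (L * U)), O = univ.filter (fun i : Fin (L * U) => ∃ t : Fin n, ∃ p : ℕ, p.Prime ∧
      (p : ℤ) = (((σ (finProdFinEquiv (i, t))).1 * (M * a (pl (finProdFinEquiv (i, t)))) : ℕ) : ℤ) * N +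
        (σ (finProdFinEquiv (i, t))).2) := ⟨_, rfl⟩
    have hcount := ChQ_count L U m O
    have hOc : ((L * U : ℕ) : ℝ) / R ≤ (O.card : ℝ) := by
      rw [hO]
      convert hcard
    -- the places with m occupied sub-bins
    obtain ⟨G, hG⟩ : ∃ G : Finset (Fin L), G = univ.filter (fun x : Fin L =>
        m ≤ (univ.filter (fun y : Fin U => finProdFinEquiv (x, y) ∈ O)).card) := ⟨_, rfl⟩
    have hGc : (L : ℝ) / R' ≤ (G.card : ℝ) := by
      have hm0' : (0 : ℝ) < m := by exact_mod_cast hm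
      have h6 : (O.card : ℝ) ≤ (G.card : ℝ) * U + (L : ℝ) * m := by
        rw [hG]
        exact_mod_cast hcount
      have hL0 : (0 : ℝ) < L := by exact_mod_cast hL1
      have hU00 : (0 : ℝ) < U0 := by exact_mod_cast hU0
      have hUr : (U : ℝ) = U0 * m := by
        rw [hU]
        push_cast
        ring
      have e1 : ((L * U : ℕ) : ℝ) / R = L * m * (U0 / R) := by
        rw [Nat.cast_mul, hUr]
        ring
      rw [e1] at hOc
      have h7 : (L : ℝ) * m * ((U0 : ℝ) / R' + 1) ≤ L * m * (U0 / R) :=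
        mul_le_mul_of_nonneg_left hRR (by positivity)
      have h8 : ((U0 : ℝ) * m) * ((L : ℝ) / R') ≤ (U0 * m) * (G.card : ℝ) := by
        have e2 : ((U0 : ℝ) * m) * ((L : ℝ) / R') = L * m * ((U0 : ℝ) / R' + 1) - L * m := by
          ring
        rw [e2]
        rw [hUr] at h6
        linarith
      exact le_of_mul_le_mul_left h8 (by positivity)
    have hchoice : ∀ i : Fin L, ∃ f : Fin m → Fin U × Fin n, Function.Injective (fun e => (f e).1) ∧
        ∀ e : Fin m, ∃ q : ℕ, 1 ≤ q ∧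
        (q : ℤ) = (((σ (finProdFinEquiv (finProdFinEquiv (i, (f e).1), (f e).2))).1 * (M * a i) : ℕ) : ℤ) * N +
          (σ (finProdFinEquiv (finProdFinEquiv (i, (f e).1), (f e).2))).2 ∧
        (∀ p : ℕ, p.Prime → p ∣ q → q ≤ p ^ (C0 + 1)) ∧ (i ∈ G → q.Prime) := by
      intro i
      by_cases hi : i ∈ G
      · have h5 := hi
        rw [hG, mem_filter] at h5
        obtain ⟨g⟩ : Nonempty (Fin m ↪ {y // y ∈ univ.filter (fun y : Fin U => finProdFinEquiv (i, y) ∈ O)}) := by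
          refine Function.Embedding.nonempty_of_card_le ?_
          rw [Fintype.card_fin, Fintype.card_coe]
          exact h5.2
        have h9 : ∀ e : Fin m, ∃ t : Fin n, ∃ p : ℕ, p.Prime ∧
            (p : ℤ) = (((σ (finProdFinEquiv (finProdFinEquiv (i, (g e : Fin U)), t))).1 * (M * a i) : ℕ) : ℤ) * N +
              (σ (finProdFinEquiv (finProdFinEquiv (i, (g e : Fin U)), t))).2 := by
          intro e
          have h10 : finProdFinEquiv (i, (g e : Fin U)) ∈ univ.filter (fun i : Fin (L * U) =>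
              ∃ t : Fin n, ∃ p : ℕ, p.Prime ∧
              (p : ℤ) = (((σ (finProdFinEquiv (i, t))).1 * (M * a (pl (finProdFinEquiv (i, t)))) : ℕ) : ℤ) * N +
                (σ (finProdFinEquiv (i, t))).2) := hO ▸ (Finset.mem_filter.1 (g e).2).2
          obtain ⟨-, t, p, hp, hpe⟩ := mem_filter.1 h10
          rw [hpl] at hpe
          exact ⟨t, p, hp, hpe⟩
        choose t p hp hpe using h9
        refine ⟨fun e => ((g e : Fin U), t e), fun e e' he => g.injective (Subtype.ext he),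
          fun e => ⟨p e, (hp e).one_le, hpe e, fun p' hp' hd => ?_, fun _ => hp e⟩⟩
        rw [(Nat.prime_dvd_prime_iff_eq hp' (hp e)).1 hd]
        exact Nat.le_self_pow (Nat.succ_ne_zero _) _
      · have h9 : ∀ e : Fin m, ∃ t : Fin n, ∃ q : ℕ, 1 ≤ q ∧
            (q : ℤ) = (((σ (finProdFinEquiv (finProdFinEquiv (i, Fin.castLE hmU e), t))).1 * (M * a i) : ℕ) : ℤ) * N +
              (σ (finProdFinEquiv (finProdFinEquiv (i, Fin.castLE hmU e), t))).2 ∧
            ∀ p : ℕ, p.Prime → p ∣ q → q ≤ p ^ C0 := by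
          intro e
          obtain ⟨t, q, hq1, hqe, hql⟩ := hall (finProdFinEquiv (i, Fin.castLE hmU e))
          rw [hpl] at hqe
          exact ⟨t, q, hq1, hqe, hql⟩
        choose t q hq1 hqe hql using h9
        refine ⟨fun e => (Fin.castLE hmU e, t e), fun e e' he => Fin.castLE_injective hmU he,
          fun e => ⟨q e, hq1 e, hqe e, fun p hp hd => (hql e p hp hd).trans
            (Nat.pow_le_pow_right hp.one_le (Nat.le_succ _)), fun h => absurd h hi⟩⟩
    choose c hci hc using hchoice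
    exact ⟨(G, c), N, hYN, ⟨hGc, hci⟩, hc⟩)
  obtain ⟨J, hJ⟩ : ∃ J : Finset ℕ, J = J0.map Fin.valEmbedding := ⟨_, rfl⟩
  have hJL : ∀ j ∈ J, j < L := by
    intro j hj
    rw [hJ, mem_map] at hj
    obtain ⟨i, -, rfl⟩ := hj
    exact i.isLt
  have hci : ∀ i : Fin L, Function.Injective (fun e => (c i e).1) := by
    obtain ⟨N, -, h5, -⟩ := hJc 0
    exact h5.2
  have hJcard : (L : ℝ) / R' ≤ (J.card : ℝ) := by
    rw [hJ, card_map]
    obtain ⟨N, -, h5, -⟩ := hJc 0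
    exact h5.1
  obtain ⟨x₀, d, hd, hAP⟩ := hsz L hL J hJL hJcard
  -- the index of a place
  obtain ⟨idx, hidx⟩ : ∃ idx : ℕ → ℕ → Fin (L * U * n), ∀ (j i : ℕ) (hj : j < L) (hi : i < m),
      idx j i = finProdFinEquiv (finProdFinEquiv (⟨j, hj⟩, (c ⟨j, hj⟩ ⟨i, hi⟩).1), (c ⟨j, hj⟩ ⟨i, hi⟩).2) :=
    ⟨fun j i => if hj : j < L then (if hi : i < m then
        finProdFinEquiv (finProdFinEquiv (⟨j, hj⟩, (c ⟨j, hj⟩ ⟨i, hi⟩).1), (c ⟨j, hj⟩ ⟨i, hi⟩).2)
        else finProdFinEquiv (finProdFinEquiv (⟨0, hL1⟩, ⟨0, hU1⟩), ⟨0, hn1⟩))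
        else finProdFinEquiv (finProdFinEquiv (⟨0, hL1⟩, ⟨0, hU1⟩), ⟨0, hn1⟩),
      fun j i hj hi => by simp only [dif_pos hj, dif_pos hi]⟩
  refine ⟨fun j i => (σ (idx j i)).1, fun j i => (σ (idx j i)).2, J, fun j i _ _ => hσ _, ?_,
    fun j hj => mem_range.2 (hJL j hj), hJcard, ⟨x₀, d, hd, hAP⟩, ?_⟩
  · intro j i j' i' hj hi hj' hi' hji
    have h5 : idx j i ≠ idx j' i' := by
      intro he
      rw [hidx j i hj hi, hidx j' i' hj' hi'] at he
      have h6 := congrArg Prod.fst (finProdFinEquiv.injective he)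
      have h7 := finProdFinEquiv.injective h6
      have h8 := congrArg Fin.val (congrArg Prod.fst h7)
      simp only at h8
      subst h8
      have h9 := congrArg Prod.snd h7
      simp only at h9
      have h10 := congrArg Fin.val (hci ⟨j, hj⟩ h9)
      simp only at h10
      exact hji (by rw [h10])
    have h8 := hne _ _ h5 1 1 le_rfl hB1 le_rfl hB1
    rw [mul_one, mul_one] at h8
    exact h8
  · refine Set.infinite_of_forall_exists_gt fun N0 => ?_
    obtain ⟨N, hN0, -, hN⟩ := hJc (N0 + 1)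
    choose q hq1 hq2 hq3 hq4 using hN
    refine ⟨M * N, ⟨Dvd.intro _ rfl, fun j i => if hj : j < L then (if hi : i < m then q ⟨j, hj⟩ ⟨i, hi⟩ else 0) else 0,
      fun j i hj hi => ?_, fun j hj i hi => ?_⟩, ?_⟩
    · simp only [dif_pos hj, dif_pos hi]
      refine ⟨?_, hq1 _ _, ObW_few _ _ (hq1 _ _) (hq3 _ _), hq3 _ _⟩
      rw [hq2 ⟨j, hj⟩ ⟨i, hi⟩, hidx j i hj hi]
      push_cast
      ring
    · have hjL := hJL j hj
      simp only [dif_pos hjL, dif_pos hi]
      refine hq4 ⟨j, hjL⟩ ⟨i, hi⟩ ?_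
      rw [hJ, mem_map] at hj
      obtain ⟨i', hi', hij⟩ := hj
      have h5 : (⟨j, hjL⟩ : Fin L) = i' := Fin.ext hij.symm
      rw [h5]
      exact hi'
    · calc N0 < N := hN0
        _ = 1 * N := (one_mul _).symm
        _ ≤ M * N := Nat.mul_le_mul_right _ hM

end Pool.Agent.Lib.BE
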