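import Pool.Agent.Lib.BE.U.LnP

/-!
PROJECT BU, module DkP (helper92): the line theorem with m primes in each bin of the line, final form
(port of BE/U/DkM).
-/

set_option autoImplicit false

namespace Pool.Agent.Lib.BE

open Finset
open Pool.Agent.Lib.MP_9f2731_nt.GP
open Pool.Agent.Lib.MP_9f2731_nt.CG
open Pool.Agent.Lib.MP_9f2731_nt.CG.Mf

/-- the line theorem with m primes in each bin of the line and m rough values in every bin -/
def DkPStmt : Prop := ∃ C0 : ℕ, ∀ k m : ℕ, 1 ≤ k → 1 ≤ m → ∃ r K C : ℕ,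
  ∀ (a b : (Fin r → Fin k) → Fin K → ℤ),
  (∀ w s, 0 < a w s) → (∀ w s w' s', a w s = a w' s' → b w s = b w' s' → w = w' ∧ s = s') →
  (∀ p : ℕ, p.Prime → ∃ n : ℕ, ∀ w s, ¬ (p : ℤ) ∣ a w s * n + b w s) →
  ∃ (v : Fin r → Option (Fin k)) (s : Fin k → Fin m → Fin K) (σ : (Fin r → Fin k) → Fin m → Fin K),
    (∃ t, v t = none) ∧ (∀ j, Function.Injective (s j)) ∧ (∀ w, Function.Injective (σ w)) ∧
    {n : ℕ | (∀ j i, ∃ p : ℕ, p.Prime ∧
      (p : ℤ) = a (fun t => (v t).getD j) (s j i) * n + b (fun t => (v t).getD j) (s j i)) ∧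
      (∀ w i, ∃ q : ℕ, 1 ≤ q ∧ (q : ℤ) = a w (σ w i) * n + b w (σ w i) ∧
        ∀ p : ℕ, p.Prime → p ∣ q → q ≤ p ^ C0) ∧
      (∀ w s', ∃ q : ℕ, 1 ≤ q ∧ (q : ℤ) = a w s' * n + b w s' ∧
        ∀ p : ℕ, p.Prime → p ∣ q → q ≤ p ^ C) ∧
      (k : ℝ) ^ r / 60 ≤ (({w : Fin r → Fin k | ∃ t : Fin m → Fin K, Function.Injective t ∧
        ∀ i, ∃ p : ℕ, p.Prime ∧ (p : ℤ) = a w (t i) * n + b w (t i)} : Set _).ncard : ℝ)}.Infinite

/-- coefficients of a form without a fixed prime divisor are coprime -/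
private theorem DkP_cop {a b : ℤ} (h : ∀ p : ℕ, p.Prime → ∃ n : ℤ, ¬ (p : ℤ) ∣ a * n + b) :
    IsCoprime a b := by
  rw [Int.isCoprime_iff_gcd_eq_one]
  by_contra hg
  obtain ⟨p, hp, hd⟩ := Nat.exists_prime_and_dvd hg
  obtain ⟨n, hn⟩ := h p hp
  have h1 : (p : ℤ) ∣ (Int.gcd a b : ℤ) := Int.natCast_dvd_natCast.2 hd
  have h2 : (p : ℤ) ∣ a := h1.trans (Int.gcd_dvd_left a b)
  have h3 : (p : ℤ) ∣ b := h1.trans (Int.gcd_dvd_right a b)
  exact hn (dvd_add (h2.mul_right n) h3)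

private theorem DkP_det {a b a' b' : ℤ} (ha : 0 < a) (ha' : 0 < a') (h : IsCoprime a b)
    (h' : IsCoprime a' b') (he : a * b' = a' * b) : a = a' ∧ b = b' := by
  have h1 : a ∣ a' := by
    have : a ∣ a' * b := ⟨b', he.symm⟩
    exact h.dvd_of_dvd_mul_right this
  have h2 : a' ∣ a := by
    have : a' ∣ a * b' := ⟨b, he⟩
    exact h'.dvd_of_dvd_mul_right this
  have h3 : a = a' := Int.dvd_antisymm ha.le ha'.le h1 h2
  refine ⟨h3, ?_⟩
  rw [← h3] at he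
  exact (mul_left_cancel₀ ha.ne' he).symm

theorem tDkP (h1 : LinePStmt) : DkPStmt := by
  obtain ⟨C0, hC0⟩ := h1
  refine ⟨C0, fun k m hk hm => ?_⟩
  obtain ⟨r, n, C, hL⟩ := hC0 k m hk hm
  refine ⟨r, n, C, fun a b ha hinj hadm => ?_⟩
  have hcast : ∀ w s, (((a w s).toNat : ℕ) : ℤ) = a w s := fun w s => Int.toNat_of_nonneg (ha w s).le
  have hch : ∀ p : ℕ, ∃ c : ℕ, p.Prime → ∀ w s, ¬ (p : ℤ) ∣ a w s * c + b w s := by
    intro p
    by_cases hp : p.Prime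
    · obtain ⟨c, hc⟩ := hadm p hp
      exact ⟨c, fun _ => hc⟩
    · exact ⟨0, fun h => absurd h hp⟩
  choose cl hcl using hch
  have hcop : ∀ w s, IsCoprime (a w s) (b w s) := fun w s => DkP_cop fun p hp => by
    obtain ⟨c, hc⟩ := hadm p hp
    exact ⟨c, hc w s⟩
  obtain ⟨v, s, σ, hv, hsi, hσi, hN⟩ := hL (fun w s => (a w s).toNat) b cl 0
    (fun w s => by
      have h2 := ha w s
      have h3 := hcast w s
      omega)
    (fun p hp w s => by
      have h2 := hcl p hp w s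
      rw [← hcast w s] at h2
      exact h2)
    (fun w s w' s' hne he => by
      apply hne
      have he2 : a w s * b w' s' = a w' s' * b w s := by
        have h2 := he
        simp only [hcast] at h2
        exact h2
      obtain ⟨h3, h4⟩ := DkP_det (ha w s) (ha w' s') (hcop w s) (hcop w' s') he2
      obtain ⟨h5, h6⟩ := hinj w s w' s' h3 h4
      rw [h5, h6])
  refine ⟨v, s, σ, hv, hsi, hσi, Set.infinite_of_forall_exists_gt fun N0 => ?_⟩
  obtain ⟨N, hN1, -, hN2, hN4, hN5, hN3⟩ := hN (N0 + 1)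
  refine ⟨N, ⟨?_, ?_, ?_, ?_⟩, by omega⟩
  · intro j i
    obtain ⟨p, hp, hpe⟩ := hN3 j i
    refine ⟨p, hp, ?_⟩
    have h2 := hcast (lineMap v j) (s j i)
    rw [hpe, h2]
    rfl
  · intro w i
    obtain ⟨q, hq1, hq2, hq3⟩ := hN4 w i
    refine ⟨q, hq1, ?_, hq3⟩
    rw [hq2, hcast w (σ w i)]
  · intro w s'
    obtain ⟨q, hq1, hq2, hq3⟩ := hN2 w s'
    refine ⟨q, hq1, ?_, hq3⟩
    rw [hq2, hcast w s']
  · simp only [hcast] at hN5
    exact hN5

end Pool.Agent.Lib.BE
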