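import Pool.Agent.Lib.BE.U.ObQ

/-!
PROJECT BU, module LnP (helper92): the line theorem with m primes in each of the k bins of the line and m
rough values (absolute exponent) in every bin (from ObQ 58 with
sub-bins; compare BE/U/LnM).
-/

set_option autoImplicit false

namespace Pool.Agent.Lib.BE

open Finset
open Pool.Agent.Lib.MP_9f2731_nt.GP Pool.Agent.Lib.MP_9f2731_nt.CG
open Pool.Agent.Lib.MP_9f2731_nt.CG.Mf

/-- the line theorem with m primes in each bin of the line -/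
def LinePStmt : Prop := ∃ C0 : ℕ, ∀ k m : ℕ, 1 ≤ k → 1 ≤ m → ∃ r K C : ℕ,
  ∀ (a : (Fin r → Fin k) → Fin K → ℕ) (b : (Fin r → Fin k) → Fin K → ℤ) (cl : ℕ → ℕ) (P : ℕ),
  (∀ w s, 1 ≤ a w s) →
  (∀ p : ℕ, p.Prime → ∀ w s, ¬ (p : ℤ) ∣ (a w s : ℤ) * cl p + b w s) →
  (∀ w s w' s', (w, s) ≠ (w', s') → (a w s : ℤ) * b w' s' ≠ a w' s' * b w s) →
  ∃ (v : Fin r → Option (Fin k)) (s : Fin k → Fin m → Fin K) (σ : (Fin r → Fin k) → Fin m → Fin K),
    (∃ t, v t = none) ∧ (∀ j, Function.Injective (s j)) ∧ (∀ w, Function.Injective (σ w)) ∧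
    ∀ N0 : ℕ, ∃ N : ℕ, N0 ≤ N ∧ (∀ p : ℕ, p.Prime → p ≤ P → N ≡ cl p [MOD p]) ∧
      (∀ w s', ∃ q : ℕ, 1 ≤ q ∧ (q : ℤ) = (a w s' : ℤ) * N + b w s' ∧
        ∀ p : ℕ, p.Prime → p ∣ q → q ≤ p ^ C) ∧
      (∀ w i, ∃ q : ℕ, 1 ≤ q ∧ (q : ℤ) = (a w (σ w i) : ℤ) * N + b w (σ w i) ∧
        ∀ p : ℕ, p.Prime → p ∣ q → q ≤ p ^ C0) ∧
      (k : ℝ) ^ r / 60 ≤ (({w : Fin r → Fin k | ∃ t : Fin m → Fin K, Function.Injective t ∧
        ∀ i, ∃ p : ℕ, p.Prime ∧ (p : ℤ) = (a w (t i) : ℤ) * N + b w (t i)} : Set _).ncard : ℝ) ∧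
      ∀ j i, ∃ p : ℕ, p.Prime ∧
        (p : ℤ) = (a (lineMap v j) (s j i) : ℤ) * N + b (lineMap v j) (s j i)

/-- pigeonhole: one element of a finite type works for arbitrarily large numbers -/
private theorem LnP_pigeon {S : Type} [Finite S] (P : S → ℕ → Prop)
    (h : ∀ Y : ℕ, ∃ s : S, ∃ N : ℕ, Y ≤ N ∧ P s N) : ∃ s : S, ∀ Y : ℕ, ∃ N : ℕ, Y ≤ N ∧ P s N := by
  classical
  have := Fintype.ofFinite S
  by_contra hcon
  push Not at hcon
  choose Y hY using hcon
  obtain ⟨s, N, hN, hP⟩ := h (∑ s, Y s)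
  exact hY s N (le_trans (Finset.single_le_sum (f := Y) (fun _ _ => Nat.zero_le _) (mem_univ s)) hN) hP

private theorem LnP_root (Y : ℕ) : ((Y ^ 5 : ℕ) : ℝ) ^ ((1 : ℝ) / 5) = Y := by
  have h : (Y : ℝ) ^ (5 : ℕ) = (Y : ℝ) ^ ((5 : ℕ) : ℝ) := (Real.rpow_natCast _ _).symm
  rw [Nat.cast_pow, h, ← Real.rpow_mul (Nat.cast_nonneg Y)]
  norm_num

/-- the coefficients at an index -/
private def LnP_M {A : Type} (k r u n : ℕ) (a : (Fin r → Fin k) → Fin (u * n) → A)
    (l : Fin (k ^ r * u * n)) : A :=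
  a (finFunctionFinEquiv.symm (finProdFinEquiv.symm (finProdFinEquiv.symm l).1).1)
    (finProdFinEquiv ((finProdFinEquiv.symm (finProdFinEquiv.symm l).1).2, (finProdFinEquiv.symm l).2))

private theorem LnP_M_idx {A : Type} (k r u n : ℕ) (a : (Fin r → Fin k) → Fin (u * n) → A)
    (w : Fin r → Fin k) (x : Fin u) (s : Fin n) :
    LnP_M k r u n a (finProdFinEquiv (finProdFinEquiv (finFunctionFinEquiv w, x), s)) =
      a w (finProdFinEquiv (x, s)) := by
  unfold LnP_M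
  rw [Equiv.symm_apply_apply, Equiv.symm_apply_apply, Equiv.symm_apply_apply]

private theorem LnP_inj {k r u n : ℕ} {i j : Fin (k ^ r * u * n)} (h : i ≠ j) :
    ((finFunctionFinEquiv.symm (finProdFinEquiv.symm (finProdFinEquiv.symm i).1).1 : Fin r → Fin k),
      finProdFinEquiv ((finProdFinEquiv.symm (finProdFinEquiv.symm i).1).2,
        (finProdFinEquiv.symm i).2)) ≠
    ((finFunctionFinEquiv.symm (finProdFinEquiv.symm (finProdFinEquiv.symm j).1).1 : Fin r → Fin k),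
      finProdFinEquiv ((finProdFinEquiv.symm (finProdFinEquiv.symm j).1).2,
        (finProdFinEquiv.symm j).2)) := by
  intro he
  rw [Prod.mk.injEq] at he
  have h1 := finFunctionFinEquiv.symm.injective he.1
  have h2 := finProdFinEquiv.injective he.2
  rw [Prod.mk.injEq] at h2
  have h3 : finProdFinEquiv.symm (finProdFinEquiv.symm i).1 =
      finProdFinEquiv.symm (finProdFinEquiv.symm j).1 := Prod.ext h1 h2.1
  have h4 := finProdFinEquiv.symm.injective h3
  exact h (finProdFinEquiv.symm.injective (Prod.ext h4 h2.2))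

open Classical in
/-- many words have m occupied sub-bins -/
private theorem LnP_count (q u m : ℕ) (O : Finset (Fin (q * u))) :
    O.card ≤ (univ.filter (fun x : Fin q =>
      m ≤ (univ.filter (fun y : Fin u => finProdFinEquiv (x, y) ∈ O)).card)).card * u + q * m := by
  have h1 : O.card = ∑ x : Fin q, (univ.filter (fun y : Fin u => finProdFinEquiv (x, y) ∈ O)).card := by
    have e1 : O.card = ∑ p : Fin q × Fin u, if finProdFinEquiv p ∈ O then 1 else 0 := by
      rw [← card_filter]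
      refine (card_bij (fun p _ => finProdFinEquiv p) ?_ ?_ ?_).symm
      · intro p hp
        exact (mem_filter.1 hp).2
      · intro p _ p' _ he
        exact finProdFinEquiv.injective he
      · intro i hi
        exact ⟨finProdFinEquiv.symm i, mem_filter.2 ⟨mem_univ _, by rwa [Equiv.apply_symm_apply]⟩,
          Equiv.apply_symm_apply _ _⟩
    rw [e1, Fintype.sum_prod_type]
    refine sum_congr rfl fun x _ => ?_
    rw [card_filter]
  have h2 : ∀ x : Fin q, (univ.filter (fun y : Fin u => finProdFinEquiv (x, y) ∈ O)).card ≤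
      (if m ≤ (univ.filter (fun y : Fin u => finProdFinEquiv (x, y) ∈ O)).card then u else 0) + m := by
    intro x
    split_ifs with h
    · have h3 := card_le_univ (univ.filter (fun y : Fin u => finProdFinEquiv (x, y) ∈ O))
      rw [Fintype.card_fin] at h3
      omega
    · omega
  rw [h1]
  refine le_trans (sum_le_sum fun x _ => h2 x) (le_of_eq ?_)
  rw [sum_add_distrib, ← sum_filter, sum_const, sum_const, card_univ, Fintype.card_fin, smul_eq_mul,
    smul_eq_mul]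

theorem tLnP (h1 : DhjStmt) (h2 : ObQStmt 58) : LinePStmt := by
  classical
  obtain ⟨C0, h2⟩ := h2
  refine ⟨C0, ?_⟩
  intro k m hk hm0
  obtain ⟨r, hr⟩ := h1 k (1 / 60) (by norm_num)
  have hm : 1 ≤ k ^ r := Nat.one_le_pow _ _ hk
  obtain ⟨n, C, hn1, hn⟩ := h2 (k ^ r * (1740 * m)) (Nat.mul_pos hm (by omega))
  refine ⟨r, 1740 * m * n, C, ?_⟩
  intro a b cl P ha hcl hne
  obtain ⟨X0, hX0⟩ := hn (LnP_M k r (1740 * m) n a) (LnP_M k r (1740 * m) n b) cl P
    (fun l => ha _ _) (fun p hp l => hcl p hp _ _) (fun i j hij => hne _ _ _ _ (LnP_inj hij))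
  -- the property of a word with wildcards and shifts
  obtain ⟨⟨w, τ, σ⟩, hwτ⟩ := LnP_pigeon
    (S := (Fin r → Option (Fin k)) × (Fin k → Fin m → Fin (1740 * m * n)) ×
      ((Fin r → Fin k) → Fin m → Fin (1740 * m * n)))
    (fun s N => ((∃ t, s.1 t = none) ∧ (∀ j, Function.Injective (s.2.1 j)) ∧
      ∀ w, Function.Injective (s.2.2 w)) ∧ (∀ p : ℕ, p.Prime → p ≤ P → N ≡ cl p [MOD p]) ∧
      (∀ w s', ∃ q : ℕ, 1 ≤ q ∧ (q : ℤ) = (a w s' : ℤ) * N + b w s' ∧
        ∀ p : ℕ, p.Prime → p ∣ q → q ≤ p ^ C) ∧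
      (∀ w i, ∃ q : ℕ, 1 ≤ q ∧ (q : ℤ) = (a w (s.2.2 w i) : ℤ) * N + b w (s.2.2 w i) ∧
        ∀ p : ℕ, p.Prime → p ∣ q → q ≤ p ^ C0) ∧
      (k : ℝ) ^ r / 60 ≤ (({w : Fin r → Fin k | ∃ t : Fin m → Fin (1740 * m * n),
        Function.Injective t ∧
        ∀ i, ∃ p : ℕ, p.Prime ∧ (p : ℤ) = (a w (t i) : ℤ) * N + b w (t i)} : Set _).ncard : ℝ) ∧
      ∀ j i, ∃ p : ℕ, p.Prime ∧
        (p : ℤ) = (a (lineMap s.1 j) (s.2.1 j i) : ℤ) * N + b (lineMap s.1 j) (s.2.1 j i)) (by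
    intro Y
    obtain ⟨N, hN, hmod, hq, hall, hcard⟩ := hX0 (max ⌈X0⌉₊ (Y ^ 5))
      (le_trans (Nat.le_ceil X0) (by exact_mod_cast le_max_left _ _))
    have hYN : Y ≤ N := by
      have h5 : (Y : ℝ) ≤ N := by
        rw [← LnP_root Y]
        refine le_trans (Real.rpow_le_rpow (Nat.cast_nonneg _) ?_ (by norm_num)) hN
        exact_mod_cast le_max_right _ _
      exact_mod_cast h5
    set O : Finset (Fin (k ^ r * (1740 * m))) := univ.filter (fun i => ∃ t : Fin n, ∃ p : ℕ,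
      p.Prime ∧ (p : ℤ) = ((LnP_M k r (1740 * m) n a (finProdFinEquiv (i, t)) : ℕ) : ℤ) * N +
        LnP_M k r (1740 * m) n b (finProdFinEquiv (i, t))) with hO
    have hcount := LnP_count (k ^ r) (1740 * m) m O
    have hOc : 30 * (m : ℝ) * (k : ℝ) ^ r ≤ (O.card : ℝ) := by
      have e : ((k ^ r * (1740 * m) : ℕ) : ℝ) / 58 = 30 * (m : ℝ) * (k : ℝ) ^ r := by
        push_cast
        ring
      rw [← e]
      convert hcard
    set A : Finset (Fin r → Fin k) := (univ.filter (fun x : Fin (k ^ r) =>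
        m ≤ (univ.filter (fun y : Fin (1740 * m) => finProdFinEquiv (x, y) ∈ O)).card)).map
        finFunctionFinEquiv.symm.toEmbedding with hAdef
    have hAc : 1 / 60 * (k : ℝ) ^ r ≤ (A.card : ℝ) := by
      rw [hAdef, Finset.card_map]
      have hm0' : (0 : ℝ) < m := by exact_mod_cast hm0
      have h6 : (O.card : ℝ) ≤ ((univ.filter (fun x : Fin (k ^ r) =>
        m ≤ (univ.filter (fun y : Fin (1740 * m) => finProdFinEquiv (x, y) ∈ O)).card)).card : ℝ) *
        (1740 * m) + (k : ℝ) ^ r * m := by exact_mod_cast hcount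
      have h7 : (m : ℝ) * (1 / 60 * (k : ℝ) ^ r) ≤ m * ((univ.filter (fun x : Fin (k ^ r) =>
        m ≤ (univ.filter (fun y : Fin (1740 * m) =>
          finProdFinEquiv (x, y) ∈ O)).card)).card : ℝ) := by
        nlinarith
      exact le_of_mul_le_mul_left h7 hm0'
    have hAt : ∀ w ∈ A, ∃ t : Fin m → Fin (1740 * m * n), Function.Injective t ∧
        ∀ i, ∃ p : ℕ, p.Prime ∧ (p : ℤ) = (a w (t i) : ℤ) * N + b w (t i) := by
      intro w hwA
      rw [hAdef, Finset.mem_map] at hwA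
      obtain ⟨x, hx, hxj⟩ := hwA
      have h7 : finFunctionFinEquiv w = x := by
        rw [← hxj]
        exact Equiv.apply_symm_apply _ _
      subst h7
      have h8 := (Finset.mem_filter.1 hx).2
      obtain ⟨g⟩ : Nonempty (Fin m ↪ {y // y ∈ univ.filter (fun y : Fin (1740 * m) =>
          finProdFinEquiv (finFunctionFinEquiv w, y) ∈ O)}) := by
        refine Function.Embedding.nonempty_of_card_le ?_
        rw [Fintype.card_fin, Fintype.card_coe]
        exact h8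
      have h9 : ∀ i : Fin m, ∃ t : Fin n, ∃ p : ℕ, p.Prime ∧
          (p : ℤ) = (a w (finProdFinEquiv ((g i : Fin (1740 * m)), t)) : ℤ) * N +
            b w (finProdFinEquiv ((g i : Fin (1740 * m)), t)) := by
        intro i
        have h10 := (Finset.mem_filter.1 (g i).2).2
        obtain ⟨t, p, hp, hpe⟩ := (Finset.mem_filter.1 h10).2
        refine ⟨t, p, hp, ?_⟩
        rw [LnP_M_idx, LnP_M_idx] at hpe
        exact hpe
      choose t ht using h9
      refine ⟨fun i => finProdFinEquiv ((g i : Fin (1740 * m)), t i), ?_, ht⟩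
      intro i i' he
      have h11 := finProdFinEquiv.injective he
      rw [Prod.mk.injEq] at h11
      exact g.injective (Subtype.ext h11.1)
    have hprop : (k : ℝ) ^ r / 60 ≤ (({w : Fin r → Fin k |
        ∃ t : Fin m → Fin (1740 * m * n), Function.Injective t ∧
        ∀ i, ∃ p : ℕ, p.Prime ∧ (p : ℤ) = (a w (t i) : ℤ) * N + b w (t i)} : Set _).ncard : ℝ) := by
      have h12 : A.card ≤ ({w : Fin r → Fin k |
        ∃ t : Fin m → Fin (1740 * m * n), Function.Injective t ∧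
        ∀ i, ∃ p : ℕ, p.Prime ∧ (p : ℤ) = (a w (t i) : ℤ) * N + b w (t i)} : Set _).ncard := by
        rw [← Set.ncard_coe_finset]
        exact Set.ncard_le_ncard (fun w hw => hAt w (Finset.mem_coe.1 hw)) (Set.toFinite _)
      have h13 : (A.card : ℝ) ≤ _ := Nat.cast_le.2 h12
      refine le_trans (le_of_eq ?_) (le_trans hAc h13)
      ring
    obtain ⟨w, hw, hA⟩ := hr A hAc
    have hA' := fun j : Fin k => hAt (lineMap w j) (hA j)
    choose τ hτi hτ using hA'
    have hall' : ∀ w' : Fin r → Fin k, ∃ t : Fin m → Fin (1740 * m * n), Function.Injective t ∧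
        ∀ i, ∃ q : ℕ, 1 ≤ q ∧ (q : ℤ) = (a w' (t i) : ℤ) * N + b w' (t i) ∧
          ∀ p : ℕ, p.Prime → p ∣ q → q ≤ p ^ C0 := by
      intro w'
      have h9 : ∀ i : Fin m, ∃ t : Fin n, ∃ q : ℕ, 1 ≤ q ∧
          (q : ℤ) = (a w' (finProdFinEquiv (Fin.castLE (show m ≤ 1740 * m by omega) i, t)) : ℤ)
            * N + b w' (finProdFinEquiv (Fin.castLE (show m ≤ 1740 * m by omega) i, t)) ∧
          ∀ p : ℕ, p.Prime → p ∣ q → q ≤ p ^ C0 := by
        intro i
        obtain ⟨t, q, hq0, hq1, hq2⟩ := hall (finProdFinEquiv (finFunctionFinEquiv w',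
          Fin.castLE (show m ≤ 1740 * m by omega) i))
        rw [LnP_M_idx, LnP_M_idx] at hq1
        exact ⟨t, q, hq0, hq1, hq2⟩
      choose t ht using h9
      refine ⟨fun i => finProdFinEquiv (Fin.castLE (show m ≤ 1740 * m by omega) i, t i), ?_, ht⟩
      intro i i' he
      have h11 := finProdFinEquiv.injective he
      rw [Prod.mk.injEq] at h11
      exact Fin.castLE_injective _ h11.1
    choose σ hσi hσ using hall'
    refine ⟨(w, τ, σ), N, hYN, ⟨hw, hτi, hσi⟩, hmod, fun w' s' => ?_, hσ, hprop, hτ⟩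
    obtain ⟨q, hq1, hq2, hq3⟩ := hq (finProdFinEquiv (finProdFinEquiv (finFunctionFinEquiv w',
      (finProdFinEquiv.symm s').1), (finProdFinEquiv.symm s').2))
    rw [LnP_M_idx, LnP_M_idx, Prod.mk.eta, Equiv.apply_symm_apply] at hq2
    exact ⟨q, hq1, hq2, hq3⟩)
  refine ⟨w, τ, σ, ?_, ?_, ?_, fun N0 => ?_⟩
  · obtain ⟨N, -, hw, -⟩ := hwτ 0
    exact hw.1
  · obtain ⟨N, -, hw, -⟩ := hwτ 0
    exact hw.2.1
  · obtain ⟨N, -, hw, -⟩ := hwτ 0
    exact hw.2.2
  · obtain ⟨N, hN, -, hmod, hq, hs, hpr, hp⟩ := hwτ N0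
    exact ⟨N, hN, hmod, hq, hs, hpr, hp⟩

end Pool.Agent.Lib.BE
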