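import Pool.Agent.Lib.BE.SpecU

/-!
Module DgU: few prime factors.
-/

set_option autoImplicit false

namespace Pool.Agent.Lib.BE

open Finset
open Pool.Agent.Lib.MP_9f2731_nt.GP Pool.Agent.Lib.MP_9f2731_nt.GP.Sv Pool.Agent.Lib.MP_9f2731_nt.QL
  Pool.Agent.Lib.MP_9f2731_nt.QL.Sw Pool.Agent.Lib.MP_9f2731_nt.CG Pool.Agent.Lib.MP_9f2731_nt.CG.Ma
  Pool.Agent.Lib.MP_9f2731_nt.CG.Mf

private theorem DgU_num {X n : ℕ} {t : ℝ} (ht : 0 < t) (hR : 1 < RR X) (hn : 1 ≤ n)
    (hnX : n ≤ X ^ 2) (S : Finset ℕ) (hS : ∀ p ∈ S, p.Prime ∧ p ∣ n ∧ (RR X) ^ t < (p : ℝ)) :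
    (S.card : ℝ) ≤ 10 / t := by
  have hX0 : (0 : ℝ) < X := by
    rcases Nat.eq_zero_or_pos X with h0 | h0
    · exfalso
      unfold RR at hR
      rw [h0, Nat.cast_zero, Real.zero_rpow (by norm_num)] at hR
      linarith
    · exact_mod_cast h0
  have hlR : Real.log (RR X) = 1 / 5 * Real.log X := by
    unfold RR
    exact Real.log_rpow hX0 _
  have hl : 0 < Real.log (RR X) := Real.log_pos hR
  have hR0 : 0 < RR X := by linarith
  have hRt : 0 < RR X ^ t := Real.rpow_pos_of_pos hR0 t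
  have h1 : ((RR X) ^ t) ^ S.card ≤ n := by
    calc ((RR X) ^ t) ^ S.card = ∏ p ∈ S, (RR X) ^ t := by rw [Finset.prod_const]
      _ ≤ ∏ p ∈ S, (p : ℝ) :=
          Finset.prod_le_prod (fun p _ => hRt.le) fun p hp => (hS p hp).2.2.le
      _ = ((∏ p ∈ S, p : ℕ) : ℝ) := by push_cast; rfl
      _ ≤ n := by
          have h2 : ∏ p ∈ S, p ∣ n :=
            Finset.prod_primes_dvd n (fun p hp => (hS p hp).1.prime) (fun p hp => (hS p hp).2.1)
          exact_mod_cast Nat.le_of_dvd hn h2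
  have h2 : ((RR X) ^ t) ^ S.card ≤ (X : ℝ) ^ 2 := h1.trans (by exact_mod_cast hnX)
  have h3 := Real.log_le_log (pow_pos hRt _) h2
  rw [Real.log_pow, Real.log_rpow hR0, Real.log_pow] at h3
  rw [le_div_iff₀ ht]
  have h4 : Real.log X = 5 * Real.log (RR X) := by
    rw [hlR]
    ring
  rw [h4] at h3
  push_cast at h3
  have h5 : ((S.card : ℝ) * t) * Real.log (RR X) ≤ 10 * Real.log (RR X) := by
    calc ((S.card : ℝ) * t) * Real.log (RR X) = (S.card : ℝ) * (t * Real.log (RR X)) := by ring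
      _ ≤ 2 * (5 * Real.log (RR X)) := h3
      _ = 10 * Real.log (RR X) := by ring
  exact le_of_mul_le_mul_right h5 hl

private theorem DgU_card (V n N : ℕ) (R : ℝ)
    (hN : ((QsV V R).filter (fun p => p ∣ n)).card ≤ N) :
    ((PqV V R).divisors.filter (fun d => d ∣ n)).card ≤ 2 ^ N := by
  calc ((PqV V R).divisors.filter (fun d => d ∣ n)).card ≤
        ((QsV V R).filter (fun p => p ∣ n)).powerset.card := by
        refine Finset.card_le_card_of_injOn (fun d => d.primeFactors) ?_ ?_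
        · intro d hd
          have hd' := Finset.mem_filter.1 hd
          have hsub : d.primeFactors ⊆ (QsV V R).filter (fun p => p ∣ n) := by
            intro p hp
            have hpp := Nat.prime_of_mem_primeFactors hp
            have hpd := Nat.dvd_of_mem_primeFactors hp
            refine Finset.mem_filter.2 ⟨?_, hpd.trans hd'.2⟩
            have h1 : p ∣ ∏ q ∈ QsV V R, q := hpd.trans (Nat.dvd_of_mem_divisors hd'.1)
            obtain ⟨q, hq, hpq⟩ := (Prime.dvd_finsetProd_iff hpp.prime _).1 h1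
            have hqp : q.Prime := (Finset.mem_filter.1 hq).2.1
            rw [(Nat.prime_dvd_prime_iff_eq hpp hqp).1 hpq]
            exact hq
          exact Finset.mem_powerset.2 hsub
        · intro d hd e he h
          have hd1 : Squarefree d := PqV_squarefree.squarefree_of_dvd
            (Nat.dvd_of_mem_divisors (Finset.mem_filter.1 hd).1)
          have he1 : Squarefree e := PqV_squarefree.squarefree_of_dvd
            (Nat.dvd_of_mem_divisors (Finset.mem_filter.1 he).1)
          rw [← Nat.prod_primeFactors_of_squarefree hd1, ← Nat.prod_primeFactors_of_squarefree he1]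
          exact Finset.prod_congr h fun p _ => rfl
    _ = 2 ^ ((QsV V R).filter (fun p => p ∣ n)).card := Finset.card_powerset _
    _ ≤ 2 ^ N := Nat.pow_le_pow_right (by norm_num) hN

private theorem DgU_AF (V n N : ℕ) (R B : ℝ) (f : ℕ → ℝ)
    (hN : ((QsV V R).filter (fun p => p ∣ n)).card ≤ N) (hB : 0 ≤ B) (hf : ∀ d, |f d| ≤ B) :
    |AF V R f n| ≤ 2 ^ N * B := by
  unfold AF
  calc |∑ d ∈ (PqV V R).divisors, ((ArithmeticFunction.moebius d : ℤ) : ℝ) * ind d n * f d|
      ≤ ∑ d ∈ (PqV V R).divisors, |((ArithmeticFunction.moebius d : ℤ) : ℝ) * ind d n * f d| :=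
        Finset.abs_sum_le_sum_abs _ _
    _ ≤ ∑ d ∈ (PqV V R).divisors, if d ∣ n then B else 0 := by
        refine Finset.sum_le_sum fun d _ => ?_
        unfold ind
        split_ifs with h
        · rw [mul_one, abs_mul]
          have h1 : |((ArithmeticFunction.moebius d : ℤ) : ℝ)| ≤ 1 := by
            rw [← Int.cast_abs]
            exact_mod_cast ArithmeticFunction.abs_moebius_le_one
          calc |((ArithmeticFunction.moebius d : ℤ) : ℝ)| * |f d| ≤ 1 * B :=
                mul_le_mul h1 (hf d) (abs_nonneg _) (by norm_num)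
            _ = B := one_mul _
        · simp
    _ = (((PqV V R).divisors.filter (fun d => d ∣ n)).card : ℝ) * B := by
        rw [← Finset.sum_filter, Finset.sum_const, nsmul_eq_mul]
    _ ≤ 2 ^ N * B := by
        refine mul_le_mul_of_nonneg_right ?_ hB
        exact_mod_cast DgU_card V n N R hN

theorem tDgU (h1 : PhUStmt) : DgUStmt := by
  intro t u ht _ _
  refine ⟨4 ^ ⌊10 / t⌋₊, by positivity, ?_⟩
  intro X W n hR _ hn hnX
  have hl : 0 < Real.log (RR X) := Real.log_pos hR
  refine ⟨?_, fun hY => ?_⟩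
  · unfold NU
    refine DgU_num ht hR hn hnX _ fun p hp => ?_
    have hp' := Finset.mem_filter.1 hp
    exact ⟨(Finset.mem_filter.1 hp'.1).2.1, hp'.2.2, hp'.2.1⟩
  · have hN : ((QsV W (RR X)).filter (fun p => p ∣ n)).card ≤ ⌊10 / t⌋₊ := by
      refine Nat.le_floor (DgU_num ht hR hn hnX _ fun p hp => ?_)
      have hp' := Finset.mem_filter.1 hp
      have hq := Finset.mem_filter.1 hp'.1
      refine ⟨hq.2.1, hp'.2, ?_⟩
      by_contra hc
      have hc' := not_lt.1 hc
      refine hY p (Finset.mem_filter.2 ⟨?_, hq.2⟩) hp'.2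
      rw [Finset.mem_range, Nat.lt_succ_iff]
      exact Nat.le_floor hc'
    have hq := (h1.2 X hR).2.1
    have h2 : |AF W (RR X) (qU X) n| ≤ 2 ^ ⌊10 / t⌋₊ * Real.log (RR X) ^ 2 :=
      DgU_AF W n ⌊10 / t⌋₊ (RR X) _ _ hN (by positivity) fun d => by
        rw [abs_of_nonneg (hq d).1]
        exact (hq d).2
    calc AF W (RR X) (qU X) n ^ 2 = |AF W (RR X) (qU X) n| ^ 2 := (sq_abs _).symm
      _ ≤ (2 ^ ⌊10 / t⌋₊ * Real.log (RR X) ^ 2) ^ 2 := pow_le_pow_left₀ (abs_nonneg _) h2 2
      _ = 4 ^ ⌊10 / t⌋₊ * Real.log (RR X) ^ 4 := by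
          rw [mul_pow, ← pow_mul, mul_comm ⌊10 / t⌋₊ 2, pow_mul]
          norm_num
          ring

end Pool.Agent.Lib.BE
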