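import Pool.Agent.Lib.BE.SpecU

/-!
# BE, module DkU: the line theorem with absolute almost primes, final form
-/

set_option autoImplicit false

namespace Pool.Agent.Lib.BE

open Finset
open Pool.Agent.Lib.MP_9f2731_nt.GP
open Pool.Agent.Lib.MP_9f2731_nt.GP.Sv
open Pool.Agent.Lib.MP_9f2731_nt.QL
open Pool.Agent.Lib.MP_9f2731_nt.QL.Sw
open Pool.Agent.Lib.MP_9f2731_nt.CG
open Pool.Agent.Lib.MP_9f2731_nt.CG.Ma
open Pool.Agent.Lib.MP_9f2731_nt.CG.Mf

/-- coefficients of a form without a fixed prime divisor are coprime -/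
private theorem DkU_cop {a b : ℤ} (h : ∀ p : ℕ, p.Prime → ∃ n : ℤ, ¬ (p : ℤ) ∣ a * n + b) :
    IsCoprime a b := by
  rw [Int.isCoprime_iff_gcd_eq_one]
  by_contra hg
  obtain ⟨p, hp, hd⟩ := Nat.exists_prime_and_dvd hg
  obtain ⟨n, hn⟩ := h p hp
  have h1 : (p : ℤ) ∣ (Int.gcd a b : ℤ) := Int.natCast_dvd_natCast.2 hd
  have h2 : (p : ℤ) ∣ a := h1.trans (Int.gcd_dvd_left a b)
  have h3 : (p : ℤ) ∣ b := h1.trans (Int.gcd_dvd_right a b)
  exact hn (dvd_add (h2.mul_right n) h3)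

private theorem DkU_det {a b a' b' : ℤ} (ha : 0 < a) (ha' : 0 < a') (h : IsCoprime a b)
    (h' : IsCoprime a' b') (he : a * b' = a' * b) : a = a' ∧ b = b' := by
  have h1 : a ∣ a' := by
    have : a ∣ a' * b := ⟨b', he.symm⟩
    exact h.dvd_of_dvd_mul_right this
  have h2 : a' ∣ a := by
    have : a' ∣ a * b' := ⟨b, he⟩
    exact h'.dvd_of_dvd_mul_right this
  have h3 : a = a' := Int.dvd_antisymm ha.le ha'.le h1 h2
  refine ⟨h3, ?_⟩
  rw [← h3] at he
  exact (mul_left_cancel₀ ha.ne' he).symm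

theorem tDkU (h1 : LineUStmt) : DkUStmt := by
  obtain ⟨C0, hC0⟩ := h1
  refine ⟨C0, fun k hk => ?_⟩
  obtain ⟨r, n, C, -, hL⟩ := hC0 k hk
  refine ⟨r, n, C, fun a b ha hinj hadm => ?_⟩
  have hcast : ∀ w s, (((a w s).toNat : ℕ) : ℤ) = a w s := fun w s => Int.toNat_of_nonneg (ha w s).le
  have hch : ∀ p : ℕ, ∃ c : ℕ, p.Prime → ∀ w s, ¬ (p : ℤ) ∣ a w s * c + b w s := by
    intro p
    by_cases hp : p.Prime
    · obtain ⟨c, hc⟩ := hadm p hp
      exact ⟨c, fun _ => hc⟩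
    · exact ⟨0, fun h => absurd h hp⟩
  choose cl hcl using hch
  have hcop : ∀ w s, IsCoprime (a w s) (b w s) := fun w s => DkU_cop fun p hp => by
    obtain ⟨c, hc⟩ := hadm p hp
    exact ⟨c, hc w s⟩
  obtain ⟨v, s, σ, hv, hN⟩ := hL (fun w s => (a w s).toNat) b cl 0
    (fun w s => by
      have h2 := ha w s
      have h3 := hcast w s
      omega)
    (fun p hp w s => by
      have h2 := hcl p hp w s
      rw [← hcast w s] at h2
      exact h2)
    (fun w s w' s' hne he => by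
      apply hne
      have he2 : a w s * b w' s' = a w' s' * b w s := by
        have h2 := he
        simp only [hcast] at h2
        exact h2
      obtain ⟨h3, h4⟩ := DkU_det (ha w s) (ha w' s') (hcop w s) (hcop w' s') he2
      obtain ⟨h5, h6⟩ := hinj w s w' s' h3 h4
      rw [h5, h6])
  refine ⟨v, s, σ, hv, Set.infinite_of_forall_exists_gt fun N0 => ?_⟩
  obtain ⟨N, hN1, -, hN2, hN4, hN3⟩ := hN (N0 + 1)
  refine ⟨N, ⟨?_, ?_, ?_⟩, by omega⟩
  · intro j
    obtain ⟨p, hp, hpe⟩ := hN3 j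
    refine ⟨p, hp, ?_⟩
    have h2 := hcast (lineMap v j) (s j)
    rw [hpe, h2]
    rfl
  · intro w
    obtain ⟨q, hq2, hq3⟩ := hN4 w
    obtain ⟨q', hq1', hq2', -⟩ := hN2 w (σ w)
    have hqq : q = q' := by
      have h2 : (q : ℤ) = q' := by rw [hq2, hq2']
      exact_mod_cast h2
    refine ⟨q, by omega, ?_, hq3⟩
    rw [hq2, hcast w (σ w)]
  · intro w s'
    obtain ⟨q, hq1, hq2, hq3⟩ := hN2 w s'
    refine ⟨q, hq1, ?_, hq3⟩
    rw [hq2, hcast w s']

end Pool.Agent.Lib.BE
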