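import Pool.Agent.Lib.BE.SpecU

set_option autoImplicit false

namespace Pool.Agent.Lib.BE

open Finset
open Pool.Agent.Lib.MP_9f2731_nt.GP Pool.Agent.Lib.MP_9f2731_nt.GP.Sv
  Pool.Agent.Lib.MP_9f2731_nt.QL Pool.Agent.Lib.MP_9f2731_nt.QL.Sw Pool.Agent.Lib.MP_9f2731_nt.CG
  Pool.Agent.Lib.MP_9f2731_nt.CG.Ma Pool.Agent.Lib.MP_9f2731_nt.CG.Mf

private theorem EiU_log (X : ℕ) (hX : 1 ≤ X) : Real.log (RR X) = Real.log X / 5 := by
  unfold RR
  rw [Real.log_rpow (by exact_mod_cast hX)]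
  ring

/-- the choice of η -/
private theorem EiU_eta (Ca t α T M : ℝ) (hCa : 0 < Ca) (ht : 0 < t) (hα : 0 < α) (hT : 0 < T)
    (hM : 0 < M) : ∃ η : ℝ, 0 < η ∧ η ≤ 1 ∧ η ≤ α * T ∧
    2 * η + 2 * ((α * T + η) * (Ca * t ^ 2 + η) + η) / α +
      (20 / t * ((α ^ 2 * T + η) * (Ca * t ^ 2 + η)) + η) / α ^ 2 ≤
    2 * Ca * t ^ 2 * T + 20 * Ca * t * T + T / (2 * M) := by
  obtain ⟨B, hB⟩ : ∃ B : ℝ, B = 2 + 2 * (T + (Ca * t ^ 2 + 1) / α) + 2 / α +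
      20 / t * (T + (Ca * t ^ 2 + 1) / α ^ 2) + 1 / α ^ 2 := ⟨_, rfl⟩
  have hB0 : 0 < B := by rw [hB]; positivity
  obtain ⟨η, hη⟩ : ∃ η : ℝ, η = min (min 1 (α * T)) (T / (2 * M) / B) := ⟨_, rfl⟩
  have hη0 : 0 < η := by
    rw [hη]
    exact lt_min (lt_min one_pos (by positivity)) (by positivity)
  have hη1 : η ≤ 1 := by rw [hη]; exact (min_le_left _ _).trans (min_le_left _ _)
  have hη2 : η ≤ α * T := by rw [hη]; exact (min_le_left _ _).trans (min_le_right _ _)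
  have hη3 : η * B ≤ T / (2 * M) := by
    have h : η ≤ T / (2 * M) / B := by rw [hη]; exact min_le_right _ _
    rwa [le_div_iff₀ hB0] at h
  refine ⟨η, hη0, hη1, hη2, ?_⟩
  have e1 : 2 * ((α * T + η) * (Ca * t ^ 2 + η) + η) / α =
      2 * Ca * t ^ 2 * T + η * (2 * (T + (Ca * t ^ 2 + η) / α) + 2 / α) := by
    field_simp
    ring
  have e2 : (20 / t * ((α ^ 2 * T + η) * (Ca * t ^ 2 + η)) + η) / α ^ 2 =
      20 * Ca * t * T + η * (20 / t * (T + (Ca * t ^ 2 + η) / α ^ 2) + 1 / α ^ 2) := by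
    field_simp
    ring
  have e3 : (Ca * t ^ 2 + η) / α ≤ (Ca * t ^ 2 + 1) / α := by gcongr
  have e4 : (Ca * t ^ 2 + η) / α ^ 2 ≤ (Ca * t ^ 2 + 1) / α ^ 2 := by gcongr
  have e5 : 20 / t * (T + (Ca * t ^ 2 + η) / α ^ 2) ≤
      20 / t * (T + (Ca * t ^ 2 + 1) / α ^ 2) := by gcongr
  have e6 : η * (2 * (T + (Ca * t ^ 2 + η) / α) + 2 / α) +
      η * (20 / t * (T + (Ca * t ^ 2 + η) / α ^ 2) + 1 / α ^ 2) + 2 * η ≤ η * B := by
    have h : (2 * (T + (Ca * t ^ 2 + η) / α) + 2 / α) +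
      (20 / t * (T + (Ca * t ^ 2 + η) / α ^ 2) + 1 / α ^ 2) + 2 ≤ B := by
      rw [hB]
      linarith
    have h' := mul_le_mul_of_nonneg_left h hη0.le
    linarith
  rw [e1, e2]
  linarith

theorem tEiU (h1 : TaUStmt) (h2 : R1UStmt) (h3 : R2UStmt) (h4 : R3UStmt) (h5 : SgUStmt)
    (h6 : MaCStmt) (h7 : EmUStmt) : EiUStmt := by
  classical
  obtain ⟨u, hu0, hu1, h1⟩ := h1
  obtain ⟨C1, hC1, h2⟩ := h2
  obtain ⟨C2, hC2, h3⟩ := h3
  refine ⟨u, hu0, hu1, fun m hm => ?_⟩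
  obtain ⟨Ca, hCa⟩ : ∃ Ca : ℝ, Ca = max C1 C2 := ⟨_, rfl⟩
  have hCa1 : C1 ≤ Ca := by rw [hCa]; exact le_max_left _ _
  have hCa2 : C2 ≤ Ca := by rw [hCa]; exact le_max_right _ _
  have hCa0 : 0 < Ca := lt_of_lt_of_le hC1 hCa1
  have hm1 : (1 : ℝ) ≤ m := by exact_mod_cast hm
  obtain ⟨M, hM⟩ : ∃ M : ℝ, M = 10 ^ 9 * m := ⟨_, rfl⟩
  have hM1 : 1 ≤ M := by rw [hM]; linarith
  have hM0 : 0 < M := by linarith
  obtain ⟨t, htd⟩ : ∃ t : ℝ, t = min u (1 / (176 * Ca * M)) := ⟨_, rfl⟩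
  have ht0 : 0 < t := by rw [htd]; exact lt_min hu0 (by positivity)
  have htu : t ≤ u := by rw [htd]; exact min_le_left _ _
  have ht1 : t ≤ 1 := by linarith
  have htM : 22 * Ca * t ≤ 1 / (8 * M) := by
    have h : t ≤ 1 / (176 * Ca * M) := by rw [htd]; exact min_le_right _ _
    calc 22 * Ca * t ≤ 22 * Ca * (1 / (176 * Ca * M)) := by gcongr
      _ = 1 / (8 * M) := by field_simp; norm_num
  have htM2 : 2 * Ca * t ^ 2 + 20 * Ca * t ≤ 1 / (8 * M) := by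
    have h : t ^ 2 ≤ t := by nlinarith
    have h' : 2 * Ca * t ^ 2 ≤ 2 * Ca * t := by gcongr
    linarith
  obtain ⟨Ct, Xt, hCt, h1⟩ := h1 t ht0 htu
  obtain ⟨C3, hC3, h4⟩ := h4 t u ht0 htu hu1
  obtain ⟨A0, hA0⟩ : ∃ A0 : ℝ, A0 = max 2 (8 * C3 * M) := ⟨_, rfl⟩
  have hA02 : 2 ≤ A0 := by rw [hA0]; exact le_max_left _ _
  have hA0C : 8 * C3 * M ≤ A0 := by rw [hA0]; exact le_max_right _ _
  obtain ⟨e0, he0⟩ : ∃ e0 : ℝ, e0 = 1 / (16 * M) := ⟨_, rfl⟩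
  have he00 : 0 < e0 := by rw [he0]; positivity
  have he01 : e0 ≤ 1 / 2 := by
    rw [he0, div_le_div_iff₀ (by positivity) (by norm_num)]
    linarith
  refine ⟨e0, t, A0, he00, he01, ht0, hA02, fun n r P bd 𝒜 α T hn hD => ?_⟩
  have hT := hD.Tp
  have hα := hD.ap
  obtain ⟨η, hη0, hη1, hηα, hηs⟩ := EiU_eta Ca t α T M hCa0 ht0 hα hT hM0
  have hn0 : (0 : ℝ) < n := by exact_mod_cast hn
  have hnα : A0 ≤ n * α := hD.lo
  have hnα0 : 0 < n * α := by positivity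
  obtain ⟨XA, hA⟩ := h6 (m * n) r P bd 𝒜 hD.vda η hη0
  obtain ⟨XB, hB⟩ := h2 t u ht0 htu hu1 (m * n) r P bd 𝒜 hD.vda hD.half hD.ipn hD.imp hD.be η hη0
  obtain ⟨XC, hC⟩ := h3 t u ht0 htu hu1 (m * n) r P bd 𝒜 hD.vda hD.half hD.ipn hD.imp hD.be η hη0
  obtain ⟨XD, hDD⟩ := h4 (m * n) r P bd 𝒜 hD.vda hD.half hD.ipn hD.imp hD.be η hη0
  obtain ⟨XE, hE⟩ := Filter.eventually_atTop.1
    ((tendsto_rpow_atTop (by norm_num : (0 : ℝ) < 2 / 5)).eventually_ge_atTop (1 / η))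
  refine ⟨max (max (max XA XB) (max XC XD)) (max (max Xt XE) (Real.exp 10)),
    fun X w V p0 a c hX hS hac i => ?_⟩
  have hX' := le_trans (le_max_left _ _) hX
  have hX'' := le_trans (le_max_right _ _) hX
  have hXA : XA ≤ X := le_trans (le_trans (le_max_left _ _) (le_max_left _ _)) hX'
  have hXB : XB ≤ X := le_trans (le_trans (le_max_right _ _) (le_max_left _ _)) hX'
  have hXC : XC ≤ X := le_trans (le_trans (le_max_left _ _) (le_max_right _ _)) hX'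
  have hXD : XD ≤ X := le_trans (le_trans (le_max_right _ _) (le_max_right _ _)) hX'
  have hXt : Xt ≤ X := le_trans (le_trans (le_max_left _ _) (le_max_left _ _)) hX''
  have hXE : XE ≤ X := le_trans (le_trans (le_max_right _ _) (le_max_left _ _)) hX''
  have hX10 : Real.exp 10 ≤ X := le_trans (le_max_right _ _) hX''
  have hXr : (0 : ℝ) < X := lt_of_lt_of_le (Real.exp_pos _) hX10
  have hX1 : 1 ≤ X := by
    have : 0 < X := by exact_mod_cast hXr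
    omega
  have hL10 : 10 ≤ Real.log X := by
    rw [Real.le_log_iff_exp_le hXr]
    exact hX10
  have hlR : Real.log (RR X) = Real.log X / 5 := EiU_log X hX1
  have hRR : 1 < RR X := by
    have hpos : 0 < RR X := by
      unfold RR
      exact Real.rpow_pos_of_pos hXr _
    rw [← Real.log_pos_iff hpos.le, hlR]
    linarith
  have hVp : 1 ≤ V * p0 := Nat.mul_pos hS.hV hS.hp.pos
  have hd0 : 0 < dlV (V * p0) := dlV_pos hVp
  have hd1 : dlV (V * p0) ≤ 1 := dlV_le_one _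
  have hmn : 1 ≤ m * n := Nat.mul_pos hm hn
  obtain ⟨ht4, -⟩ := h1 X w V p0 (m * n) a c hXt hS hmn
  obtain ⟨G, hG⟩ : ∃ G : ℝ, G = GG (V * p0) X := ⟨_, rfl⟩
  have hG1 : 1 ≤ G := by
    rw [hG]
    unfold GG
    rw [hlR, le_div_iff₀ hd0]
    have : 1 ≤ Real.log X / 5 := by linarith
    have := one_le_pow₀ (n := 3) this
    linarith
  have hG0 : 0 < G := by linarith
  rw [← hG] at ht4
  obtain ⟨τ, hτ⟩ : ∃ τ : ℝ, τ = tau (V * p0) X t u / G := ⟨_, rfl⟩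
  have hτ1 : 1 ≤ τ := by
    rw [hτ, le_div_iff₀ hG0]
    linarith
  have hτ0 : 0 ≤ τ := by linarith
  obtain ⟨Z, hZ⟩ : ∃ Z : ℝ, Z = X * G ^ (m * n) := ⟨_, rfl⟩
  have hGK : 1 ≤ G ^ (m * n) := one_le_pow₀ hG1
  have hZ0 : 0 < Z := by rw [hZ]; positivity
  have hXZ : (X : ℝ) ≤ Z := by
    rw [hZ]
    exact le_mul_of_one_le_right hXr.le hGK
  have h35 : (X : ℝ) ^ ((3 : ℝ) / 5) ≤ Z * η := by
    have hE' : 1 / η ≤ (X : ℝ) ^ ((2 : ℝ) / 5) := hE X hXE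
    have e1 : (X : ℝ) ^ ((3 : ℝ) / 5) * (X : ℝ) ^ ((2 : ℝ) / 5) = X := by
      rw [← Real.rpow_add hXr]
      norm_num
    have e2 : 0 ≤ (X : ℝ) ^ ((3 : ℝ) / 5) := Real.rpow_nonneg hXr.le _
    have e3 : (X : ℝ) ^ ((3 : ℝ) / 5) * (1 / η) ≤ X :=
      (mul_le_mul_of_nonneg_left hE' e2).trans (le_of_eq e1)
    have e4 : (X : ℝ) ^ ((3 : ℝ) / 5) ≤ X * η := by
      rw [mul_one_div, div_le_iff₀ hη0] at e3
      exact e3
    exact e4.trans (mul_le_mul_of_nonneg_right hXZ hη0.le)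
  obtain ⟨δ1, hδ1⟩ : ∃ δ1 : ℝ, δ1 = (α * T + η) * (Ca * t ^ 2 + η) + η := ⟨_, rfl⟩
  obtain ⟨δ2, hδ2⟩ : ∃ δ2 : ℝ, δ2 = 20 / t * ((α ^ 2 * T + η) * (Ca * t ^ 2 + η)) + η := ⟨_, rfl⟩
  have hδ10 : 0 ≤ δ1 := by rw [hδ1]; positivity
  have hδ20 : 0 ≤ δ2 := by rw [hδ2]; positivity
  have hCt1 : C1 * t ^ 2 + η ≤ Ca * t ^ 2 + η := by
    have : C1 * t ^ 2 ≤ Ca * t ^ 2 := by gcongr
    linarith
  have hCt2 : C2 * t ^ 2 + η ≤ Ca * t ^ 2 + η := by
    have : C2 * t ^ 2 ≤ Ca * t ^ 2 := by gcongr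
    linarith
  have hCt10 : 0 ≤ C1 * t ^ 2 + η := by positivity
  have hCt20 : 0 ≤ C2 * t ^ 2 + η := by positivity
  have key := h7 n (Icc 1 X) ((Icc 1 X).filter (fun b => ∀ s : Fin n,
      ¬ Yr (V * p0) X u (a (finProdFinEquiv (i, s)) * b + c (finProdFinEquiv (i, s)))))
    (fun b => WWC (V * p0) X P 𝒜 a c b ^ 2)
    (fun s b => rhoU (V * p0) X t u (a (finProdFinEquiv (i, s)) * b + c (finProdFinEquiv (i, s))))
    Z T α τ e0 (2 * η) δ1 δ2 (2 * C3) hn hZ0 hT hα hτ1 hδ10 hδ20 (by positivity)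
    (Finset.filter_subset _ _) (fun b => sq_nonneg _)
    (fun b hb s => h5 t u ht0 htu hu1 X (V * p0) _ hRR hVp ((Finset.mem_filter.1 hb).2 s))
    (by
      have hA' := (abs_le.1 (hA X w V p0 a c hXA hS)).2
      rw [← hG] at hA'
      have e1 : (X : ℝ) * (G ^ (m * n) * Iq P 𝒜) ≤ Z * T := by
        rw [hZ, mul_assoc]
        have := hD.I1
        gcongr
      have e2 : (X : ℝ) * (G ^ (m * n) * η) = Z * η := by rw [hZ]; ring
      rw [e2] at hA'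
      have e3 : Z * (T + 2 * η) = Z * T + Z * η + Z * η := by ring
      rw [e3]
      linarith)
    (by
      intro s
      have hB' := hB X w V p0 a c (finProdFinEquiv (i, s)) hXB hS
      rw [← hG, ← hτ, ← hZ] at hB'
      refine le_trans ?_ hB'
      obtain ⟨j1, j2⟩ := hD.J1 (finProdFinEquiv (i, s))
      refine mul_le_mul_of_nonneg_left ?_ hZ0.le
      have e1 : τ * ((1 - e0) * (α * T)) ≤ τ * Jq P 𝒜 (finProdFinEquiv (i, s)) :=
        mul_le_mul_of_nonneg_left j1 hτ0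
      have e2 : (Jq P 𝒜 (finProdFinEquiv (i, s)) + η) * (C1 * t ^ 2 + η) ≤
          (α * T + η) * (Ca * t ^ 2 + η) := by
        refine (mul_le_mul_of_nonneg_right (by linarith : _ ≤ α * T + η) hCt10).trans ?_
        exact mul_le_mul_of_nonneg_left hCt1 (by positivity)
      rw [hδ1]
      linarith)
    (by
      intro s s' hss
      have hne : (finProdFinEquiv (i, s) : Fin (m * n)) ≠ finProdFinEquiv (i, s') := by
        intro h
        exact hss (Prod.mk.inj (finProdFinEquiv.injective h)).2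
      have hC' := hC X w V p0 a c (finProdFinEquiv (i, s)) (finProdFinEquiv (i, s')) hXC hS hne hac
      rw [← hG, ← hτ, ← hZ] at hC'
      refine hC'.trans ?_
      have j2 := hD.J2 _ _ hne
      refine mul_le_mul_of_nonneg_left ?_ hZ0.le
      have e1 : τ ^ 2 * Jq2 P 𝒜 (finProdFinEquiv (i, s)) (finProdFinEquiv (i, s')) ≤
          τ ^ 2 * (α ^ 2 * T) := mul_le_mul_of_nonneg_left j2 (sq_nonneg _)
      have e2 : (Jq2 P 𝒜 (finProdFinEquiv (i, s)) (finProdFinEquiv (i, s')) + η) *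
          (C2 * t ^ 2 + η) ≤ (α ^ 2 * T + η) * (Ca * t ^ 2 + η) := by
        refine (mul_le_mul_of_nonneg_right (by linarith : _ ≤ α ^ 2 * T + η) hCt20).trans ?_
        exact mul_le_mul_of_nonneg_left hCt2 (by positivity)
      have e3 := mul_le_mul_of_nonneg_left e2 (by positivity : 0 ≤ 20 / t)
      rw [hδ2]
      linarith)
    (by
      intro s
      have hD' := hDD X w V p0 a c (finProdFinEquiv (i, s)) hXD hS hac
      rw [← hG, ← hZ] at hD'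
      refine hD'.trans ?_
      obtain ⟨j1, j2⟩ := hD.J1 (finProdFinEquiv (i, s))
      refine mul_le_mul_of_nonneg_left ?_ hZ0.le
      have e1 : C3 * (Jq P 𝒜 (finProdFinEquiv (i, s)) + η) ≤ C3 * (2 * (α * T)) :=
        mul_le_mul_of_nonneg_left (by linarith) hC3.le
      linarith)
  rw [← hG, ← hZ, ← hM]
  refine key.trans (mul_le_mul_of_nonneg_left ?_ hZ0.le)
  have f1 : 2 * e0 * T = T / (8 * M) := by
    rw [he0]
    field_simp
    norm_num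
  have f2 : 2 * Ca * t ^ 2 * T + 20 * Ca * t * T ≤ T / (8 * M) := by
    have := mul_le_mul_of_nonneg_right htM2 hT.le
    have e : 1 / (8 * M) * T = T / (8 * M) := by ring
    linarith
  have f3 : 2 * C3 * T / (n * α) ≤ T / (4 * M) := by
    rw [div_le_div_iff₀ hnα0 (by positivity)]
    have : 8 * C3 * M ≤ n * α := hA0C.trans hnα
    have h' := mul_le_mul_of_nonneg_left this hT.le
    linarith
  have f4 : T / (8 * M) + T / (8 * M) + T / (4 * M) + T / (2 * M) = T / M := by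
    field_simp
    norm_num
  rw [hδ1, hδ2]
  linarith

end Pool.Agent.Lib.BE
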