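import Pool.Agent.Lib.BE.SpecU

/-!
Module EmU of project BU: finite sums, the mass of the empty bins.
-/

set_option autoImplicit false

namespace Pool.Agent.Lib.BE

open Finset
open Pool.Agent.Lib.MP_9f2731_nt.GP
open Pool.Agent.Lib.MP_9f2731_nt.GP.Sv
open Pool.Agent.Lib.MP_9f2731_nt.QL
open Pool.Agent.Lib.MP_9f2731_nt.QL.Sw
open Pool.Agent.Lib.MP_9f2731_nt.CG
open Pool.Agent.Lib.MP_9f2731_nt.CG.Ma
open Pool.Agent.Lib.MP_9f2731_nt.CG.Mf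

private lemma EmU_expand (𝓑 : Finset ℕ) (W S : ℕ → ℝ) (μ : ℝ) :
    ∑ b ∈ 𝓑, W b * (1 - S b / μ) ^ 2 =
      ∑ b ∈ 𝓑, W b - 2 / μ * ∑ b ∈ 𝓑, W b * S b + 1 / μ ^ 2 * ∑ b ∈ 𝓑, W b * S b ^ 2 := by
  rw [mul_sum, mul_sum, ← sum_sub_distrib, ← sum_add_distrib]
  refine sum_congr rfl fun b _ => ?_
  ring

private lemma EmU_lin (n : ℕ) (𝓑 : Finset ℕ) (W : ℕ → ℝ) (ρ : Fin n → ℕ → ℝ) (x : ℝ)
    (h : ∀ l, x ≤ ∑ b ∈ 𝓑, W b * ρ l b) :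
    (n : ℝ) * x ≤ ∑ b ∈ 𝓑, W b * ∑ l, ρ l b := by
  have e : ∑ b ∈ 𝓑, W b * ∑ l, ρ l b = ∑ l, ∑ b ∈ 𝓑, W b * ρ l b := by
    rw [sum_comm]
    exact sum_congr rfl fun b _ => mul_sum _ _ _
  rw [e]
  calc (n : ℝ) * x = ∑ _l : Fin n, x := by simp
    _ ≤ _ := sum_le_sum fun l _ => h l

private lemma EmU_sq (n : ℕ) (𝓑 : Finset ℕ) (W : ℕ → ℝ) (ρ : Fin n → ℕ → ℝ) (D O : ℝ)
    (hO : 0 ≤ O) (h1 : ∀ l, ∑ b ∈ 𝓑, W b * ρ l b ^ 2 ≤ D)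
    (h2 : ∀ l j, l ≠ j → ∑ b ∈ 𝓑, W b * (ρ l b * ρ j b) ≤ O) :
    ∑ b ∈ 𝓑, W b * (∑ l, ρ l b) ^ 2 ≤ n * D + (n : ℝ) ^ 2 * O := by
  have e : ∑ b ∈ 𝓑, W b * (∑ l, ρ l b) ^ 2 = ∑ l, ∑ j, ∑ b ∈ 𝓑, W b * (ρ l b * ρ j b) := by
    have e1 : ∀ b, W b * (∑ l, ρ l b) ^ 2 = ∑ l, ∑ j, W b * (ρ l b * ρ j b) := by
      intro b
      rw [sq, sum_mul_sum, mul_sum]
      exact sum_congr rfl fun l _ => mul_sum _ _ _
    simp only [e1]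
    rw [sum_comm]
    refine sum_congr rfl fun l _ => ?_
    rw [sum_comm]
  have e2 : ∀ l j, ∑ b ∈ 𝓑, W b * (ρ l b * ρ j b) ≤ (if l = j then D else 0) + O := by
    intro l j
    by_cases hlj : l = j
    · subst hlj
      rw [if_pos rfl]
      have e3 : ∑ b ∈ 𝓑, W b * (ρ l b * ρ l b) = ∑ b ∈ 𝓑, W b * ρ l b ^ 2 :=
        sum_congr rfl fun b _ => by rw [sq]
      rw [e3]
      linarith [h1 l]
    · rw [if_neg hlj, zero_add]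
      exact h2 l j hlj
  rw [e]
  calc ∑ l, ∑ j, ∑ b ∈ 𝓑, W b * (ρ l b * ρ j b)
      ≤ ∑ l : Fin n, ∑ j : Fin n, ((if l = j then D else 0) + O) :=
        sum_le_sum fun l _ => sum_le_sum fun j _ => e2 l j
    _ = n * D + (n : ℝ) ^ 2 * O := by
        simp only [sum_add_distrib, sum_ite_eq, mem_univ, if_true, sum_const, card_univ,
          Fintype.card_fin, nsmul_eq_mul]
        ring

theorem tEmU : EmUStmt := by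
  intro n 𝓑 E W ρ Z T α τ e0 ε δ1 δ2 C3 hn hZ hT hα hτ hδ1 hδ2 hC3 hE hW hρ hA hB hO hD
  have hn' : (0 : ℝ) < n := by exact_mod_cast hn
  have hτ0 : 0 < τ := by linarith
  set μ : ℝ := n * α * τ with hμ
  have hμ0 : 0 < μ := by positivity
  set S : ℕ → ℝ := fun b => ∑ l, ρ l b with hS
  have h1 : ∑ b ∈ E, W b ≤ ∑ b ∈ 𝓑, W b * (1 - S b / μ) ^ 2 := by
    calc ∑ b ∈ E, W b ≤ ∑ b ∈ E, W b * (1 - S b / μ) ^ 2 := by
          refine sum_le_sum fun b hb => ?_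
          have hs : S b ≤ 0 := sum_nonpos fun l _ => hρ b hb l
          have h2 : S b / μ ≤ 0 := div_nonpos_of_nonpos_of_nonneg hs hμ0.le
          have h3 : 1 ≤ (1 - S b / μ) ^ 2 := by nlinarith
          nlinarith [hW b]
      _ ≤ _ := sum_le_sum_of_subset_of_nonneg hE fun b _ _ => mul_nonneg (hW b) (sq_nonneg _)
  rw [EmU_expand] at h1
  have h2 := EmU_lin n 𝓑 W ρ _ hB
  have hO0 : 0 ≤ Z * (τ ^ 2 * (α ^ 2 * T) + δ2) := by positivity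
  have h3 := EmU_sq n 𝓑 W ρ _ _ hO0 hD hO
  have h4 : 2 / μ * (n * (Z * (τ * ((1 - e0) * (α * T)) - δ1))) ≤ 2 / μ * ∑ b ∈ 𝓑, W b * S b :=
    mul_le_mul_of_nonneg_left h2 (by positivity)
  have h5 : 1 / μ ^ 2 * ∑ b ∈ 𝓑, W b * S b ^ 2 ≤
      1 / μ ^ 2 * (n * (Z * (C3 * (α * T))) + (n : ℝ) ^ 2 * (Z * (τ ^ 2 * (α ^ 2 * T) + δ2))) :=
    mul_le_mul_of_nonneg_left h3 (by positivity)
  have e4 : 2 / μ * (n * (Z * (τ * ((1 - e0) * (α * T)) - δ1))) =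
      Z * (2 * (1 - e0) * T) - Z * (2 * δ1 / (α * τ)) := by
    rw [hμ]
    field_simp
  have e5 : 1 / μ ^ 2 * (n * (Z * (C3 * (α * T))) + (n : ℝ) ^ 2 * (Z * (τ ^ 2 * (α ^ 2 * T) + δ2))) =
      Z * (C3 * T / (n * α * τ ^ 2)) + Z * T + Z * (δ2 / (α ^ 2 * τ ^ 2)) := by
    rw [hμ]
    field_simp
    ring
  have c1 : 2 * δ1 / (α * τ) ≤ 2 * δ1 / α :=
    div_le_div_of_nonneg_left (by positivity) hα (by nlinarith)
  have hτ2 : 1 ≤ τ ^ 2 := by nlinarith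
  have c2 : δ2 / (α ^ 2 * τ ^ 2) ≤ δ2 / α ^ 2 :=
    div_le_div_of_nonneg_left hδ2 (by positivity) (by nlinarith [sq_nonneg α, pow_pos hα 2])
  have hna : 0 < (n : ℝ) * α := by positivity
  have c3 : C3 * T / (n * α * τ ^ 2) ≤ C3 * T / (n * α) :=
    div_le_div_of_nonneg_left (by positivity) hna (by nlinarith)
  have d1 := mul_le_mul_of_nonneg_left c1 hZ.le
  have d2 := mul_le_mul_of_nonneg_left c2 hZ.le
  have d3 := mul_le_mul_of_nonneg_left c3 hZ.le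
  have h6 : ∑ b ∈ E, W b ≤ Z * (T + ε) - (Z * (2 * (1 - e0) * T) - Z * (2 * δ1 / (α * τ))) +
      (Z * (C3 * T / (n * α * τ ^ 2)) + Z * T + Z * (δ2 / (α ^ 2 * τ ^ 2))) := by
    rw [← e4, ← e5]
    linarith
  calc ∑ b ∈ E, W b ≤ _ := h6
    _ ≤ Z * (T + ε) - (Z * (2 * (1 - e0) * T) - Z * (2 * δ1 / α)) +
      (Z * (C3 * T / (n * α)) + Z * T + Z * (δ2 / α ^ 2)) := by linarith
    _ = Z * (ε + 2 * e0 * T + 2 * δ1 / α + δ2 / α ^ 2 + C3 * T / (n * α)) := by ring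

end Pool.Agent.Lib.BE
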