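import Pool.Agent.Lib.BE.SpecU

/-!
PROJECT BU, module FpU (helper91): multiples of one prime with an absolute constant (port of BE/R/McR).
-/

set_option autoImplicit false

namespace Pool.Agent.Lib.BE

open Finset
open Pool.Agent.Lib.MP_9f2731_nt.GP
open Pool.Agent.Lib.MP_9f2731_nt.GP.Sv
open Pool.Agent.Lib.MP_9f2731_nt.QL
open Pool.Agent.Lib.MP_9f2731_nt.QL.Sw
open Pool.Agent.Lib.MP_9f2731_nt.CG
open Pool.Agent.Lib.MP_9f2731_nt.CG.Ma
open Pool.Agent.Lib.MP_9f2731_nt.CG.Mf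

/-- the expansion of the square -/
private theorem FpU_sq (W X : ℕ) {K r : ℕ} (P : Fin r → Pf) (𝒜 : Finset (Fin K → Fin r)) (a c : Fin K → ℕ)
    (D : Finset (Fin K)) (b : ℕ) :
    UD W X P 𝒜 a c D b ^ 2 * ∏ j ∈ D, AF W (RR X) (qU X) (a j * b + c j) ^ 2 =
    ∑ v ∈ 𝒜, ∑ u ∈ 𝒜, (∏ j ∈ D, im (P (v j)) * im (P (u j))) *
      ∏ j, (AF W (RR X) (pfn (if j ∈ D then ph 1 else P (v j)) (RR X)) (a j * b + c j) *
        AF W (RR X) (pfn (if j ∈ D then ph 1 else P (u j)) (RR X)) (a j * b + c j)) := by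
  unfold UD
  rw [sq, sum_mul_sum, sum_mul]
  refine sum_congr rfl fun v _ => ?_
  rw [sum_mul]
  refine sum_congr rfl fun u _ => ?_
  rw [← prod_sdiff (subset_univ D)]
  have e1 : ∏ j ∈ univ \ D, (AF W (RR X) (pfn (if j ∈ D then ph 1 else P (v j)) (RR X)) (a j * b + c j) *
        AF W (RR X) (pfn (if j ∈ D then ph 1 else P (u j)) (RR X)) (a j * b + c j)) =
      (∏ j ∈ univ \ D, AF W (RR X) (pfn (P (v j)) (RR X)) (a j * b + c j)) *
        ∏ j ∈ univ \ D, AF W (RR X) (pfn (P (u j)) (RR X)) (a j * b + c j) := by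
    rw [← prod_mul_distrib]
    refine prod_congr rfl fun j hj => ?_
    have := (mem_sdiff.1 hj).2
    rw [if_neg this, if_neg this]
  have e2 : ∏ j ∈ D, (AF W (RR X) (pfn (if j ∈ D then ph 1 else P (v j)) (RR X)) (a j * b + c j) *
        AF W (RR X) (pfn (if j ∈ D then ph 1 else P (u j)) (RR X)) (a j * b + c j)) =
      ∏ j ∈ D, AF W (RR X) (qU X) (a j * b + c j) ^ 2 := by
    refine prod_congr rfl fun j hj => ?_
    rw [if_pos hj, if_pos hj]
    exact (sq _).symm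
  rw [e1, e2, prod_mul_distrib]
  ring

/-- the form `a b + c` is divisible by p on one class -/
private theorem FpU_cls (a c0 p : ℕ) (hp : p.Prime) (ha : ¬ p ∣ a) :
    ∃ c' : ℕ, ∀ b : ℕ, (p ∣ a * b + c0 ↔ b ≡ c' [MOD p]) := by
  have : Fact p.Prime := ⟨hp⟩
  have ha' : (a : ZMod p) ≠ 0 := by
    rw [Ne, ZMod.natCast_eq_zero_iff]
    exact ha
  refine ⟨(-(a : ZMod p)⁻¹ * c0).val, fun b => ?_⟩
  rw [← ZMod.natCast_eq_zero_iff, ← ZMod.natCast_eq_natCast_iff, ZMod.natCast_zmod_val]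
  push_cast
  constructor
  · intro h
    have h1 : (a : ZMod p) * b = -c0 := by linear_combination h
    calc (b : ZMod p) = (a : ZMod p)⁻¹ * ((a : ZMod p) * b) := by
          rw [← mul_assoc, inv_mul_cancel₀ ha', one_mul]
      _ = _ := by rw [h1]; ring
  · intro h
    have h2 : (a : ZMod p) * (a : ZMod p)⁻¹ = 1 := mul_inv_cancel₀ ha'
    rw [h]
    linear_combination (-(c0 : ZMod p)) * h2

/-- two different forms are not both divisible by p -/
private theorem FpU_uniq {p a b c a' c' : ℕ} (hd : ¬ p ∣ Nat.dist (a * c') (a' * c))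
    (h1 : p ∣ a * b + c) (h2 : p ∣ a' * b + c') : False := by
  have h3 : (p : ℤ) ∣ (a : ℤ) * b + c := by exact_mod_cast h1
  have h4 : (p : ℤ) ∣ (a' : ℤ) * b + c' := by exact_mod_cast h2
  have h5 : (p : ℤ) ∣ (a : ℤ) * c' - a' * c := by
    have h6 : (a : ℤ) * c' - a' * c = a * ((a' : ℤ) * b + c') - a' * ((a : ℤ) * b + c) := by ring
    rw [h6]
    exact dvd_sub (Dvd.dvd.mul_left h4 _) (Dvd.dvd.mul_left h3 _)
  apply hd
  rcases le_total (a * c') (a' * c) with h | h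
  · rw [Nat.dist_eq_sub_of_le h]
    have h7 : (p : ℤ) ∣ ((a' * c - a * c' : ℕ) : ℤ) := by
      rw [Nat.cast_sub h]
      push_cast
      rw [← dvd_neg, neg_sub]
      exact h5
    exact_mod_cast h7
  · rw [Nat.dist_eq_sub_of_le_right h]
    have h7 : (p : ℤ) ∣ ((a * c' - a' * c : ℕ) : ℤ) := by
      rw [Nat.cast_sub h]
      push_cast
      exact h5
    exact_mod_cast h7

/-- the parameters are large -/
private theorem FpU_large (A : ℝ) (N : ℕ) : ∃ X0 : ℝ, ∀ X : ℕ, X0 ≤ X →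
    1 ≤ Real.log (Real.log X) ∧ 1 ≤ Real.log (RR X) ∧ 2 ≤ RR X ∧ A * Real.log (RR X) ^ N ≤ RR X := by
  have t1 : Filter.Tendsto (fun X : ℕ => Real.log (Real.log (X : ℝ))) Filter.atTop Filter.atTop :=
    Real.tendsto_log_atTop.comp (Real.tendsto_log_atTop.comp tendsto_natCast_atTop_atTop)
  have t2 : Filter.Tendsto (fun X : ℕ => RR X) Filter.atTop Filter.atTop :=
    (tendsto_rpow_atTop (by norm_num : (0 : ℝ) < 1 / 5)).comp tendsto_natCast_atTop_atTop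
  have t3 : Filter.Tendsto (fun X : ℕ => Real.log (RR X)) Filter.atTop Filter.atTop :=
    Real.tendsto_log_atTop.comp t2
  have hc : 0 < 1 / (|A| + 1) := by positivity
  have t4 : ∀ᶠ X : ℕ in Filter.atTop,
      ‖Real.log (RR X) ^ N‖ ≤ 1 / (|A| + 1) * ‖id (RR X)‖ :=
    t2.eventually ((Real.isLittleO_pow_log_id_atTop (n := N)).bound hc)
  obtain ⟨N0, hN0⟩ := Filter.eventually_atTop.1 ((((t1.eventually_ge_atTop 1).and
    (t3.eventually_ge_atTop 1)).and (t2.eventually_ge_atTop 2)).and t4)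
  refine ⟨N0, fun X hX => ?_⟩
  obtain ⟨⟨⟨h1, h2⟩, h3⟩, h4⟩ := hN0 X (Nat.cast_le.1 hX)
  refine ⟨h1, h2, h3, ?_⟩
  simp only [id, Real.norm_eq_abs] at h4
  have h5 : 0 ≤ RR X := by linarith
  rw [abs_of_nonneg h5, abs_of_nonneg (pow_nonneg (by linarith) N)] at h4
  have h6 : 0 ≤ Real.log (RR X) ^ N := pow_nonneg (by linarith) N
  have h7 : 0 < |A| + 1 := by positivity
  calc A * Real.log (RR X) ^ N ≤ (|A| + 1) * Real.log (RR X) ^ N :=
        mul_le_mul_of_nonneg_right (by linarith [le_abs_self A]) h6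
    _ ≤ (|A| + 1) * (1 / (|A| + 1) * RR X) := mul_le_mul_of_nonneg_left h4 h7.le
    _ = RR X := by field_simp

/-- the error of the expansion is small -/
private theorem FpU_exp (A C δ : ℝ) (hA : 0 ≤ A) (hC : 0 < C) (hδ : 0 < δ) : ∃ X0 : ℝ, ∀ X : ℕ, X0 ≤ X →
    ∀ w : ℕ, Real.log (Real.log X) ^ 2 ≤ w → A * (Real.exp (C / w) - 1) ≤ δ := by
  have t1 : Filter.Tendsto (fun X : ℕ => Real.log (Real.log (X : ℝ))) Filter.atTop Filter.atTop :=
    Real.tendsto_log_atTop.comp (Real.tendsto_log_atTop.comp tendsto_natCast_atTop_atTop)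
  have t2 : Filter.Tendsto (fun X : ℕ => Real.log (Real.log (X : ℝ)) ^ 2) Filter.atTop Filter.atTop :=
    (Filter.tendsto_pow_atTop (by norm_num)).comp t1
  have t3 : Filter.Tendsto (fun X : ℕ => C / Real.log (Real.log (X : ℝ)) ^ 2) Filter.atTop (nhds 0) :=
    tendsto_const_nhds.div_atTop t2
  have t4 : Filter.Tendsto (fun X : ℕ => A * (Real.exp (C / Real.log (Real.log (X : ℝ)) ^ 2) - 1))
      Filter.atTop (nhds (A * (Real.exp 0 - 1))) :=
    ((((Real.continuous_exp.tendsto 0).comp t3)).sub_const 1).const_mul A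
  rw [Real.exp_zero, sub_self, mul_zero] at t4
  obtain ⟨N0, hN0⟩ := Filter.eventually_atTop.1 ((t1.eventually_ge_atTop 1).and (t4.eventually (gt_mem_nhds hδ)))
  refine ⟨N0, fun X hX w hw => ?_⟩
  obtain ⟨h1, h2⟩ := hN0 X (Nat.cast_le.1 hX)
  refine le_trans (mul_le_mul_of_nonneg_left ?_ hA) h2.le
  have h3 : (0 : ℝ) < Real.log (Real.log (X : ℝ)) ^ 2 := by positivity
  have h4 : C / (w : ℝ) ≤ C / Real.log (Real.log (X : ℝ)) ^ 2 := div_le_div_of_nonneg_left hC.le h3 hw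
  have := Real.exp_le_exp.2 h4
  linarith

/-- the quadratic form is continuous -/
private theorem FpU_eps {K r : ℕ} (P : Fin r → Pf) (𝒜 : Finset (Fin K → Fin r)) (η : ℝ) (hη : 0 < η) :
    ∃ ε0 : ℝ, 0 < ε0 ∧ ∀ D : Finset (Fin K),
      ∑ v ∈ 𝒜, ∑ u ∈ 𝒜, (∏ j ∈ D, im (P (v j)) * im (P (u j))) *
        ∏ j ∈ univ \ D, (ip (P (v j)) (P (u j)) + ε0) ≤ JD P 𝒜 D + η := by
  have hc : ∀ D : Finset (Fin K), Filter.Tendsto (fun ε : ℝ =>
      ∑ v ∈ 𝒜, ∑ u ∈ 𝒜, (∏ j ∈ D, im (P (v j)) * im (P (u j))) *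
        ∏ j ∈ univ \ D, (ip (P (v j)) (P (u j)) + ε)) (nhds 0) (nhds (JD P 𝒜 D)) := by
    intro D
    have h1 : Continuous (fun ε : ℝ =>
      ∑ v ∈ 𝒜, ∑ u ∈ 𝒜, (∏ j ∈ D, im (P (v j)) * im (P (u j))) *
        ∏ j ∈ univ \ D, (ip (P (v j)) (P (u j)) + ε)) :=
      continuous_finsetSum _ fun v _ => continuous_finsetSum _ fun u _ =>
        continuous_const.mul (continuous_finsetProd _ fun j _ => continuous_const.add continuous_id)
    have h2 := h1.tendsto 0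
    simp only [add_zero] at h2
    exact h2
  have h1 : ∀ᶠ ε : ℝ in nhds 0, ∀ D : Finset (Fin K),
      ∑ v ∈ 𝒜, ∑ u ∈ 𝒜, (∏ j ∈ D, im (P (v j)) * im (P (u j))) *
        ∏ j ∈ univ \ D, (ip (P (v j)) (P (u j)) + ε) < JD P 𝒜 D + η :=
    Filter.eventually_all.2 fun D => (hc D).eventually (gt_mem_nhds (by linarith))
  have h2 : ∀ᶠ ε : ℝ in nhdsWithin 0 (Set.Ioi 0), ∀ D : Finset (Fin K),
      ∑ v ∈ 𝒜, ∑ u ∈ 𝒜, (∏ j ∈ D, im (P (v j)) * im (P (u j))) *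
        ∏ j ∈ univ \ D, (ip (P (v j)) (P (u j)) + ε) < JD P 𝒜 D + η := h1.filter_mono nhdsWithin_le_nhds
  obtain ⟨ε0, h3, h4⟩ := (h2.and self_mem_nhdsWithin).exists
  exact ⟨ε0, h4, fun D => (h3 D).le⟩

private theorem FpU_num (L s v : ℝ) (hL : 10 ≤ L) (hs : 0 < s) (hs2 : s * s = L) (_hv : 1 ≤ v)
    (hv12 : v ^ 12 ≤ s) :
    (4 * v ^ 2) ^ 6 * (1 + L / 5) ^ 2 ≤ 81920 * ((L / 5) ^ 3 / s) := by
  have h1 : (4 * v ^ 2) ^ 6 = 4096 * v ^ 12 := by ring
  have h2 : (1 + L / 5) ^ 2 ≤ 4 * (L / 5) ^ 2 := by nlinarith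
  rw [h1, mul_div_assoc', le_div_iff₀ hs]
  calc 4096 * v ^ 12 * (1 + L / 5) ^ 2 * s ≤ 4096 * s * (4 * (L / 5) ^ 2) * s := by gcongr
    _ = 16384 * (L / 5) ^ 2 * (s * s) := by ring
    _ = 81920 * (L / 5) ^ 3 := by
        rw [hs2]
        ring

private theorem FpU_dlp (V p : ℕ) (hV : 1 ≤ V) (hp : p.Prime) (hpV : ¬ p ∣ V) (x : ℝ) :
    x / dlV (V * p) = x / dlV V * (1 + 1 / ((p : ℝ) - 1)) := by
  unfold dlV
  have hc : V.Coprime p := ((Nat.Prime.coprime_iff_not_dvd hp).2 hpV).symm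
  rw [Nat.totient_mul hc, Nat.totient_prime hp]
  have h2 : (2 : ℝ) ≤ p := by exact_mod_cast hp.two_le
  have hV' : (0 : ℝ) < V := by exact_mod_cast hV
  have hT : (0 : ℝ) < V.totient := by exact_mod_cast Nat.totient_pos.2 hV
  have hp1 : (p : ℝ) - 1 ≠ 0 := by linarith
  rw [Nat.cast_mul, Nat.cast_mul, Nat.cast_sub hp.one_lt.le, Nat.cast_one]
  field_simp
  ring

/-- the correlations of the profiles for the modulus `V p0 p` -/
private theorem FpU_T (h1 : TmAStmt) (h2 : TmBStmt) (h3 : PfAStmt) (r : ℕ) (P : Fin r → Pf)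
    (hP : ∀ i, Pok (P i)) (hip : ∀ a b, 0 ≤ ip (P a) (P b)) (ε : ℝ) (hε : 0 < ε) : ∃ X0 : ℝ,
    ∀ (X w V p0 K : ℕ) (a c : Fin K → ℕ), X0 ≤ X → StC X w V p0 a c → ∀ p : ℕ, p.Prime → ¬ p ∣ V * p0 →
    ∀ i k : Fin r, |TTF (V * p0 * p) (RR X) (pfn (P i) (RR X)) (pfn (P k) (RR X)) 1 1| ≤
      GG (V * p0) X * (ip (P i) (P k) + ε) := by
  obtain ⟨C1, hC1, h3⟩ := h3
  obtain ⟨M, hM⟩ : ∃ M : ℝ, M = ∑ i, (P i).M := ⟨_, rfl⟩
  have hM0 : ∀ i, 0 ≤ (P i).M := fun i => by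
    unfold Pf.M
    exact Finset.sum_nonneg fun s _ => abs_nonneg _
  have hMi : ∀ i, (P i).M ≤ M := fun i => by
    rw [hM]
    exact Finset.single_le_sum (f := fun j => (P j).M) (fun j _ => hM0 j) (mem_univ i)
  obtain ⟨D, hD⟩ : ∃ D : ℝ, D = C1 * M ^ 2 := ⟨_, rfl⟩
  have hD0 : 0 ≤ D := by
    rw [hD]
    positivity
  have hMM : ∀ i k, C1 * ((P i).M * (P k).M) ≤ D := fun i k => by
    rw [hD]
    refine mul_le_mul_of_nonneg_left ?_ hC1.le
    rw [pow_two]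
    exact mul_le_mul (hMi i) (hMi k) (hM0 k) ((hM0 i).trans (hMi i))
  obtain ⟨I, hI⟩ : ∃ I : ℝ, I = ∑ i, ∑ k, ip (P i) (P k) := ⟨_, rfl⟩
  have hI0 : 0 ≤ I := by
    rw [hI]
    exact sum_nonneg fun i _ => sum_nonneg fun k _ => hip i k
  have hII : ∀ i k, ip (P i) (P k) ≤ I := fun i k => by
    rw [hI]
    exact (single_le_sum (f := fun k => ip (P i) (P k)) (fun k _ => hip i k) (mem_univ k)).trans
      (single_le_sum (f := fun i => ∑ k, ip (P i) (P k)) (fun i _ => sum_nonneg fun k _ => hip i k) (mem_univ i))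
  have t0 : Filter.Tendsto (fun X : ℕ => Real.log (X : ℝ)) Filter.atTop Filter.atTop :=
    Real.tendsto_log_atTop.comp tendsto_natCast_atTop_atTop
  have t1 : Filter.Tendsto (fun X : ℕ => Real.log (Real.log (X : ℝ))) Filter.atTop Filter.atTop :=
    Real.tendsto_log_atTop.comp t0
  have t2 : Filter.Tendsto (fun X : ℕ => Real.log (Real.log (X : ℝ)) ^ 2) Filter.atTop Filter.atTop :=
    (Filter.tendsto_pow_atTop (by norm_num)).comp t1
  have t3 : Filter.Tendsto (fun X : ℕ => I / Real.log (Real.log (X : ℝ)) ^ 2) Filter.atTop (nhds 0) :=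
    tendsto_const_nhds.div_atTop t2
  have t4 : Filter.Tendsto (fun X : ℕ => D * 5242880 / Real.sqrt (Real.log (X : ℝ))) Filter.atTop (nhds 0) :=
    tendsto_const_nhds.div_atTop (Real.tendsto_sqrt_atTop.comp t0)
  have hε2 : 0 < ε / 2 := by linarith
  obtain ⟨N0, hN0⟩ := Filter.eventually_atTop.1 ((((t1.eventually_ge_atTop 1).and
    (t3.eventually (gt_mem_nhds hε2))).and (t4.eventually (gt_mem_nhds hε2))).and
      (t0.eventually_ge_atTop 10))
  refine ⟨max N0 1, ?_⟩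
  intro X w V p0 K a c hX hS p hp hpV i k
  have hX1 : 1 ≤ X := by exact_mod_cast (le_max_right _ _).trans hX
  obtain ⟨⟨⟨hll, hIw⟩, hDs⟩, hlog10⟩ := hN0 X (Nat.cast_le.1 ((le_max_left _ _).trans hX))
  have hXr : (0 : ℝ) < X := by exact_mod_cast hX1
  obtain ⟨L, hL⟩ : ∃ L : ℝ, L = Real.log X := ⟨_, rfl⟩
  have hL10 : 10 ≤ L := by
    rw [hL]
    exact hlog10
  have hlR : Real.log (RR X) = L / 5 := by
    rw [hL]
    unfold RR
    rw [Real.log_rpow hXr]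
    ring
  have hR0 : 0 < RR X := by
    unfold RR
    exact Real.rpow_pos_of_pos hXr _
  have hR2 : 2 ≤ RR X := by
    rw [← Real.exp_log hR0, hlR]
    have := Real.add_one_le_exp (L / 5)
    linarith
  obtain ⟨s, hs⟩ : ∃ s : ℝ, s = Real.sqrt L := ⟨_, rfl⟩
  have hs2 : s * s = L := by
    rw [hs]
    exact Real.mul_self_sqrt (by linarith)
  have hs1 : 1 ≤ s := by
    rw [hs]
    exact Real.one_le_sqrt.2 (by linarith)
  have hs0 : 0 < s := by linarith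
  obtain ⟨v, hv⟩ : ∃ v : ℝ, v = 1 + Real.log V := ⟨_, rfl⟩
  have hV1 : (1 : ℝ) ≤ V := by exact_mod_cast hS.hV
  have hv1 : 1 ≤ v := by
    rw [hv]
    have := Real.log_nonneg hV1
    linarith
  have hv12 : v ^ 12 ≤ s := by
    rw [hv, hs, hL]
    exact hS.hlog
  have hVp : 1 ≤ V * p0 := Nat.mul_pos hS.hV hS.hp.pos
  have hd0 : 0 < dlV (V * p0) := dlV_pos hVp
  have hd1 : dlV (V * p0) ≤ 1 := dlV_le_one _
  obtain ⟨G, hG⟩ : ∃ G : ℝ, G = GG (V * p0) X := ⟨_, rfl⟩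
  have hG' : G = (L / 5) ^ 3 / dlV (V * p0) := by
    rw [hG]
    unfold GG
    rw [hlR]
  have hl0 : 0 < L / 5 := by linarith
  have hlG : (L / 5) ^ 3 ≤ G := by
    rw [hG', le_div_iff₀ hd0]
    have : 0 ≤ (L / 5) ^ 3 := by positivity
    nlinarith
  have hG0 : 0 ≤ G := le_trans (by positivity) hlG
  have hE : (4 * v ^ 2) ^ 6 * (1 + L / 5) ^ 2 ≤ 81920 * (G / s) :=
    le_trans (FpU_num L s v hL10 hs0 hs2 hv1 hv12) (by gcongr)
  have hE2 : (2 * (4 * v ^ 2)) ^ 6 * (1 + L / 5) ^ 2 ≤ 5242880 * (G / s) := by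
    have : (2 * (4 * v ^ 2)) ^ 6 * (1 + L / 5) ^ 2 = 64 * ((4 * v ^ 2) ^ 6 * (1 + L / 5) ^ 2) := by
      ring
    rw [this]
    linarith
  have hT : Tame (V * p0) (4 * v ^ 2) := by
    have := h2 V p0 _ (h1 V hS.hV) hS.hp hS.hpV
    rw [← hv] at this
    have h : 2 * (2 * v ^ 2) = 4 * v ^ 2 := by ring
    rwa [h] at this
  have hTp : Tame (V * p0 * p) (2 * (4 * v ^ 2)) := h2 (V * p0) p _ hT hp hpV
  obtain ⟨a1, -, -⟩ := h3 (V * p0 * p) (2 * (4 * v ^ 2)) (RR X) (P i) (P k) hTp hR2 (hP i) (hP k)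
  rw [hlR, FpU_dlp (V * p0) p hVp hp hpV, ← hG'] at a1
  have hpw : w < p := by
    by_contra h
    exact hpV (hS.hs p hp (not_lt.1 h))
  have hw0 : (0 : ℝ) < Real.log (Real.log X) ^ 2 := by
    have : 0 < Real.log (Real.log (X : ℝ)) := by linarith
    positivity
  have hw1 : (0 : ℝ) < w := hw0.trans_le hS.hw
  have hpw' : (w : ℝ) ≤ p - 1 := by
    have : (w : ℝ) + 1 ≤ p := by exact_mod_cast hpw
    linarith
  have h6 : ip (P i) (P k) * (1 / ((p : ℝ) - 1)) ≤ ε / 2 := by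
    calc ip (P i) (P k) * (1 / ((p : ℝ) - 1)) ≤ I * (1 / (w : ℝ)) :=
          mul_le_mul (hII i k) (one_div_le_one_div_of_le hw1 hpw') (by
            have : 0 < (p : ℝ) - 1 := by linarith
            positivity) hI0
      _ = I / w := by ring
      _ ≤ I / Real.log (Real.log X) ^ 2 := div_le_div_of_nonneg_left hI0 hw0 hS.hw
      _ ≤ ε / 2 := hIw.le
  have h7 : C1 * ((P i).M * (P k).M) * ((2 * (4 * v ^ 2)) ^ 6 * (1 + L / 5) ^ 2) ≤ G * (ε / 2) := by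
    calc C1 * ((P i).M * (P k).M) * ((2 * (4 * v ^ 2)) ^ 6 * (1 + L / 5) ^ 2)
        ≤ D * (5242880 * (G / s)) := mul_le_mul (hMM i k) hE2 (by positivity) hD0
      _ = G * (D * 5242880 / s) := by ring
      _ ≤ G * (ε / 2) := by
          refine mul_le_mul_of_nonneg_left ?_ hG0
          rw [hs, hL]
          exact hDs.le
  rw [← hG]
  have h8 := abs_le.1 (a1.trans h7)
  have h9 : G * (1 + 1 / ((p : ℝ) - 1)) * ip (P i) (P k) = G * ip (P i) (P k) +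
      G * (ip (P i) (P k) * (1 / ((p : ℝ) - 1))) := by ring
  have h10 : G * (ip (P i) (P k) * (1 / ((p : ℝ) - 1))) ≤ G * (ε / 2) := mul_le_mul_of_nonneg_left h6 hG0
  have h11 : 0 ≤ G * (1 + 1 / ((p : ℝ) - 1)) * ip (P i) (P k) := by
    have : 0 < (p : ℝ) - 1 := by linarith
    have h12 := hip i k
    positivity
  have h12 : 0 ≤ G * ip (P i) (P k) := mul_nonneg hG0 (hip i k)
  have h13 : G * (ip (P i) (P k) + ε) = G * ip (P i) (P k) + (G * (ε / 2) + G * (ε / 2)) := by ring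
  rw [h13]
  rw [h9] at h8 h11
  have h14 := mul_nonneg hG0 hε2.le
  exact abs_le.2 ⟨by linarith [h8.1], by linarith [h8.2]⟩

/-- the product of the bounds -/
private theorem FpU_prodT {K : ℕ} (l : Fin K) (A θ : ℝ) :
    ∏ j : Fin K, (A * (if j = l then θ else 1)) = A ^ K * θ := by
  rw [prod_mul_distrib, prod_const, card_univ, Fintype.card_fin, Finset.prod_ite_eq' univ l,
    if_pos (mem_univ _)]

/-- the product of the bounds of the main terms -/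
private theorem FpU_prodU {K : ℕ} (l : Fin K) (D : Finset (Fin K)) (G θ Cq : ℝ) (x : Fin K → ℝ) :
    ∏ j : Fin K, ((G * (if j ∈ D then Cq else x j)) * (if j = l then θ else 1)) =
      G ^ K * θ * (Cq ^ D.card * ∏ j ∈ univ \ D, x j) := by
  rw [prod_mul_distrib, prod_mul_distrib, prod_const, card_univ, Fintype.card_fin, Finset.prod_ite_eq' univ l,
    if_pos (mem_univ _), ← prod_sdiff (subset_univ D)]
  have e1 : ∏ j ∈ univ \ D, (if j ∈ D then Cq else x j) = ∏ j ∈ univ \ D, x j :=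
    prod_congr rfl fun j hj => if_neg (mem_sdiff.1 hj).2
  have e2 : ∏ j ∈ D, (if j ∈ D then Cq else x j) = Cq ^ D.card := by
    rw [prod_congr rfl fun j hj => if_pos hj, prod_const]
  rw [e1, e2]
  ring

/-- the product of the cutoffs -/
private theorem FpU_prody {K : ℕ} (e e' : Fin K → ℝ) (R B : ℝ) (hR : 1 ≤ R) (hB : 0 ≤ B)
    (hv : ∑ j, e j ≤ 1) (hu : ∑ j, e' j ≤ 1) :
    ∏ i : Fin K × Bool, (R ^ (cond i.2 (e i.1) (e' i.1)) * B) ≤ R * R * B ^ (2 * K) := by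
  have hR0 : 0 < R := by linarith
  have e1 : ∏ i : Fin K × Bool, (R ^ (cond i.2 (e i.1) (e' i.1)) * B) =
      R ^ (∑ j, e j) * R ^ (∑ j, e' j) * B ^ (2 * K) := by
    rw [prod_mul_distrib, prod_const, card_univ, Fintype.card_prod, Fintype.card_fin, Fintype.card_bool,
      Fintype.prod_prod_type, Real.rpow_sum_of_pos hR0, Real.rpow_sum_of_pos hR0, ← prod_mul_distrib,
      mul_comm K 2]
    congr 1
    exact prod_congr rfl fun j _ => by rw [Fintype.prod_bool, cond_true, cond_false]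
  rw [e1]
  have h1 : ∀ s : ℝ, s ≤ 1 → R ^ s ≤ R := fun s hs => by
    calc R ^ s ≤ R ^ (1 : ℝ) := Real.rpow_le_rpow_of_exponent_le hR hs
      _ = R := Real.rpow_one R
  exact mul_le_mul_of_nonneg_right (mul_le_mul (h1 _ hv) (h1 _ hu) (by positivity) hR0.le) (by positivity)

/-- products of bounded factors -/
private theorem FpU_absprod {K : ℕ} (x T : Fin K → ℝ) (h : ∀ j, |x j| ≤ T j) : ∏ j, x j ≤ ∏ j, T j :=
  calc ∏ j, x j ≤ |∏ j, x j| := le_abs_self _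
    _ = ∏ j, |x j| := Finset.abs_prod _ _
    _ ≤ ∏ j, T j := prod_le_prod (fun _ _ => abs_nonneg _) fun j _ => h j

/-- the sum of the exponents -/
private theorem FpU_sumE {K r : ℕ} (bd : Fin r → ℝ) (v : Fin K → Fin r) (D : Finset (Fin K))
    (hbd : ∀ i, 0 ≤ bd i) (hv : ∑ i, bd (v i) ≤ 1 / 2) (hD : D.card ≤ 2) :
    ∑ j, (if j ∈ D then (1 / 4 : ℝ) else bd (v j)) ≤ 1 := by
  have h1 : ∀ j ∈ (univ : Finset (Fin K)), (if j ∈ D then (1 / 4 : ℝ) else bd (v j)) ≤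
      (if j ∈ D then (1 / 4 : ℝ) else 0) + bd (v j) := by
    intro j _
    have := hbd (v j)
    split_ifs <;> linarith
  refine (sum_le_sum h1).trans ?_
  rw [sum_add_distrib]
  have h2 : ∑ j : Fin K, (if j ∈ D then (1 / 4 : ℝ) else 0) = D.card * (1 / 4) := by
    rw [← sum_filter, filter_mem_eq_inter, univ_inter, sum_const, nsmul_eq_mul]
  have h3 : (D.card : ℝ) ≤ 2 := by exact_mod_cast hD
  rw [h2]
  linarith

theorem tFpU (h1 : S1CStmt) (h2 : TmAStmt) (h3 : TmBStmt) (h4 : PfAStmt) (h5 : PfBStmt) (h6 : AfPStmt)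
    (h7 : MfTStmt) (h8 : PhUStmt) : FpUStmt := by
  obtain ⟨-, -, hphM, hphP⟩ := h8.1 1 1
  obtain ⟨Cq0, Xq, hCq0, hTq⟩ := h7 1 (fun _ => ph 1) (fun _ => hphP)
  obtain ⟨Cq, hCq1, hCqq⟩ : ∃ Cq : ℝ, 1 ≤ Cq ∧ Cq0 ≤ Cq := ⟨max Cq0 1, le_max_right _ _, le_max_left _ _⟩
  refine ⟨Cq ^ 2, by positivity, ?_⟩
  intro K r P bd 𝒜 hV hhalf hip him η hη
  have hPok : ∀ i, Pok (P i) := fun i s => ⟨(hV.be i s).1, ((hV.be i s).2).trans (hV.one i)⟩
  have hbd0 : ∀ i, 0 ≤ bd i := fun i => (hV.be i 0).1.trans (hV.be i 0).2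
  obtain ⟨CP, XP, hCP, hTP⟩ := h7 r P hPok
  obtain ⟨C', hC', hS⟩ := h1 K
  obtain ⟨ε0, hε0, hF⟩ := FpU_eps P 𝒜 (η / 2) (by linarith)
  obtain ⟨XT, hT1⟩ := FpU_T h2 h3 h4 r P hPok hip ε0 hε0
  have hMn : ∀ i, 0 ≤ (P i).M := fun i => sum_nonneg fun _ _ => abs_nonneg _
  obtain ⟨M0, hM16, hM⟩ : ∃ M0 : ℝ, 16 ≤ M0 ∧ ∀ i, (P i).M ≤ M0 := by
    refine ⟨∑ i, (P i).M + 16, ?_, fun i => ?_⟩
    · have : 0 ≤ ∑ i, (P i).M := sum_nonneg fun i _ => hMn i
      linarith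
    · have := single_le_sum (f := fun i => (P i).M) (fun i _ => hMn i) (mem_univ i)
      have h9 : (P i).M ≤ ∑ i, (P i).M := this
      linarith
  have hM0 : 0 ≤ M0 := by linarith
  obtain ⟨C2, hC2q, hC2P⟩ : ∃ C2 : ℝ, Cq ≤ C2 ∧ CP ≤ C2 := ⟨max Cq CP, le_max_left _ _, le_max_right _ _⟩
  have hC20 : 0 < C2 := by linarith
  have hcf : ∀ (D : Finset (Fin K)) (v u : Fin K → Fin r), 0 ≤ ∏ j ∈ D, im (P (v j)) * im (P (u j)) :=
    fun D v u => prod_nonneg fun j _ => mul_nonneg (him _).le (him _).le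
  obtain ⟨Cm, hCm0, hCm⟩ : ∃ Cm : ℝ, 0 ≤ Cm ∧ ∀ D : Finset (Fin K),
      ∑ v ∈ 𝒜, ∑ u ∈ 𝒜, ∏ j ∈ D, im (P (v j)) * im (P (u j)) ≤ Cm := by
    refine ⟨∑ D : Finset (Fin K), ∑ v ∈ 𝒜, ∑ u ∈ 𝒜, ∏ j ∈ D, im (P (v j)) * im (P (u j)), ?_, fun D => ?_⟩
    · exact sum_nonneg fun D _ => sum_nonneg fun v _ => sum_nonneg fun u _ => hcf D v u
    · exact single_le_sum (f := fun D : Finset (Fin K) =>
        ∑ v ∈ 𝒜, ∑ u ∈ 𝒜, ∏ j ∈ D, im (P (v j)) * im (P (u j)))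
        (fun D _ => sum_nonneg fun v _ => sum_nonneg fun u _ => hcf D v u) (mem_univ D)
  obtain ⟨XL, hL⟩ := FpU_large (Cm * (2 * M0) ^ (2 * K)) (4 * K)
  obtain ⟨XE, hE⟩ := FpU_exp (Cm * C2 ^ K) C' (η / 2) (by positivity) hC' (by linarith)
  refine ⟨max (max (max Xq XP) (max XT XL)) XE, ?_⟩
  intro X w V p0 p a c l D hX hSt hp hpV hpR hlD hD2
  have hXq : Xq ≤ X := ((le_max_left _ _).trans ((le_max_left _ _).trans (le_max_left _ _))).trans hX
  have hXP : XP ≤ X := ((le_max_right _ _).trans ((le_max_left _ _).trans (le_max_left _ _))).trans hX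
  have hXT : XT ≤ X := ((le_max_left _ _).trans ((le_max_right _ _).trans (le_max_left _ _))).trans hX
  have hXL : XL ≤ X := ((le_max_right _ _).trans ((le_max_right _ _).trans (le_max_left _ _))).trans hX
  have hXE : XE ≤ X := (le_max_right _ _).trans hX
  obtain ⟨hll, hL1, hR2, hLN⟩ := hL X hXL
  have hErr := hE X hXE w hSt.hw
  have hT1 := hT1 X w V p0 K a c hXT hSt p hp hpV
  obtain ⟨-, hTq2⟩ := hTq X w V p0 0 (fun _ => 1) hXq
    ⟨hSt.hp, hSt.hpV, hSt.hV, hSt.hw, hSt.hlog, hSt.hs, fun j => j.elim0, fun j => j.elim0,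
      fun j => j.elim0, fun j => j.elim0, fun j => j.elim0⟩
  have hTq2 := hTq2 p hp hpV hpR
  obtain ⟨-, hTP2⟩ := hTP X w V p0 0 (fun _ => 1) hXP
    ⟨hSt.hp, hSt.hpV, hSt.hV, hSt.hw, hSt.hlog, hSt.hs, fun j => j.elim0, fun j => j.elim0,
      fun j => j.elim0, fun j => j.elim0, fun j => j.elim0⟩
  have hTP2 := hTP2 p hp hpV hpR
  have hqs := (h8.2 X (by linarith)).2.2
  have hX5 : RR X * RR X * RR X = (X : ℝ) ^ ((3 : ℝ) / 5) := by
    unfold RR
    rw [← Real.rpow_add_of_nonneg (by positivity) (by norm_num) (by norm_num),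
      ← Real.rpow_add_of_nonneg (by positivity) (by norm_num) (by norm_num)]
    norm_num
  rw [← hX5]
  have hsqr : ∀ b : ℕ, UD (V * p0) X P 𝒜 a c D b ^ 2 * ∏ j ∈ D, AF (V * p0) (RR X) (qU X) (a j * b + c j) ^ 2 =
      ∑ v ∈ 𝒜, ∑ u ∈ 𝒜, (∏ j ∈ D, im (P (v j)) * im (P (u j))) *
      ∏ j, (AF (V * p0) (RR X) (pfn (if j ∈ D then ph 1 else P (v j)) (RR X)) (a j * b + c j) *
        AF (V * p0) (RR X) (pfn (if j ∈ D then ph 1 else P (u j)) (RR X)) (a j * b + c j)) :=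
    fun b => FpU_sq (V * p0) X P 𝒜 a c D b
  rw [sum_congr rfl fun b _ => hsqr b]
  have hqs' : Sup (RR X ^ ((1 : ℝ) / 4)) (pfn (ph 1) (RR X)) := hqs
  clear hsqr hqs
  obtain ⟨R, hRd⟩ : ∃ R : ℝ, R = RR X := ⟨_, rfl⟩
  obtain ⟨G, hGd⟩ : ∃ G : ℝ, G = GG (V * p0) X := ⟨_, rfl⟩
  have hR1 : (1 : ℝ) ≤ R := by rw [hRd]; linarith
  have hG0 : 0 ≤ G := by
    rw [hGd]
    unfold GG
    have h5 : 0 < dlV (V * p0) :=
      dlV_pos (Nat.one_le_iff_ne_zero.2 (mul_ne_zero (by have := hSt.hV; omega) hSt.hp.ne_zero))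
    have h6 : 0 ≤ Real.log (RR X) := by linarith
    positivity
  rw [← hRd] at hL1 hLN hpR hqs' hT1 hTq2 hTP2 ⊢
  rw [← hGd] at hT1 hTq2 hTP2 ⊢
  obtain ⟨θ, hθ⟩ : ∃ θ : ℝ, θ = (Real.log p / Real.log R) ^ 2 + 1 / Real.sqrt (Real.log X) := ⟨_, rfl⟩
  rw [← hθ] at hTq2 hTP2 ⊢
  have hθ0 : 0 ≤ θ := by
    rw [hθ]
    positivity
  have hw1 : 1 ≤ w := by
    have h5 : (1 : ℝ) ≤ w := le_trans (by nlinarith) hSt.hw
    exact_mod_cast h5
  have hV'' : 1 ≤ V * p0 * p :=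
    Nat.one_le_iff_ne_zero.2 (mul_ne_zero (mul_ne_zero (by have := hSt.hV; omega) hSt.hp.ne_zero) hp.ne_zero)
  have hpQ : p ∈ QsV (V * p0) R := mem_QsV.2 ⟨hp, hpV, Nat.le_floor hpR⟩
  obtain ⟨c1, hc⟩ := FpU_cls (a l) (c l) p hp (hSt.ha l p hp hpV)
  -- the weight functions
  obtain ⟨FP, hFP⟩ : ∃ FP : (Fin K → Fin r) → Fin K → Pf, ∀ v j, FP v j = if j ∈ D then ph 1 else P (v j) :=
    ⟨fun v j => if j ∈ D then ph 1 else P (v j), fun _ _ => rfl⟩
  obtain ⟨EP, hEP⟩ : ∃ EP : (Fin K → Fin r) → Fin K → ℝ, ∀ v j, EP v j = if j ∈ D then 1 / 4 else bd (v j) :=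
    ⟨fun v j => if j ∈ D then 1 / 4 else bd (v j), fun _ _ => rfl⟩
  obtain ⟨g, hg⟩ : ∃ g : Pf → Fin K → ℕ → ℝ, ∀ Q j, g Q j =
      if j = l then (fun n => pfn Q R n - pfn Q R (p * n)) else pfn Q R :=
    ⟨fun Q j => if j = l then (fun n => pfn Q R n - pfn Q R (p * n)) else pfn Q R, fun _ _ => rfl⟩
  have hg1 : ∀ Q, g Q l = fun n => pfn Q R n - pfn Q R (p * n) := fun Q => by rw [hg, if_pos rfl]
  have hg2 : ∀ Q j, j ≠ l → g Q j = pfn Q R := fun Q j hj => by rw [hg, if_neg hj]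
  have hFPD : ∀ v j, j ∈ D → FP v j = ph 1 := fun v j hj => by rw [hFP, if_pos hj]
  have hFPn : ∀ v j, j ∉ D → FP v j = P (v j) := fun v j hj => by rw [hFP, if_neg hj]
  have hEP1 : ∀ v j, EP v j ≤ 1 := by
    intro v j
    rw [hEP]
    split_ifs
    · norm_num
    · exact hV.one _
  obtain ⟨B, hB⟩ : ∃ B : ℝ, B = 2 * M0 * Real.log R ^ 2 := ⟨_, rfl⟩
  have hB0 : 0 ≤ B := by
    rw [hB]
    positivity
  have hpfb : ∀ v j n, |pfn (FP v j) R n| ≤ M0 * Real.log R ^ 2 := by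
    intro v j n
    by_cases hj : j ∈ D
    · rw [hFPD v j hj]
      refine ((h5 (ph 1) R hR1 hphP).1 n).trans (mul_le_mul_of_nonneg_right ?_ (by positivity))
      rw [hphM, abs_one]
      linarith
    · rw [hFPn v j hj]
      exact ((h5 (P (v j)) R hR1 (hPok _)).1 n).trans (mul_le_mul_of_nonneg_right (hM _) (by positivity))
  have hpfs : ∀ v j, Sup (R ^ EP v j) (pfn (FP v j) R) := by
    intro v j
    by_cases hj : j ∈ D
    · rw [hFPD v j hj, hEP, if_pos hj]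
      exact hqs'
    · rw [hFPn v j hj, hEP, if_neg hj]
      exact (h5 (P (v j)) R hR1 (hPok _)).2.1 (bd (v j)) fun s => (hV.be _ s).2
  have hgB : ∀ v j n, |g (FP v j) j n| ≤ B := by
    intro v j n
    have h9 : 0 ≤ M0 * Real.log R ^ 2 := by positivity
    by_cases hj : j = l
    · subst hj
      rw [hg1]
      refine (abs_sub _ _).trans ?_
      have h10 := hpfb v j n
      have h11 := hpfb v j (p * n)
      rw [hB]
      linarith
    · rw [hg2 _ j hj]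
      have h10 := hpfb v j n
      rw [hB]
      linarith
  have hgS : ∀ v j, Sup (R ^ EP v j) (g (FP v j) j) := by
    intro v j
    by_cases hj : j = l
    · subst hj
      rw [hg1]
      intro n hn
      have h10 : pfn (FP v j) R n = 0 := hpfs v j n hn
      have h11 : pfn (FP v j) R (p * n) = 0 := by
        refine hpfs v j (p * n) ?_
        rcases hn with h | h
        · exact Or.inl (by rw [h, mul_zero])
        · refine Or.inr (h.trans_le ?_)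
          have : n ≤ p * n := Nat.le_mul_of_pos_left n hp.pos
          exact_mod_cast this
      show pfn (FP v j) R n - pfn (FP v j) R (p * n) = 0
      rw [h10, h11, sub_zero]
    · rw [hg2 _ j hj]
      exact hpfs v j
  have hAF : ∀ b : ℕ, p ∣ a l * b + c l → ∀ Q j,
      AF (V * p0) R (pfn Q R) (a j * b + c j) = AF (V * p0 * p) R (g Q j) (a j * b + c j) := by
    intro b hb Q j
    by_cases hj : j = l
    · subst hj
      rw [hg1]
      exact (h6 (V * p0) R (pfn Q R)).2.1 p _ hpQ hb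
    · rw [hg2 Q j hj]
      exact (h6 (V * p0) R (pfn Q R)).1 p _ hpQ
        (fun h9 => FpU_uniq (hSt.hd j l hj p hp hpV) h9 hb)
  have hgT : ∀ v u j b c2, |TTF (V * p0 * p) R (g (FP v j) j) (g (FP u j) j) b c2| ≤
      C2 * G * (if j = l then θ else 1) := by
    intro v u j b c2
    have hGθ : 0 ≤ G * θ := mul_nonneg hG0 hθ0
    by_cases hj : j = l
    · subst hj
      rw [hg1, hg1, if_pos rfl, hFPD v j hlD, hFPD u j hlD, mul_assoc C2 G θ]
      exact ((hTq2 0 0 b c2).2).trans (mul_le_mul_of_nonneg_right (hCqq.trans hC2q) hGθ)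
    · rw [hg2 _ j hj, hg2 _ j hj, if_neg hj, mul_one]
      by_cases hjD : j ∈ D
      · rw [hFPD v j hjD, hFPD u j hjD]
        exact ((hTq2 0 0 b c2).1).trans (mul_le_mul_of_nonneg_right (hCqq.trans hC2q) hG0)
      · rw [hFPn v j hjD, hFPn u j hjD]
        exact ((hTP2 (v j) (u j) b c2).1).trans (mul_le_mul_of_nonneg_right hC2P hG0)
  have hgU : ∀ v u j, |TTF (V * p0 * p) R (g (FP v j) j) (g (FP u j) j) 1 1| ≤
      (G * (if j ∈ D then Cq else ip (P (v j)) (P (u j)) + ε0)) * (if j = l then θ else 1) := by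
    intro v u j
    have hGθ : 0 ≤ G * θ := mul_nonneg hG0 hθ0
    by_cases hj : j = l
    · subst hj
      rw [hg1, hg1, if_pos rfl, if_pos hlD, hFPD v j hlD, hFPD u j hlD]
      refine ((hTq2 0 0 1 1).2).trans ?_
      have e1 : G * Cq * θ = Cq * (G * θ) := by ring
      rw [e1]
      exact mul_le_mul_of_nonneg_right hCqq hGθ
    · rw [hg2 _ j hj, hg2 _ j hj, if_neg hj, mul_one]
      by_cases hjD : j ∈ D
      · rw [hFPD v j hjD, hFPD u j hjD, if_pos hjD, mul_comm G Cq]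
        exact ((hTq2 0 0 1 1).1).trans (mul_le_mul_of_nonneg_right hCqq hG0)
      · rw [hFPn v j hjD, hFPn u j hjD, if_neg hjD]
        exact hT1 (v j) (u j)
  have hexp0 : 0 ≤ Real.exp (C' / w) - 1 := by
    have : 1 ≤ Real.exp (C' / w) := Real.one_le_exp (by positivity)
    linarith
  have hXp : (0 : ℝ) ≤ (X : ℝ) / p := by positivity
  have hGK : 0 ≤ G ^ K * θ := by positivity
  -- the sum for one pair
  have hpair : ∀ v ∈ 𝒜, ∀ u ∈ 𝒜, ∑ b ∈ (Icc 1 X).filter (fun b => p ∣ a l * b + c l),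
      ∏ j, (AF (V * p0) R (pfn (FP v j) R) (a j * b + c j) * AF (V * p0) R (pfn (FP u j) R) (a j * b + c j)) ≤
      X / p * (G ^ K * θ * (Cq ^ 2 * ∏ j ∈ univ \ D, (ip (P (v j)) (P (u j)) + ε0) +
        C2 ^ K * (Real.exp (C' / w) - 1))) + R * R * B ^ (2 * K) := by
    intro v hv u hu
    have e1 : ∑ b ∈ (Icc 1 X).filter (fun b => p ∣ a l * b + c l),
        ∏ j, (AF (V * p0) R (pfn (FP v j) R) (a j * b + c j) * AF (V * p0) R (pfn (FP u j) R) (a j * b + c j)) =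
        ∑ b ∈ (Icc 1 X).filter (fun b => b ≡ c1 [MOD p]),
        ∏ j, (AF (V * p0 * p) R (g (FP v j) j) (a j * b + c j) *
          AF (V * p0 * p) R (g (FP u j) j) (a j * b + c j)) := by
      have e2 : (Icc 1 X).filter (fun b => p ∣ a l * b + c l) = (Icc 1 X).filter (fun b => b ≡ c1 [MOD p]) :=
        filter_congr fun b _ => hc b
      rw [← e2]
      refine sum_congr rfl fun b hb => prod_congr rfl fun j _ => ?_
      rw [hAF b (mem_filter.1 hb).2 (FP v j) j, hAF b (mem_filter.1 hb).2 (FP u j) j]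
    rw [e1]
    have h9 := hS (Fin K) (V * p0 * p) w X p c1 R B (fun j => C2 * G * (if j = l then θ else 1)) a c
      (fun i => g (FP (cond i.2 v u) i.1) i.1) (fun i => R ^ (cond i.2 (EP v i.1) (EP u i.1)))
      (by rw [Fintype.card_fin]) hw1 hV'' hp.one_le (by rw [hRd]; linarith)
      (fun q hq => by
        obtain ⟨hq1, hq2, -⟩ := mem_QsV.1 hq
        refine ⟨?_, fun h6 => hq2 (Dvd.dvd.mul_left h6 _)⟩
        by_contra h6
        exact hq2 (Dvd.dvd.mul_right (hSt.hs q hq1 (not_lt.1 h6)) _))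
      (fun j q hq => by
        obtain ⟨hq1, hq2, -⟩ := mem_QsV.1 hq
        exact hSt.ha j q hq1 fun h6 => hq2 (Dvd.dvd.mul_right h6 _))
      (fun j k hjk q hq => by
        obtain ⟨hq1, hq2, -⟩ := mem_QsV.1 hq
        exact hSt.hd j k hjk q hq1 fun h6 => hq2 (Dvd.dvd.mul_right h6 _))
      (fun i n => hgB _ _ n)
      (fun i => by
        rcases i with ⟨j, bb⟩
        cases bb
        · refine ⟨by positivity, ?_, hgS u j⟩
          calc R ^ EP u j ≤ R ^ (1 : ℝ) := Real.rpow_le_rpow_of_exponent_le hR1 (hEP1 u j)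
            _ = R := Real.rpow_one R
        · refine ⟨by positivity, ?_, hgS v j⟩
          calc R ^ EP v j ≤ R ^ (1 : ℝ) := Real.rpow_le_rpow_of_exponent_le hR1 (hEP1 v j)
            _ = R := Real.rpow_one R)
      (fun j b c2 => hgT v u j b c2)
    have hEv : ∑ j, EP v j ≤ 1 := by
      rw [sum_congr rfl fun j _ => hEP v j]
      exact FpU_sumE bd v D hbd0 (hhalf v hv) hD2
    have hEu : ∑ j, EP u j ≤ 1 := by
      rw [sum_congr rfl fun j _ => hEP u j]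
      exact FpU_sumE bd u D hbd0 (hhalf u hu) hD2
    have h10 := FpU_prody (EP v) (EP u) R B hR1 hB0 hEv hEu
    have h11 := FpU_prodT l (C2 * G) θ
    have h12 := FpU_absprod (fun j => TTF (V * p0 * p) R (g (FP v j) j) (g (FP u j) j) 1 1)
      (fun j => (G * (if j ∈ D then Cq else ip (P (v j)) (P (u j)) + ε0)) * (if j = l then θ else 1))
      (fun j => hgU v u j)
    rw [FpU_prodU l D G θ Cq (fun j => ip (P (v j)) (P (u j)) + ε0)] at h12
    rw [h11] at h9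
    have h13 : 0 ≤ ∏ j ∈ univ \ D, (ip (P (v j)) (P (u j)) + ε0) :=
      prod_nonneg fun j _ => by
        have := hip (v j) (u j)
        linarith
    have h14 : Cq ^ D.card ≤ Cq ^ 2 := pow_le_pow_right₀ hCq1 hD2
    have h15 : G ^ K * θ * (Cq ^ D.card * ∏ j ∈ univ \ D, (ip (P (v j)) (P (u j)) + ε0)) ≤
        G ^ K * θ * (Cq ^ 2 * ∏ j ∈ univ \ D, (ip (P (v j)) (P (u j)) + ε0)) :=
      mul_le_mul_of_nonneg_left (mul_le_mul_of_nonneg_right h14 h13) hGK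
    have h16 := mul_le_mul_of_nonneg_left (h12.trans h15) hXp
    have h17 := (abs_sub_le_iff.1 h9).1
    simp only [cond_true, cond_false] at h17
    have h18 : X / p * (G ^ K * θ * (Cq ^ 2 * ∏ j ∈ univ \ D, (ip (P (v j)) (P (u j)) + ε0) +
        C2 ^ K * (Real.exp (C' / w) - 1))) =
        X / p * (G ^ K * θ * (Cq ^ 2 * ∏ j ∈ univ \ D, (ip (P (v j)) (P (u j)) + ε0))) +
        X / p * ((C2 * G) ^ K * θ * (Real.exp (C' / w) - 1)) := by
      rw [mul_pow]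
      ring
    rw [h18]
    linarith
  -- the sum over the pairs
  have hsum : ∑ b ∈ (Icc 1 X).filter (fun b => p ∣ a l * b + c l), ∑ v ∈ 𝒜, ∑ u ∈ 𝒜,
      (∏ j ∈ D, im (P (v j)) * im (P (u j))) *
      ∏ j, (AF (V * p0) R (pfn (if j ∈ D then ph 1 else P (v j)) R) (a j * b + c j) *
        AF (V * p0) R (pfn (if j ∈ D then ph 1 else P (u j)) R) (a j * b + c j)) ≤
      ∑ v ∈ 𝒜, ∑ u ∈ 𝒜, (∏ j ∈ D, im (P (v j)) * im (P (u j))) *
        (X / p * (G ^ K * θ * (Cq ^ 2 * ∏ j ∈ univ \ D, (ip (P (v j)) (P (u j)) + ε0) +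
        C2 ^ K * (Real.exp (C' / w) - 1))) + R * R * B ^ (2 * K)) := by
    rw [sum_comm]
    refine sum_le_sum fun v hv => ?_
    rw [sum_comm]
    refine sum_le_sum fun u hu => ?_
    rw [← mul_sum]
    refine mul_le_mul_of_nonneg_left ?_ (hcf D v u)
    have h9 := hpair v hv u hu
    simp only [hFP] at h9
    exact h9
  refine hsum.trans ?_
  have hexpand : ∑ v ∈ 𝒜, ∑ u ∈ 𝒜, (∏ j ∈ D, im (P (v j)) * im (P (u j))) *
        (X / p * (G ^ K * θ * (Cq ^ 2 * ∏ j ∈ univ \ D, (ip (P (v j)) (P (u j)) + ε0) +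
        C2 ^ K * (Real.exp (C' / w) - 1))) + R * R * B ^ (2 * K)) =
      X / p * (G ^ K * θ) * (Cq ^ 2 * ∑ v ∈ 𝒜, ∑ u ∈ 𝒜, (∏ j ∈ D, im (P (v j)) * im (P (u j))) *
        ∏ j ∈ univ \ D, (ip (P (v j)) (P (u j)) + ε0)) +
      (X / p * (G ^ K * θ) * (C2 ^ K * (Real.exp (C' / w) - 1)) + R * R * B ^ (2 * K)) *
        ∑ v ∈ 𝒜, ∑ u ∈ 𝒜, ∏ j ∈ D, im (P (v j)) * im (P (u j)) := by
    simp only [mul_sum]
    rw [← sum_add_distrib]
    refine sum_congr rfl fun v _ => ?_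
    rw [← sum_add_distrib]
    refine sum_congr rfl fun u _ => ?_
    ring
  rw [hexpand]
  have h20 := hF D
  have h21 := hCm D
  have h22 : Cm * B ^ (2 * K) ≤ R := by
    have e1 : B ^ (2 * K) = (2 * M0) ^ (2 * K) * Real.log R ^ (4 * K) := by
      rw [hB, mul_pow, ← pow_mul]
      congr 2
      ring
    rw [e1, ← mul_assoc]
    exact hLN
  have h23 : X / p * (G ^ K * θ) * (Cq ^ 2 * ∑ v ∈ 𝒜, ∑ u ∈ 𝒜, (∏ j ∈ D, im (P (v j)) * im (P (u j))) *
        ∏ j ∈ univ \ D, (ip (P (v j)) (P (u j)) + ε0)) ≤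
      X / p * (G ^ K * θ) * (Cq ^ 2 * (JD P 𝒜 D + η / 2)) :=
    mul_le_mul_of_nonneg_left (mul_le_mul_of_nonneg_left h20 (by positivity)) (by positivity)
  have h24 : (X / p * (G ^ K * θ) * (C2 ^ K * (Real.exp (C' / w) - 1)) + R * R * B ^ (2 * K)) *
        ∑ v ∈ 𝒜, ∑ u ∈ 𝒜, ∏ j ∈ D, im (P (v j)) * im (P (u j)) ≤
      (X / p * (G ^ K * θ) * (C2 ^ K * (Real.exp (C' / w) - 1)) + R * R * B ^ (2 * K)) * Cm :=
    mul_le_mul_of_nonneg_left h21 (by positivity)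
  have h25 : (X / p * (G ^ K * θ) * (C2 ^ K * (Real.exp (C' / w) - 1)) + R * R * B ^ (2 * K)) * Cm =
      X / p * (G ^ K * θ) * (Cm * C2 ^ K * (Real.exp (C' / w) - 1)) + R * R * (Cm * B ^ (2 * K)) := by ring
  have h26 : X / p * (G ^ K * θ) * (Cm * C2 ^ K * (Real.exp (C' / w) - 1)) ≤
      X / p * (G ^ K * θ) * (Cq ^ 2 * (η / 2)) := by
    refine mul_le_mul_of_nonneg_left (hErr.trans ?_) (by positivity)
    have : 1 ≤ Cq ^ 2 := one_le_pow₀ hCq1
    nlinarith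
  have h27 : R * R * (Cm * B ^ (2 * K)) ≤ R * R * R := mul_le_mul_of_nonneg_left h22 (by positivity)
  have h28 : X / p * (G ^ K * ((JD P 𝒜 D + η) * (Cq ^ 2 * θ))) =
      X / p * (G ^ K * θ) * (Cq ^ 2 * (JD P 𝒜 D + η / 2)) + X / p * (G ^ K * θ) * (Cq ^ 2 * (η / 2)) := by ring
  rw [h28]
  linarith

end Pool.Agent.Lib.BE
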