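import Pool.Agent.Lib.BE.SpecU

/-!
PROJECT BU, module GaU: the identity A_g = A_q (1 - N), support and size of g.
-/

set_option autoImplicit false

namespace Pool.Agent.Lib.BE

open Finset
open Pool.Agent.Lib.MP_9f2731_nt.GP
open Pool.Agent.Lib.MP_9f2731_nt.GP.Sv
open Pool.Agent.Lib.MP_9f2731_nt.QL
open Pool.Agent.Lib.MP_9f2731_nt.QL.Sw
open Pool.Agent.Lib.MP_9f2731_nt.CG
open Pool.Agent.Lib.MP_9f2731_nt.CG.Ma
open Pool.Agent.Lib.MP_9f2731_nt.CG.Mf

private theorem GaU_Qs {V p : ℕ} {R : ℝ} (hp : p ∈ QsV V R) :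
    QsV V R = insert p (QsV (V * p) R) ∧ p ∉ QsV (V * p) R := by
  obtain ⟨h1, h2, h3⟩ := mem_QsV.1 hp
  constructor
  · ext q
    rw [mem_insert, mem_QsV, mem_QsV]
    constructor
    · rintro ⟨h4, h5, h6⟩
      by_cases h : q = p
      · exact Or.inl h
      · right
        refine ⟨h4, fun h7 => ?_, h6⟩
        rcases (Nat.Prime.dvd_mul h4).1 h7 with h8 | h8
        · exact h5 h8
        · exact h ((Nat.prime_dvd_prime_iff_eq h4 h1).1 h8)
    · rintro (h | ⟨h4, h5, h6⟩)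
      · subst h
        exact ⟨h1, h2, h3⟩
      · exact ⟨h4, fun h7 => h5 (Dvd.dvd.mul_right h7 p), h6⟩
  · intro h
    exact (mem_QsV.1 h).2.1 (Nat.dvd_mul_left p V)

private theorem GaU_Pq {V p : ℕ} {R : ℝ} (hp : p ∈ QsV V R) : PqV V R = PqV (V * p) R * p := by
  obtain ⟨h1, h2⟩ := GaU_Qs hp
  unfold PqV
  rw [h1, Finset.prod_insert h2, mul_comm]

private theorem GaU_cop {V p : ℕ} {R : ℝ} (hp : p ∈ QsV V R) : p.Coprime (PqV (V * p) R) := by
  have h1 := (mem_QsV.1 hp).1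
  rw [Nat.Prime.coprime_iff_not_dvd h1]
  intro h
  exact (GaU_Qs hp).2 ((prime_dvd_PqV h1).1 h)

private theorem GaU_div {V p : ℕ} (hV : V ≠ 0) (hp : p.Prime) (hc : p.Coprime V) (F : ℕ → ℝ) :
    ∑ d ∈ (V * p).divisors, F d = ∑ d ∈ V.divisors, F d + ∑ d ∈ V.divisors, F (d * p) := by
  have h1 : (V * p).divisors = V.divisors ∪ V.divisors.image (fun d => d * p) := by
    ext d
    rw [mem_union, mem_image, Nat.mem_divisors]
    constructor
    · rintro ⟨h2, _⟩
      by_cases hpd : p ∣ d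
      · right
        obtain ⟨e, rfl⟩ := hpd
        refine ⟨e, Nat.mem_divisors.2 ⟨?_, hV⟩, mul_comm _ _⟩
        rw [mul_comm p e] at h2
        exact Nat.dvd_of_mul_dvd_mul_right hp.pos h2
      · left
        have h3 : d.Coprime p := ((Nat.Prime.coprime_iff_not_dvd hp).2 hpd).symm
        exact Nat.mem_divisors.2 ⟨h3.dvd_of_dvd_mul_right h2, hV⟩
    · have hne : V * p ≠ 0 := Nat.mul_ne_zero hV hp.ne_zero
      rintro (h2 | ⟨e, h2, rfl⟩)
      · exact ⟨(Nat.dvd_of_mem_divisors h2).trans (Nat.dvd_mul_right V p), hne⟩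
      · exact ⟨Nat.mul_dvd_mul_right (Nat.dvd_of_mem_divisors h2) p, hne⟩
  have h2 : Disjoint V.divisors (V.divisors.image (fun d => d * p)) := by
    rw [Finset.disjoint_left]
    intro d hd hd'
    rw [mem_image] at hd'
    obtain ⟨e, _, rfl⟩ := hd'
    have h3 : p ∣ V := (Nat.dvd_mul_left p e).trans (Nat.dvd_of_mem_divisors hd)
    exact (Nat.Prime.coprime_iff_not_dvd hp).1 hc h3
  rw [h1, Finset.sum_union h2, Finset.sum_image]
  intro a _ b _ hab
  exact Nat.eq_of_mul_eq_mul_right hp.pos hab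

private theorem GaU_mu {d p : ℕ} (hp : p.Prime) (hc : d.Coprime p) :
    ((ArithmeticFunction.moebius (d * p) : ℤ) : ℝ) = -((ArithmeticFunction.moebius d : ℤ) : ℝ) := by
  rw [ArithmeticFunction.isMultiplicative_moebius.map_mul_of_coprime hc,
    ArithmeticFunction.moebius_apply_prime hp]
  push_cast
  ring

/-- The divisors of `PqV` divisible by `p`, paired with the others. -/
private theorem GaU_pair {V p n : ℕ} {R : ℝ} (f : ℕ → ℝ) (hp : p ∈ QsV V R) (hn : p ∣ n) :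
    ∑ m ∈ (PqV V R).divisors, ((ArithmeticFunction.moebius m : ℤ) : ℝ) * ind m n *
      (ind p m * (f m - f (m / p))) = AF V R f n := by
  have hpp := (mem_QsV.1 hp).1
  unfold AF
  rw [GaU_Pq hp, GaU_div PqV_ne hpp (GaU_cop hp), GaU_div PqV_ne hpp (GaU_cop hp),
    ← Finset.sum_add_distrib, ← Finset.sum_add_distrib]
  refine Finset.sum_congr rfl fun d hd => ?_
  have hc : d.Coprime p :=
    Nat.Coprime.coprime_dvd_left (Nat.dvd_of_mem_divisors hd) (GaU_cop hp).symm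
  have h2 : ind (d * p) n = ind d n := by
    unfold ind
    by_cases h : d ∣ n
    · rw [if_pos h, if_pos (hc.mul_dvd_of_dvd_of_dvd h hn)]
    · rw [if_neg h, if_neg (fun h' => h ((Nat.dvd_mul_right d p).trans h'))]
  have h3 : ind p d = 0 := by
    unfold ind
    rw [if_neg]
    exact (Nat.Prime.coprime_iff_not_dvd hpp).1 hc.symm
  have h4 : ind p (d * p) = 1 := by
    unfold ind
    rw [if_pos (Nat.dvd_mul_left p d)]
  rw [h2, h3, h4, GaU_mu hpp hc, Nat.mul_div_cancel d hpp.pos]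
  ring

private theorem GaU_mem {W X : ℕ} {t u : ℝ} {d p : ℕ} :
    p ∈ PrU W X t u d ↔ p ∈ QsV W ((RR X) ^ u) ∧ (RR X) ^ t < (p : ℝ) ∧ p ∣ d := by
  unfold PrU
  rw [mem_filter]

private theorem GaU_QR {W X : ℕ} {u : ℝ} {p : ℕ} (hR : 1 < RR X) (hu : u ≤ 1 / 4)
    (hp : p ∈ QsV W ((RR X) ^ u)) : p ∈ QsV W (RR X) := by
  rw [mem_QsV] at hp ⊢
  refine ⟨hp.1, hp.2.1, hp.2.2.trans (Nat.floor_mono ?_)⟩
  calc (RR X) ^ u ≤ (RR X) ^ (1 : ℝ) :=
        Real.rpow_le_rpow_of_exponent_le hR.le (by linarith)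
    _ = RR X := Real.rpow_one _

/-- The identity. -/
private theorem GaU_id {W X n : ℕ} {t u : ℝ} (hR : 1 < RR X) (hu : u ≤ 1 / 4) :
    AF W (RR X) (gU W X t u) n = AF W (RR X) (qU X) n * (1 - NU W X t u n) := by
  classical
  have h1 : ∀ m, ind m n * ∑ p ∈ PrU W X t u m, (qU X m - qU X (m / p)) =
      ind m n * ∑ p ∈ PrU W X t u n, ind p m * (qU X m - qU X (m / p)) := by
    intro m
    by_cases hm : m ∣ n
    · congr 1
      have h2 : PrU W X t u m = (PrU W X t u n).filter (fun p => p ∣ m) := by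
        ext p
        rw [mem_filter, GaU_mem, GaU_mem]
        constructor
        · rintro ⟨a, b, c⟩
          exact ⟨⟨a, b, c.trans hm⟩, c⟩
        · rintro ⟨⟨a, b, _⟩, c⟩
          exact ⟨a, b, c⟩
      rw [h2, Finset.sum_filter]
      refine Finset.sum_congr rfl fun p _ => ?_
      unfold ind
      split_ifs
      · rw [one_mul]
      · rw [zero_mul]
    · have : ind m n = 0 := by
        unfold ind
        rw [if_neg hm]
      rw [this, zero_mul, zero_mul]
  have h3 : AF W (RR X) (gU W X t u) n = AF W (RR X) (qU X) n -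
      ∑ p ∈ PrU W X t u n, ∑ m ∈ (PqV W (RR X)).divisors,
        ((ArithmeticFunction.moebius m : ℤ) : ℝ) * ind m n *
          (ind p m * (qU X m - qU X (m / p))) := by
    rw [Finset.sum_comm]
    unfold AF
    rw [← Finset.sum_sub_distrib]
    refine Finset.sum_congr rfl fun m _ => ?_
    have h4 := h1 m
    rw [← Finset.mul_sum, mul_assoc _ (ind m n) (∑ p ∈ PrU W X t u n, _), ← h4]
    unfold gU
    ring
  rw [h3, Finset.sum_congr rfl fun p hp => GaU_pair (qU X)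
    (GaU_QR hR hu (GaU_mem.1 hp).1) (GaU_mem.1 hp).2.2, Finset.sum_const, nsmul_eq_mul]
  unfold NU
  ring

/-- The support. -/
private theorem GaU_sup {W X : ℕ} {t u : ℝ} (hR : 1 < RR X) (hu : u ≤ 1 / 4)
    (hS : Sup ((RR X) ^ ((1 : ℝ) / 4)) (qU X)) : Sup ((RR X) ^ ((1 : ℝ) / 2)) (gU W X t u) := by
  intro n hn
  have hR0 : 0 < RR X := by linarith
  rcases hn with hn | hn
  · subst hn
    have h0 : qU X 0 = 0 := hS 0 (Or.inl rfl)
    unfold gU
    rw [h0, Finset.sum_eq_zero, sub_zero]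
    intro p _
    rw [Nat.zero_div, h0, sub_zero]
  · have h14 : (RR X) ^ ((1 : ℝ) / 4) ≤ (RR X) ^ ((1 : ℝ) / 2) :=
      Real.rpow_le_rpow_of_exponent_le hR.le (by norm_num)
    have hqn : qU X n = 0 := hS n (Or.inr (h14.trans_lt hn))
    unfold gU
    rw [hqn, Finset.sum_eq_zero, sub_zero]
    intro p hp
    obtain ⟨h1, -, h3⟩ := GaU_mem.1 hp
    obtain ⟨h4, -, h5⟩ := mem_QsV.1 h1
    have hp0 : (0 : ℝ) < p := by exact_mod_cast h4.pos
    have h6 : (p : ℝ) ≤ (RR X) ^ ((1 : ℝ) / 4) :=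
      ((Nat.le_floor_iff (by positivity)).1 h5).trans
        (Real.rpow_le_rpow_of_exponent_le hR.le hu)
    have h7 : qU X (n / p) = 0 := by
      apply hS
      right
      rw [Nat.cast_div h3 hp0.ne', lt_div_iff₀ hp0]
      calc (RR X) ^ ((1 : ℝ) / 4) * p ≤ (RR X) ^ ((1 : ℝ) / 4) * (RR X) ^ ((1 : ℝ) / 4) :=
            mul_le_mul_of_nonneg_left h6 (by positivity)
        _ = (RR X) ^ ((1 : ℝ) / 2) := by
            rw [← Real.rpow_add hR0]
            norm_num
        _ < n := hn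
    rw [h7, sub_zero]

/-- The number of the primes. -/
private theorem GaU_card {W X n : ℕ} {t u : ℝ} (hR : 1 < RR X) (ht : 0 < t) (hn : n ≠ 0)
    (hn2 : (n : ℝ) ≤ (RR X) ^ ((1 : ℝ) / 2)) : ((PrU W X t u n).card : ℝ) ≤ 1 / t := by
  have hR0 : 0 < RR X := by linarith
  have h1 : ∏ p ∈ PrU W X t u n, p ∣ n := by
    apply Finset.prod_primes_dvd
    · intro p hp
      exact (mem_QsV.1 (GaU_mem.1 hp).1).1.prime
    · intro p hp
      exact (GaU_mem.1 hp).2.2
  have h2 : ∏ p ∈ PrU W X t u n, p ≤ n := Nat.le_of_dvd (Nat.pos_of_ne_zero hn) h1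
  have h3 : ((RR X) ^ t) ^ (PrU W X t u n).card ≤ ∏ p ∈ PrU W X t u n, (p : ℝ) := by
    rw [← Finset.prod_const]
    apply Finset.prod_le_prod
    · intro p _
      positivity
    · intro p hp
      exact (GaU_mem.1 hp).2.1.le
  have h4 : ((RR X) ^ t) ^ (PrU W X t u n).card ≤ (RR X) ^ ((1 : ℝ) / 2) := by
    refine h3.trans (le_trans ?_ hn2)
    have : ((∏ p ∈ PrU W X t u n, p : ℕ) : ℝ) ≤ (n : ℝ) := by exact_mod_cast h2
    rwa [Nat.cast_prod] at this
  rw [← Real.rpow_natCast, ← Real.rpow_mul hR0.le,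
    Real.rpow_le_rpow_left_iff hR] at h4
  rw [le_div_iff₀ ht, mul_comm]
  linarith

theorem tGaU (h1 : PhUStmt) : GaUStmt := by
  intro t u ht htu hu X W hR hW
  obtain ⟨hq1, hq, hS⟩ := h1.2 X hR
  have hsup := GaU_sup (W := W) (t := t) hR hu hS
  refine ⟨fun n => GaU_id hR hu, hsup, fun n => ?_⟩
  have hL : 0 ≤ Real.log (RR X) ^ 2 := sq_nonneg _
  by_cases hn : n = 0 ∨ (RR X) ^ ((1 : ℝ) / 2) < (n : ℝ)
  · rw [hsup n hn, abs_zero]
    positivity
  · rw [not_or, not_lt] at hn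
    have hc := GaU_card (W := W) (u := u) hR ht hn.1 hn.2
    have h2 : |∑ p ∈ PrU W X t u n, (qU X n - qU X (n / p))| ≤
        (PrU W X t u n).card * Real.log (RR X) ^ 2 := by
      refine (Finset.abs_sum_le_sum_abs _ _).trans ?_
      rw [← nsmul_eq_mul]
      apply Finset.sum_le_card_nsmul
      intro p _
      rw [abs_le]
      have a1 := hq n
      have a2 := hq (n / p)
      constructor <;> linarith [a1.1, a1.2, a2.1, a2.2]
    have h3 : |qU X n| ≤ Real.log (RR X) ^ 2 := by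
      rw [abs_of_nonneg (hq n).1]
      exact (hq n).2
    unfold gU
    calc |qU X n - ∑ p ∈ PrU W X t u n, (qU X n - qU X (n / p))| ≤
          |qU X n| + |∑ p ∈ PrU W X t u n, (qU X n - qU X (n / p))| := abs_sub _ _
      _ ≤ Real.log (RR X) ^ 2 + (PrU W X t u n).card * Real.log (RR X) ^ 2 := add_le_add h3 h2
      _ ≤ Real.log (RR X) ^ 2 + 1 / t * Real.log (RR X) ^ 2 := by
          have := mul_le_mul_of_nonneg_right hc hL
          linarith
      _ = (1 + 1 / t) * Real.log (RR X) ^ 2 := by ring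

end Pool.Agent.Lib.BE
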