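import Pool.Agent.Lib.BE.SpecU
import Pool.Agent.Lib.MP_aa9ae4_nt.Mertens

/-!
PROJECT BU, module GtU: bound for the correlation sums of q and g.
-/

set_option autoImplicit false

namespace Pool.Agent.Lib.BE

open Finset
open Pool.Agent.Lib.MP_9f2731_nt.GP
open Pool.Agent.Lib.MP_9f2731_nt.GP.Sv
open Pool.Agent.Lib.MP_9f2731_nt.QL
open Pool.Agent.Lib.MP_9f2731_nt.QL.Sw
open Pool.Agent.Lib.MP_9f2731_nt.CG
open Pool.Agent.Lib.MP_9f2731_nt.CG.Ma
open Pool.Agent.Lib.MP_9f2731_nt.CG.Mf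

private theorem GtU_Qs {V p : ℕ} {R : ℝ} (hp : p ∈ QsV V R) :
    QsV V R = insert p (QsV (V * p) R) ∧ p ∉ QsV (V * p) R := by
  obtain ⟨h1, h2, h3⟩ := mem_QsV.1 hp
  constructor
  · ext q
    rw [mem_insert, mem_QsV, mem_QsV]
    constructor
    · rintro ⟨h4, h5, h6⟩
      by_cases h : q = p
      · exact Or.inl h
      · right
        refine ⟨h4, fun h7 => ?_, h6⟩
        rcases (Nat.Prime.dvd_mul h4).1 h7 with h8 | h8
        · exact h5 h8
        · exact h ((Nat.prime_dvd_prime_iff_eq h4 h1).1 h8)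
    · rintro (h | ⟨h4, h5, h6⟩)
      · subst h
        exact ⟨h1, h2, h3⟩
      · exact ⟨h4, fun h7 => h5 (Dvd.dvd.mul_right h7 p), h6⟩
  · intro h
    exact (mem_QsV.1 h).2.1 (Nat.dvd_mul_left p V)

private theorem GtU_Pq {V p : ℕ} {R : ℝ} (hp : p ∈ QsV V R) : PqV V R = PqV (V * p) R * p := by
  obtain ⟨h1, h2⟩ := GtU_Qs hp
  unfold PqV
  rw [h1, Finset.prod_insert h2, mul_comm]

private theorem GtU_cop {V p : ℕ} {R : ℝ} (hp : p ∈ QsV V R) : p.Coprime (PqV (V * p) R) := by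
  have h1 := (mem_QsV.1 hp).1
  rw [Nat.Prime.coprime_iff_not_dvd h1]
  intro h
  exact (GtU_Qs hp).2 ((prime_dvd_PqV h1).1 h)

private theorem GtU_div {V p : ℕ} (hV : V ≠ 0) (hp : p.Prime) (hc : p.Coprime V) (F : ℕ → ℝ) :
    ∑ d ∈ (V * p).divisors, F d = ∑ d ∈ V.divisors, F d + ∑ d ∈ V.divisors, F (d * p) := by
  have h1 : (V * p).divisors = V.divisors ∪ V.divisors.image (fun d => d * p) := by
    ext d
    rw [mem_union, mem_image, Nat.mem_divisors]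
    constructor
    · rintro ⟨h2, _⟩
      by_cases hpd : p ∣ d
      · right
        obtain ⟨e, rfl⟩ := hpd
        refine ⟨e, Nat.mem_divisors.2 ⟨?_, hV⟩, mul_comm _ _⟩
        rw [mul_comm p e] at h2
        exact Nat.dvd_of_mul_dvd_mul_right hp.pos h2
      · left
        have h3 : d.Coprime p := ((Nat.Prime.coprime_iff_not_dvd hp).2 hpd).symm
        exact Nat.mem_divisors.2 ⟨h3.dvd_of_dvd_mul_right h2, hV⟩
    · have hne : V * p ≠ 0 := Nat.mul_ne_zero hV hp.ne_zero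
      rintro (h2 | ⟨e, h2, rfl⟩)
      · exact ⟨(Nat.dvd_of_mem_divisors h2).trans (Nat.dvd_mul_right V p), hne⟩
      · exact ⟨Nat.mul_dvd_mul_right (Nat.dvd_of_mem_divisors h2) p, hne⟩
  have h2 : Disjoint V.divisors (V.divisors.image (fun d => d * p)) := by
    rw [Finset.disjoint_left]
    intro d hd hd'
    rw [mem_image] at hd'
    obtain ⟨e, _, rfl⟩ := hd'
    have h3 : p ∣ V := (Nat.dvd_mul_left p e).trans (Nat.dvd_of_mem_divisors hd)
    exact (Nat.Prime.coprime_iff_not_dvd hp).1 hc h3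
  rw [h1, Finset.sum_union h2, Finset.sum_image]
  intro a _ b _ hab
  exact Nat.eq_of_mul_eq_mul_right hp.pos hab

private theorem GtU_mu {d p : ℕ} (hp : p.Prime) (hc : d.Coprime p) :
    ((ArithmeticFunction.moebius (d * p) : ℤ) : ℝ) = -((ArithmeticFunction.moebius d : ℤ) : ℝ) := by
  rw [ArithmeticFunction.isMultiplicative_moebius.map_mul_of_coprime hc,
    ArithmeticFunction.moebius_apply_prime hp]
  push_cast
  ring

private theorem GtU_mem {W X : ℕ} {t u : ℝ} {d p : ℕ} :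
    p ∈ PrU W X t u d ↔ p ∈ QsV W ((RR X) ^ u) ∧ (RR X) ^ t < (p : ℝ) ∧ p ∣ d := by
  unfold PrU
  rw [mem_filter]

private theorem GtU_QR {W X : ℕ} {u : ℝ} {p : ℕ} (hR : 1 < RR X) (hu : u ≤ 1 / 4)
    (hp : p ∈ QsV W ((RR X) ^ u)) : p ∈ QsV W (RR X) := by
  rw [mem_QsV] at hp ⊢
  refine ⟨hp.1, hp.2.1, hp.2.2.trans (Nat.floor_mono ?_)⟩
  calc (RR X) ^ u ≤ (RR X) ^ (1 : ℝ) :=
        Real.rpow_le_rpow_of_exponent_le hR.le (by linarith)
    _ = RR X := Real.rpow_one _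

/-- The support. -/
private theorem GtU_sup {W X : ℕ} {t u : ℝ} (hR : 1 < RR X) (hu : u ≤ 1 / 4)
    (hS : Sup ((RR X) ^ ((1 : ℝ) / 4)) (qU X)) : Sup ((RR X) ^ ((1 : ℝ) / 2)) (gU W X t u) := by
  intro n hn
  have hR0 : 0 < RR X := by linarith
  rcases hn with hn | hn
  · subst hn
    have h0 : qU X 0 = 0 := hS 0 (Or.inl rfl)
    unfold gU
    rw [h0, Finset.sum_eq_zero, sub_zero]
    intro p _
    rw [Nat.zero_div, h0, sub_zero]
  · have h14 : (RR X) ^ ((1 : ℝ) / 4) ≤ (RR X) ^ ((1 : ℝ) / 2) :=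
      Real.rpow_le_rpow_of_exponent_le hR.le (by norm_num)
    have hqn : qU X n = 0 := hS n (Or.inr (h14.trans_lt hn))
    unfold gU
    rw [hqn, Finset.sum_eq_zero, sub_zero]
    intro p hp
    obtain ⟨h1, -, h3⟩ := GtU_mem.1 hp
    obtain ⟨h4, -, h5⟩ := mem_QsV.1 h1
    have hp0 : (0 : ℝ) < p := by exact_mod_cast h4.pos
    have h6 : (p : ℝ) ≤ (RR X) ^ ((1 : ℝ) / 4) :=
      ((Nat.le_floor_iff (by positivity)).1 h5).trans
        (Real.rpow_le_rpow_of_exponent_le hR.le hu)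
    have h7 : qU X (n / p) = 0 := by
      apply hS
      right
      rw [Nat.cast_div h3 hp0.ne', lt_div_iff₀ hp0]
      calc (RR X) ^ ((1 : ℝ) / 4) * p ≤ (RR X) ^ ((1 : ℝ) / 4) * (RR X) ^ ((1 : ℝ) / 4) :=
            mul_le_mul_of_nonneg_left h6 (by positivity)
        _ = (RR X) ^ ((1 : ℝ) / 2) := by
            rw [← Real.rpow_add hR0]
            norm_num
        _ < n := hn
    rw [h7, sub_zero]

/-- The number of the primes. -/
private theorem GtU_card {W X n : ℕ} {t u : ℝ} (hR : 1 < RR X) (ht : 0 < t) (hn : n ≠ 0)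
    (hn2 : (n : ℝ) ≤ (RR X) ^ ((1 : ℝ) / 2)) : ((PrU W X t u n).card : ℝ) ≤ 1 / t := by
  have hR0 : 0 < RR X := by linarith
  have h1 : ∏ p ∈ PrU W X t u n, p ∣ n := by
    apply Finset.prod_primes_dvd
    · intro p hp
      exact (mem_QsV.1 (GtU_mem.1 hp).1).1.prime
    · intro p hp
      exact (GtU_mem.1 hp).2.2
  have h2 : ∏ p ∈ PrU W X t u n, p ≤ n := Nat.le_of_dvd (Nat.pos_of_ne_zero hn) h1
  have h3 : ((RR X) ^ t) ^ (PrU W X t u n).card ≤ ∏ p ∈ PrU W X t u n, (p : ℝ) := by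
    rw [← Finset.prod_const]
    apply Finset.prod_le_prod
    · intro p _
      positivity
    · intro p hp
      exact (GtU_mem.1 hp).2.1.le
  have h4 : ((RR X) ^ t) ^ (PrU W X t u n).card ≤ (RR X) ^ ((1 : ℝ) / 2) := by
    refine h3.trans (le_trans ?_ hn2)
    have : ((∏ p ∈ PrU W X t u n, p : ℕ) : ℝ) ≤ (n : ℝ) := by exact_mod_cast h2
    rwa [Nat.cast_prod] at this
  rw [← Real.rpow_natCast, ← Real.rpow_mul hR0.le,
    Real.rpow_le_rpow_left_iff hR] at h4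
  rw [le_div_iff₀ ht, mul_comm]
  linarith

private theorem GtU_qU (X n : ℕ) :
    qU X n = 16 * cw ((RR X) ^ ((1 : ℝ) / 4)) n := by
  simp only [qU, pfn, ph, Fin.sum_univ_three, Matrix.cons_val_zero, Matrix.cons_val_one,
      Matrix.cons_val_two, Matrix.head_cons, Matrix.tail_cons]
  ring

private theorem GtU_log (X : ℕ) (hX : 1 ≤ X) : Real.log (RR X) = Real.log X / 5 := by
  unfold RR
  rw [Real.log_rpow (by exact_mod_cast hX)]
  ring

private theorem GtU_dl (V p : ℕ) (hV : 1 ≤ V) (hp : p.Prime) (hpV : ¬ p ∣ V) :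
    dlV V / 2 ≤ dlV (V * p) := by
  unfold dlV
  have hc : V.Coprime p := ((Nat.Prime.coprime_iff_not_dvd hp).2 hpV).symm
  rw [Nat.totient_mul hc, Nat.totient_prime hp]
  have h2 : (2 : ℝ) ≤ p := by exact_mod_cast hp.two_le
  have hV' : (0 : ℝ) < V := by exact_mod_cast hV
  rw [Nat.cast_mul, Nat.cast_mul, Nat.cast_sub hp.one_lt.le, Nat.cast_one, div_div,
    div_le_div_iff₀ (by positivity) (by positivity)]
  have h0 : (0 : ℝ) ≤ V.totient := Nat.cast_nonneg _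
  have := mul_nonneg (mul_nonneg h0 hV'.le) (sub_nonneg.2 h2)
  nlinarith

private theorem GtU_num (L s v : ℝ) (hL : 10 ≤ L) (hs : 0 < s) (hs2 : s * s = L) (hv : 1 ≤ v)
    (hv12 : v ^ 12 ≤ s) :
    (4 * v ^ 2) ^ 6 * (1 + L / 5) ^ 2 ≤ 81920 * ((L / 5) ^ 3 / s) := by
  have h1 : (4 * v ^ 2) ^ 6 = 4096 * v ^ 12 := by ring
  have h2 : (1 + L / 5) ^ 2 ≤ 4 * (L / 5) ^ 2 := by nlinarith
  rw [h1, mul_div_assoc', le_div_iff₀ hs]
  calc 4096 * v ^ 12 * (1 + L / 5) ^ 2 * s ≤ 4096 * s * (4 * (L / 5) ^ 2) * s := by gcongr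
    _ = 16384 * (L / 5) ^ 2 * (s * s) := by ring
    _ = 81920 * (L / 5) ^ 3 := by
        rw [hs2]
        ring

/-- bound for the Moebius sums of q -/
private theorem GtU_q (h5 : MRFStmt) {C1 lam : ℝ} {V X : ℕ} (hT : Tame V lam)
    (h2 : ∀ y : ℝ, 1 ≤ y → |mwV V 2 y - 2 / dlV V * Real.log y| ≤ C1 * lam ^ 2) (hC1 : 0 < C1)
    (hR : 2 ≤ RR X) (n : ℕ) :
    |MMF V (RR X) (qU X) n| ≤ 16 * (2 / dlV V * Real.log (RR X) + C1 * lam ^ 2) := by
  have hR0 : 0 < RR X := by linarith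
  have hR1 : 1 < RR X := by linarith
  have hδ := dlV_pos hT.pos
  have hlR : 0 ≤ Real.log (RR X) := Real.log_nonneg hR1.le
  have hyR : (RR X) ^ ((1 : ℝ) / 4) ≤ RR X := by
    calc (RR X) ^ ((1 : ℝ) / 4) ≤ (RR X) ^ (1 : ℝ) :=
          Real.rpow_le_rpow_of_exponent_le hR1.le (by norm_num)
      _ = RR X := Real.rpow_one _
  have e : MMF V (RR X) (qU X) n = 16 * MMF V (RR X) (cw ((RR X) ^ ((1 : ℝ) / 4))) n := by
    unfold MMF
    rw [mul_sum]
    refine sum_congr rfl fun u _ => ?_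
    rw [GtU_qU]
    ring
  have hB : 0 ≤ 2 / dlV V * Real.log (RR X) + C1 * lam ^ 2 := by positivity
  rw [e, abs_mul, abs_of_pos (by norm_num : (0 : ℝ) < 16)]
  refine mul_le_mul_of_nonneg_left ?_ (by norm_num)
  rw [h5 V (RR X) _ n hR1 hT.pos hyR]
  split_ifs with h
  · have hn1 : (1 : ℝ) ≤ n := by exact_mod_cast h.1
    have hn0 : (0 : ℝ) < n := by linarith
    have hy0 : 0 < (RR X) ^ ((1 : ℝ) / 4) := Real.rpow_pos_of_pos hR0 _
    have h3 := h2 ((RR X) ^ ((1 : ℝ) / 4) / n) ((one_le_div hn0).2 h.2)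
    have h4 : Real.log ((RR X) ^ ((1 : ℝ) / 4) / n) ≤ Real.log (RR X) :=
      Real.log_le_log (div_pos hy0 hn0) ((div_le_self hy0.le hn1).trans hyR)
    have h6 : 0 ≤ Real.log ((RR X) ^ ((1 : ℝ) / 4) / n) :=
      Real.log_nonneg ((one_le_div hn0).2 h.2)
    have h7 : 2 / dlV V * Real.log ((RR X) ^ ((1 : ℝ) / 4) / n) ≤
        2 / dlV V * Real.log (RR X) := mul_le_mul_of_nonneg_left h4 (by positivity)
    have h8 : 0 ≤ 2 / dlV V * Real.log ((RR X) ^ ((1 : ℝ) / 4) / n) := by positivity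
    rw [abs_le] at h3 ⊢
    constructor <;> linarith [h3.1, h3.2]
  · rw [abs_zero]
    exact hB

/-- a prime dividing n -/
private theorem GtU_I1 {W X n p : ℕ} (hn : p ∣ n) :
    ∑ m ∈ (PqV W (RR X)).divisors, ((ArithmeticFunction.moebius m : ℤ) : ℝ) / m *
      (if p ∣ m * n then qU X (m * n) - qU X (m * n / p) else 0) =
      MMF W (RR X) (qU X) n - MMF W (RR X) (qU X) (n / p) := by
  unfold MMF
  rw [← sum_sub_distrib]
  refine sum_congr rfl fun m _ => ?_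
  rw [if_pos (Dvd.dvd.mul_left hn m), Nat.mul_div_assoc m hn]
  ring

/-- a prime not dividing n -/
private theorem GtU_I2 {W X n p : ℕ} (hp : p ∈ QsV W (RR X)) (hn : ¬ p ∣ n) :
    ∑ m ∈ (PqV W (RR X)).divisors, ((ArithmeticFunction.moebius m : ℤ) : ℝ) / m *
      (if p ∣ m * n then qU X (m * n) - qU X (m * n / p) else 0) =
      1 / p * (MMF (W * p) (RR X) (qU X) n - MMF (W * p) (RR X) (qU X) (p * n)) := by
  have hpp := (mem_QsV.1 hp).1
  have hp0 : (p : ℝ) ≠ 0 := by exact_mod_cast hpp.ne_zero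
  rw [GtU_Pq hp, GtU_div PqV_ne hpp (GtU_cop hp)]
  have h1 : ∑ d ∈ (PqV (W * p) (RR X)).divisors, ((ArithmeticFunction.moebius d : ℤ) : ℝ) / d *
      (if p ∣ d * n then qU X (d * n) - qU X (d * n / p) else 0) = 0 := by
    refine sum_eq_zero fun d hd => ?_
    have hc : d.Coprime p :=
      Nat.Coprime.coprime_dvd_left (Nat.dvd_of_mem_divisors hd) (GtU_cop hp).symm
    rw [if_neg, mul_zero]
    intro h
    rcases (Nat.Prime.dvd_mul hpp).1 h with h | h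
    · exact (Nat.Prime.coprime_iff_not_dvd hpp).1 hc.symm h
    · exact hn h
  rw [h1, zero_add]
  unfold MMF
  rw [mul_sub, mul_sum, mul_sum, ← sum_sub_distrib]
  refine sum_congr rfl fun d hd => ?_
  have hc : d.Coprime p :=
    Nat.Coprime.coprime_dvd_left (Nat.dvd_of_mem_divisors hd) (GtU_cop hp).symm
  have hd0 : (d : ℝ) ≠ 0 := by
    have := Nat.pos_of_mem_divisors hd
    exact_mod_cast this.ne'
  have e1 : d * p * n = d * n * p := by ring
  have e2 : d * (p * n) = d * p * n := by ring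
  rw [if_pos (by rw [e1]; exact Nat.dvd_mul_left p (d * n)), GtU_mu hpp hc, e2]
  have e3 : d * p * n / p = d * n := by rw [e1, Nat.mul_div_cancel _ hpp.pos]
  rw [e3, Nat.cast_mul]
  field_simp
  ring

open Classical in
/-- the primes in (R^t, R^u] not dividing W -/
private noncomputable def GtU_Q (W X : ℕ) (t u : ℝ) : Finset ℕ :=
  (QsV W ((RR X) ^ u)).filter (fun p : ℕ => (RR X) ^ t < (p : ℝ))

private theorem GtU_PQ (W X : ℕ) (t u : ℝ) (m : ℕ) :
    PrU W X t u m = (GtU_Q W X t u).filter (fun p => p ∣ m) := by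
  ext p
  rw [mem_filter, GtU_mem]
  unfold GtU_Q
  rw [mem_filter]
  tauto

/-- decomposition of the Moebius sum of g -/
private theorem GtU_dec (W X : ℕ) (t u : ℝ) (n : ℕ) :
    MMF W (RR X) (gU W X t u) n = MMF W (RR X) (qU X) n - ∑ p ∈ GtU_Q W X t u,
      ∑ m ∈ (PqV W (RR X)).divisors, ((ArithmeticFunction.moebius m : ℤ) : ℝ) / m *
        (if p ∣ m * n then qU X (m * n) - qU X (m * n / p) else 0) := by
  rw [Finset.sum_comm]
  unfold MMF
  rw [← sum_sub_distrib]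
  refine sum_congr rfl fun m _ => ?_
  unfold gU
  rw [GtU_PQ, Finset.sum_filter, ← mul_sum]
  ring

/-- the sum of the reciprocals -/
private theorem GtU_sum {W X : ℕ} {t u : ℝ} (hR : 1 < RR X) (hL : 2 ≤ Real.log (RR X))
    (ht : 0 < t) (hu : u ≤ 1 / 4) : ∑ p ∈ GtU_Q W X t u, 1 / (p : ℝ) ≤ 3 / t := by
  have hR0 : 0 < RR X := by linarith
  obtain ⟨z, hz⟩ : ∃ z : ℕ, z = ⌊RR X⌋₊ := ⟨_, rfl⟩
  have hz1 : 1 ≤ z := by
    rw [hz]
    exact Nat.le_floor (by exact_mod_cast hR.le)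
  have hzR : (z : ℝ) ≤ RR X := by
    rw [hz]
    exact Nat.floor_le hR0.le
  have hz0 : (0 : ℝ) < z := by exact_mod_cast hz1
  have hzl : Real.log z ≤ Real.log (RR X) := Real.log_le_log hz0 hzR
  have hA := Pool.Agent.Lib.MP_aa9ae4_nt.mertensA_le z hz1
  have hl4 : Real.log 4 ≤ 2 := by
    have : Real.log 4 = 2 * Real.log 2 := by
      rw [show (4 : ℝ) = 2 ^ 2 by norm_num, Real.log_pow]
      norm_num
    have := Real.log_two_lt_d9
    linarith
  have htL : 0 < t * Real.log (RR X) := by positivity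
  have h1 : ∑ p ∈ GtU_Q W X t u, 1 / (p : ℝ) ≤
      ∑ p ∈ GtU_Q W X t u, 1 / (t * Real.log (RR X)) * (Real.log p / p) := by
    refine sum_le_sum fun p hp => ?_
    unfold GtU_Q at hp
    rw [mem_filter] at hp
    have hpp := (mem_QsV.1 hp.1).1
    have hp0 : (0 : ℝ) < p := by exact_mod_cast hpp.pos
    have h2 : t * Real.log (RR X) ≤ Real.log p := by
      rw [← Real.log_rpow hR0]
      exact Real.log_le_log (Real.rpow_pos_of_pos hR0 _) hp.2.le
    rw [one_div_mul_eq_div, div_div, div_le_div_iff₀ hp0 (by positivity)]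
    nlinarith
  have h3 : ∑ p ∈ GtU_Q W X t u, Real.log p / (p : ℝ) ≤
      Pool.Agent.Lib.MP_aa9ae4_nt.mertensA z := by
    unfold Pool.Agent.Lib.MP_aa9ae4_nt.mertensA
    refine sum_le_sum_of_subset_of_nonneg ?_ ?_
    · intro p hp
      unfold GtU_Q at hp
      rw [mem_filter] at hp
      have h4 := mem_QsV.1 (GtU_QR hR hu hp.1)
      rw [mem_filter, mem_Icc, hz]
      exact ⟨⟨h4.1.pos, h4.2.2⟩, h4.1⟩
    · intro p hp _
      rw [mem_filter, mem_Icc] at hp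
      have : 0 ≤ Real.log p := Real.log_natCast_nonneg p
      positivity
  rw [← mul_sum] at h1
  calc ∑ p ∈ GtU_Q W X t u, 1 / (p : ℝ)
      ≤ 1 / (t * Real.log (RR X)) * ∑ p ∈ GtU_Q W X t u, Real.log p / (p : ℝ) := h1
    _ ≤ 1 / (t * Real.log (RR X)) * (3 * Real.log (RR X)) := by
        refine mul_le_mul_of_nonneg_left ?_ (by positivity)
        linarith
    _ = 3 / t := by
        field_simp

/-- bound for the Moebius sums of g -/
private theorem GtU_g {W X : ℕ} {t u E : ℝ} (hR : 1 < RR X) (hL : 2 ≤ Real.log (RR X))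
    (ht : 0 < t) (hu : u ≤ 1 / 4) (hS : Sup ((RR X) ^ ((1 : ℝ) / 4)) (qU X)) (hE : 0 ≤ E)
    (hW : ∀ n, |MMF W (RR X) (qU X) n| ≤ E)
    (hWp : ∀ p ∈ QsV W (RR X), ∀ n, |MMF (W * p) (RR X) (qU X) n| ≤ E) (n : ℕ) :
    |MMF W (RR X) (gU W X t u) n| ≤ (1 + 8 / t) * E := by
  have hC : 0 ≤ (1 + 8 / t) * E := by positivity
  by_cases hn : n = 0 ∨ (RR X) ^ ((1 : ℝ) / 2) < (n : ℝ)
  · have hsup := GtU_sup (W := W) (t := t) hR hu hS
    have h0 : MMF W (RR X) (gU W X t u) n = 0 := by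
      unfold MMF
      refine sum_eq_zero fun m hm => ?_
      have hm1 : (1 : ℝ) ≤ m := by exact_mod_cast Nat.pos_of_mem_divisors hm
      rw [hsup, mul_zero]
      rcases hn with hn | hn
      · left
        rw [hn, mul_zero]
      · right
        rw [Nat.cast_mul]
        have : (0 : ℝ) ≤ n := Nat.cast_nonneg n
        nlinarith
    rw [h0, abs_zero]
    exact hC
  · rw [not_or, not_lt] at hn
    have hc := GtU_card (W := W) (u := u) hR ht hn.1 hn.2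
    rw [GtU_PQ] at hc
    rw [GtU_dec]
    have h1 : ∀ p ∈ GtU_Q W X t u, |∑ m ∈ (PqV W (RR X)).divisors,
        ((ArithmeticFunction.moebius m : ℤ) : ℝ) / m *
          (if p ∣ m * n then qU X (m * n) - qU X (m * n / p) else 0)| ≤
        (if p ∣ n then 2 * E else 0) + 2 * E * (1 / (p : ℝ)) := by
      intro p hp
      unfold GtU_Q at hp
      rw [mem_filter] at hp
      have hpQ := GtU_QR hR hu hp.1
      have hp0 : (0 : ℝ) < p := by exact_mod_cast (mem_QsV.1 hpQ).1.pos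
      by_cases hpn : p ∣ n
      · rw [GtU_I1 hpn, if_pos hpn]
        have a1 := hW n
        have a2 := hW (n / p)
        have a3 : 0 ≤ 2 * E * (1 / (p : ℝ)) := by positivity
        rw [abs_le] at a1 a2 ⊢
        constructor <;> linarith [a1.1, a1.2, a2.1, a2.2]
      · rw [GtU_I2 hpQ hpn, if_neg hpn, zero_add, abs_mul,
          abs_of_pos (show (0 : ℝ) < 1 / p by positivity), mul_comm]
        refine mul_le_mul_of_nonneg_right ?_ (by positivity)
        have a1 := hWp p hpQ n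
        have a2 := hWp p hpQ (p * n)
        rw [abs_le] at a1 a2 ⊢
        constructor <;> linarith [a1.1, a1.2, a2.1, a2.2]
    have h2 : |∑ p ∈ GtU_Q W X t u, ∑ m ∈ (PqV W (RR X)).divisors,
        ((ArithmeticFunction.moebius m : ℤ) : ℝ) / m *
          (if p ∣ m * n then qU X (m * n) - qU X (m * n / p) else 0)| ≤ 8 / t * E := by
      refine (abs_sum_le_sum_abs _ _).trans ((sum_le_sum h1).trans ?_)
      rw [sum_add_distrib, ← Finset.sum_filter, Finset.sum_const, nsmul_eq_mul, ← mul_sum]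
      have h3 := GtU_sum (W := W) hR hL ht hu
      have h4 : (((GtU_Q W X t u).filter (fun p => p ∣ n)).card : ℝ) * (2 * E) ≤
          1 / t * (2 * E) := mul_le_mul_of_nonneg_right hc (by positivity)
      have h5 : 2 * E * ∑ p ∈ GtU_Q W X t u, 1 / (p : ℝ) ≤ 2 * E * (3 / t) :=
        mul_le_mul_of_nonneg_left h3 (by positivity)
      have h6 : 1 / t * (2 * E) + 2 * E * (3 / t) = 8 / t * E := by ring
      linarith
    have h7 := hW n
    refine (abs_sub _ _).trans ?_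
    have : (1 + 8 / t) * E = E + 8 / t * E := by ring
    linarith

/-- the numbers -/
private theorem GtU_fin {i L C1 C2 lam δ Q G E H : ℝ} (hδ1 : δ ≤ 1) (hδ0 : 0 < δ)
    (hδi : δ * i = 1) (hi : i ≤ lam) (hlam : 1 ≤ lam) (hL : 1 ≤ L) (hC1 : 0 < C1) (hC2 : 0 < C2)
    (hG : G = L ^ 3 * i) (hQ : lam ^ 6 * (1 + L) ^ 2 ≤ Q * G) (hE : E = 64 * (i * L + C1 * lam ^ 2))
    (hH : H ≤ δ * L + C2 * lam) (hQ0 : 0 ≤ Q) :
    H * (E * E) ≤ 8192 * (1 + (C1 ^ 2 + C2 + C1 ^ 2 * C2) * Q) * G := by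
  have hi0 : 0 < i := by
    by_contra hcon
    push Not at hcon
    nlinarith
  have hG0 : 0 ≤ G := by rw [hG]; positivity
  have hlam0 : 0 < lam := by linarith
  have hEE : E * E ≤ 8192 * (i ^ 2 * L ^ 2 + C1 ^ 2 * lam ^ 4) := by
    rw [hE]
    nlinarith [sq_nonneg (i * L - C1 * lam ^ 2)]
  have hEE0 : 0 ≤ E * E := mul_self_nonneg E
  have h1 : H * (E * E) ≤ (δ * L + C2 * lam) * (8192 * (i ^ 2 * L ^ 2 + C1 ^ 2 * lam ^ 4)) := by
    calc H * (E * E) ≤ (δ * L + C2 * lam) * (E * E) := mul_le_mul_of_nonneg_right hH hEE0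
      _ ≤ _ := mul_le_mul_of_nonneg_left hEE (by positivity)
  obtain ⟨Z, hZ⟩ : ∃ Z, Z = lam ^ 6 * (1 + L) ^ 2 := ⟨_, rfl⟩
  have hl3 : lam ^ 3 ≤ lam ^ 6 := pow_le_pow_right₀ hlam (by norm_num)
  have hl4 : lam ^ 4 ≤ lam ^ 6 := pow_le_pow_right₀ hlam (by norm_num)
  have hl5 : lam ^ 5 ≤ lam ^ 6 := pow_le_pow_right₀ hlam (by norm_num)
  have hLL : L ≤ (1 + L) ^ 2 := by nlinarith
  have hL2 : L ^ 2 ≤ (1 + L) ^ 2 := by nlinarith
  have hL1 : (1 : ℝ) ≤ (1 + L) ^ 2 := by nlinarith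
  have b1 : i ^ 2 * lam * L ^ 2 ≤ Z := by
    rw [hZ]
    have h8 : i ^ 2 ≤ lam ^ 2 := pow_le_pow_left₀ hi0.le hi 2
    have h7 : i ^ 2 * lam ≤ lam ^ 3 := by
      calc i ^ 2 * lam ≤ lam ^ 2 * lam := mul_le_mul_of_nonneg_right h8 hlam0.le
        _ = lam ^ 3 := by ring
    exact mul_le_mul (h7.trans hl3) hL2 (by positivity) (by positivity)
  have b2 : lam ^ 4 * (δ * L) ≤ Z := by
    rw [hZ]
    have h7 : δ * L ≤ L := mul_le_of_le_one_left (by linarith) hδ1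
    exact mul_le_mul hl4 (h7.trans hLL) (by positivity) (by positivity)
  have b3 : lam ^ 5 ≤ Z := by
    rw [hZ]
    calc lam ^ 5 = lam ^ 5 * 1 := (mul_one _).symm
      _ ≤ lam ^ 6 * (1 + L) ^ 2 := mul_le_mul hl5 hL1 (by norm_num) (by positivity)
  have e1 : (δ * L + C2 * lam) * (8192 * (i ^ 2 * L ^ 2 + C1 ^ 2 * lam ^ 4)) =
      8192 * (G + C2 * (i ^ 2 * lam * L ^ 2) + C1 ^ 2 * (lam ^ 4 * (δ * L)) +
        C1 ^ 2 * C2 * lam ^ 5) := by
    rw [hG]
    calc (δ * L + C2 * lam) * (8192 * (i ^ 2 * L ^ 2 + C1 ^ 2 * lam ^ 4)) =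
        8192 * ((δ * i) * L ^ 3 * i + C2 * (i ^ 2 * lam * L ^ 2) + C1 ^ 2 * (lam ^ 4 * (δ * L)) +
        C1 ^ 2 * C2 * lam ^ 5) := by ring
      _ = _ := by rw [hδi, one_mul]
  rw [e1] at h1
  rw [← hZ] at hQ
  have c1 : C2 * (i ^ 2 * lam * L ^ 2) ≤ C2 * (Q * G) :=
    mul_le_mul_of_nonneg_left (b1.trans hQ) hC2.le
  have c2 : C1 ^ 2 * (lam ^ 4 * (δ * L)) ≤ C1 ^ 2 * (Q * G) :=
    mul_le_mul_of_nonneg_left (b2.trans hQ) (by positivity)
  have c3 : C1 ^ 2 * C2 * lam ^ 5 ≤ C1 ^ 2 * C2 * (Q * G) :=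
    mul_le_mul_of_nonneg_left (b3.trans hQ) (by positivity)
  nlinarith

theorem tGtU (h1 : TmAStmt) (h2 : TmBStmt) (h3 : HwTStmt) (h4 : M2TStmt) (h5 : MRFStmt)
    (h6 : PhUStmt) : GtUStmt := by
  intro t u ht htu hu
  obtain ⟨C2, hC2, h3⟩ := h3
  obtain ⟨C1, hC1, h4⟩ := h4
  refine ⟨8192 * (1 + (C1 ^ 2 + C2 + C1 ^ 2 * C2) * 81920) * (1 + 8 / t), Real.exp 10,
    by positivity, ?_⟩
  intro X w V p0 K a c hX hS b b'
  have hXr : (0 : ℝ) < X := lt_of_lt_of_le (Real.exp_pos _) hX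
  have hX1 : 1 ≤ X := by
    have : 0 < X := by exact_mod_cast hXr
    omega
  obtain ⟨L, hL⟩ : ∃ L : ℝ, L = Real.log X := ⟨_, rfl⟩
  have hL10 : 10 ≤ L := by
    rw [hL, Real.le_log_iff_exp_le hXr]
    exact hX
  have hlR : Real.log (RR X) = L / 5 := by
    rw [hL]
    exact GtU_log X hX1
  have hR0 : 0 < RR X := by
    unfold RR
    exact Real.rpow_pos_of_pos hXr _
  have hR2 : 2 ≤ RR X := by
    rw [← Real.exp_log hR0, hlR]
    have := Real.add_one_le_exp (L / 5)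
    linarith
  obtain ⟨s, hs⟩ : ∃ s : ℝ, s = Real.sqrt L := ⟨_, rfl⟩
  have hs2 : s * s = L := by
    rw [hs]
    exact Real.mul_self_sqrt (by linarith)
  have hs1 : 1 ≤ s := by
    rw [hs]
    exact Real.one_le_sqrt.2 (by linarith)
  have hs0 : 0 < s := by linarith
  obtain ⟨v, hv⟩ : ∃ v : ℝ, v = 1 + Real.log V := ⟨_, rfl⟩
  have hV1 : (1 : ℝ) ≤ V := by exact_mod_cast hS.hV
  have hv1 : 1 ≤ v := by
    rw [hv]
    have := Real.log_nonneg hV1
    linarith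
  have hv12 : v ^ 12 ≤ s := by
    rw [hv, hs, hL]
    exact hS.hlog
  have hVp : 1 ≤ V * p0 := Nat.mul_pos hS.hV hS.hp.pos
  have hd0 : 0 < dlV (V * p0) := dlV_pos hVp
  have hd1 : dlV (V * p0) ≤ 1 := dlV_le_one _
  have hT : Tame (V * p0) (4 * v ^ 2) := by
    have := h2 V p0 _ (h1 V hS.hV) hS.hp hS.hpV
    rw [← hv] at this
    have h : 2 * (2 * v ^ 2) = 4 * v ^ 2 := by ring
    rwa [h] at this
  obtain ⟨W, hW⟩ : ∃ W, W = V * p0 := ⟨_, rfl⟩
  rw [← hW] at hVp hd0 hd1 hT ⊢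
  obtain ⟨lam, hlam⟩ : ∃ lam, lam = 4 * v ^ 2 := ⟨_, rfl⟩
  rw [← hlam] at hT
  obtain ⟨i, hi⟩ : ∃ i, i = 1 / dlV W := ⟨_, rfl⟩
  have hi0 : 0 < i := by rw [hi]; positivity
  have hδi : dlV W * i = 1 := by
    rw [hi]
    field_simp
  obtain ⟨E, hE⟩ : ∃ E, E = 64 * (i * (L / 5) + C1 * lam ^ 2) := ⟨_, rfl⟩
  have hlam1 := hT.one
  have hl0 : 0 < L / 5 := by linarith
  have hE0 : 0 ≤ E := by rw [hE]; positivity
  have hMW : ∀ n, |MMF W (RR X) (qU X) n| ≤ E := by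
    intro n
    refine (GtU_q h5 hT (fun y hy => h4 W lam y hT hy) hC1 hR2 n).trans ?_
    rw [hE, hlR, hi]
    have e1 : 0 ≤ 1 / dlV W * (L / 5) := by positivity
    have e2 : 0 ≤ C1 * lam ^ 2 := by positivity
    have e3 : 2 / dlV W * (L / 5) = 2 * (1 / dlV W * (L / 5)) := by ring
    rw [e3]
    linarith
  have hMWp : ∀ p ∈ QsV W (RR X), ∀ n, |MMF (W * p) (RR X) (qU X) n| ≤ E := by
    intro p hp n
    obtain ⟨hpp, hpW, -⟩ := mem_QsV.1 hp
    have hTp : Tame (W * p) (2 * lam) := h2 W p _ hT hpp hpW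
    refine (GtU_q h5 hTp (fun y hy => h4 (W * p) (2 * lam) y hTp hy) hC1 hR2 n).trans ?_
    have hdp := GtU_dl W p hVp hpp hpW
    have hdp0 : 0 < dlV (W * p) := lt_of_lt_of_le (by linarith) hdp
    rw [hE, hlR, hi]
    have e1 : 2 / dlV (W * p) ≤ 4 * (1 / dlV W) := by
      rw [mul_one_div, div_le_div_iff₀ hdp0 hd0]
      linarith
    have e2 : 2 / dlV (W * p) * (L / 5) ≤ 4 * (1 / dlV W) * (L / 5) :=
      mul_le_mul_of_nonneg_right e1 hl0.le
    have e3 : C1 * (2 * lam) ^ 2 = 4 * (C1 * lam ^ 2) := by ring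
    rw [e3]
    linarith
  have hR1 : 1 < RR X := by linarith
  have hg := fun n => GtU_g (t := t) (u := u) hR1 (by rw [hlR]; linarith) ht hu (h6.2 X hR1).2.2
    hE0 hMW hMWp n
  have hh := (h3 W lam (RR X) hT hR1.le).1
  have hhw : hwV W 0 (RR X) ≤ dlV W * (L / 5) + C2 * lam := by
    have := (abs_le.1 hh).2
    rw [hlR] at this
    linarith
  have hTT : |TTF W (RR X) (qU X) (gU W X t u) b b'| ≤
      hwV W 0 (RR X) * (E * ((1 + 8 / t) * E)) := by
    unfold TTF hwV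
    rw [sum_mul]
    refine (abs_sum_le_sum_abs _ _).trans (sum_le_sum fun g _ => ?_)
    rw [abs_mul, abs_mul, abs_of_nonneg (show (0 : ℝ) ≤ 1 / (g : ℝ) by positivity), pow_zero, mul_one,
      mul_assoc]
    exact mul_le_mul_of_nonneg_left (mul_le_mul (hMW _) (hg _) (abs_nonneg _) hE0) (by positivity)
  have hG' : GG W X = (L / 5) ^ 3 * i := by
    unfold GG
    rw [hlR, hi]
    ring
  have hQ : lam ^ 6 * (1 + L / 5) ^ 2 ≤ 81920 * GG W X := by
    rw [hlam]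
    refine (GtU_num L s v hL10 hs0 hs2 hv1 hv12).trans ?_
    refine mul_le_mul_of_nonneg_left ?_ (by norm_num)
    rw [hG']
    have e1 : (L / 5) ^ 3 / s ≤ (L / 5) ^ 3 := div_le_self (by positivity) hs1
    have e2 : 1 ≤ i := by
      rw [hi, le_div_iff₀ hd0]
      linarith
    have e3 : 0 ≤ (L / 5) ^ 3 := by positivity
    nlinarith
  have hfin := GtU_fin hd1 hd0 hδi (by rw [hi]; exact hT.inv) hlam1 (by linarith) hC1 hC2 hG' hQ hE
    hhw (by norm_num)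
  refine hTT.trans ?_
  have ht8 : 0 ≤ 1 + 8 / t := by positivity
  calc hwV W 0 (RR X) * (E * ((1 + 8 / t) * E)) = hwV W 0 (RR X) * (E * E) * (1 + 8 / t) := by ring
    _ ≤ 8192 * (1 + (C1 ^ 2 + C2 + C1 ^ 2 * C2) * 81920) * GG W X * (1 + 8 / t) :=
        mul_le_mul_of_nonneg_right hfin ht8
    _ = 8192 * (1 + (C1 ^ 2 + C2 + C1 ^ 2 * C2) * 81920) * (1 + 8 / t) * GG W X := by ring

end Pool.Agent.Lib.BE
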