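import Pool.Agent.Lib.BE.SpecU

/-!
MP_9f2731_nt, project BU, module IdU: the sieve weight at rough values of the forms.
-/

set_option autoImplicit false

namespace Pool.Agent.Lib.BE

open Finset
open Pool.Agent.Lib.MP_9f2731_nt.GP
open Pool.Agent.Lib.MP_9f2731_nt.GP.Sv
open Pool.Agent.Lib.MP_9f2731_nt.QL
open Pool.Agent.Lib.MP_9f2731_nt.QL.Sw
open Pool.Agent.Lib.MP_9f2731_nt.CG
open Pool.Agent.Lib.MP_9f2731_nt.CG.Ma
open Pool.Agent.Lib.MP_9f2731_nt.CG.Mf

private theorem IdU_one {W X n : ℕ} {t : ℝ} {f : ℕ → ℝ} (hf : Sup ((RR X) ^ t) f)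
    (hY : Yr W X t n) : AF W (RR X) f n = f 1 := by
  unfold AF
  rw [Finset.sum_eq_single 1]
  · have h1 : ind 1 n = 1 := by
      unfold ind
      rw [if_pos (one_dvd n)]
    rw [h1, ArithmeticFunction.moebius_apply_one]
    simp
  · intro d hd hd1
    by_cases hdn : d ∣ n
    · have hd0 : 0 < d := Nat.pos_of_mem_divisors hd
      have hp : d.minFac.Prime := Nat.minFac_prime hd1
      have hpd : d.minFac ∣ d := Nat.minFac_dvd d
      have hpq : d.minFac ∈ QsV W (RR X) :=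
        (prime_dvd_PqV hp).1 (hpd.trans (Nat.dvd_of_mem_divisors hd))
      have hnot : d.minFac ∉ QsV W ((RR X) ^ t) := fun h => hY _ h (hpd.trans hdn)
      have hgt : ⌊(RR X) ^ t⌋₊ < d.minFac := by
        by_contra hcon
        exact hnot (mem_QsV.2 ⟨hp, (mem_QsV.1 hpq).2.1, not_lt.1 hcon⟩)
      have hgt' : (RR X) ^ t < (d.minFac : ℝ) := Nat.lt_of_floor_lt hgt
      have hle : (d.minFac : ℝ) ≤ (d : ℝ) := by exact_mod_cast Nat.minFac_le hd0
      rw [hf d (Or.inr (lt_of_lt_of_le hgt' hle)), mul_zero]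
    · have h0 : ind d n = 0 := by
        unfold ind
        rw [if_neg hdn]
      rw [h0, mul_zero, zero_mul]
  · intro h
    exact absurd (Nat.mem_divisors.2 ⟨one_dvd _, PqV_ne⟩) h

theorem tIdU (h1 : PfBStmt) : IdUStmt := by
  intro K r P bd 𝒜 t hV ht ht1 hbe X W b a c D hR hW hY
  unfold WWC UD
  rw [Finset.mul_sum]
  refine Finset.sum_congr rfl fun v _ => ?_
  rw [← Finset.prod_sdiff (Finset.subset_univ D)]
  have hD : ∏ j ∈ D, AF W (RR X) (pfn (P (v j)) (RR X)) (a j * b + c j)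
      = Real.log (RR X) ^ (2 * D.card) * ∏ j ∈ D, im (P (v j)) := by
    have h2 : ∀ j ∈ D, AF W (RR X) (pfn (P (v j)) (RR X)) (a j * b + c j)
        = Real.log (RR X) ^ 2 * im (P (v j)) := by
      intro j hj
      have hok : Pok (P (v j)) := fun s =>
        ⟨(hV.be (v j) s).1, (hbe (v j) s).trans ht1⟩
      have h3 := h1 (P (v j)) (RR X) hR.le hok
      rw [IdU_one (h3.2.1 t (hbe (v j))) (hY j hj), h3.2.2]
    rw [Finset.prod_congr rfl h2, Finset.prod_mul_distrib, Finset.prod_const, ← pow_mul]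
  rw [hD]
  ring

end Pool.Agent.Lib.BE
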