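import Pool.Agent.Lib.BE.SpecU

/-!
# Project BU, the quadratic forms JD, algebra (helper35)
-/

set_option autoImplicit false

namespace Pool.Agent.Lib.BE

open Finset
open Pool.Agent.Lib.MP_9f2731_nt.GP
open Pool.Agent.Lib.MP_9f2731_nt.GP.Sv
open Pool.Agent.Lib.MP_9f2731_nt.QL
open Pool.Agent.Lib.MP_9f2731_nt.QL.Sw
open Pool.Agent.Lib.MP_9f2731_nt.CG
open Pool.Agent.Lib.MP_9f2731_nt.CG.Ma
open Pool.Agent.Lib.MP_9f2731_nt.CG.Mf

private theorem JdU_pair {K : ℕ} (l j : Fin K) :
    (univ : Finset (Fin K)) \ {l, j} = (univ.erase l).erase j := by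
  ext i
  simp only [mem_sdiff, mem_univ, true_and, mem_insert, mem_singleton, not_or, mem_erase]
  constructor
  · intro h
    exact ⟨h.2, h.1, trivial⟩
  · intro h
    exact ⟨h.2.1, h.1⟩

theorem tJdU : JdUStmt := by
  intro K r P 𝒜
  refine ⟨?_, ?_, ?_, ?_⟩
  · unfold JD Iq
    refine sum_congr rfl fun v _ => sum_congr rfl fun u _ => ?_
    rw [prod_empty, one_mul, sdiff_empty]
  · intro l
    unfold JD Jq
    refine sum_congr rfl fun v _ => sum_congr rfl fun u _ => ?_
    rw [prod_singleton, sdiff_singleton_eq_erase]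
  · intro l j hlj
    unfold JD Jq2
    refine sum_congr rfl fun v _ => sum_congr rfl fun u _ => ?_
    rw [prod_pair hlj, JdU_pair]
  · intro hip him D
    unfold JD
    refine sum_nonneg fun v _ => sum_nonneg fun u _ => mul_nonneg ?_ ?_
    · exact prod_nonneg fun j _ => mul_nonneg (him _).le (him _).le
    · exact prod_nonneg fun j _ => hip _ _

end Pool.Agent.Lib.BE
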