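import Pool.Agent.Lib.BE.SpecU

/-!
Module MkU: Markov's inequality for the tensor sums, with the loss e0 (port of CG/Mv/MkV.lean).
-/

set_option autoImplicit false

namespace Pool.Agent.Lib.BE

open Finset
open Pool.Agent.Lib.MP_9f2731_nt.GP Pool.Agent.Lib.MP_9f2731_nt.GP.Sv Pool.Agent.Lib.MP_9f2731_nt.QL
  Pool.Agent.Lib.MP_9f2731_nt.QL.Sw Pool.Agent.Lib.MP_9f2731_nt.CG Pool.Agent.Lib.MP_9f2731_nt.CG.Ma
  Pool.Agent.Lib.MP_9f2731_nt.CG.Mf

/-- the product formula -/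
private theorem MkU_prod2 {K r : ℕ} (A : Fin K → Fin r → Fin r → ℝ) :
    ∑ v : Fin K → Fin r, ∑ u : Fin K → Fin r, ∏ j, A j (v j) (u j) =
      ∏ j, ∑ i, ∑ i', A j i i' := by
  rw [Finset.prod_univ_sum, Fintype.piFinset_univ]
  apply Finset.sum_congr rfl
  intro v _
  rw [Finset.prod_univ_sum, Fintype.piFinset_univ]

private theorem MkU_prod_upd {K : ℕ} (f : Fin K → ℝ) (i : Fin K) (b : ℝ) :
    (∏ x, Function.update f i b x) * f i = b * ∏ x, f x := by
  rw [Finset.prod_update_of_mem (Finset.mem_univ i),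
    ← Finset.mul_prod_erase univ f (Finset.mem_univ i), Finset.sdiff_singleton_eq_erase]
  ring

private theorem MkU_prod_fac {K r : ℕ} (A : Fin K → Fin r → Fin r → ℝ) (i : Fin K)
    (B : Fin r → Fin r → ℝ) (v u : Fin K → Fin r) :
    ∏ j, Function.update A i B j (v j) (u j) =
      B (v i) (u i) * ∏ j ∈ univ.erase i, A j (v j) (u j) := by
  rw [← Finset.mul_prod_erase univ _ (Finset.mem_univ i), Function.update_self]
  congr 1
  apply Finset.prod_congr rfl
  intro j hj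
  rw [Function.update_of_ne (Finset.ne_of_mem_erase hj)]

private theorem MkU_sum_upd {K r : ℕ} (A : Fin K → Fin r → Fin r → ℝ) (i : Fin K)
    (B : Fin r → Fin r → ℝ) :
    (∏ j, ∑ a, ∑ b, Function.update A i B j a b) * (∑ a, ∑ b, A i a b) =
      (∑ a, ∑ b, B a b) * ∏ j, ∑ a, ∑ b, A j a b := by
  rw [← MkU_prod_upd (fun j => ∑ a, ∑ b, A j a b) i (∑ a, ∑ b, B a b)]
  congr 1
  apply Finset.prod_congr rfl
  intro j _
  by_cases h : j = i
  · subst h
    rw [Function.update_self, Function.update_self]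
  · rw [Function.update_of_ne h, Function.update_of_ne h]

private noncomputable def MkU_Wt {K r : ℕ} (α : Fin r → Fin r → ℝ) (m : Fin r → ℝ) (l : Fin K)
    (v u : Fin K → Fin r) : ℝ :=
  m (v l) * m (u l) * ∏ j ∈ univ.erase l, α (v j) (u j)

private theorem MkU_Wt_eq {K r : ℕ} (α : Fin r → Fin r → ℝ) (m : Fin r → ℝ) (l : Fin K)
    (v u : Fin K → Fin r) :
    MkU_Wt α m l v u =
      ∏ j, Function.update (fun _ => α) l (fun i i' => m i * m i') j (v j) (u j) := by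
  rw [MkU_prod_fac]
  rfl

private theorem MkU_lWt_eq {K r : ℕ} (α : Fin r → Fin r → ℝ) (m ℓ : Fin r → ℝ) (l j₀ : Fin K)
    (h : j₀ ≠ l) (v u : Fin K → Fin r) :
    ℓ (v j₀) * MkU_Wt α m l v u =
      ∏ j, Function.update (Function.update (fun _ => α) l (fun i i' => m i * m i')) j₀
        (fun i i' => ℓ i * α i i') j (v j) (u j) := by
  rw [MkU_prod_fac, MkU_Wt_eq, ← Finset.mul_prod_erase univ _ (Finset.mem_univ j₀),
    Function.update_of_ne h]
  ring

private theorem MkU_sum_Wt {K r : ℕ} (α : Fin r → Fin r → ℝ) (m : Fin r → ℝ) (l : Fin K)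
    (hS : 0 < ∑ i, ∑ j, α i j) :
    ∑ v, ∑ u, MkU_Wt α m l v u = (∑ i, m i) ^ 2 * (∑ i, ∑ j, α i j) ^ (K - 1) := by
  simp only [MkU_Wt_eq]
  rw [MkU_prod2]
  have h := MkU_sum_upd (fun _ : Fin K => α) l (fun i i' => m i * m i')
  rw [Finset.prod_const, Finset.card_univ, Fintype.card_fin] at h
  have hK : K = K - 1 + 1 := by
    have := l.pos
    omega
  have h2 : ∑ a, ∑ b, m a * m b = (∑ i, m i) ^ 2 := by
    rw [sq, Finset.sum_mul_sum]
  rw [h2] at h
  have h3 : (∑ i, m i) ^ 2 * (∑ i, ∑ j, α i j) ^ K =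
      ((∑ i, m i) ^ 2 * (∑ i, ∑ j, α i j) ^ (K - 1)) * (∑ i, ∑ j, α i j) := by
    rw [mul_assoc, ← pow_succ, ← hK]
  rw [h3] at h
  exact mul_right_cancel₀ hS.ne' h

private theorem MkU_sum_lWt {K r : ℕ} (α : Fin r → Fin r → ℝ) (m ℓ : Fin r → ℝ) (l j₀ : Fin K)
    (h : j₀ ≠ l) (hS : 0 < ∑ i, ∑ j, α i j) :
    (∑ v, ∑ u, ℓ (v j₀) * MkU_Wt α m l v u) * (∑ i, ∑ j, α i j) =
      (∑ i, ∑ j, ℓ i * α i j) * ((∑ i, m i) ^ 2 * (∑ i, ∑ j, α i j) ^ (K - 1)) := by
  rw [← MkU_sum_Wt α m l hS]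
  simp only [MkU_lWt_eq α m ℓ l j₀ h]
  simp only [MkU_Wt_eq]
  rw [MkU_prod2, MkU_prod2]
  have h1 := MkU_sum_upd (Function.update (fun _ : Fin K => α) l (fun i i' => m i * m i')) j₀
    (fun i i' => ℓ i * α i i')
  rw [Function.update_of_ne h] at h1
  exact h1

private theorem MkU_Wt_symm {K r : ℕ} (α : Fin r → Fin r → ℝ) (m : Fin r → ℝ) (l : Fin K)
    (hα : ∀ i j, α i j = α j i) (v u : Fin K → Fin r) : MkU_Wt α m l v u = MkU_Wt α m l u v := by
  unfold MkU_Wt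
  rw [mul_comm (m (v l))]
  congr 1
  apply Finset.prod_congr rfl
  intro j _
  exact hα _ _

private theorem MkU_Wt_nonneg {K r : ℕ} (α : Fin r → Fin r → ℝ) (m : Fin r → ℝ) (l : Fin K)
    (hα : ∀ i j, 0 ≤ α i j) (hm : ∀ i, 0 ≤ m i) (v u : Fin K → Fin r) : 0 ≤ MkU_Wt α m l v u :=
  mul_nonneg (mul_nonneg (hm _) (hm _)) (Finset.prod_nonneg (fun _ _ => hα _ _))

private theorem MkU_sum_ell {K r : ℕ} (α : Fin r → Fin r → ℝ) (m ℓ : Fin r → ℝ) (l : Fin K)
    (hS : 0 < ∑ i, ∑ j, α i j) :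
    (∑ v, ∑ u, (∑ j ∈ univ.erase l, ℓ (v j)) * MkU_Wt α m l v u) * (∑ i, ∑ j, α i j) =
      ((K : ℝ) - 1) * ((∑ i, ∑ j, ℓ i * α i j) *
        ((∑ i, m i) ^ 2 * (∑ i, ∑ j, α i j) ^ (K - 1))) := by
  have h1 : ∑ v, ∑ u, (∑ j ∈ univ.erase l, ℓ (v j)) * MkU_Wt α m l v u =
      ∑ j ∈ univ.erase l, ∑ v, ∑ u, ℓ (v j) * MkU_Wt α m l v u := by
    symm
    rw [Finset.sum_comm]
    apply Finset.sum_congr rfl
    intro v _
    rw [Finset.sum_comm]
    apply Finset.sum_congr rfl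
    intro u _
    rw [Finset.sum_mul]
  rw [h1, Finset.sum_mul]
  rw [Finset.sum_congr rfl (fun j hj => MkU_sum_lWt α m ℓ l j (Finset.ne_of_mem_erase hj) hS)]
  rw [Finset.sum_const, Finset.card_erase_of_mem (Finset.mem_univ l), Finset.card_univ,
    Fintype.card_fin, nsmul_eq_mul, Nat.cast_sub l.pos, Nat.cast_one]

open Classical in
theorem tMkU : MkUStmt := by
  intro K r α m ℓ D Lm e0 hK he0 hα hαs hm hℓ hLD hS hT
  have hnn : ∀ v u : Fin K → Fin r, 0 ≤ ∏ j, α (v j) (u j) := fun v u =>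
    Finset.prod_nonneg (fun _ _ => hα _ _)
  constructor
  · calc (∑ v ∈ univ.filter (fun v : Fin K → Fin r => ∑ j, ℓ (v j) ≤ D),
        ∑ u ∈ univ.filter (fun u : Fin K → Fin r => ∑ j, ℓ (u j) ≤ D), ∏ j, α (v j) (u j))
        ≤ ∑ v ∈ univ.filter (fun v : Fin K → Fin r => ∑ j, ℓ (v j) ≤ D),
          ∑ u : Fin K → Fin r, ∏ j, α (v j) (u j) := by
          apply Finset.sum_le_sum
          intro v _
          exact Finset.sum_le_sum_of_subset_of_nonneg (Finset.filter_subset _ _)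
            (fun u _ _ => hnn v u)
      _ ≤ ∑ v : Fin K → Fin r, ∑ u : Fin K → Fin r, ∏ j, α (v j) (u j) :=
          Finset.sum_le_sum_of_subset_of_nonneg (Finset.filter_subset _ _)
            (fun v _ _ => Finset.sum_nonneg (fun u _ => hnn v u))
      _ = (∑ i, ∑ j, α i j) ^ K := by
          rw [MkU_prod2 (fun _ => α), Finset.prod_const, Finset.card_univ, Fintype.card_fin]
  · intro l
    set S := ∑ i, ∑ j, α i j with hSd
    set M := ∑ i, m i with hMd
    set T := ∑ i, ∑ j, ℓ i * α i j with hTd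
    have hE : 0 < D - Lm := by linarith
    have hW : ∀ v u, 0 ≤ MkU_Wt α m l v u := MkU_Wt_nonneg α m l hα hm
    have hsplit : ∀ v : Fin K → Fin r, ∑ j, ℓ (v j) = ℓ (v l) + ∑ j ∈ univ.erase l, ℓ (v j) :=
      fun v => (Finset.add_sum_erase univ (fun j => ℓ (v j)) (Finset.mem_univ l)).symm
    have hnn' : ∀ v : Fin K → Fin r, 0 ≤ ∑ j ∈ univ.erase l, ℓ (v j) := fun v =>
      Finset.sum_nonneg (fun j _ => (hℓ _).1)
    -- the pointwise inequality
    have hpt : ∀ v u : Fin K → Fin r,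
        (D - Lm) * MkU_Wt α m l v u - (∑ j ∈ univ.erase l, ℓ (v j)) * MkU_Wt α m l v u -
          (∑ j ∈ univ.erase l, ℓ (u j)) * MkU_Wt α m l v u ≤
        if ∑ j, ℓ (v j) ≤ D then (if ∑ j, ℓ (u j) ≤ D then (D - Lm) * MkU_Wt α m l v u else 0)
          else 0 := by
      intro v u
      have h1 := mul_nonneg (hnn' v) (hW v u)
      have h2 := mul_nonneg (hnn' u) (hW v u)
      split_ifs with hv hu
      · linarith
      · have h3 : D - Lm ≤ ∑ j ∈ univ.erase l, ℓ (u j) := by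
          rw [hsplit] at hu
          linarith [(hℓ (u l)).2]
        have h4 := mul_le_mul_of_nonneg_right h3 (hW v u)
        linarith
      · have h3 : D - Lm ≤ ∑ j ∈ univ.erase l, ℓ (v j) := by
          rw [hsplit] at hv
          linarith [(hℓ (v l)).2]
        have h4 := mul_le_mul_of_nonneg_right h3 (hW v u)
        linarith
    have hsum := Finset.sum_le_sum (fun v (_ : v ∈ (univ : Finset (Fin K → Fin r))) =>
      Finset.sum_le_sum (fun u (_ : u ∈ (univ : Finset (Fin K → Fin r))) => hpt v u))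
    have hR : ∑ v : Fin K → Fin r, ∑ u : Fin K → Fin r,
        (if ∑ j, ℓ (v j) ≤ D then (if ∑ j, ℓ (u j) ≤ D then (D - Lm) * MkU_Wt α m l v u else 0)
          else 0) =
        (D - Lm) * ∑ v ∈ univ.filter (fun v : Fin K → Fin r => ∑ j, ℓ (v j) ≤ D),
          ∑ u ∈ univ.filter (fun u : Fin K → Fin r => ∑ j, ℓ (u j) ≤ D), MkU_Wt α m l v u := by
      rw [Finset.sum_filter, Finset.mul_sum]
      apply Finset.sum_congr rfl
      intro v _
      split_ifs with hv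
      · rw [Finset.sum_filter, Finset.mul_sum]
        apply Finset.sum_congr rfl
        intro u _
        split_ifs
        · rfl
        · rw [mul_zero]
      · rw [mul_zero, Finset.sum_const_zero]
    have hswap : ∑ v : Fin K → Fin r, ∑ u : Fin K → Fin r,
        (∑ j ∈ univ.erase l, ℓ (u j)) * MkU_Wt α m l v u =
        ∑ v : Fin K → Fin r, ∑ u : Fin K → Fin r,
          (∑ j ∈ univ.erase l, ℓ (v j)) * MkU_Wt α m l v u := by
      rw [Finset.sum_comm]
      apply Finset.sum_congr rfl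
      intro u _
      apply Finset.sum_congr rfl
      intro v _
      rw [MkU_Wt_symm α m l hαs]
    have hell := MkU_sum_ell α m ℓ l hS
    have hWs := MkU_sum_Wt α m l hS
    have hL : ∑ v : Fin K → Fin r, ∑ u : Fin K → Fin r,
        ((D - Lm) * MkU_Wt α m l v u - (∑ j ∈ univ.erase l, ℓ (v j)) * MkU_Wt α m l v u -
          (∑ j ∈ univ.erase l, ℓ (u j)) * MkU_Wt α m l v u) =
        (D - Lm) * (∑ v : Fin K → Fin r, ∑ u : Fin K → Fin r, MkU_Wt α m l v u) -
          (∑ v : Fin K → Fin r, ∑ u : Fin K → Fin r,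
            (∑ j ∈ univ.erase l, ℓ (v j)) * MkU_Wt α m l v u) -
          ∑ v : Fin K → Fin r, ∑ u : Fin K → Fin r,
            (∑ j ∈ univ.erase l, ℓ (v j)) * MkU_Wt α m l v u := by
      simp only [Finset.sum_sub_distrib]
      rw [hswap]
      simp only [Finset.mul_sum]
    rw [hR, hL, hWs] at hsum
    set R := ∑ v : Fin K → Fin r, ∑ u : Fin K → Fin r,
          (∑ j ∈ univ.erase l, ℓ (v j)) * MkU_Wt α m l v u with hRd
    have hZ : 0 ≤ M ^ 2 * S ^ (K - 1) := mul_nonneg (sq_nonneg _) (pow_nonneg hS.le _)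
    set Z := M ^ 2 * S ^ (K - 1) with hZd
    have hR4 : R ≤ e0 * ((D - Lm) * Z) / 2 := by
      have h1 : R * S ≤ (e0 * ((D - Lm) * Z) / 2) * S := by
        rw [hell]
        have h2 := mul_le_mul_of_nonneg_right hT hZ
        linarith
      exact le_of_mul_le_mul_right h1 hS
    show (1 - e0) * Z ≤ ∑ v ∈ univ.filter (fun v : Fin K → Fin r => ∑ j, ℓ (v j) ≤ D),
          ∑ u ∈ univ.filter (fun u : Fin K → Fin r => ∑ j, ℓ (u j) ≤ D), MkU_Wt α m l v u
    refine le_of_mul_le_mul_left ?_ hE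
    linarith

end Pool.Agent.Lib.BE
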