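import Pool.Agent.Lib.BE.SpecU

set_option autoImplicit false

namespace Pool.Agent.Lib.BE

open Finset
open Pool.Agent.Lib.MP_9f2731_nt.GP
open Pool.Agent.Lib.MP_9f2731_nt.GP.Sv
open Pool.Agent.Lib.MP_9f2731_nt.QL
open Pool.Agent.Lib.MP_9f2731_nt.QL.Sw
open Pool.Agent.Lib.MP_9f2731_nt.CG
open Pool.Agent.Lib.MP_9f2731_nt.CG.Ma
open Pool.Agent.Lib.MP_9f2731_nt.CG.Mf

open Classical in
/-- OCCUPIED BINS FOR ARBITRARY ADMISSIBLE FORMS, all values rough, in every bin a value whose prime factors are at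
least its (1/C0)-th power, C0 ABSOLUTE (compare ObUStmt). Uses: BinUStmt, BvqCStmt, VwC, StG. -/
def ObWStmt : Prop := ∃ C0 : ℕ, ∀ m : ℕ, 1 ≤ m → ∃ n C : ℕ, 1 ≤ n ∧ ∀ (M' : Fin (m * n) → ℕ) (h : Fin (m * n) → ℤ)
  (cl : ℕ → ℕ) (P : ℕ), (∀ l, 1 ≤ M' l) →
  (∀ p : ℕ, p.Prime → ∀ l, ¬ (p : ℤ) ∣ (M' l : ℤ) * cl p + h l) →
  (∀ i j, i ≠ j → (M' i : ℤ) * h j ≠ M' j * h i) →
  ∃ X0 : ℝ, ∀ X : ℕ, X0 ≤ X → ∃ N : ℕ, (X : ℝ) ^ ((1 : ℝ) / 5) ≤ N ∧
    (∀ p : ℕ, p.Prime → p ≤ P → N ≡ cl p [MOD p]) ∧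
    (∀ l, ∃ q : ℕ, 1 ≤ q ∧ (q : ℤ) = (M' l : ℤ) * N + h l ∧ ∀ p : ℕ, p.Prime → p ∣ q → q ≤ p ^ C) ∧
    (∀ i : Fin m, ∃ t : Fin n, ∃ q : ℕ, 1 ≤ q ∧ (q : ℤ) = (M' (finProdFinEquiv (i, t)) : ℤ) * N +
      h (finProdFinEquiv (i, t)) ∧ ∀ p : ℕ, p.Prime → p ∣ q → q ≤ p ^ C0) ∧
    (m : ℝ) / 10 ^ 6 ≤ ((univ.filter (fun i : Fin m => ∃ t : Fin n, ∃ p : ℕ, p.Prime ∧
      (p : ℤ) = (M' (finProdFinEquiv (i, t)) : ℤ) * N + h (finProdFinEquiv (i, t)))).card : ℝ)

/-- a rough number has few prime factors -/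
theorem ObW_few (C q : ℕ) (hq : 1 ≤ q) (h : ∀ p : ℕ, p.Prime → p ∣ q → q ≤ p ^ C) :
    q.primeFactorsList.length ≤ C := by
  rcases Nat.lt_or_ge 1 q with h1 | h1
  · have key : ∀ L : List ℕ, (∀ p ∈ L, q ≤ p ^ C) → q ^ L.length ≤ L.prod ^ C := by
      intro L
      induction L with
      | nil => intro _; simp
      | cons p L ih =>
        intro hL
        rw [List.length_cons, List.prod_cons, pow_succ, mul_comm, mul_pow]
        exact Nat.mul_le_mul (hL p List.mem_cons_self) (ih (fun x hx => hL x (List.mem_cons_of_mem _ hx)))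
    have h2 := key q.primeFactorsList (fun p hp =>
      h p (Nat.prime_of_mem_primeFactorsList hp) (Nat.dvd_of_mem_primeFactorsList hp))
    rw [Nat.prod_primeFactorsList (by omega)] at h2
    exact (Nat.pow_le_pow_iff_right h1).1 h2
  · have : q = 1 := by omega
    subst this
    simp

private lemma ObW_len (κ : ℝ) (hκ : 0 < κ) (X q : ℕ) (hX : (9 : ℝ) ≤ Real.log X) (hq : 1 ≤ q)
    (hlq : Real.log q ≤ 2 * Real.log X) (hr : Rgh ((X : ℝ) ^ κ) q) :
    ∀ p : ℕ, p.Prime → p ∣ q → q ≤ p ^ ⌈2 / κ⌉₊ := by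
  intro p hp hpq
  have hX0 : (0 : ℝ) < X := by
    rcases Nat.eq_zero_or_pos X with h | h
    · subst h
      simp at hX
      linarith
    · exact_mod_cast h
  have hz : (0 : ℝ) < (X : ℝ) ^ κ := Real.rpow_pos_of_pos hX0 κ
  have h1 : κ * Real.log X ≤ Real.log p := by
    rw [← Real.log_rpow hX0]
    exact Real.log_le_log hz (hr p hp hpq).le
  have h2 : 2 / κ ≤ ((⌈2 / κ⌉₊ : ℕ) : ℝ) := Nat.le_ceil _
  have h3 : 2 * Real.log X ≤ ((⌈2 / κ⌉₊ : ℕ) : ℝ) * Real.log p := by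
    have h4 : 2 / κ * (κ * Real.log X) = 2 * Real.log X := by
      field_simp
    rw [← h4]
    exact mul_le_mul h2 h1 (by positivity) (by positivity)
  have hp0 : (0 : ℝ) < p := by exact_mod_cast hp.pos
  have hq0 : (0 : ℝ) < q := by exact_mod_cast (by omega : 0 < q)
  have h5 : Real.log q ≤ Real.log ((p : ℝ) ^ ⌈2 / κ⌉₊) := by
    rw [Real.log_pow]
    exact le_trans hlq h3
  have h6 : (q : ℝ) ≤ (p : ℝ) ^ ⌈2 / κ⌉₊ := (Real.log_le_log_iff hq0 (by positivity)).1 h5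
  exact_mod_cast h6

private lemma ObW_log (X A b c : ℕ) (hX : (9 : ℝ) ≤ Real.log X) (hA : 1 ≤ A) (hb : b ≤ X)
    (hc1 : 1 ≤ c) (hc : c ≤ 4 * A) (hlA : Real.log (A : ℝ) ≤ (Real.log X) ^ ((1 : ℝ) / 2)) :
    Real.log ((A * b + c : ℕ) : ℝ) ≤ 2 * Real.log X := by
  have hX1 : 1 ≤ X := by
    rcases Nat.eq_zero_or_pos X with h | h
    · subst h
      simp at hX
      linarith
    · exact h
  have h1 : A * b + c ≤ 5 * A * X := by
    have h2 : A * b ≤ A * X := Nat.mul_le_mul_left _ hb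
    have h3 : 4 * A * 1 ≤ 4 * A * X := Nat.mul_le_mul_left _ hX1
    nlinarith
  have hA0 : (0 : ℝ) < A := by exact_mod_cast hA
  have hX0 : (0 : ℝ) < X := by exact_mod_cast hX1
  have h4 : Real.log ((A * b + c : ℕ) : ℝ) ≤ Real.log ((5 * A * X : ℕ) : ℝ) := by
    refine Real.log_le_log ?_ (by exact_mod_cast h1)
    have : 0 < A * b + c := by omega
    exact_mod_cast this
  have h5 : Real.log ((5 * A * X : ℕ) : ℝ) = Real.log 5 + Real.log A + Real.log X := by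
    push_cast
    rw [Real.log_mul (by positivity) hX0.ne', Real.log_mul (by norm_num) hA0.ne']
  have h6 : Real.log 5 ≤ 4 := by
    have := Real.log_le_sub_one_of_pos (show (0 : ℝ) < 5 by norm_num)
    linarith
  have h7 : (Real.log X) ^ ((1 : ℝ) / 2) ≤ Real.log X / 3 := by
    rw [← Real.sqrt_eq_rpow, Real.sqrt_le_left (by linarith)]
    nlinarith
  linarith

private lemma ObW_sq (X A c : ℕ) (hX : (9 : ℝ) ≤ Real.log X) (hA : 1 ≤ A)
    (hc1 : 1 ≤ c) (hc : c ≤ 4 * A) (hlA : Real.log (A : ℝ) ≤ (Real.log X) ^ ((1 : ℝ) / 2)) :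
    A * X + c ≤ X ^ 2 := by
  have h1 := ObW_log X A X c hX hA le_rfl hc1 hc hlA
  have hX0 : (0 : ℝ) < X := by
    rcases Nat.eq_zero_or_pos X with h | h
    · subst h
      simp at hX
      linarith
    · exact_mod_cast h
  have h2 : (0 : ℝ) < ((A * X + c : ℕ) : ℝ) := by
    have : 0 < A * X + c := by omega
    exact_mod_cast this
  have h3 : Real.log ((A * X + c : ℕ) : ℝ) ≤ Real.log ((X : ℝ) ^ 2) := by
    rw [Real.log_pow]
    exact_mod_cast h1
  have h4 : ((A * X + c : ℕ) : ℝ) ≤ (X : ℝ) ^ 2 := (Real.log_le_log_iff h2 (by positivity)).1 h3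
  exact_mod_cast h4

/-- Module ObW: occupied bins for arbitrary admissible forms M' l n + h l, all values almost primes, in every bin
an absolute almost prime (a port of ObR) -/
theorem tObW (h1 : BinUStmt) (h2 : BvqCStmt) (h3 : VwCStmt) (h4 : StGStmt) : ObWStmt := by
  classical
  obtain ⟨κ0, hκ0, h1⟩ := h1
  refine ⟨⌈2 / κ0⌉₊, ?_⟩
  intro m hm
  obtain ⟨n, hn, κ, w0, X3, hκ, hbin⟩ := h1 m hm
  refine ⟨n, ⌈2 / κ⌉₊, hn, ?_⟩
  intro M' h cl P hM hcop hne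
  obtain ⟨ε1, hε, hbv⟩ := h2
  obtain ⟨w1, X1, hst⟩ := h4 (m * n) M' h cl (min ε1 (1 / 2)) (lt_min hε (by norm_num)) hM hcop hne
  obtain ⟨X2, hbv2⟩ := hbv (max (max w1 w0) P)
  obtain ⟨X4, hvw⟩ := h3 P ε1 hε
  refine ⟨max (max (max X1 X4) (max X2 X3)) (Real.exp 9), ?_⟩
  intro X hX'
  have hX : max (max X1 X4) (max X2 X3) ≤ X := le_trans (le_max_left _ _) hX'
  have hXe : Real.exp 9 ≤ X := le_trans (le_max_right _ _) hX'
  have hXl : (9 : ℝ) ≤ Real.log X := by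
    rw [← Real.log_exp 9]
    exact Real.log_le_log (Real.exp_pos 9) hXe
  have hX1 : X1 ≤ X := le_trans (le_trans (le_max_left _ _) (le_max_left _ _)) hX
  have hX4 : X4 ≤ X := le_trans (le_trans (le_max_right _ _) (le_max_left _ _)) hX
  have hX2 : X2 ≤ X := le_trans (le_trans (le_max_left _ _) (le_max_right _ _)) hX
  have hX3 : X3 ≤ X := le_trans (le_trans (le_max_right _ _) (le_max_right _ _)) hX
  obtain ⟨p0, hp0, hw1P, hB⟩ := hbv2 X hX2
  have hw1 : w1 < p0 := lt_of_le_of_lt (le_trans (le_max_left _ _) (le_max_left _ _)) hw1P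
  have hw0 : w0 < p0 := lt_of_le_of_lt (le_trans (le_max_right _ _) (le_max_left _ _)) hw1P
  have hP : P < p0 := lt_of_le_of_lt (le_max_right _ _) hw1P
  obtain ⟨-, -, -, -, hPw, hdv, -⟩ := hvw X p0 hX4 hp0
  obtain ⟨ν, c, hc, hStC, hl, hcl⟩ := hst X p0 hX1 hp0 hw1
  have hBv : ∀ l, BvC X p0 (Vx X p0 * M' l) (c l) := by
    intro l
    obtain ⟨a1, a2, a3, a4, a5⟩ := hl l
    refine hB (Vx X p0 * M' l) (c l) (hStC.ha1 l) a1 (le_trans a2 ?_) a3 a4 a5
    exact Real.rpow_le_rpow_of_exponent_le (by linarith) (min_le_left _ _)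
  have hcv : ∀ l, (c l).Coprime (Vx X p0) ∧ ¬ p0 ∣ Vx X p0 * M' l := by
    intro l
    obtain ⟨a1, a2, a3, a4, a5⟩ := hl l
    exact ⟨Nat.Coprime.coprime_dvd_right (Dvd.intro _ rfl) a5, a1⟩
  have hsq : ∀ l, Vx X p0 * M' l * X + c l ≤ X ^ 2 := by
    intro l
    obtain ⟨a1, a2, a3, a4, a5⟩ := hl l
    refine ObW_sq X (Vx X p0 * M' l) (c l) hXl (hStC.ha1 l) a3 a4 ?_
    refine le_trans a2 ?_
    exact Real.rpow_le_rpow_of_exponent_le (by linarith) (min_le_right _ _)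
  obtain ⟨b, hb, hrgh, hrgh0, hcard⟩ := hbin X (wx X) (Vx X p0) p0 (fun l => Vx X p0 * M' l) c hX3
    hw0 hStC hBv hcv hsq
  have hkey : ∀ l, b ∈ BpC X (Vx X p0 * M' l) (c l) →
      RR X < b ∧ (Vx X p0 * M' l * b + c l).Prime := by
    intro l hbl
    exact (Finset.mem_filter.mp hbl).2
  have hV := hStC.hV
  refine ⟨Vx X p0 * b + ν, ?_, ?_, ?_, ?_, ?_⟩
  · -- some form occurs
    have hpos : (0 : ℝ) < ((univ.filter (fun i : Fin m => ∃ t : Fin n,
        b ∈ BpC X ((fun l => Vx X p0 * M' l) (finProdFinEquiv (i, t)))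
          (c (finProdFinEquiv (i, t))))).card : ℝ) := by
      refine lt_of_lt_of_le ?_ hcard
      have : (1 : ℝ) ≤ m := by exact_mod_cast hm
      positivity
    have hpos' : 0 < (univ.filter (fun i : Fin m => ∃ t : Fin n,
        b ∈ BpC X ((fun l => Vx X p0 * M' l) (finProdFinEquiv (i, t)))
          (c (finProdFinEquiv (i, t))))).card := by exact_mod_cast hpos
    obtain ⟨i, hi⟩ := Finset.card_pos.mp hpos'
    obtain ⟨t, ht⟩ := (Finset.mem_filter.mp hi).2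
    have hR := (hkey _ ht).1
    have h5 : (X : ℝ) ^ ((1 : ℝ) / 5) < (b : ℝ) := hR
    refine le_trans h5.le ?_
    have : b ≤ Vx X p0 * b + ν := by
      calc b = 1 * b := (one_mul b).symm
        _ ≤ Vx X p0 * b := Nat.mul_le_mul_right b hV
        _ ≤ Vx X p0 * b + ν := Nat.le_add_right _ _
    exact_mod_cast this
  · intro p hp hpP
    have hne0 : p ≠ p0 := by omega
    have hpw : p ≤ wx X := le_trans hpP hPw
    have hpV : p ∣ Vx X p0 := by
      rcases (Nat.Prime.dvd_mul hp).1 (hdv p hp hpw) with h5 | h5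
      · exact h5
      · exact absurd ((Nat.prime_dvd_prime_iff_eq hp hp0).1 h5) hne0
    have h6 : Vx X p0 * b ≡ 0 [MOD p] := (Nat.modEq_zero_iff_dvd).2 (Dvd.dvd.mul_right hpV b)
    have h7 : Vx X p0 * b + ν ≡ 0 + cl p [MOD p] := h6.add (hcl p hp hpw hne0)
    rwa [zero_add] at h7
  · intro l
    obtain ⟨a1, a2, a3, a4, a5⟩ := hl l
    refine ⟨Vx X p0 * M' l * b + c l, by omega, ?_, ?_⟩
    · have := hc l
      push_cast
      rw [this]
      ring
    · refine ObW_len κ hκ X _ hXl (by omega) ?_ (hrgh l)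
      refine ObW_log X (Vx X p0 * M' l) b (c l) hXl (hStC.ha1 l) (Finset.mem_Icc.mp hb).2 a3 a4 ?_
      refine le_trans a2 ?_
      exact Real.rpow_le_rpow_of_exponent_le (by linarith) (min_le_right _ _)
  · intro i
    obtain ⟨t, ht⟩ := hrgh0 i
    obtain ⟨a1, a2, a3, a4, a5⟩ := hl (finProdFinEquiv (i, t))
    refine ⟨t, Vx X p0 * M' (finProdFinEquiv (i, t)) * b + c (finProdFinEquiv (i, t)), by omega, ?_, ?_⟩
    · have := hc (finProdFinEquiv (i, t))
      push_cast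
      rw [this]
      ring
    · refine ObW_len κ0 hκ0 X _ hXl (by omega) ?_ ht
      refine ObW_log X (Vx X p0 * M' (finProdFinEquiv (i, t))) b (c (finProdFinEquiv (i, t))) hXl
        (hStC.ha1 (finProdFinEquiv (i, t))) (Finset.mem_Icc.mp hb).2 a3 a4 ?_
      refine le_trans a2 ?_
      exact Real.rpow_le_rpow_of_exponent_le (by linarith) (min_le_right _ _)
  · refine le_trans hcard ?_
    have hsub : (univ.filter (fun i : Fin m => ∃ t : Fin n,
        b ∈ BpC X ((fun l => Vx X p0 * M' l) (finProdFinEquiv (i, t)))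
          (c (finProdFinEquiv (i, t))))) ⊆
        (univ.filter (fun i : Fin m => ∃ t : Fin n, ∃ p : ℕ, p.Prime ∧
          (p : ℤ) = (M' (finProdFinEquiv (i, t)) : ℤ) * ((Vx X p0 * b + ν : ℕ) : ℤ) +
            h (finProdFinEquiv (i, t)))) := by
      intro i hi
      rw [Finset.mem_filter] at hi ⊢
      refine ⟨hi.1, ?_⟩
      obtain ⟨t, ht⟩ := hi.2
      refine ⟨t, Vx X p0 * M' (finProdFinEquiv (i, t)) * b + c (finProdFinEquiv (i, t)),
        (hkey _ ht).2, ?_⟩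
      have := hc (finProdFinEquiv (i, t))
      push_cast
      rw [this]
      ring
    have hle := Finset.card_le_card hsub
    have hle' : ((univ.filter (fun i : Fin m => ∃ t : Fin n,
        b ∈ BpC X ((fun l => Vx X p0 * M' l) (finProdFinEquiv (i, t)))
          (c (finProdFinEquiv (i, t))))).card : ℝ) ≤
        ((univ.filter (fun i : Fin m => ∃ t : Fin n, ∃ p : ℕ, p.Prime ∧
          (p : ℤ) = (M' (finProdFinEquiv (i, t)) : ℤ) * ((Vx X p0 * b + ν : ℕ) : ℤ) +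
            h (finProdFinEquiv (i, t)))).card : ℝ) := by exact_mod_cast hle
    refine le_trans hle' ?_
    refine le_of_eq ?_
    congr

end Pool.Agent.Lib.BE
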