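import Pool.Agent.Lib.BE.SpecU

/-!
PROJECT BU, module PhU: the profile `ph`, one variable.
-/

set_option autoImplicit false

namespace Pool.Agent.Lib.BE

open Finset
open Pool.Agent.Lib.MP_9f2731_nt.GP
open Pool.Agent.Lib.MP_9f2731_nt.GP.Sv
open Pool.Agent.Lib.MP_9f2731_nt.QL
open Pool.Agent.Lib.MP_9f2731_nt.QL.Sw
open Pool.Agent.Lib.MP_9f2731_nt.CG
open Pool.Agent.Lib.MP_9f2731_nt.CG.Ma
open Pool.Agent.Lib.MP_9f2731_nt.CG.Mf

private lemma PhU_qU (X n : ℕ) :
    qU X n = 16 * cw ((RR X) ^ ((1 : ℝ) / 4)) n := by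
  simp only [qU, pfn, ph, Fin.sum_univ_three, Matrix.cons_val_zero, Matrix.cons_val_one,
      Matrix.cons_val_two, Matrix.head_cons, Matrix.tail_cons]
  ring

private lemma PhU_cw (X : ℕ) (hX : 1 < RR X) (n : ℕ) :
    0 ≤ 16 * cw ((RR X) ^ ((1 : ℝ) / 4)) n ∧
      16 * cw ((RR X) ^ ((1 : ℝ) / 4)) n ≤ Real.log (RR X) ^ 2 := by
  have hpos : (0 : ℝ) < RR X := by linarith
  have hy : (0 : ℝ) < (RR X) ^ ((1 : ℝ) / 4) := Real.rpow_pos_of_pos hpos _
  have hlog : Real.log ((RR X) ^ ((1 : ℝ) / 4)) = (1 / 4) * Real.log (RR X) :=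
    Real.log_rpow hpos _
  have hlR : 0 < Real.log (RR X) := Real.log_pos hX
  unfold cw
  split_ifs with h
  · obtain ⟨h1, h2⟩ := h
    have hn : (1 : ℝ) ≤ (n : ℝ) := by exact_mod_cast h1
    have hn0 : (0 : ℝ) < (n : ℝ) := by linarith
    have hl : Real.log ((RR X) ^ ((1 : ℝ) / 4) / (n : ℝ))
        = (1 / 4) * Real.log (RR X) - Real.log n := by
      rw [Real.log_div hy.ne' hn0.ne', hlog]
    have hln : 0 ≤ Real.log (n : ℝ) := Real.log_nonneg hn
    have hln2 : Real.log (n : ℝ) ≤ (1 / 4) * Real.log (RR X) := by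
      rw [← hlog]
      exact Real.log_le_log hn0 h2
    rw [hl]
    constructor
    · positivity
    · nlinarith
  · constructor
    · simp
    · simp only [mul_zero]
      positivity

theorem tPhU : PhUStmt := by
  refine ⟨?_, ?_⟩
  · intro x y
    refine ⟨?_, ?_, ?_, ?_⟩
    · simp only [im, ph, Fin.sum_univ_three, Matrix.cons_val_zero, Matrix.cons_val_one,
        Matrix.cons_val_two, Matrix.head_cons, Matrix.tail_cons]
      ring
    · simp only [ip, ph, Ee, Fin.sum_univ_three, Matrix.cons_val_zero, Matrix.cons_val_one,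
        Matrix.cons_val_two, Matrix.head_cons, Matrix.tail_cons, min_self, max_self]
      ring
    · simp only [Pf.M, ph, Fin.sum_univ_three, Matrix.cons_val_zero, Matrix.cons_val_one,
        Matrix.cons_val_two, Matrix.head_cons, Matrix.tail_cons, abs_zero, add_zero, abs_mul]
      norm_num
    · intro s
      fin_cases s
      · simp only [ph]
        constructor <;> norm_num
      · simp [ph]
      · simp [ph]
  · intro X hX
    have hpos : (0 : ℝ) < RR X := by linarith
    have hy1 : (1 : ℝ) ≤ (RR X) ^ ((1 : ℝ) / 4) :=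
      Real.one_le_rpow hX.le (by norm_num)
    refine ⟨?_, ?_, ?_⟩
    · rw [PhU_qU]
      unfold cw
      rw [if_pos ⟨le_refl 1, by exact_mod_cast hy1⟩]
      rw [Nat.cast_one, div_one, Real.log_rpow hpos]
      ring
    · intro n
      rw [PhU_qU]
      exact PhU_cw X hX n
    · intro n hn
      rw [PhU_qU]
      unfold cw
      rw [if_neg, mul_zero]
      rintro ⟨h1, h2⟩
      rcases hn with hn | hn
      · omega
      · linarith

end Pool.Agent.Lib.BE
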