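import Pool.Agent.Lib.BE.SpecU

set_option autoImplicit false

namespace Pool.Agent.Lib.BE

open Finset
open Pool.Agent.Lib.MP_9f2731_nt.GP Pool.Agent.Lib.MP_9f2731_nt.GP.Sv
  Pool.Agent.Lib.MP_9f2731_nt.QL Pool.Agent.Lib.MP_9f2731_nt.QL.Sw
  Pool.Agent.Lib.MP_9f2731_nt.CG Pool.Agent.Lib.MP_9f2731_nt.CG.Ma Pool.Agent.Lib.MP_9f2731_nt.CG.Mf

private theorem R1U_log (X : ℕ) (hX : 1 ≤ X) : Real.log (RR X) = Real.log X / 5 := by
  unfold RR
  rw [Real.log_rpow (by exact_mod_cast hX)]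
  ring

/-- the first moment -/
theorem tR1U (h1 : UsUStmt) (h2 : YpUStmt) (h3 : IdUStmt) (h4 : GaUStmt) (h5 : GtUStmt)
    (h6 : JdUStmt) : R1UStmt := by
  classical
  obtain ⟨Ca, hCa, hY⟩ := h2
  refine ⟨Ca, hCa, ?_⟩
  intro t u ht htu hu K r P bd 𝒜 hV hhalf hip him hbe η hη
  obtain ⟨Cg, Xg, hCg, hg⟩ := h5 t u ht htu hu
  obtain ⟨Ch, hChd⟩ : ∃ Ch : ℝ, Ch = max Cg (1 + 1 / t) := ⟨_, rfl⟩
  have hCh1 : Cg ≤ Ch := by rw [hChd]; exact le_max_left _ _
  have hCh2 : 1 + 1 / t ≤ Ch := by rw [hChd]; exact le_max_right _ _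
  have hCh0 : 0 < Ch := lt_of_lt_of_le hCg hCh1
  obtain ⟨X1, hU⟩ := h1 K r P bd 𝒜 hV hhalf Ch (η / 2) hCh0 (by positivity)
  obtain ⟨X2, hYp⟩ := hY K r P bd 𝒜 hV hhalf hip him t η ht (le_trans htu hu) hη
  obtain ⟨XE, hE⟩ := Filter.eventually_atTop.1
    ((tendsto_rpow_atTop (by norm_num : (0 : ℝ) < 2 / 5)).eventually_ge_atTop (2 / η))
  refine ⟨max (max X1 X2) (max Xg (max XE (Real.exp 10))), ?_⟩
  intro X w V p0 a c l hX hS
  have hX1' : X1 ≤ X := le_trans (le_trans (le_max_left _ _) (le_max_left _ _)) hX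
  have hX2' : X2 ≤ X := le_trans (le_trans (le_max_right _ _) (le_max_left _ _)) hX
  have hX' := le_trans (le_max_right (max X1 X2) _) hX
  have hXg : Xg ≤ X := le_trans (le_max_left _ _) hX'
  have hX'' := le_trans (le_max_right Xg _) hX'
  have hXE : XE ≤ X := le_trans (le_max_left _ _) hX''
  have hX10 : Real.exp 10 ≤ X := le_trans (le_max_right _ _) hX''
  have hE' : 2 / η ≤ (X : ℝ) ^ ((2 : ℝ) / 5) := hE X hXE
  have hXr : (0 : ℝ) < X := lt_of_lt_of_le (Real.exp_pos _) hX10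
  have hX1 : 1 ≤ X := by
    have : 0 < X := by exact_mod_cast hXr
    omega
  obtain ⟨L, hL⟩ : ∃ L : ℝ, L = Real.log X := ⟨_, rfl⟩
  have hL10 : 10 ≤ L := by
    rw [hL, Real.le_log_iff_exp_le hXr]
    exact hX10
  have hlR : Real.log (RR X) = L / 5 := by
    rw [hL]
    exact R1U_log X hX1
  have hVp : 1 ≤ V * p0 := Nat.mul_pos hS.hV hS.hp.pos
  have hd0 : 0 < dlV (V * p0) := dlV_pos hVp
  have hd1 : dlV (V * p0) ≤ 1 := dlV_le_one _
  have hG1 : 1 ≤ GG (V * p0) X := by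
    unfold GG
    rw [hlR, le_div_iff₀ hd0]
    have h7 : 1 ≤ L / 5 := by linarith
    have h8 : 1 ≤ (L / 5) ^ 3 := one_le_pow₀ h7
    linarith
  have hR1 : 1 < RR X := by
    have h7 : 0 < Real.log (RR X) := by rw [hlR]; linarith
    have h8 : 0 ≤ RR X := by unfold RR; positivity
    exact (Real.log_pos_iff h8).1 h7
  have hlog0 : 0 < Real.log (RR X) := Real.log_pos hR1
  have hK : 1 ≤ K := hV.hK
  obtain ⟨hAg, hSup, hgb⟩ := h4 t u ht htu hu X (V * p0) hR1 hVp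
  have hgt := hg X w V p0 K a c hXg hS
  -- the two sums
  have hS1 := hU X w V p0 a c {l} (gU (V * p0) X t u) hX1' hS (by simp) hSup
    (fun n => le_trans (hgb n) (mul_le_mul_of_nonneg_right hCh2 (by positivity)))
    (fun b b' => le_trans (hgt b b') (mul_le_mul_of_nonneg_right hCh1 (by linarith)))
  have hS2 := hYp X w V p0 a c l {l} hX2' hS (by simp) (by simp)
  obtain ⟨-, hJ1, -, -⟩ := h6 K r P 𝒜
  rw [hJ1 l] at hS1 hS2
  simp only [Finset.card_singleton, Finset.prod_singleton, pow_one] at hS1 hS2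
  -- pointwise
  have hpt : ∀ b ∈ Icc 1 X,
      UD (V * p0) X P 𝒜 a c {l} b ^ 2 *
        (AF (V * p0) (RR X) (qU X) (a l * b + c l) *
          AF (V * p0) (RR X) (gU (V * p0) X t u) (a l * b + c l)) -
        (if ¬ Yr (V * p0) X t (a l * b + c l) then
          UD (V * p0) X P 𝒜 a c {l} b ^ 2 *
            AF (V * p0) (RR X) (qU X) (a l * b + c l) ^ 2 else 0) ≤
      WWC (V * p0) X P 𝒜 a c b ^ 2 * rhoU (V * p0) X t u (a l * b + c l) := by
    intro b _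
    by_cases hy : Yr (V * p0) X t (a l * b + c l)
    · rw [if_neg (not_not.2 hy), sub_zero]
      unfold rhoU
      rw [if_pos hy, h3 K r P bd 𝒜 t hV ht (by linarith) hbe X (V * p0) b a c {l} hR1 hVp
        (by intro j hj; rw [Finset.mem_singleton] at hj; rw [hj]; exact hy)]
      simp only [Finset.card_singleton]
      apply le_of_eq
      have h9 : Real.log (RR X) ≠ 0 := ne_of_gt hlog0
      field_simp
      ring
    · rw [if_pos hy]
      unfold rhoU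
      rw [if_neg hy, mul_zero, hAg]
      have hN : 0 ≤ NU (V * p0) X t u (a l * b + c l) := by
        unfold NU
        exact Nat.cast_nonneg _
      have h9 : 0 ≤ UD (V * p0) X P 𝒜 a c {l} b ^ 2 *
            AF (V * p0) (RR X) (qU X) (a l * b + c l) ^ 2 * NU (V * p0) X t u (a l * b + c l) :=
        mul_nonneg (mul_nonneg (sq_nonneg _) (sq_nonneg _)) hN
      nlinarith [h9]
  have hsum := Finset.sum_le_sum hpt
  rw [Finset.sum_sub_distrib, ← Finset.sum_filter] at hsum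
  refine le_trans ?_ hsum
  -- numbers
  have hX35 : (X : ℝ) ^ ((3 : ℝ) / 5) ≤ X * (η / 2) := by
    have h7 : (X : ℝ) ^ ((3 : ℝ) / 5) * (X : ℝ) ^ ((2 : ℝ) / 5) = X := by
      rw [← Real.rpow_add hXr]
      norm_num
    have h8 : 0 < (X : ℝ) ^ ((3 : ℝ) / 5) := Real.rpow_pos_of_pos hXr _
    have h9 : 1 ≤ (X : ℝ) ^ ((2 : ℝ) / 5) * (η / 2) := by
      have : 2 / η * (η / 2) = 1 := by field_simp
      calc (1 : ℝ) = 2 / η * (η / 2) := this.symm
        _ ≤ _ := mul_le_mul_of_nonneg_right hE' (by positivity)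
    calc (X : ℝ) ^ ((3 : ℝ) / 5) = (X : ℝ) ^ ((3 : ℝ) / 5) * 1 := (mul_one _).symm
      _ ≤ (X : ℝ) ^ ((3 : ℝ) / 5) * ((X : ℝ) ^ ((2 : ℝ) / 5) * (η / 2)) :=
        mul_le_mul_of_nonneg_left h9 h8.le
      _ = X * (η / 2) := by rw [← mul_assoc, h7]
  have hGK : 1 ≤ GG (V * p0) X ^ K := one_le_pow₀ hG1
  have hX35' : (X : ℝ) ^ ((3 : ℝ) / 5) ≤ X * GG (V * p0) X ^ K * (η / 2) := by
    refine le_trans hX35 ?_
    have h7 : (X : ℝ) * 1 ≤ X * GG (V * p0) X ^ K := mul_le_mul_of_nonneg_left hGK hXr.le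
    rw [mul_one] at h7
    exact mul_le_mul_of_nonneg_right h7 (by positivity)
  have hmain : (X : ℝ) * (tau (V * p0) X t u * GG (V * p0) X ^ (K - 1) * Jq P 𝒜 l) =
      X * GG (V * p0) X ^ K * (tau (V * p0) X t u / GG (V * p0) X * Jq P 𝒜 l) := by
    have h7 : GG (V * p0) X ^ K = GG (V * p0) X ^ (K - 1) * GG (V * p0) X := by
      rw [← pow_succ, Nat.sub_add_cancel hK]
    have h8 : GG (V * p0) X ≠ 0 := by linarith
    rw [h7]
    field_simp
  have hS1' := (abs_le.1 hS1).1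
  change _ ≤ _ - (X : ℝ) * (tau (V * p0) X t u * GG (V * p0) X ^ (K - 1) * Jq P 𝒜 l) at hS1'
  rw [hmain] at hS1'
  nlinarith [hS1', hS2, hX35']

end Pool.Agent.Lib.BE
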