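import Pool.Agent.Lib.BE.SpecU

/-!
PROJECT BU (MP_9f2731_nt), module R3U (helper67): second moment, diagonal.
-/

set_option autoImplicit false

namespace Pool.Agent.Lib.BE

open Finset
open Pool.Agent.Lib.MP_9f2731_nt.GP
open Pool.Agent.Lib.MP_9f2731_nt.GP.Sv
open Pool.Agent.Lib.MP_9f2731_nt.QL
open Pool.Agent.Lib.MP_9f2731_nt.QL.Sw
open Pool.Agent.Lib.MP_9f2731_nt.CG
open Pool.Agent.Lib.MP_9f2731_nt.CG.Ma
open Pool.Agent.Lib.MP_9f2731_nt.CG.Mf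

/-- the parameters are large -/
private theorem R3U_large (C η : ℝ) (hη : 0 < η) : ∃ X0 : ℝ, ∀ X : ℕ, X0 ≤ X →
    1 ≤ Real.log (RR X) ∧ 1 < RR X ∧ (X : ℝ) ^ ((3 : ℝ) / 5) ≤ X * η ∧
      C / Real.sqrt (Real.log X) ≤ 1 / 2 ∧ (1 : ℝ) ≤ X := by
  have t2 : Filter.Tendsto (fun X : ℕ => RR X) Filter.atTop Filter.atTop :=
    (tendsto_rpow_atTop (by norm_num : (0 : ℝ) < 1 / 5)).comp tendsto_natCast_atTop_atTop
  have t3 : Filter.Tendsto (fun X : ℕ => Real.log (RR X)) Filter.atTop Filter.atTop :=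
    Real.tendsto_log_atTop.comp t2
  have t4 : Filter.Tendsto (fun X : ℕ => (X : ℝ) ^ ((2 : ℝ) / 5)) Filter.atTop Filter.atTop :=
    (tendsto_rpow_atTop (by norm_num : (0 : ℝ) < 2 / 5)).comp tendsto_natCast_atTop_atTop
  have t5 : Filter.Tendsto (fun X : ℕ => Real.sqrt (Real.log X)) Filter.atTop Filter.atTop :=
    Real.tendsto_sqrt_atTop.comp (Real.tendsto_log_atTop.comp tendsto_natCast_atTop_atTop)
  obtain ⟨N0, hN0⟩ := Filter.eventually_atTop.1 ((((t3.eventually_ge_atTop 1).and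
    (t2.eventually_ge_atTop 2)).and (t4.eventually_ge_atTop (1 / η))).and
    (t5.eventually_ge_atTop (2 * |C| + 1)))
  refine ⟨max N0 1, fun X hX => ?_⟩
  obtain ⟨⟨⟨h1, h2⟩, h3⟩, h4⟩ := hN0 X (Nat.cast_le.1 ((le_max_left _ _).trans hX))
  have hX1 : (1 : ℝ) ≤ X := (le_max_right _ _).trans hX
  have hX0 : (0 : ℝ) < X := by linarith
  refine ⟨h1, by linarith, ?_, ?_, hX1⟩
  · have e : (X : ℝ) ^ ((3 : ℝ) / 5) * (X : ℝ) ^ ((2 : ℝ) / 5) = (X : ℝ) := by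
      rw [← Real.rpow_add hX0]
      norm_num
    have h5 : 0 ≤ (X : ℝ) ^ ((3 : ℝ) / 5) := Real.rpow_nonneg hX0.le _
    have h6 := mul_le_mul_of_nonneg_left h3 h5
    rw [e] at h6
    calc (X : ℝ) ^ ((3 : ℝ) / 5) = (X : ℝ) ^ ((3 : ℝ) / 5) * (1 / η) * η := by
          field_simp
      _ ≤ X * η := mul_le_mul_of_nonneg_right h6 hη.le
  · have h5 : 0 < Real.sqrt (Real.log X) := by
      have := abs_nonneg C
      linarith
    rw [div_le_iff₀ h5]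
    have := le_abs_self C
    linarith

theorem tR3U (h1 : UsUStmt) (h2 : MfTStmt) (h3 : IdUStmt) (h4 : GaUStmt) (h5 : DgUStmt) (h6 : JdUStmt)
    (h7 : PhUStmt) : R3UStmt := by
  classical
  intro t u ht htu hu
  obtain ⟨Cd, hCd, h5⟩ := h5 t u ht htu hu
  obtain ⟨CT, X1, hCT, h2⟩ := h2 1 (fun _ => ph 1) (fun _ => (h7.1 1 1).2.2.2)
  obtain ⟨E, hE⟩ : ∃ E : ℝ, E = Cd * (1 + 10 / t) ^ 2 := ⟨_, rfl⟩
  have hE0 : 0 < E := by
    rw [hE]
    positivity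
  refine ⟨6 * E, by positivity, ?_⟩
  intro K r P bd 𝒜 hv hhalf hip him hbe η hη
  obtain ⟨X2, hX2⟩ := h1 K r P bd 𝒜 hv hhalf (max CT 1) η (lt_of_lt_of_le one_pos (le_max_right _ _)) hη
  obtain ⟨X3, hX3⟩ := R3U_large CT η hη
  refine ⟨max X1 (max X2 X3), ?_⟩
  intro X w V p0 a c l hX hS haX
  have hXX1 : X1 ≤ X := (le_max_left _ _).trans hX
  have hXX2 : X2 ≤ X := (le_max_left _ _).trans ((le_max_right _ _).trans hX)
  have hXX3 : X3 ≤ X := (le_max_right _ _).trans ((le_max_right _ _).trans hX)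
  obtain ⟨hlog, hR1, hXX, hCTs, hX1⟩ := hX3 X hXX3
  obtain ⟨h2a, -⟩ := h2 X w V p0 0 (fun _ => 1) hXX1 ⟨hS.hp, hS.hpV, hS.hV, hS.hw, hS.hlog, hS.hs,
    fun j => j.elim0, fun j => j.elim0, fun j => j.elim0, fun j => j.elim0, fun j => j.elim0⟩
  obtain ⟨h2b, h2c⟩ := h2a 0 0
  have hq : pfn (ph 1) (RR X) = qU X := rfl
  rw [hq] at h2b h2c
  have hX0 : (0 : ℝ) < X := by linarith
  have hVp : 1 ≤ V * p0 := Nat.mul_pos hS.hV hS.hp.pos
  obtain ⟨W, hW⟩ : ∃ W : ℕ, W = V * p0 := ⟨_, rfl⟩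
  have hD1 := hX2 X w V p0 a c {l} (qU X) hXX2 hS (by rw [card_singleton]; norm_num)
    (fun n hn => (h7.2 X hR1).2.2 n (by
      rcases hn with hn | hn
      · exact Or.inl hn
      · refine Or.inr (lt_of_le_of_lt ?_ hn)
        exact Real.rpow_le_rpow_of_exponent_le hR1.le (by norm_num)))
    (fun n => by
      obtain ⟨h8, h9⟩ := (h7.2 X hR1).2.1 n
      rw [abs_of_nonneg h8]
      exact h9.trans (le_mul_of_one_le_left (sq_nonneg _) (le_max_right _ _)))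
    (fun b b' => (h2c b b').trans (mul_le_mul_of_nonneg_right (le_max_left _ _) (by
      have hd0 : 0 < dlV (V * p0) := dlV_pos hVp
      unfold GG
      positivity)))
  rw [← hW] at hD1 h2b hVp ⊢
  have hd0 : 0 < dlV W := dlV_pos hVp
  have hd1 : dlV W ≤ 1 := dlV_le_one _
  obtain ⟨L, hL⟩ : ∃ L : ℝ, L = Real.log (RR X) := ⟨_, rfl⟩
  rw [← hL] at hlog
  have hL0 : 0 < L := by linarith
  obtain ⟨G, hG⟩ : ∃ G : ℝ, G = GG W X := ⟨_, rfl⟩
  have hG1 : 1 ≤ G := by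
    rw [hG]
    unfold GG
    rw [le_div_iff₀ hd0, one_mul, ← hL]
    exact hd1.trans (one_le_pow₀ hlog)
  have hG0 : 0 < G := by linarith
  rw [← hG] at hD1 h2b ⊢
  -- the correlation
  obtain ⟨T, hT⟩ : ∃ T : ℝ, T = TTF W (RR X) (qU X) (qU X) 1 1 := ⟨_, rfl⟩
  rw [← hT] at hD1 h2b
  have hT6 : T ≤ 6 * G := by
    have h8 := (abs_le.1 h2b).2
    rw [(h7.1 1 1).2.1] at h8
    have h9 : CT * (G / Real.sqrt (Real.log X)) = G * (CT / Real.sqrt (Real.log X)) := by ring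
    rw [h9] at h8
    have h10 := mul_le_mul_of_nonneg_left hCTs hG0.le
    linarith
  have hJ0 : 0 ≤ Jq P 𝒜 l := by
    rw [← (h6 K r P 𝒜).2.1 l]
    exact (h6 K r P 𝒜).2.2.2 hip him {l}
  rw [card_singleton, pow_one, (h6 K r P 𝒜).2.1 l] at hD1
  simp only [prod_singleton] at hD1
  -- pointwise
  have hpt : ∀ b ∈ Icc 1 X, WWC W X P 𝒜 a c b ^ 2 * rhoU W X t u (a l * b + c l) ^ 2 ≤
      E * (UD W X P 𝒜 a c {l} b ^ 2 *
        (AF W (RR X) (qU X) (a l * b + c l) * AF W (RR X) (qU X) (a l * b + c l))) := by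
    intro b hb
    obtain ⟨hb1, hb2⟩ := mem_Icc.1 hb
    obtain ⟨n, hn⟩ : ∃ n : ℕ, n = a l * b + c l := ⟨_, rfl⟩
    have hn1 : 1 ≤ n := by
      rw [hn]
      exact le_add_right (Nat.mul_pos (hS.ha1 l) hb1)
    have hn2 : n ≤ X ^ 2 := by
      rw [hn]
      exact (Nat.add_le_add_right (Nat.mul_le_mul_left _ hb2) _).trans (haX l)
    obtain ⟨hN1, hA⟩ := h5 X W n hR1 hVp hn1 hn2
    rw [← hn]
    obtain ⟨A, hAd⟩ : ∃ A : ℝ, A = AF W (RR X) (qU X) n := ⟨_, rfl⟩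
    obtain ⟨U, hU⟩ : ∃ U : ℝ, U = UD W X P 𝒜 a c {l} b := ⟨_, rfl⟩
    obtain ⟨N, hN⟩ : ∃ N : ℝ, N = NU W X t u n := ⟨_, rfl⟩
    rw [← hAd] at hA ⊢
    rw [← hN] at hN1
    rw [← hU]
    have hN0 : 0 ≤ N := by
      rw [hN]
      exact Nat.cast_nonneg _
    by_cases hY : Yr W X t n
    · have hWW : WWC W X P 𝒜 a c b = L ^ 2 * U := by
        have h8 := h3 K r P bd 𝒜 t hv ht (by linarith) hbe X W b a c {l} hR1 hVp (by
          intro j hj
          rw [mem_singleton] at hj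
          rw [hj, ← hn]
          exact hY)
        rw [card_singleton, mul_one, ← hL, ← hU] at h8
        exact h8
      have hrho : rhoU W X t u n = A * (A * (1 - N)) / L ^ 4 := by
        unfold rhoU
        rw [if_pos hY, (h4 t u ht htu hu X W hR1 hVp).1 n, ← hAd, ← hN, ← hL]
      have hA' : A ^ 2 ≤ Cd * L ^ 4 := by
        have := hA hY
        rw [← hL] at this
        exact this
      rw [hWW, hrho]
      have e1 : (L ^ 2 * U) ^ 2 * (A * (A * (1 - N)) / L ^ 4) ^ 2 =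
          (U ^ 2 * (A * A)) * ((A ^ 2 / L ^ 4) * (1 - N) ^ 2) := by
        field_simp
      rw [e1, mul_comm E]
      refine mul_le_mul_of_nonneg_left ?_ (mul_nonneg (sq_nonneg _) (mul_self_nonneg _))
      rw [hE]
      have h10 : A ^ 2 / L ^ 4 ≤ Cd := by
        rw [div_le_iff₀ (by positivity)]
        exact hA'
      have h11 : (1 - N) ^ 2 ≤ (1 + 10 / t) ^ 2 := by
        have h12 : 0 < 10 / t := by positivity
        exact sq_le_sq' (by linarith) (by linarith)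
      exact mul_le_mul h10 h11 (sq_nonneg _) hCd.le
    · have hrho : rhoU W X t u n = 0 := by
        unfold rhoU
        rw [if_neg hY]
      rw [hrho]
      have h8 : 0 ≤ E * (U ^ 2 * (A * A)) :=
        mul_nonneg hE0.le (mul_nonneg (sq_nonneg _) (mul_self_nonneg _))
      simpa using h8
  refine (sum_le_sum hpt).trans ?_
  rw [← mul_sum]
  have hK : K - 1 + 1 = K := Nat.sub_add_cancel hv.hK
  have hGK : G ^ (K - 1) * G = G ^ K := by
    rw [← pow_succ, hK]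
  have hGK1 : 1 ≤ G ^ K := one_le_pow₀ hG1
  have hG10 : 0 ≤ G ^ (K - 1) := by positivity
  have hmain : X * (T * G ^ (K - 1) * Jq P 𝒜 l) ≤ X * G ^ K * (6 * Jq P 𝒜 l) := by
    have h8 : T * (G ^ (K - 1) * Jq P 𝒜 l) ≤ 6 * G * (G ^ (K - 1) * Jq P 𝒜 l) :=
      mul_le_mul_of_nonneg_right hT6 (mul_nonneg hG10 hJ0)
    have h9 := mul_le_mul_of_nonneg_left h8 hX0.le
    have e2 : (X : ℝ) * (6 * G * (G ^ (K - 1) * Jq P 𝒜 l)) = X * (G ^ (K - 1) * G) * (6 * Jq P 𝒜 l) := by ring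
    rw [e2, hGK] at h9
    calc (X : ℝ) * (T * G ^ (K - 1) * Jq P 𝒜 l) = X * (T * (G ^ (K - 1) * Jq P 𝒜 l)) := by ring
      _ ≤ _ := h9
  have hXe : (X : ℝ) ^ ((3 : ℝ) / 5) ≤ X * G ^ K * η := by
    refine hXX.trans ?_
    have h8 : (X : ℝ) * η ≤ (X * η) * G ^ K := le_mul_of_one_le_right (by positivity) hGK1
    linarith
  have hS1 := (abs_le.1 hD1).2
  have hXK : 0 ≤ (X : ℝ) * G ^ K * η := by positivity
  have hfin : ∑ b ∈ Icc 1 X, UD W X P 𝒜 a c {l} b ^ 2 *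
      (AF W (RR X) (qU X) (a l * b + c l) * AF W (RR X) (qU X) (a l * b + c l)) ≤
      X * G ^ K * (6 * (Jq P 𝒜 l + η)) := by
    have e3 : (X : ℝ) * G ^ K * (6 * (Jq P 𝒜 l + η)) =
        X * G ^ K * (6 * Jq P 𝒜 l) + 6 * (X * G ^ K * η) := by ring
    have e4 : (X : ℝ) * (G ^ K * η) = X * G ^ K * η := by ring
    rw [e4] at hS1
    rw [e3]
    linarith
  calc E * ∑ b ∈ Icc 1 X, UD W X P 𝒜 a c {l} b ^ 2 *
      (AF W (RR X) (qU X) (a l * b + c l) * AF W (RR X) (qU X) (a l * b + c l))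
      ≤ E * (X * G ^ K * (6 * (Jq P 𝒜 l + η))) := mul_le_mul_of_nonneg_left hfin hE0.le
    _ = X * G ^ K * (6 * E * (Jq P 𝒜 l + η)) := by ring

end Pool.Agent.Lib.BE
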