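import Pool.Agent.Lib.BE.SpecU

/-!
# PROJECT BU, module SgU: the sign of the minorant
-/

set_option autoImplicit false

namespace Pool.Agent.Lib.BE

open Finset
open Pool.Agent.Lib.MP_9f2731_nt.GP
open Pool.Agent.Lib.MP_9f2731_nt.GP.Sv
open Pool.Agent.Lib.MP_9f2731_nt.QL
open Pool.Agent.Lib.MP_9f2731_nt.QL.Sw
open Pool.Agent.Lib.MP_9f2731_nt.CG
open Pool.Agent.Lib.MP_9f2731_nt.CG.Ma
open Pool.Agent.Lib.MP_9f2731_nt.CG.Mf

/-- A number which is `Yr` for `t` but not for `u` has a prime factor counted by `NU`. -/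
private theorem SgU_one_le {W X n : ℕ} {t u : ℝ} (ht : Yr W X t n) (hu : ¬ Yr W X u n) :
    1 ≤ NU W X t u n := by
  unfold Yr at hu
  push Not at hu
  obtain ⟨p, hp, hpn⟩ := hu
  have hlt : (RR X) ^ t < (p : ℝ) := by
    by_contra hle
    have hle' : (p : ℝ) ≤ (RR X) ^ t := not_lt.mp hle
    have hp' := mem_QsV.mp hp
    exact ht p (mem_QsV.mpr ⟨hp'.1, hp'.2.1, Nat.le_floor hle'⟩) hpn
  have hmem : p ∈ PrU W X t u n := by
    unfold PrU
    rw [mem_filter]
    exact ⟨hp, hlt, hpn⟩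
  have hc : 1 ≤ (PrU W X t u n).card := Finset.card_pos.mpr ⟨p, hmem⟩
  unfold NU
  exact_mod_cast hc

theorem tSgU (h1 : GaUStmt) : SgUStmt := by
  intro t u ht htu hu X W n hX hW hn
  unfold rhoU
  split_ifs with h
  · rw [(h1 t u ht htu hu X W hX hW).1 n]
    have hN := SgU_one_le h hn
    refine div_nonpos_of_nonpos_of_nonneg ?_ (by positivity)
    have e : AF W (RR X) (qU X) n * (AF W (RR X) (qU X) n * (1 - NU W X t u n)) =
        AF W (RR X) (qU X) n ^ 2 * (1 - NU W X t u n) := by ring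
    rw [e]
    exact mul_nonpos_of_nonneg_of_nonpos (sq_nonneg _) (by linarith)
  · exact le_rfl

end Pool.Agent.Lib.BE
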