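import Pool.Agent.Lib.BE.SpecU

/-!
PROJECT BU (MP_9f2731_nt), module TaU: lower bound for tau.
-/

set_option autoImplicit false

namespace Pool.Agent.Lib.BE

open Finset
open Pool.Agent.Lib.MP_9f2731_nt.GP Pool.Agent.Lib.MP_9f2731_nt.GP.Sv
  Pool.Agent.Lib.MP_9f2731_nt.QL Pool.Agent.Lib.MP_9f2731_nt.QL.Sw Pool.Agent.Lib.MP_9f2731_nt.CG
  Pool.Agent.Lib.MP_9f2731_nt.CG.Ma Pool.Agent.Lib.MP_9f2731_nt.CG.Mf

private theorem TaU_log (X : ℕ) (hX : 1 ≤ X) : Real.log (RR X) = Real.log X / 5 := by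
  unfold RR
  rw [Real.log_rpow (by exact_mod_cast hX)]
  ring

private theorem TaU_thr (C D1 D3 : ℝ) :
    ∃ X0 : ℝ, ∀ x : ℝ, X0 ≤ x → Real.exp 10 ≤ x ∧ 1 ≤ (Real.log (Real.log x)) ^ 2 ∧
      D1 * (Real.exp (C / (Real.log (Real.log x)) ^ 2) - 1) ≤ 1 / 100 ∧
      D3 * Real.log x ^ 4 ≤ x ^ ((1 : ℝ) / 5) ∧ 100 ≤ x ^ ((7 : ℝ) / 20) := by
  have hll : Filter.Tendsto (fun x : ℝ => Real.log (Real.log x)) Filter.atTop Filter.atTop :=
    Real.tendsto_log_atTop.comp Real.tendsto_log_atTop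
  have hll2 : Filter.Tendsto (fun x : ℝ => (Real.log (Real.log x)) ^ 2) Filter.atTop Filter.atTop :=
    (Filter.tendsto_pow_atTop two_ne_zero).comp hll
  have h1 := Filter.eventually_ge_atTop (Real.exp 10)
  have h2 := hll2.eventually_ge_atTop 1
  have h3 : Filter.Tendsto (fun x : ℝ => D1 * (Real.exp (C / (Real.log (Real.log x)) ^ 2) - 1))
      Filter.atTop (nhds (D1 * (Real.exp 0 - 1))) :=
    (((Real.continuous_exp.tendsto 0).comp (hll2.const_div_atTop C)).sub_const 1).const_mul D1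
  have h3' := h3.eventually_le_const (u := 1 / 100) (by
    rw [Real.exp_zero, sub_self, mul_zero]
    norm_num)
  have h4 : ∀ᶠ x : ℝ in Filter.atTop, D3 * Real.log x ^ 4 ≤ x ^ ((1 : ℝ) / 5) := by
    have h := ((isLittleO_log_rpow_rpow_atTop ((4 : ℕ) : ℝ)
      (by norm_num : (0 : ℝ) < 1 / 5)).const_mul_left D3).bound (c := 1) one_pos
    filter_upwards [h, Filter.eventually_ge_atTop (1 : ℝ)] with x hx hx1
    rw [one_mul, Real.norm_eq_abs, Real.norm_eq_abs, Real.rpow_natCast,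
      abs_of_nonneg (Real.rpow_nonneg (by linarith) _)] at hx
    exact (le_abs_self _).trans hx
  have h5 := (tendsto_rpow_atTop (by norm_num : (0 : ℝ) < 7 / 20)).eventually_ge_atTop 100
  obtain ⟨X0, hX0⟩ := Filter.eventually_atTop.1 (h1.and (h2.and (h3'.and (h4.and h5))))
  exact ⟨X0, fun x hx => hX0 x hx⟩

private theorem TaU_be (s : Fin 3) : 0 ≤ (ph 1).be s ∧ (ph 1).be s ≤ 1 / 4 := by
  fin_cases s <;> norm_num [ph]

private theorem TaU_Iq (h : ip (ph 1) (ph 1) = 16 / 3) :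
    Iq (fun _ : Fin 1 => ph 1) (univ : Finset (Fin 1 → Fin 1)) = 16 / 3 := by
  unfold Iq
  simp only [h]
  simp

private theorem TaU_vda (h : ip (ph 1) (ph 1) = 16 / 3) :
    Vda (fun _ : Fin 1 => ph 1) (fun _ : Fin 1 => (1 / 4 : ℝ)) (univ : Finset (Fin 1 → Fin 1)) where
  hK := le_refl 1
  be := fun _ s => TaU_be s
  one := fun _ => by norm_num
  simp := fun v _ => by
    rw [Fin.sum_univ_one]
    norm_num
  pos := by
    rw [TaU_Iq h]
    norm_num

private theorem TaU_WWC (W X a c b : ℕ) :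
    WWC W X (fun _ : Fin 1 => ph 1) (univ : Finset (Fin 1 → Fin 1)) (fun _ : Fin 1 => a)
      (fun _ : Fin 1 => c) b = AF W (RR X) (qU X) (a * b + c) := by
  unfold WWC qU
  simp

private theorem TaU_swap (X : ℕ) (T : Finset ℕ) (L : ℕ → ℕ) (f : ℕ → ℝ) :
    ∑ b ∈ Icc 1 X, ((T.filter (fun p => p ∣ L b)).card : ℝ) * f b =
      ∑ p ∈ T, ∑ b ∈ (Icc 1 X).filter (fun b => p ∣ L b), f b := by
  have h : ∀ b, ((T.filter (fun p => p ∣ L b)).card : ℝ) * f b =
      ∑ p ∈ T, if p ∣ L b then f b else 0 := by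
    intro b
    rw [← Finset.sum_filter, Finset.sum_const, nsmul_eq_mul]
  rw [Finset.sum_congr rfl fun b _ => h b, Finset.sum_comm]
  exact Finset.sum_congr rfl fun p _ => (Finset.sum_filter _ _).symm

private theorem TaU_NU (W X : ℕ) (t u : ℝ) (n : ℕ) :
    NU W X t u n ≤ (((QsV W ((RR X) ^ u)).filter (fun p => p ∣ n)).card : ℝ) := by
  unfold NU PrU
  refine Nat.cast_le.2 (Finset.card_le_card fun p hp => ?_)
  rw [Finset.mem_filter] at hp ⊢
  exact ⟨hp.1, hp.2.2⟩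

theorem tTaU (h1 : S1CStmt) (h2 : MaCStmt) (h3 : McRStmt) (h4 : MfDStmt) (h5 : GaUStmt) (h6 : GtUStmt)
    (h7 : PhUStmt) : TaUStmt := by
  have hip : ip (ph 1) (ph 1) = 16 / 3 := by
    rw [(h7.1 1 1).2.1]
    norm_num
  have hvda := TaU_vda hip
  obtain ⟨XA, hA⟩ := h2 1 1 (fun _ => ph 1) (fun _ => (1 / 4 : ℝ)) univ hvda (1 / 100) (by norm_num)
  obtain ⟨C1, XC, hC1, hC⟩ := h3 1 1 (fun _ => ph 1) (fun _ => (1 / 4 : ℝ)) univ hvda
  obtain ⟨C2, hC2, h4⟩ := h4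
  obtain ⟨C', hC', h1⟩ := h1 1
  obtain ⟨u, hu⟩ : ∃ u : ℝ, u = min (1 / 4) (1 / (C1 * C2 + 1)) := ⟨_, rfl⟩
  have hu0 : 0 < u := by
    rw [hu]
    exact lt_min (by norm_num) (by positivity)
  have hu4 : u ≤ 1 / 4 := by
    rw [hu]
    exact min_le_left _ _
  have huC : C1 * (C2 * (u / 5) ^ 2) ≤ 1 / 2 := by
    have h : u ≤ 1 / (C1 * C2 + 1) := by
      rw [hu]
      exact min_le_right _ _
    rw [le_div_iff₀ (by positivity)] at h
    have h8 : (u / 5) ^ 2 ≤ u / 5 := by nlinarith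
    have h9 : C1 * (C2 * (u / 5) ^ 2) ≤ C1 * (C2 * (u / 5)) := by gcongr
    nlinarith
  refine ⟨u, hu0, hu4, fun t ht htu => ?_⟩
  obtain ⟨CT, XG, hCT, hG⟩ := h6 t u ht htu hu4
  obtain ⟨η', hη'⟩ : ∃ η' : ℝ, η' = 1 / (100 * (C1 + 1)) := ⟨_, rfl⟩
  have hη'0 : 0 < η' := by
    rw [hη']
    positivity
  have hη'C : C1 * η' ≤ 1 / 100 := by
    have h : η' ≤ 1 / (100 * (C1 + 1)) := le_of_eq hη'
    rw [le_div_iff₀ (by positivity)] at h
    nlinarith
  obtain ⟨XD, hD⟩ := h4 (u / 5) η' (by positivity) (by linarith) hη'0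
  obtain ⟨XT, hT⟩ := TaU_thr C' CT ((1 + 1 / t) ^ 2)
  refine ⟨CT, max (max XA XC) (max (max XG XD) XT), hCT, fun X w V p0 K a c hX hS hK => ?_⟩
  have hXA : XA ≤ X := le_trans (le_trans (le_max_left _ _) (le_max_left _ _)) hX
  have hXC : XC ≤ X := le_trans (le_trans (le_max_right _ _) (le_max_left _ _)) hX
  have hX' := le_trans (le_max_right (max XA XC) _) hX
  have hX'' := le_trans (le_max_left (max XG XD) _) hX'
  have hXG : XG ≤ X := le_trans (le_max_left _ _) hX''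
  have hXD : XD ≤ X := le_trans (le_max_right _ _) hX''
  obtain ⟨hX10, hll, t1, t3, t4⟩ := hT X (le_trans (le_max_right _ _) hX')
  have hGt := hG X w V p0 K a c hXG hS
  refine ⟨?_, (le_abs_self _).trans (hGt 1 1)⟩
  have hXr : (0 : ℝ) < X := lt_of_lt_of_le (Real.exp_pos _) hX10
  have hX1 : 1 ≤ X := by
    have : 0 < X := by exact_mod_cast hXr
    omega
  have hX1r : (1 : ℝ) ≤ X := by exact_mod_cast hX1
  obtain ⟨L, hL⟩ : ∃ L : ℝ, L = Real.log X := ⟨_, rfl⟩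
  have hL10 : 10 ≤ L := by
    rw [hL, Real.le_log_iff_exp_le hXr]
    exact hX10
  have hlR : Real.log (RR X) = L / 5 := by
    rw [hL]
    exact TaU_log X hX1
  have hR0 : 0 < RR X := by
    unfold RR
    exact Real.rpow_pos_of_pos hXr _
  have hR2 : 2 ≤ RR X := by
    rw [← Real.exp_log hR0, hlR]
    have := Real.add_one_le_exp (L / 5)
    linarith
  have hR1 : 1 ≤ RR X := by linarith
  have hR1' : 1 < RR X := by linarith
  have hw := hS.hw
  have hw1r : (1 : ℝ) ≤ w := hll.trans hw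
  have hw1 : 1 ≤ w := by exact_mod_cast hw1r
  obtain ⟨W, hW⟩ : ∃ W : ℕ, W = V * p0 := ⟨_, rfl⟩
  have hVp : 1 ≤ V * p0 := Nat.mul_pos hS.hV hS.hp.pos
  have hd0 : 0 < dlV (V * p0) := dlV_pos hVp
  have hd1 : dlV (V * p0) ≤ 1 := dlV_le_one _
  obtain ⟨G, hGd⟩ : ∃ G : ℝ, G = GG (V * p0) X := ⟨_, rfl⟩
  have hG1 : 1 ≤ G := by
    rw [hGd]
    unfold GG
    rw [hlR, le_div_iff₀ hd0]
    have : 1 ≤ L / 5 := by linarith
    have := one_le_pow₀ (n := 3) this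
    linarith
  obtain ⟨hga, hgb, hgc⟩ := h5 t u ht htu hu4 X (V * p0) hR1' hVp
  obtain ⟨-, hq1, hq2⟩ := h7.2 X hR1'
  obtain ⟨l⟩ : Nonempty (Fin K) := ⟨⟨0, hK⟩⟩
  have hSt1 : StC X w V p0 (fun _ : Fin 1 => a l) (fun _ : Fin 1 => c l) :=
    { hp := hS.hp
      hpV := hS.hpV
      hV := hS.hV
      hw := hS.hw
      hlog := hS.hlog
      hs := hS.hs
      ha := fun _ => hS.ha l
      hd := fun j k hjk => absurd (Subsingleton.elim j k) hjk
      hVa := fun _ => hS.hVa l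
      ha1 := fun _ => hS.ha1 l }
  rw [← hGd] at hGt ⊢
  -- the sieve sum of A_q A_g
  have hs1 : |∑ b ∈ Icc 1 X, (AF (V * p0) (RR X) (qU X) (a l * b + c l) *
        AF (V * p0) (RR X) (gU (V * p0) X t u) (a l * b + c l)) - X * tau (V * p0) X t u| ≤
      X * (CT * G * (Real.exp (C' / w) - 1)) +
        RR X ^ ((1 : ℝ) / 4) * ((1 + 1 / t) * Real.log (RR X) ^ 2) *
          (RR X ^ ((1 : ℝ) / 2) * ((1 + 1 / t) * Real.log (RR X) ^ 2)) := by
    have hl2 : 0 ≤ Real.log (RR X) ^ 2 := sq_nonneg _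
    have hmain := h1 (Fin 1) (V * p0) w X 1 0 (RR X) ((1 + 1 / t) * Real.log (RR X) ^ 2)
      (fun _ => CT * G) (fun _ : Fin 1 => a l) (fun _ : Fin 1 => c l)
      (fun i => if i.2 then qU X else gU (V * p0) X t u)
      (fun i => if i.2 then RR X ^ ((1 : ℝ) / 4) else RR X ^ ((1 : ℝ) / 2))
      (by rw [Fintype.card_fin]) hw1 hVp le_rfl hR1'
      (fun p hp => by
        have hp' := mem_QsV.1 hp
        constructor
        · by_contra h
          exact hp'.2.1 (hS.hs p hp'.1 (by omega))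
        · intro h'
          exact hp'.1.one_lt.ne' (Nat.dvd_one.1 h'))
      (fun j p hp => hSt1.ha j p (mem_QsV.1 hp).1 (mem_QsV.1 hp).2.1)
      (fun j k hjk p hp => hSt1.hd j k hjk p (mem_QsV.1 hp).1 (mem_QsV.1 hp).2.1)
      (by
        rintro ⟨j, b⟩ n
        cases b
        · exact hgc n
        · show |qU X n| ≤ (1 + 1 / t) * Real.log (RR X) ^ 2
          rw [abs_of_nonneg (hq1 n).1]
          refine (hq1 n).2.trans ?_
          have : 0 ≤ 1 / t := by positivity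
          nlinarith)
      (by
        have hle : ∀ e : ℝ, e ≤ 1 → RR X ^ e ≤ RR X := fun e he => by
          calc RR X ^ e ≤ RR X ^ (1 : ℝ) := Real.rpow_le_rpow_of_exponent_le hR1 he
            _ = RR X := Real.rpow_one _
        rintro ⟨j, b⟩
        cases b
        · exact ⟨(Real.rpow_pos_of_pos hR0 _).le, hle _ (by norm_num), hgb⟩
        · exact ⟨(Real.rpow_pos_of_pos hR0 _).le, hle _ (by norm_num), hq2⟩)
      (fun j b c' => hGt b c')
    simp only [if_true, Bool.false_eq_true, if_false, Finset.univ_unique, Finset.prod_singleton,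
      Nat.cast_one, div_one] at hmain
    have hfil : (Icc 1 X).filter (fun b => b ≡ 0 [MOD 1]) = Icc 1 X :=
      Finset.filter_true_of_mem fun b _ => Nat.modEq_one
    rw [hfil] at hmain
    refine hmain.trans (le_of_eq ?_)
    rw [Fintype.prod_prod_type]
    simp only [Fintype.prod_bool, if_true, Bool.false_eq_true, if_false, Finset.univ_unique,
      Finset.prod_singleton]
  -- A_q A_g = A_q^2 - N A_q^2
  obtain ⟨f, hf⟩ : ∃ f : ℕ → ℝ, f = fun b => AF (V * p0) (RR X) (qU X) (a l * b + c l) ^ 2 :=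
    ⟨_, rfl⟩
  have hf0 : ∀ b, 0 ≤ f b := fun b => by
    rw [hf]
    exact sq_nonneg _
  obtain ⟨T, hTd⟩ : ∃ T : Finset ℕ, T = QsV (V * p0) ((RR X) ^ u) := ⟨_, rfl⟩
  have hs2 : ∑ b ∈ Icc 1 X, f b - ∑ p ∈ T, ∑ b ∈ (Icc 1 X).filter (fun b => p ∣ a l * b + c l), f b ≤
      ∑ b ∈ Icc 1 X, (AF (V * p0) (RR X) (qU X) (a l * b + c l) *
        AF (V * p0) (RR X) (gU (V * p0) X t u) (a l * b + c l)) := by
    rw [← TaU_swap X T (fun b => a l * b + c l) f, ← Finset.sum_sub_distrib]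
    refine Finset.sum_le_sum fun b _ => ?_
    have h8 := TaU_NU (V * p0) X t u (a l * b + c l)
    rw [← hTd] at h8
    rw [hga]
    have h9 := mul_le_mul_of_nonneg_right h8 (hf0 b)
    have e : AF (V * p0) (RR X) (qU X) (a l * b + c l) *
        (AF (V * p0) (RR X) (qU X) (a l * b + c l) * (1 - NU (V * p0) X t u (a l * b + c l))) =
        f b - NU (V * p0) X t u (a l * b + c l) * f b := by
      rw [hf]
      ring
    rw [e]
    linarith
  -- the mean square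
  have hs3 : X * (G * (16 / 3)) - X * (G * (1 / 100)) - (X : ℝ) ^ ((3 : ℝ) / 5) ≤
      ∑ b ∈ Icc 1 X, f b := by
    have h8 := hA X w V p0 _ _ hXA hSt1
    rw [TaU_Iq hip, pow_one, ← hGd] at h8
    simp only [TaU_WWC] at h8
    rw [hf]
    have h9 := (abs_le.1 h8).1
    linarith
  -- the multiples of the primes
  have hE0 : ∀ p : ℕ, 0 ≤ (Real.log (p : ℝ) / Real.log (RR X)) ^ 2 + 1 / Real.sqrt (Real.log X) := by
    intro p
    positivity
  have hRu : (RR X) ^ u = (X : ℝ) ^ (u / 5) := by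
    unfold RR
    rw [← Real.rpow_mul hXr.le]
    congr 1
    ring
  have hTp : ∀ p ∈ T, p.Prime ∧ ¬ p ∣ V * p0 ∧ (p : ℝ) ≤ (X : ℝ) ^ (u / 5) := by
    intro p hp
    rw [hTd] at hp
    have hp' := mem_QsV.1 hp
    refine ⟨hp'.1, hp'.2.1, ?_⟩
    rw [← hRu]
    exact (Nat.le_floor_iff (Real.rpow_pos_of_pos hR0 _).le).1 hp'.2.2
  have hXk0 : 0 ≤ (X : ℝ) ^ (u / 5) := (Real.rpow_pos_of_pos hXr _).le
  have hs4 : ∑ p ∈ T, ∑ b ∈ (Icc 1 X).filter (fun b => p ∣ a l * b + c l), f b ≤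
      X * (G * (C1 * (C2 * (u / 5) ^ 2 + η'))) + (X : ℝ) ^ ((13 : ℝ) / 20) := by
    have h8 : ∀ p ∈ T, ∑ b ∈ (Icc 1 X).filter (fun b => p ∣ a l * b + c l), f b ≤
        X * (G * C1) * (1 / (p : ℝ) * ((Real.log (p : ℝ) / Real.log (RR X)) ^ 2 +
          1 / Real.sqrt (Real.log X))) + (X : ℝ) ^ ((3 : ℝ) / 5) := by
      intro p hp
      obtain ⟨h9, h10, h11⟩ := hTp p hp
      have h12 : (p : ℝ) ≤ RR X := by
        refine h11.trans ?_
        unfold RR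
        exact Real.rpow_le_rpow_of_exponent_le hX1r (by linarith)
      have h13 := hC X w V p0 p _ _ (0 : Fin 1) hXC hSt1 h9 h10 h12
      simp only [TaU_WWC, pow_one, ← hGd] at h13
      rw [hf]
      refine h13.trans (le_of_eq ?_)
      ring
    refine (Finset.sum_le_sum h8).trans ?_
    rw [Finset.sum_add_distrib, ← Finset.mul_sum, Finset.sum_const, nsmul_eq_mul]
    have h9 : ∑ p ∈ T, 1 / (p : ℝ) * ((Real.log (p : ℝ) / Real.log (RR X)) ^ 2 +
          1 / Real.sqrt (Real.log X)) ≤ C2 * (u / 5) ^ 2 + η' := by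
      refine le_trans ?_ (hD X hXD)
      refine Finset.sum_le_sum_of_subset_of_nonneg ?_ fun p _ _ => by
        have := hE0 p
        positivity
      intro p hp
      obtain ⟨h9, -, h11⟩ := hTp p hp
      rw [Finset.mem_filter, Finset.mem_Icc]
      exact ⟨⟨h9.one_lt.le, Nat.le_floor h11⟩, h9⟩
    have h10 : (T.card : ℝ) ≤ (X : ℝ) ^ ((1 : ℝ) / 20) := by
      have h11 : T.card ≤ ⌊(X : ℝ) ^ (u / 5)⌋₊ := by
        calc T.card ≤ (Icc 1 ⌊(X : ℝ) ^ (u / 5)⌋₊).card := by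
              refine Finset.card_le_card fun p hp => ?_
              obtain ⟨h9, -, h11⟩ := hTp p hp
              rw [Finset.mem_Icc]
              exact ⟨h9.one_lt.le, Nat.le_floor h11⟩
          _ = ⌊(X : ℝ) ^ (u / 5)⌋₊ := by
              rw [Nat.card_Icc]
              omega
      calc (T.card : ℝ) ≤ (⌊(X : ℝ) ^ (u / 5)⌋₊ : ℝ) := by exact_mod_cast h11
        _ ≤ (X : ℝ) ^ (u / 5) := Nat.floor_le hXk0
        _ ≤ (X : ℝ) ^ ((1 : ℝ) / 20) :=
            Real.rpow_le_rpow_of_exponent_le hX1r (by linarith)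
    have h11 : (T.card : ℝ) * (X : ℝ) ^ ((3 : ℝ) / 5) ≤ (X : ℝ) ^ ((13 : ℝ) / 20) := by
      calc (T.card : ℝ) * (X : ℝ) ^ ((3 : ℝ) / 5)
          ≤ (X : ℝ) ^ ((1 : ℝ) / 20) * (X : ℝ) ^ ((3 : ℝ) / 5) :=
            mul_le_mul_of_nonneg_right h10 (Real.rpow_nonneg hXr.le _)
        _ = (X : ℝ) ^ ((13 : ℝ) / 20) := by
            rw [← Real.rpow_add hXr]
            norm_num
    refine add_le_add ?_ h11
    calc X * (G * C1) * ∑ p ∈ T, 1 / (p : ℝ) * ((Real.log (p : ℝ) / Real.log (RR X)) ^ 2 +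
          1 / Real.sqrt (Real.log X)) ≤ X * (G * C1) * (C2 * (u / 5) ^ 2 + η') :=
          mul_le_mul_of_nonneg_left h9 (by positivity)
      _ = X * (G * (C1 * (C2 * (u / 5) ^ 2 + η'))) := by ring
  -- the small terms
  have hXG : (X : ℝ) ≤ X * G := le_mul_of_one_le_right hXr.le hG1
  have g1 : (X : ℝ) ^ ((13 : ℝ) / 20) ≤ X / 100 := by
    have e : (X : ℝ) ^ ((13 : ℝ) / 20) * (X : ℝ) ^ ((7 : ℝ) / 20) = (X : ℝ) := by
      rw [← Real.rpow_add hXr]
      norm_num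
    have h8 : 0 ≤ (X : ℝ) ^ ((13 : ℝ) / 20) := Real.rpow_nonneg hXr.le _
    have h9 := mul_le_mul_of_nonneg_left t4 h8
    rw [e] at h9
    linarith
  have g2 : (X : ℝ) ^ ((3 : ℝ) / 5) ≤ X / 100 :=
    (Real.rpow_le_rpow_of_exponent_le hX1r (by norm_num)).trans g1
  have g3 : RR X ^ ((1 : ℝ) / 4) * ((1 + 1 / t) * Real.log (RR X) ^ 2) *
      (RR X ^ ((1 : ℝ) / 2) * ((1 + 1 / t) * Real.log (RR X) ^ 2)) ≤ X / 100 := by
    have e : RR X ^ ((1 : ℝ) / 4) * RR X ^ ((1 : ℝ) / 2) = (X : ℝ) ^ ((3 : ℝ) / 20) := by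
      unfold RR
      rw [← Real.rpow_mul hXr.le, ← Real.rpow_mul hXr.le, ← Real.rpow_add hXr]
      norm_num
    have e2 : RR X ^ ((1 : ℝ) / 4) * ((1 + 1 / t) * Real.log (RR X) ^ 2) *
      (RR X ^ ((1 : ℝ) / 2) * ((1 + 1 / t) * Real.log (RR X) ^ 2)) =
        (RR X ^ ((1 : ℝ) / 4) * RR X ^ ((1 : ℝ) / 2)) * ((1 + 1 / t) ^ 2 * Real.log (RR X) ^ 4) := by
      ring
    rw [e2, e, hlR]
    have h8 : (1 + 1 / t) ^ 2 * (L / 5) ^ 4 ≤ (X : ℝ) ^ ((1 : ℝ) / 5) := by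
      refine le_trans ?_ t3
      rw [← hL]
      refine mul_le_mul_of_nonneg_left ?_ (sq_nonneg _)
      exact pow_le_pow_left₀ (by linarith) (by linarith) 4
    calc (X : ℝ) ^ ((3 : ℝ) / 20) * ((1 + 1 / t) ^ 2 * (L / 5) ^ 4)
        ≤ (X : ℝ) ^ ((3 : ℝ) / 20) * (X : ℝ) ^ ((1 : ℝ) / 5) :=
          mul_le_mul_of_nonneg_left h8 (Real.rpow_nonneg hXr.le _)
      _ = (X : ℝ) ^ ((7 : ℝ) / 20) := by
          rw [← Real.rpow_add hXr]
          norm_num
      _ ≤ (X : ℝ) ^ ((13 : ℝ) / 20) := Real.rpow_le_rpow_of_exponent_le hX1r (by norm_num)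
      _ ≤ X / 100 := g1
  have g4 : X * (CT * G * (Real.exp (C' / w) - 1)) ≤ X * (G * (1 / 100)) := by
    have h8 : Real.exp (C' / w) ≤ Real.exp (C' / (Real.log (Real.log X)) ^ 2) := by
      refine Real.exp_le_exp.2 ?_
      have : 0 < (Real.log (Real.log X)) ^ 2 := by linarith
      gcongr
    have h9 : CT * (Real.exp (C' / w) - 1) ≤ 1 / 100 :=
      (mul_le_mul_of_nonneg_left (by linarith) hCT.le).trans t1
    calc X * (CT * G * (Real.exp (C' / w) - 1)) = X * (G * (CT * (Real.exp (C' / w) - 1))) := by ring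
      _ ≤ X * (G * (1 / 100)) := by gcongr
  have g5 : X * (G * (C1 * (C2 * (u / 5) ^ 2 + η'))) ≤ X * (G * (1 / 2 + 1 / 100)) := by
    have h8 : C1 * (C2 * (u / 5) ^ 2 + η') ≤ 1 / 2 + 1 / 100 := by
      rw [mul_add]
      linarith
    gcongr
  have hfin : X * (4 * G) ≤ X * tau (V * p0) X t u := by
    have h8 := (abs_le.1 hs1).2
    have e1 : (X : ℝ) * (4 * G) = 4 * (X * G) := by ring
    have e2 : (X : ℝ) * (G * (16 / 3)) = 16 / 3 * (X * G) := by ring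
    have e3 : (X : ℝ) * (G * (1 / 100)) = 1 / 100 * (X * G) := by ring
    have e4 : (X : ℝ) * (G * (1 / 2 + 1 / 100)) = 51 / 100 * (X * G) := by ring
    rw [e1]
    rw [e2, e3] at hs3
    rw [e3] at g4
    rw [e4] at g5
    linarith
  exact le_of_mul_le_mul_left hfin hXr

end Pool.Agent.Lib.BE
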