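import Pool.Agent.Lib.BE.SpecU

/-!
PROJECT BU, module TnU (helper49): the variational problem with total cutoff 1/2, small cutoffs, and an arbitrarily
small loss in the lower bound.
-/

set_option autoImplicit false

namespace Pool.Agent.Lib.BE

open Finset
open Pool.Agent.Lib.MP_9f2731_nt.GP
open Pool.Agent.Lib.MP_9f2731_nt.GP.Sv
open Pool.Agent.Lib.MP_9f2731_nt.QL
open Pool.Agent.Lib.MP_9f2731_nt.QL.Sw
open Pool.Agent.Lib.MP_9f2731_nt.CG
open Pool.Agent.Lib.MP_9f2731_nt.CG.Ma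
open Pool.Agent.Lib.MP_9f2731_nt.CG.Mf
open Pool.Agent.Lib.MP_9f2731_nt.CG.Mv

private theorem TnU_be {D : ℝ} (hD : 0 < D) (i : ℕ) (s : Fin 3) :
    0 ≤ (pr D i).be s ∧ (pr D i).be s ≤ 2 ^ (i + 1) / D := by
  unfold pr
  split_ifs with h
  · subst h
    fin_cases s
    · simp only [Fin.zero_eta, Matrix.cons_val_zero]
      refine ⟨by positivity, ?_⟩
      norm_num
    · simp only [Fin.mk_one, Matrix.cons_val_one, Matrix.cons_val_zero]
      refine ⟨by positivity, ?_⟩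
      gcongr
      norm_num
    · change (0 : ℝ) ≤ 0 ∧ (0 : ℝ) ≤ _
      exact ⟨le_rfl, by positivity⟩
  · fin_cases s
    · change (0 : ℝ) ≤ 2 ^ (i + 1) / D ∧ (2 : ℝ) ^ (i + 1) / D ≤ _
      exact ⟨by positivity, le_rfl⟩
    · change (0 : ℝ) ≤ 2 ^ i / D ∧ (2 : ℝ) ^ i / D ≤ _
      refine ⟨by positivity, ?_⟩
      gcongr
      · norm_num
      · omega
    · change (0 : ℝ) ≤ 2 ^ i / (2 * D) ∧ (2 : ℝ) ^ i / (2 * D) ≤ _
      refine ⟨by positivity, ?_⟩
      have h1 : (2 : ℝ) ^ i / (2 * D) ≤ 2 ^ i / D := by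
        gcongr
        linarith
      refine h1.trans ?_
      gcongr
      · norm_num
      · omega

private theorem TnU_Iq (h1 : IpVStmt) {D : ℝ} (hD : 0 < D) {K r : ℕ}
    (A : Finset (Fin K → Fin r)) :
    Iq (fun a : Fin r => pr D a) A =
      (∑ v ∈ A, ∑ u ∈ A, ∏ j, al (v j) (u j)) / (D ^ 3) ^ K := by
  unfold Iq
  rw [Finset.sum_div]
  refine Finset.sum_congr rfl fun v _ => ?_
  rw [Finset.sum_div]
  refine Finset.sum_congr rfl fun u _ => ?_
  have h2 : ∀ j : Fin K, ip (pr D (v j)) (pr D (u j)) = al (v j) (u j) / D ^ 3 :=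
    fun j => (h1 D hD _ _).1
  rw [Finset.prod_congr rfl fun j _ => h2 j, Finset.prod_div_distrib, Finset.prod_const,
    Finset.card_univ, Fintype.card_fin]

private theorem TnU_Jq (h1 : IpVStmt) {D : ℝ} (hD : 0 < D) {K r : ℕ}
    (A : Finset (Fin K → Fin r)) (l : Fin K) :
    Jq (fun a : Fin r => pr D a) A l =
      (∑ v ∈ A, ∑ u ∈ A, mm (v l) * mm (u l) * ∏ j ∈ univ.erase l, al (v j) (u j)) /
        (D ^ 4 * (D ^ 3) ^ (K - 1)) := by
  unfold Jq
  rw [Finset.sum_div]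
  refine Finset.sum_congr rfl fun v _ => ?_
  rw [Finset.sum_div]
  refine Finset.sum_congr rfl fun u _ => ?_
  have h2 : ∀ j : Fin K, ip (pr D (v j)) (pr D (u j)) = al (v j) (u j) / D ^ 3 :=
    fun j => (h1 D hD _ _).1
  have h3 : ∀ i : ℕ, im (pr D i) = mm i / D ^ 2 := fun i => (h1 D hD i i).2
  rw [Finset.prod_congr rfl fun j _ => h2 j, Finset.prod_div_distrib, Finset.prod_const,
    Finset.card_erase_of_mem (Finset.mem_univ l), Finset.card_univ, Fintype.card_fin, h3, h3]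
  have hD0 : D ≠ 0 := hD.ne'
  field_simp

open Classical in
theorem tTnU (h1 : IpVStmt) (h2 : SuVStmt) (h3 : MkUStmt) (h4 : TuCStmt) : TnUStmt := by
  intro m hm e0 t1 A1 he0 ht1
  obtain ⟨A0, hA0, hA1⟩ : ∃ A0 : ℝ, 0 < A0 ∧ A1 ≤ A0 :=
    ⟨max A1 1, lt_max_of_lt_right one_pos, le_max_left _ _⟩
  obtain ⟨e, he, hee, he1⟩ : ∃ e : ℝ, 0 < e ∧ e ≤ e0 ∧ e ≤ 1 :=
    ⟨min e0 1, lt_min he0 one_pos, min_le_left _ _, min_le_right _ _⟩
  have hm1 : (1 : ℝ) ≤ m := by exact_mod_cast hm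
  obtain ⟨c, hc⟩ : ∃ c : ℝ, c = 2 + 12 * m / e := ⟨_, rfl⟩
  have hme : (m : ℝ) ≤ m / e := by
    rw [le_div_iff₀ he]
    nlinarith
  have hc14 : 14 ≤ c := by
    rw [hc, mul_div_assoc]
    linarith
  obtain ⟨q0, hq0⟩ : ∃ q0 : ℕ, max (6 * A0 * c) (1 / t1) ≤ (q0 : ℝ) := exists_nat_ge _
  obtain ⟨hal, hS1, hS3, hT, hM⟩ := h2 q0
  rw [Finset.sum_range] at hS1 hS3 hT hM
  simp only [Finset.sum_range] at hS1 hS3 hT
  obtain ⟨q, hq⟩ : ∃ q : ℝ, q = (q0 : ℝ) + 1 := ⟨_, rfl⟩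
  have hq1 : 1 ≤ q := by
    rw [hq]
    linarith [Nat.cast_nonneg (α := ℝ) q0]
  have hqA : 6 * A0 * c ≤ q := by
    rw [hq]
    linarith [le_max_left (6 * A0 * c) (1 / t1)]
  have hqt : 1 / t1 ≤ q := by
    rw [hq]
    linarith [le_max_right (6 * A0 * c) (1 / t1)]
  obtain ⟨N, hN⟩ : ∃ N : ℕ, N = 2 ^ (q0 + 1) := ⟨_, rfl⟩
  obtain ⟨S, hS⟩ : ∃ S : ℝ, S = ∑ i : Fin (q0 + 1), ∑ j : Fin (q0 + 1), al i j := ⟨_, rfl⟩
  obtain ⟨U, hUd⟩ : ∃ U : ℝ, U = ∑ i : Fin (q0 + 1), ∑ j : Fin (q0 + 1),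
    2 ^ ((i : ℕ) + 1) * al i j := ⟨_, rfl⟩
  obtain ⟨M, hMd⟩ : ∃ M : ℝ, M = ∑ i : Fin (q0 + 1), mm i := ⟨_, rfl⟩
  obtain ⟨D, hDd⟩ : ∃ D : ℝ, D = N * (c * q) := ⟨_, rfl⟩
  rw [← hS] at hS1 hS3
  rw [← hUd] at hT
  rw [← hMd] at hM
  rw [← hq] at hM hT
  have hN1 : 1 ≤ N := by rw [hN]; exact Nat.one_le_two_pow
  have hNr : (1 : ℝ) ≤ N := by exact_mod_cast hN1
  have hNp : (N : ℝ) = 2 ^ (q0 + 1) := by rw [hN]; push_cast; rfl
  have hqN : q ≤ N := by
    have h5 : q0 + 1 ≤ N := by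
      rw [hN]
      exact (Nat.lt_two_pow_self).le
    rw [hq]
    exact_mod_cast h5
  have hSp : 0 < S := by linarith
  have hK1 : 1 ≤ m * N := Nat.one_le_iff_ne_zero.2 (by positivity)
  have hMp : 0 < M := by linarith
  have hmmle : ∀ i : ℕ, mm i ≤ 3 / 2 := by
    intro i
    unfold mm
    split_ifs <;> norm_num
  have hMu : M ≤ 3 / 2 * q := by
    rw [hMd]
    refine (Finset.sum_le_sum fun (i : Fin (q0 + 1)) _ => hmmle (i : ℕ)).trans ?_
    rw [Finset.sum_const, Finset.card_univ, Fintype.card_fin, nsmul_eq_mul, hq]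
    push_cast
    linarith
  have hcq : 14 * q ≤ c * q := by gcongr
  have hDlow : N * (14 * q) ≤ D := by rw [hDd]; gcongr
  have hNq : (N : ℝ) ≤ N * q := by nlinarith
  have hD : 0 < D := by nlinarith
  have hD0 : D ≠ 0 := hD.ne'
  have hpow : ∀ a : Fin (q0 + 1), (2 : ℝ) ^ ((a : ℕ) + 1) ≤ N := by
    intro a
    rw [hNp]
    exact pow_le_pow_right₀ (by norm_num) (by omega)
  have hsym : ∀ i j : Fin (q0 + 1), al i j = al j i := by
    intro i j
    rcases eq_or_ne (i : ℕ) (j : ℕ) with h | h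
    · rw [h]
    · unfold al
      rw [if_neg h, if_neg h.symm]
      split_ifs <;> first | rfl | omega
  have hmm : ∀ i : ℕ, 0 < mm i := by
    intro i
    unfold mm
    split_ifs <;> norm_num
  have hDe : D / 2 - N = N * (q - 1) + 6 * m * N * q / e := by
    rw [hDd, hc]
    field_simp
    ring
  have hDe2 : 6 * m * N * q / e ≤ D / 2 - N := by
    rw [hDe]
    have : 0 ≤ (N : ℝ) * (q - 1) := mul_nonneg (by linarith) (by linarith)
    linarith
  have hLD : (N : ℝ) < D / 2 := by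
    have : 0 < 6 * m * N * q / e := by positivity
    linarith
  obtain ⟨hA, hB⟩ := h3 (m * N) (q0 + 1) (fun i j => al i j) (fun i => mm i)
    (fun a => 2 ^ ((a : ℕ) + 1)) (D / 2) N e hK1 he (fun i j => hal i j) hsym (fun i => (hmm i).le)
    (fun a => ⟨by positivity, hpow a⟩) hLD (by rw [← hS]; linarith) (by
      rw [← hS, ← hUd]
      push_cast
      have h5 : 2 * ((m : ℝ) * N - 1) * U ≤ 2 * ((m : ℝ) * N - 1) * (3 * q) := by
        refine mul_le_mul_of_nonneg_left hT ?_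
        nlinarith
      have h6 : (D / 2 - N) * 1 ≤ (D / 2 - N) * S := mul_le_mul_of_nonneg_left hS1 (by linarith)
      have h7 : e * (6 * m * N * q / e) ≤ e * ((D / 2 - N) * S) := by
        refine mul_le_mul_of_nonneg_left ?_ he.le
        linarith
      have h8 : e * (6 * m * N * q / e) = 6 * m * N * q := by field_simp
      rw [h8] at h7
      nlinarith)
  rw [← hS] at hA
  rw [← hS, ← hMd] at hB
  obtain ⟨A, hAd⟩ : ∃ A : Finset (Fin (m * N) → Fin (q0 + 1)),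
    A = univ.filter (fun v : Fin (m * N) → Fin (q0 + 1) =>
      ∑ j, (2 : ℝ) ^ ((v j : ℕ) + 1) ≤ D / 2) := ⟨_, rfl⟩
  rw [← hAd] at hA hB
  have hmem : ∀ v ∈ A, ∑ j, (2 : ℝ) ^ ((v j : ℕ) + 1) ≤ D / 2 := by
    intro v hv
    rw [hAd, Finset.mem_filter] at hv
    exact hv.2
  have hhalf : ∀ v ∈ A, ∑ j, (2 : ℝ) ^ ((v j : ℕ) + 1) / D ≤ 1 / 2 := by
    intro v hv
    rw [← Finset.sum_div, div_le_iff₀ hD]
    linarith [hmem v hv]
  have h0 : (fun _ : Fin (m * N) => (0 : Fin (q0 + 1))) ∈ A := by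
    rw [hAd, Finset.mem_filter]
    refine ⟨Finset.mem_univ _, ?_⟩
    rw [Finset.sum_const, Finset.card_univ, Fintype.card_fin, nsmul_eq_mul]
    push_cast
    norm_num
    have h9 : (m : ℝ) * N ≤ m * N * q := by
      have : 0 < (m : ℝ) * N := by positivity
      nlinarith
    have h10 : 6 * (m * N * q) ≤ 6 * m * N * q / e := by
      rw [le_div_iff₀ he]
      have h11 : 0 < (m : ℝ) * N * q := by positivity
      have h12 : (m : ℝ) * N * q * e ≤ m * N * q * 1 := mul_le_mul_of_nonneg_left he1 h11.le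
      linarith
    linarith
  have hnn : ∀ v u : Fin (m * N) → Fin (q0 + 1), 0 ≤ ∏ j, al (v j) (u j) :=
    fun v u => Finset.prod_nonneg fun j _ => hal _ _
  have hpos : 0 < ∑ v ∈ A, ∑ u ∈ A, ∏ j, al (v j) (u j) := by
    refine Finset.sum_pos' (fun v _ => Finset.sum_nonneg fun u _ => hnn v u) ⟨_, h0, ?_⟩
    refine Finset.sum_pos' (fun u _ => hnn _ u) ⟨_, h0, ?_⟩
    refine Finset.prod_pos fun j _ => ?_
    unfold al
    norm_num
  have hip : ∀ a b : ℕ, ip (pr D a) (pr D b) = al a b / D ^ 3 := fun a b => (h1 D hD a b).1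
  have him : ∀ a : ℕ, im (pr D a) = mm a / D ^ 2 := fun a => (h1 D hD a a).2
  have hip0 : ∀ a b : Fin (q0 + 1), 0 ≤ ip (pr D a) (pr D b) := by
    intro a b
    rw [hip]
    exact div_nonneg (hal _ _) (by positivity)
  have him0 : ∀ a : Fin (q0 + 1), 0 < im (pr D a) := by
    intro a
    rw [him]
    exact div_pos (hmm _) (by positivity)
  have hsumE : ∑ a : Fin (q0 + 1), ∑ b : Fin (q0 + 1), ip (pr D a) (pr D b) = S / D ^ 3 := by
    rw [hS, Finset.sum_div]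
    refine Finset.sum_congr rfl fun a _ => ?_
    rw [Finset.sum_div]
    exact Finset.sum_congr rfl fun b _ => hip _ _
  have hsumA : ∑ a : Fin (q0 + 1), im (pr D a) = M / D ^ 2 := by
    rw [hMd, Finset.sum_div]
    exact Finset.sum_congr rfl fun a _ => him _
  obtain ⟨hU1, hU2⟩ := h4 (m * N) (q0 + 1) (fun a b => ip (pr D a) (pr D b))
    (fun a => im (pr D a)) A hip0 (fun a => (him0 a).le)
  rw [hsumE, hsumA] at hU1
  rw [hsumE, hsumA] at hU2
  obtain ⟨α, hα⟩ : ∃ α : ℝ, α = M ^ 2 / (D * S) := ⟨_, rfl⟩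
  have hαp : 0 < α := by rw [hα]; positivity
  have hkey : α * (S / D ^ 3) = (M / D ^ 2) ^ 2 := by
    rw [hα]
    field_simp
  have hJ0 : ∀ l : Fin (m * N), α * (S / D ^ 3) ^ (m * N) =
      (M / D ^ 2) ^ 2 * (S / D ^ 3) ^ (m * N - 1) := by
    intro l
    rw [← hkey]
    conv_lhs => rw [show m * N = (m * N - 1) + 1 by omega, pow_succ]
    ring
  have hTp : 0 < (S / D ^ 3) ^ (m * N) := by positivity
  refine ⟨N, q0 + 1, fun a => pr D a, fun a => 2 ^ ((a : ℕ) + 1) / D, A, α,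
    (S / D ^ 3) ^ (m * N), hN1, ⟨⟨hK1, fun a s => TnU_be hD a s, fun a => ?_, fun v hv => ?_, ?_⟩,
    hhalf, hip0, him0, fun a s => (TnU_be hD a s).2.trans ?_, hTp, hαp, ?_, ?_,
    fun l => ⟨?_, ?_⟩, fun l j hlj => ?_, ?_⟩⟩
  · rw [div_le_one hD]
    linarith [hpow a]
  · linarith [hhalf v hv]
  · rw [TnU_Iq h1 hD]
    positivity
  · rw [div_le_iff₀ hD]
    refine (hpow a).trans ?_
    have e6 : 1 ≤ t1 * q := by
      rw [div_le_iff₀ ht1] at hqt
      linarith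
    have e7 : (N : ℝ) * 1 ≤ N * (t1 * q) := by gcongr
    have e8 : t1 * (N * (14 * q)) ≤ t1 * D := mul_le_mul_of_nonneg_left hDlow ht1.le
    have e9 : 0 ≤ (N : ℝ) * (t1 * q) := by positivity
    nlinarith
  · -- α ≤ 1
    rw [hα, div_le_one (by positivity)]
    have e1 : M ^ 2 ≤ (3 / 2 * q) ^ 2 := pow_le_pow_left₀ hMp.le hMu 2
    have e2 : q * q ≤ N * q := by gcongr
    have e3 : D * 1 ≤ D * S := mul_le_mul_of_nonneg_left hS1 hD.le
    nlinarith
  · rw [TnU_Iq h1 hD, div_pow]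
    exact div_le_div_of_nonneg_right hA (by positivity)
  · have hstep : (1 - e) * (α * (S / D ^ 3) ^ (m * N)) ≤ Jq (fun a => pr D ↑a) A l := by
      rw [hJ0 l, TnU_Jq h1 hD]
      have e4 : (1 - e) * ((M / D ^ 2) ^ 2 * (S / D ^ 3) ^ (m * N - 1)) =
          (1 - e) * (M ^ 2 * S ^ (m * N - 1)) / (D ^ 4 * (D ^ 3) ^ (m * N - 1)) := by
        rw [div_pow, div_pow]
        field_simp
      rw [e4]
      exact div_le_div_of_nonneg_right (hB l) (by positivity)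
    refine le_trans ?_ hstep
    have : 0 < α * (S / D ^ 3) ^ (m * N) := mul_pos hαp hTp
    exact mul_le_mul_of_nonneg_right (by linarith) this.le
  · rw [hJ0 l]
    exact hU1 l
  · have hK2 : 2 ≤ m * N := by
      have := l.isLt
      have := j.isLt
      have : (l : ℕ) ≠ j := fun h => hlj (Fin.ext h)
      omega
    have e5 : α ^ 2 * (S / D ^ 3) ^ (m * N) =
        (M / D ^ 2) ^ 4 * (S / D ^ 3) ^ (m * N - 2) := by
      rw [show (M / D ^ 2) ^ 4 = ((M / D ^ 2) ^ 2) ^ 2 by ring, ← hkey]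
      conv_lhs => rw [show m * N = (m * N - 2) + 2 by omega, pow_add]
      ring
    rw [e5]
    exact hU2 l j hlj
  · -- A0 ≤ N α
    refine hA1.trans ?_
    rw [hα, mul_div_assoc', le_div_iff₀ (by positivity)]
    have e1 : (3 / 4 * q) ^ 2 ≤ M ^ 2 := pow_le_pow_left₀ (by positivity) hM 2
    have e2 : A0 * (D * S) ≤ A0 * (D * 3) := by gcongr
    have e3 : 6 * A0 * c * q ≤ q * q := by gcongr
    have e4 : A0 * (D * 3) = N * (3 * A0 * c * q) := by rw [hDd]; ring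
    have e5 : (N : ℝ) * (3 * A0 * c * q) ≤ N * M ^ 2 := by
      refine mul_le_mul_of_nonneg_left ?_ (by linarith)
      nlinarith
    linarith

end Pool.Agent.Lib.BE
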