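import Pool.Agent.Lib.BE.SpecU

set_option autoImplicit false

namespace Pool.Agent.Lib.BE

open Finset
open Pool.Agent.Lib.MP_9f2731_nt.GP Pool.Agent.Lib.MP_9f2731_nt.GP.Sv
  Pool.Agent.Lib.MP_9f2731_nt.QL Pool.Agent.Lib.MP_9f2731_nt.QL.Sw Pool.Agent.Lib.MP_9f2731_nt.CG
  Pool.Agent.Lib.MP_9f2731_nt.CG.Ma Pool.Agent.Lib.MP_9f2731_nt.CG.Mf

private theorem UsU_log (X : ℕ) (hX : 1 ≤ X) : Real.log (RR X) = Real.log X / 5 := by
  unfold RR
  rw [Real.log_rpow (by exact_mod_cast hX)]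
  ring

private theorem UsU_prod {ι : Type} [DecidableEq ι] (x y : ι → ℝ) (A e : ℝ) (hA : 1 ≤ A)
    (hx : ∀ i, |x i| ≤ A) (hy : ∀ i, |y i| ≤ A) (he : ∀ i, |x i - y i| ≤ e) (s : Finset ι) :
    |∏ i ∈ s, x i - ∏ i ∈ s, y i| ≤ A ^ s.card * (s.card * e) := by
  have hA0 : 0 ≤ A := by linarith
  induction s using Finset.induction_on with
  | empty => simp
  | insert a s ha ih =>
    have he0 : 0 ≤ e := (abs_nonneg _).trans (he a)
    rw [Finset.prod_insert ha, Finset.prod_insert ha, Finset.card_insert_of_notMem ha]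
    have hY : |∏ i ∈ s, y i| ≤ A ^ s.card := by
      rw [Finset.abs_prod]
      calc ∏ i ∈ s, |y i| ≤ ∏ _i ∈ s, A :=
            Finset.prod_le_prod (fun i _ => abs_nonneg _) fun i _ => hy i
        _ = A ^ s.card := Finset.prod_const _
    have e1 : x a * ∏ i ∈ s, x i - y a * ∏ i ∈ s, y i =
        x a * (∏ i ∈ s, x i - ∏ i ∈ s, y i) + (x a - y a) * ∏ i ∈ s, y i := by ring
    rw [e1]
    calc |x a * (∏ i ∈ s, x i - ∏ i ∈ s, y i) + (x a - y a) * ∏ i ∈ s, y i|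
        ≤ |x a * (∏ i ∈ s, x i - ∏ i ∈ s, y i)| + |(x a - y a) * ∏ i ∈ s, y i| := abs_add_le _ _
      _ ≤ A * (A ^ s.card * (s.card * e)) + e * A ^ s.card := by
          rw [abs_mul, abs_mul]
          exact add_le_add (mul_le_mul (hx a) ih (abs_nonneg _) hA0)
            (mul_le_mul (he a) hY (abs_nonneg _) he0)
      _ ≤ A ^ (s.card + 1) * (((s.card + 1 : ℕ) : ℝ) * e) := by
          have h1 : 0 ≤ e * A ^ s.card := by positivity
          have h2 : e * A ^ s.card ≤ A * (e * A ^ s.card) := by nlinarith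
          push_cast
          calc A * (A ^ s.card * (s.card * e)) + e * A ^ s.card
              ≤ A * (A ^ s.card * (s.card * e)) + A * (e * A ^ s.card) := by linarith
            _ = A ^ (s.card + 1) * (((s.card : ℝ) + 1) * e) := by ring

private theorem UsU_thr (K : ℕ) (C D1 D2 D3 η : ℝ) (hη : 0 < η) :
    ∃ X0 : ℝ, ∀ x : ℝ, X0 ≤ x → Real.exp 10 ≤ x ∧ 1 ≤ (Real.log (Real.log x)) ^ 2 ∧
      D1 * (Real.exp (C / (Real.log (Real.log x)) ^ 2) - 1) ≤ η / 2 ∧
      D2 / Real.sqrt (Real.log x) ≤ η / 2 ∧ D3 * Real.log x ^ (4 * K) ≤ x ^ ((1 : ℝ) / 10) := by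
  have hll : Filter.Tendsto (fun x : ℝ => Real.log (Real.log x)) Filter.atTop Filter.atTop :=
    Real.tendsto_log_atTop.comp Real.tendsto_log_atTop
  have hll2 : Filter.Tendsto (fun x : ℝ => (Real.log (Real.log x)) ^ 2) Filter.atTop Filter.atTop :=
    (Filter.tendsto_pow_atTop two_ne_zero).comp hll
  have h1 := Filter.eventually_ge_atTop (Real.exp 10)
  have h2 := hll2.eventually_ge_atTop 1
  have h3 : Filter.Tendsto (fun x : ℝ => D1 * (Real.exp (C / (Real.log (Real.log x)) ^ 2) - 1))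
      Filter.atTop (nhds (D1 * (Real.exp 0 - 1))) :=
    (((Real.continuous_exp.tendsto 0).comp (hll2.const_div_atTop C)).sub_const 1).const_mul D1
  have h3' := h3.eventually_le_const (u := η / 2) (by
    rw [Real.exp_zero, sub_self, mul_zero]
    linarith)
  have h4 : Filter.Tendsto (fun x : ℝ => D2 / Real.sqrt (Real.log x)) Filter.atTop (nhds 0) :=
    (Real.tendsto_sqrt_atTop.comp Real.tendsto_log_atTop).const_div_atTop D2
  have h4' := h4.eventually_le_const (u := η / 2) (by linarith)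
  have h5 : ∀ᶠ x : ℝ in Filter.atTop, D3 * Real.log x ^ (4 * K) ≤ x ^ ((1 : ℝ) / 10) := by
    have h := ((isLittleO_log_rpow_rpow_atTop ((4 * K : ℕ) : ℝ)
      (by norm_num : (0 : ℝ) < 1 / 10)).const_mul_left D3).bound (c := 1) one_pos
    filter_upwards [h, Filter.eventually_ge_atTop (1 : ℝ)] with x hx hx1
    rw [one_mul, Real.norm_eq_abs, Real.norm_eq_abs, Real.rpow_natCast,
      abs_of_nonneg (Real.rpow_nonneg (by linarith) _)] at hx
    exact (le_abs_self _).trans hx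
  obtain ⟨X0, hX0⟩ := Filter.eventually_atTop.1 (h1.and (h2.and (h3'.and (h4'.and h5))))
  exact ⟨X0, fun x hx => hX0 x hx⟩

/-- the functions: g at the places in D, the profiles elsewhere -/
private noncomputable def UsU_F (X : ℕ) {K r : ℕ} (P : Fin r → Pf) (D : Finset (Fin K))
    (g : ℕ → ℝ) (v : Fin K → Fin r) (j : Fin K) : ℕ → ℝ :=
  if j ∈ D then g else pfn (P (v j)) (RR X)

private theorem UsU_Fp (X : ℕ) {K r : ℕ} (P : Fin r → Pf) (D : Finset (Fin K))
    (g : ℕ → ℝ) (v : Fin K → Fin r) (j : Fin K) (hj : j ∈ D) : UsU_F X P D g v j = g :=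
  if_pos hj

private theorem UsU_Fn (X : ℕ) {K r : ℕ} (P : Fin r → Pf) (D : Finset (Fin K))
    (g : ℕ → ℝ) (v : Fin K → Fin r) (j : Fin K) (hj : j ∉ D) :
    UsU_F X P D g v j = pfn (P (v j)) (RR X) :=
  if_neg hj

/-- the square as a sum over pairs -/
private theorem UsU_sq (W X : ℕ) {K r : ℕ} (P : Fin r → Pf) (𝒜 : Finset (Fin K → Fin r))
    (a c : Fin K → ℕ) (D : Finset (Fin K)) (q h : ℕ → ℝ) (b : ℕ) :
    UD W X P 𝒜 a c D b ^ 2 *
      ∏ j ∈ D, (AF W (RR X) q (a j * b + c j) * AF W (RR X) h (a j * b + c j)) =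
    ∑ v ∈ 𝒜, ∑ u ∈ 𝒜, (∏ j ∈ D, im (P (v j)) * im (P (u j))) *
      ∏ j, (AF W (RR X) (UsU_F X P D q v j) (a j * b + c j) *
        AF W (RR X) (UsU_F X P D h u j) (a j * b + c j)) := by
  unfold UD
  rw [pow_two, Finset.sum_mul_sum, Finset.sum_mul]
  refine Finset.sum_congr rfl fun v _ => ?_
  rw [Finset.sum_mul]
  refine Finset.sum_congr rfl fun u _ => ?_
  rw [← Finset.prod_sdiff (Finset.subset_univ D)]
  have e1 : ∏ j ∈ univ \ D, (AF W (RR X) (UsU_F X P D q v j) (a j * b + c j) *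
        AF W (RR X) (UsU_F X P D h u j) (a j * b + c j)) =
      (∏ j ∈ univ \ D, AF W (RR X) (pfn (P (v j)) (RR X)) (a j * b + c j)) *
        ∏ j ∈ univ \ D, AF W (RR X) (pfn (P (u j)) (RR X)) (a j * b + c j) := by
    rw [← Finset.prod_mul_distrib]
    refine Finset.prod_congr rfl fun j hj => ?_
    have hj' : j ∉ D := (Finset.mem_sdiff.1 hj).2
    rw [UsU_Fn X P D q v j hj', UsU_Fn X P D h u j hj']
  have e2 : ∏ j ∈ D, (AF W (RR X) (UsU_F X P D q v j) (a j * b + c j) *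
        AF W (RR X) (UsU_F X P D h u j) (a j * b + c j)) =
      ∏ j ∈ D, (AF W (RR X) q (a j * b + c j) * AF W (RR X) h (a j * b + c j)) := by
    refine Finset.prod_congr rfl fun j hj => ?_
    rw [UsU_Fp X P D q v j hj, UsU_Fp X P D h u j hj]
  have e3 : ∏ j ∈ D, im (P (v j)) * im (P (u j)) =
      (∏ j ∈ D, im (P (v j))) * ∏ j ∈ D, im (P (u j)) := Finset.prod_mul_distrib
  rw [e1, e2, e3]
  ring

/-- the main term of one pair -/
private theorem UsU_main {K : ℕ} (D : Finset (Fin K)) (G τ : ℝ) (hG : G ≠ 0) (x : Fin K → ℝ) :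
    G ^ K * ∏ j, (if j ∈ D then τ / G else x j) =
      τ ^ D.card * G ^ (K - D.card) * ∏ j ∈ univ \ D, x j := by
  have e1 : G ^ K * ∏ j, (if j ∈ D then τ / G else x j) =
      ∏ j : Fin K, (G * (if j ∈ D then τ / G else x j)) := by
    rw [Finset.prod_mul_distrib, Finset.prod_const, Finset.card_univ, Fintype.card_fin]
  have e2 : ∏ j ∈ univ \ D, (G * (if j ∈ D then τ / G else x j)) =
      G ^ (K - D.card) * ∏ j ∈ univ \ D, x j := by
    have e3 : ∏ j ∈ univ \ D, (G * (if j ∈ D then τ / G else x j)) =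
        ∏ j ∈ univ \ D, (G * x j) := by
      refine Finset.prod_congr rfl fun j hj => ?_
      rw [if_neg (Finset.mem_sdiff.1 hj).2]
    rw [e3, Finset.prod_mul_distrib, Finset.prod_const, Finset.card_sdiff_of_subset
      (Finset.subset_univ D), Finset.card_univ, Fintype.card_fin]
  have e4 : ∏ j ∈ D, (G * (if j ∈ D then τ / G else x j)) = τ ^ D.card := by
    rw [← Finset.prod_const]
    refine Finset.prod_congr rfl fun j hj => ?_
    rw [if_pos hj]
    field_simp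
  rw [e1, ← Finset.prod_sdiff (Finset.subset_univ D), e2, e4]
  ring

/-- the product of the cutoffs -/
private theorem UsU_cut {K : ℕ} (D : Finset (Fin K)) (R e : ℝ) (hR : 1 ≤ R) (he : 0 ≤ e)
    (x : Fin K → ℝ) (hx : ∀ j, 0 ≤ x j) (hs : ∑ j, x j ≤ 1 / 2) (hD : D.card ≤ 2) :
    ∏ j, R ^ (if j ∈ D then e else x j) ≤ R ^ (2 * e + 1 / 2) := by
  have hR0 : 0 < R := by linarith
  rw [← Real.rpow_sum_of_pos hR0]
  refine Real.rpow_le_rpow_of_exponent_le hR ?_
  calc ∑ j, (if j ∈ D then e else x j) ≤ ∑ j, ((if j ∈ D then e else 0) + x j) := by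
        refine Finset.sum_le_sum fun j _ => ?_
        by_cases hj : j ∈ D
        · rw [if_pos hj, if_pos hj]
          linarith [hx j]
        · rw [if_neg hj, if_neg hj, zero_add]
    _ = D.card * e + ∑ j, x j := by
        rw [Finset.sum_add_distrib, Finset.sum_ite_mem, Finset.univ_inter, Finset.sum_const,
          nsmul_eq_mul]
    _ ≤ 2 * e + 1 / 2 := by
        have h1 : (D.card : ℝ) ≤ 2 := by exact_mod_cast hD
        have h2 : (D.card : ℝ) * e ≤ 2 * e := mul_le_mul_of_nonneg_right h1 he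
        linarith

private theorem UsU_im {K r : ℕ} (P : Fin r → Pf) (D : Finset (Fin K)) (hD : D.card ≤ 2)
    (v u : Fin K → Fin r) (Bm : ℝ) (hB : 1 ≤ Bm) (hi : ∀ i, |im (P i)| ≤ Bm) :
    |∏ j ∈ D, im (P (v j)) * im (P (u j))| ≤ Bm ^ 4 := by
  rw [Finset.abs_prod]
  have h1 : ∏ j ∈ D, |im (P (v j)) * im (P (u j))| ≤ ∏ _j ∈ D, Bm ^ 2 := by
    refine Finset.prod_le_prod (fun j _ => abs_nonneg _) fun j _ => ?_
    rw [abs_mul, pow_two]
    exact mul_le_mul (hi _) (hi _) (abs_nonneg _) (by linarith)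
  refine h1.trans ?_
  rw [Finset.prod_const]
  calc (Bm ^ 2) ^ D.card ≤ (Bm ^ 2) ^ 2 := pow_le_pow_right₀ (one_le_pow₀ hB) hD
    _ = Bm ^ 4 := by ring

theorem tUsU (h1 : S1CStmt) (h2 : PfBStmt) (h3 : MfTStmt) (h4 : PhUStmt) : UsUStmt := by
  intro K r P bd 𝒜 hv hhalf Ch η hCh hη
  have hP : ∀ i, Pok (P i) := fun i s => ⟨(hv.be i s).1, (hv.be i s).2.trans (hv.one i)⟩
  have hbd0 : ∀ i, 0 ≤ bd i := fun i => (hv.be i 0).1.trans (hv.be i 0).2
  obtain ⟨CT, X1, hCT, h3⟩ := h3 r P hP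
  obtain ⟨C, hC, h1⟩ := h1 K
  obtain ⟨M, hM⟩ : ∃ M : ℝ, M = ∑ i, (P i).M + 1 + Ch := ⟨_, rfl⟩
  have hM0 : ∀ i, 0 ≤ (P i).M := fun i => by
    unfold Pf.M
    exact Finset.sum_nonneg fun s _ => abs_nonneg _
  have hM00 : 0 ≤ ∑ i, (P i).M := Finset.sum_nonneg fun j _ => hM0 j
  have hMi : ∀ i, (P i).M ≤ M := fun i => by
    rw [hM]
    have := Finset.single_le_sum (f := fun j => (P j).M) (fun j _ => hM0 j) (mem_univ i)
    linarith
  have hMp : 0 ≤ M := by
    rw [hM]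
    linarith
  have hM1 : 1 ≤ M := by
    rw [hM]
    linarith
  have hMCh : Ch ≤ M := by
    rw [hM]
    linarith
  obtain ⟨E, hE⟩ : ∃ D : ℝ, D = ∑ i, ∑ k, |ip (P i) (P k)| := ⟨_, rfl⟩
  have hEi : ∀ i k, |ip (P i) (P k)| ≤ E := fun i k => by
    rw [hE]
    calc |ip (P i) (P k)| ≤ ∑ k, |ip (P i) (P k)| :=
          Finset.single_le_sum (f := fun k => |ip (P i) (P k)|) (fun j _ => abs_nonneg _)
            (mem_univ k)
      _ ≤ ∑ i, ∑ k, |ip (P i) (P k)| :=
          Finset.single_le_sum (f := fun i => ∑ k, |ip (P i) (P k)|)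
            (fun j _ => Finset.sum_nonneg fun _ _ => abs_nonneg _) (mem_univ i)
  have hE0 : 0 ≤ E := by
    rw [hE]
    exact Finset.sum_nonneg fun _ _ => Finset.sum_nonneg fun _ _ => abs_nonneg _
  obtain ⟨Bm, hBm⟩ : ∃ B : ℝ, B = ∑ i, |im (P i)| + 1 := ⟨_, rfl⟩
  have hBm1 : 1 ≤ Bm := by
    rw [hBm]
    have : 0 ≤ ∑ i, |im (P i)| := Finset.sum_nonneg fun _ _ => abs_nonneg _
    linarith
  have hBmi : ∀ i, |im (P i)| ≤ Bm := fun i => by
    rw [hBm]
    have := Finset.single_le_sum (f := fun j => |im (P j)|) (fun j _ => abs_nonneg _) (mem_univ i)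
    linarith
  obtain ⟨CX, hCX⟩ : ∃ A : ℝ, A = CT + Ch := ⟨_, rfl⟩
  have hCX0 : 0 < CX := by linarith
  obtain ⟨A, hA⟩ : ∃ A : ℝ, A = CT + Ch + E + 1 := ⟨_, rfl⟩
  have hA1 : 1 ≤ A := by linarith
  obtain ⟨N, hN⟩ : ∃ N : ℝ, N = (𝒜.card : ℝ) ^ 2 * Bm ^ 4 := ⟨_, rfl⟩
  have hN0 : 0 ≤ N := by
    rw [hN]
    positivity
  obtain ⟨X2, hX2⟩ := UsU_thr K C (N * CX ^ K) (N * (A ^ K * (K * CT))) (N * (M + 1) ^ (2 * K)) η hη
  refine ⟨max X1 X2, fun X w V p0 a c D h hX hS hD hSup hhB hhT => ?_⟩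
  obtain ⟨P0, hP0⟩ : ∃ P0 : ℕ, P0 = 1 := ⟨_, rfl⟩
  suffices main : |∑ b ∈ (Icc 1 X).filter (fun b => b ≡ 0 [MOD P0]),
        UD (V * p0) X P 𝒜 a c D b ^ 2 *
          ∏ j ∈ D, (AF (V * p0) (RR X) (qU X) (a j * b + c j) * AF (V * p0) (RR X) h (a j * b + c j))
      - X / P0 * (TTF (V * p0) (RR X) (qU X) h 1 1 ^ D.card * GG (V * p0) X ^ (K - D.card) *
        JD P 𝒜 D)| ≤
      X / P0 * (GG (V * p0) X ^ K * η) + (X : ℝ) ^ ((3 : ℝ) / 5) by
    have hfil : (Icc 1 X).filter (fun b => b ≡ 0 [MOD P0]) = Icc 1 X := by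
      rw [hP0]
      exact Finset.filter_true_of_mem fun b _ => Nat.modEq_one
    rw [hfil, hP0, Nat.cast_one, div_one] at main
    exact main
  have hXX1 : X1 ≤ X := le_trans (le_max_left _ _) hX
  obtain ⟨hX10, hll, t1, t2, t3⟩ := hX2 X (le_trans (le_max_right _ _) hX)
  obtain ⟨h3a, -⟩ := h3 X w V p0 0 (fun _ => 1) hXX1 ⟨hS.hp, hS.hpV, hS.hV, hS.hw, hS.hlog, hS.hs,
    fun j => j.elim0, fun j => j.elim0, fun j => j.elim0, fun j => j.elim0, fun j => j.elim0⟩
  have hXr : (0 : ℝ) < X := lt_of_lt_of_le (Real.exp_pos _) hX10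
  have hX1 : 1 ≤ X := by
    have : 0 < X := by exact_mod_cast hXr
    omega
  obtain ⟨L, hL⟩ : ∃ L : ℝ, L = Real.log X := ⟨_, rfl⟩
  have hL10 : 10 ≤ L := by
    rw [hL, Real.le_log_iff_exp_le hXr]
    exact hX10
  have hlR : Real.log (RR X) = L / 5 := by
    rw [hL]
    exact UsU_log X hX1
  have hR0 : 0 < RR X := by
    unfold RR
    exact Real.rpow_pos_of_pos hXr _
  have hR2 : 2 ≤ RR X := by
    rw [← Real.exp_log hR0, hlR]
    have := Real.add_one_le_exp (L / 5)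
    linarith
  have hR1 : 1 ≤ RR X := by linarith
  obtain ⟨-, hq0, hqS⟩ := h4.2 X (by linarith)
  have hw := hS.hw
  have hw1r : (1 : ℝ) ≤ w := hll.trans hw
  have hw1 : 1 ≤ w := by exact_mod_cast hw1r
  have hVp : 1 ≤ V * p0 := Nat.mul_pos hS.hV hS.hp.pos
  have hd0 : 0 < dlV (V * p0) := dlV_pos hVp
  obtain ⟨G, hG⟩ : ∃ G : ℝ, G = GG (V * p0) X := ⟨_, rfl⟩
  have hG0 : 0 < G := by
    rw [hG]
    unfold GG
    rw [hlR]
    have : 0 < L / 5 := by linarith
    positivity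
  have hs0 : 0 < Real.sqrt L := Real.sqrt_pos.2 (by linarith)
  have hP01 : 1 ≤ P0 := by omega
  have hP0r : (0 : ℝ) < P0 := by exact_mod_cast hP01
  have hqs : ∀ p ∈ QsV (V * p0) (RR X), w < p ∧ ¬ p ∣ P0 := by
    intro p hp
    have hp' := mem_QsV.1 hp
    constructor
    · by_contra h
      exact hp'.2.1 (hS.hs p hp'.1 (by omega))
    · rw [hP0]
      intro h'
      exact hp'.1.one_lt.ne' (Nat.dvd_one.1 h')
  rw [← hG] at h3a hhT ⊢
  rw [← hL] at h3a t2 t3
  obtain ⟨τ, hτ⟩ : ∃ τ : ℝ, τ = TTF (V * p0) (RR X) (qU X) h 1 1 := ⟨_, rfl⟩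
  rw [← hτ]
  have hτG : |τ / G| ≤ A := by
    rw [abs_div, abs_of_pos hG0, div_le_iff₀ hG0, hτ]
    refine (hhT 1 1).trans ?_
    exact mul_le_mul_of_nonneg_right (by linarith) hG0.le
  obtain ⟨B, hB⟩ : ∃ B : ℝ, B = M * Real.log (RR X) ^ 2 := ⟨_, rfl⟩
  have hB0 : 0 ≤ B := by
    rw [hB]
    positivity
  have hlR2 : 0 ≤ Real.log (RR X) ^ 2 := by positivity
  obtain ⟨e, he⟩ : ∃ e : ℝ, e = CX ^ K * (Real.exp (C / w) - 1) +
    A ^ K * (K * (CT / Real.sqrt L)) := ⟨_, rfl⟩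
  -- bounds of the functions
  have hFb : ∀ (g : ℕ → ℝ), (∀ n, |g n| ≤ B) → ∀ (v : Fin K → Fin r) (j : Fin K) (n : ℕ),
      |UsU_F X P D g v j n| ≤ B := by
    intro g hg v j n
    by_cases hj : j ∈ D
    · rw [UsU_Fp X P D g v j hj]
      exact hg n
    · rw [UsU_Fn X P D g v j hj, hB]
      refine ((h2 (P (v j)) (RR X) hR1 (hP _)).1 n).trans ?_
      exact mul_le_mul_of_nonneg_right (hMi _) hlR2
  have hFS : ∀ (g : ℕ → ℝ) (ε : ℝ), 0 ≤ ε → ε ≤ 1 → Sup (RR X ^ ε) g →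
      ∀ (v : Fin K → Fin r) (j : Fin K),
      0 ≤ RR X ^ (if j ∈ D then ε else bd (v j)) ∧ RR X ^ (if j ∈ D then ε else bd (v j)) ≤ RR X ∧
        Sup (RR X ^ (if j ∈ D then ε else bd (v j))) (UsU_F X P D g v j) := by
    intro g ε hε0 hε1 hg v j
    have hle : ∀ x : ℝ, x ≤ 1 → RR X ^ x ≤ RR X := fun x hx => by
      calc RR X ^ x ≤ RR X ^ (1 : ℝ) := Real.rpow_le_rpow_of_exponent_le hR1 hx
        _ = RR X := Real.rpow_one _
    by_cases hj : j ∈ D
    · rw [UsU_Fp X P D g v j hj, if_pos hj]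
      exact ⟨(Real.rpow_pos_of_pos hR0 _).le, hle _ hε1, hg⟩
    · rw [UsU_Fn X P D g v j hj, if_neg hj]
      exact ⟨(Real.rpow_pos_of_pos hR0 _).le, hle _ (hv.one _),
        (h2 (P (v j)) (RR X) hR1 (hP _)).2.1 _ fun s => (hv.be _ s).2⟩
  have hqB : ∀ n, |qU X n| ≤ B := fun n => by
    rw [abs_of_nonneg (hq0 n).1, hB]
    refine (hq0 n).2.trans ?_
    calc Real.log (RR X) ^ 2 = 1 * Real.log (RR X) ^ 2 := (one_mul _).symm
      _ ≤ M * Real.log (RR X) ^ 2 := mul_le_mul_of_nonneg_right hM1 hlR2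
  have hhB' : ∀ n, |h n| ≤ B := fun n => by
    rw [hB]
    exact (hhB n).trans (mul_le_mul_of_nonneg_right hMCh hlR2)
  have hTT : ∀ (v u : Fin K → Fin r) (j : Fin K) (b b' : ℕ),
      |TTF (V * p0) (RR X) (UsU_F X P D (qU X) v j) (UsU_F X P D h u j) b b'| ≤ CX * G := by
    intro v u j b b'
    by_cases hj : j ∈ D
    · rw [UsU_Fp X P D (qU X) v j hj, UsU_Fp X P D h u j hj]
      refine (hhT b b').trans ?_
      exact mul_le_mul_of_nonneg_right (by linarith) hG0.le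
    · rw [UsU_Fn X P D (qU X) v j hj, UsU_Fn X P D h u j hj]
      refine ((h3a (v j) (u j)).2 b b').trans ?_
      exact mul_le_mul_of_nonneg_right (by linarith) hG0.le
  -- one pair
  have key : ∀ v ∈ 𝒜, ∀ u ∈ 𝒜,
      |∑ b ∈ (Icc 1 X).filter (fun b => b ≡ 0 [MOD P0]),
        ∏ j, (AF (V * p0) (RR X) (UsU_F X P D (qU X) v j) (a j * b + c j) *
          AF (V * p0) (RR X) (UsU_F X P D h u j) (a j * b + c j))
        - X / P0 * (τ ^ D.card * G ^ (K - D.card) * ∏ j ∈ univ \ D, ip (P (v j)) (P (u j)))| ≤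
      X / P0 * (G ^ K * e) + RR X ^ ((5 : ℝ) / 2) * B ^ (2 * K) := by
    intro v hvA u huA
    have hmain := h1 (Fin K) (V * p0) w X P0 0 (RR X) B (fun _ => CX * G) a c
      (fun i => if i.2 then UsU_F X P D (qU X) v i.1 else UsU_F X P D h u i.1)
      (fun i => if i.2 then RR X ^ (if i.1 ∈ D then (1 : ℝ) / 4 else bd (v i.1))
        else RR X ^ (if i.1 ∈ D then (1 : ℝ) / 2 else bd (u i.1)))
      (by rw [Fintype.card_fin]) hw1 hVp hP01 (by linarith) hqs
      (fun j p hp => hS.ha j p (mem_QsV.1 hp).1 (mem_QsV.1 hp).2.1)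
      (fun j k hjk p hp => hS.hd j k hjk p (mem_QsV.1 hp).1 (mem_QsV.1 hp).2.1)
      (by
        rintro ⟨j, b⟩ n
        cases b
        · exact hFb h hhB' u j n
        · exact hFb (qU X) hqB v j n)
      (by
        rintro ⟨j, b⟩
        cases b
        · exact hFS h (1 / 2) (by norm_num) (by norm_num) hSup u j
        · exact hFS (qU X) (1 / 4) (by norm_num) (by norm_num) hqS v j)
      (fun j b c' => hTT v u j b c')
    simp only [if_true, Bool.false_eq_true, if_false] at hmain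
    -- the last error
    have hlast : ∏ i : Fin K × Bool,
        ((if i.2 then RR X ^ (if i.1 ∈ D then (1 : ℝ) / 4 else bd (v i.1))
        else RR X ^ (if i.1 ∈ D then (1 : ℝ) / 2 else bd (u i.1))) * B) ≤
        RR X ^ ((5 : ℝ) / 2) * B ^ (2 * K) := by
      rw [Fintype.prod_prod_type]
      simp only [Fintype.prod_bool, if_true, Bool.false_eq_true, if_false]
      have e1 : ∏ j : Fin K, (RR X ^ (if j ∈ D then (1 : ℝ) / 4 else bd (v j)) * B *
          (RR X ^ (if j ∈ D then (1 : ℝ) / 2 else bd (u j)) * B)) =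
          (∏ j, RR X ^ (if j ∈ D then (1 : ℝ) / 4 else bd (v j))) *
            (∏ j, RR X ^ (if j ∈ D then (1 : ℝ) / 2 else bd (u j))) * B ^ (2 * K) := by
        rw [← Finset.prod_mul_distrib]
        have : B ^ (2 * K) = ∏ _j : Fin K, B ^ 2 := by
          rw [Finset.prod_const, Finset.card_univ, Fintype.card_fin, pow_mul]
        rw [this, ← Finset.prod_mul_distrib]
        exact Finset.prod_congr rfl fun j _ => by ring
      rw [e1]
      have c1 := UsU_cut D (RR X) (1 / 4) hR1 (by norm_num) (fun j => bd (v j)) (fun j => hbd0 _)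
        (hhalf v hvA) hD
      have c2 := UsU_cut D (RR X) (1 / 2) hR1 (by norm_num) (fun j => bd (u j)) (fun j => hbd0 _)
        (hhalf u huA) hD
      have e5 : RR X ^ ((5 : ℝ) / 2) = RR X ^ (2 * (1 / 4 : ℝ) + 1 / 2) *
          RR X ^ (2 * (1 / 2 : ℝ) + 1 / 2) := by
        rw [← Real.rpow_add hR0]
        norm_num
      refine mul_le_mul_of_nonneg_right ?_ (by positivity)
      rw [e5]
      exact mul_le_mul c1 c2 (Finset.prod_nonneg fun j _ => (Real.rpow_pos_of_pos hR0 _).le)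
        (Real.rpow_pos_of_pos hR0 _).le
    -- the main term
    have hT : ∏ _j : Fin K, (CX * G) = CX ^ K * G ^ K := by
      rw [Finset.prod_const, Finset.card_univ, Fintype.card_fin, mul_pow]
    rw [hT] at hmain
    have hpr := UsU_prod
      (fun j : Fin K => TTF (V * p0) (RR X) (UsU_F X P D (qU X) v j) (UsU_F X P D h u j) 1 1 / G)
      (fun j : Fin K => if j ∈ D then τ / G else ip (P (v j)) (P (u j))) A (CT / Real.sqrt L) hA1
      (fun j => by
        rw [abs_div, abs_of_pos hG0, div_le_iff₀ hG0]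
        refine (hTT v u j 1 1).trans ?_
        exact mul_le_mul_of_nonneg_right (by linarith) hG0.le)
      (fun j => by
        by_cases hj : j ∈ D
        · rw [if_pos hj]
          exact hτG
        · rw [if_neg hj]
          exact (hEi _ _).trans (by linarith))
      (fun j => by
        by_cases hj : j ∈ D
        · rw [if_pos hj, UsU_Fp X P D (qU X) v j hj, UsU_Fp X P D h u j hj, ← hτ, sub_self,
            abs_zero]
          positivity
        · rw [if_neg hj, UsU_Fn X P D (qU X) v j hj, UsU_Fn X P D h u j hj]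
          have e2 : TTF (V * p0) (RR X) (pfn (P (v j)) (RR X)) (pfn (P (u j)) (RR X)) 1 1 / G -
              ip (P (v j)) (P (u j)) =
              (TTF (V * p0) (RR X) (pfn (P (v j)) (RR X)) (pfn (P (u j)) (RR X)) 1 1 -
                G * ip (P (v j)) (P (u j))) / G := by
            field_simp
          rw [e2, abs_div, abs_of_pos hG0, div_le_iff₀ hG0]
          refine (h3a (v j) (u j)).1.trans (le_of_eq ?_)
          ring) univ
    rw [Finset.card_univ, Fintype.card_fin, Finset.prod_div_distrib, Finset.prod_const,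
      Finset.card_univ, Fintype.card_fin] at hpr
    have hGK : 0 < G ^ K := pow_pos hG0 K
    have hpr2 : |∏ j : Fin K, TTF (V * p0) (RR X) (UsU_F X P D (qU X) v j)
          (UsU_F X P D h u j) 1 1
        - τ ^ D.card * G ^ (K - D.card) * ∏ j ∈ univ \ D, ip (P (v j)) (P (u j))| ≤
        G ^ K * (A ^ K * (K * (CT / Real.sqrt L))) := by
      rw [← UsU_main D G τ hG0.ne' (fun j => ip (P (v j)) (P (u j)))]
      have e3 : ∏ j : Fin K, TTF (V * p0) (RR X) (UsU_F X P D (qU X) v j)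
            (UsU_F X P D h u j) 1 1
          - G ^ K * ∏ j, (if j ∈ D then τ / G else ip (P (v j)) (P (u j))) =
          G ^ K * ((∏ j : Fin K, TTF (V * p0) (RR X) (UsU_F X P D (qU X) v j)
            (UsU_F X P D h u j) 1 1) / G ^ K -
            ∏ j, (if j ∈ D then τ / G else ip (P (v j)) (P (u j)))) := by
        field_simp
      rw [e3, abs_mul, abs_of_pos hGK]
      exact mul_le_mul_of_nonneg_left hpr hGK.le
    have hXP : 0 ≤ (X : ℝ) / P0 := by positivity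
    have hpr3 : |(X : ℝ) / P0 * ∏ j : Fin K, TTF (V * p0) (RR X) (UsU_F X P D (qU X) v j)
          (UsU_F X P D h u j) 1 1 -
        X / P0 * (τ ^ D.card * G ^ (K - D.card) * ∏ j ∈ univ \ D, ip (P (v j)) (P (u j)))| ≤
        X / P0 * (G ^ K * (A ^ K * (K * (CT / Real.sqrt L)))) := by
      rw [← mul_sub, abs_mul, abs_of_nonneg hXP]
      exact mul_le_mul_of_nonneg_left hpr2 hXP
    have htri := abs_sub_le
      (∑ b ∈ (Icc 1 X).filter (fun b => b ≡ 0 [MOD P0]),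
        ∏ j, (AF (V * p0) (RR X) (UsU_F X P D (qU X) v j) (a j * b + c j) *
          AF (V * p0) (RR X) (UsU_F X P D h u j) (a j * b + c j)))
      (X / P0 * ∏ j : Fin K, TTF (V * p0) (RR X) (UsU_F X P D (qU X) v j)
        (UsU_F X P D h u j) 1 1)
      (X / P0 * (τ ^ D.card * G ^ (K - D.card) * ∏ j ∈ univ \ D, ip (P (v j)) (P (u j))))
    have e4 : (X : ℝ) / P0 * (G ^ K * e) =
        X / P0 * (CX ^ K * G ^ K * (Real.exp (C / w) - 1)) +
        X / P0 * (G ^ K * (A ^ K * (K * (CT / Real.sqrt L)))) := by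
      rw [he]
      ring
    rw [e4]
    linarith
  -- sum over the pairs
  have hexp : ∑ b ∈ (Icc 1 X).filter (fun b => b ≡ 0 [MOD P0]), UD (V * p0) X P 𝒜 a c D b ^ 2 *
        ∏ j ∈ D, (AF (V * p0) (RR X) (qU X) (a j * b + c j) *
          AF (V * p0) (RR X) h (a j * b + c j)) =
      ∑ v ∈ 𝒜, ∑ u ∈ 𝒜, (∏ j ∈ D, im (P (v j)) * im (P (u j))) *
        ∑ b ∈ (Icc 1 X).filter (fun b => b ≡ 0 [MOD P0]),
        ∏ j, (AF (V * p0) (RR X) (UsU_F X P D (qU X) v j) (a j * b + c j) *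
          AF (V * p0) (RR X) (UsU_F X P D h u j) (a j * b + c j)) := by
    rw [Finset.sum_congr rfl fun b _ => UsU_sq (V * p0) X P 𝒜 a c D (qU X) h b, Finset.sum_comm]
    refine Finset.sum_congr rfl fun v _ => ?_
    rw [Finset.sum_comm]
    refine Finset.sum_congr rfl fun u _ => ?_
    rw [Finset.mul_sum]
  have hI : (X : ℝ) / P0 * (τ ^ D.card * G ^ (K - D.card) * JD P 𝒜 D) =
      ∑ v ∈ 𝒜, ∑ u ∈ 𝒜, (∏ j ∈ D, im (P (v j)) * im (P (u j))) *
        (X / P0 * (τ ^ D.card * G ^ (K - D.card) * ∏ j ∈ univ \ D, ip (P (v j)) (P (u j)))) := by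
    unfold JD
    simp only [Finset.mul_sum]
    refine Finset.sum_congr rfl fun v _ => Finset.sum_congr rfl fun u _ => ?_
    ring
  rw [hexp, hI, ← Finset.sum_sub_distrib]
  obtain ⟨Er, hEr⟩ : ∃ Er : ℝ, Er = X / P0 * (G ^ K * e) + RR X ^ ((5 : ℝ) / 2) * B ^ (2 * K) :=
    ⟨_, rfl⟩
  rw [← hEr] at key
  have hpair : ∀ v ∈ 𝒜, ∀ u ∈ 𝒜, |(∏ j ∈ D, im (P (v j)) * im (P (u j))) *
        ∑ b ∈ (Icc 1 X).filter (fun b => b ≡ 0 [MOD P0]),
        ∏ j, (AF (V * p0) (RR X) (UsU_F X P D (qU X) v j) (a j * b + c j) *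
          AF (V * p0) (RR X) (UsU_F X P D h u j) (a j * b + c j)) -
        (∏ j ∈ D, im (P (v j)) * im (P (u j))) *
        (X / P0 * (τ ^ D.card * G ^ (K - D.card) * ∏ j ∈ univ \ D, ip (P (v j)) (P (u j))))| ≤
      Bm ^ 4 * Er := by
    intro v hvA u huA
    rw [← mul_sub, abs_mul]
    exact mul_le_mul (UsU_im P D hD v u Bm hBm1 hBmi) (key v hvA u huA) (abs_nonneg _)
      (by positivity)
  have hsum : |∑ v ∈ 𝒜, (∑ u ∈ 𝒜, (∏ j ∈ D, im (P (v j)) * im (P (u j))) *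
        ∑ b ∈ (Icc 1 X).filter (fun b => b ≡ 0 [MOD P0]),
        ∏ j, (AF (V * p0) (RR X) (UsU_F X P D (qU X) v j) (a j * b + c j) *
          AF (V * p0) (RR X) (UsU_F X P D h u j) (a j * b + c j)) -
        ∑ u ∈ 𝒜, (∏ j ∈ D, im (P (v j)) * im (P (u j))) *
        (X / P0 * (τ ^ D.card * G ^ (K - D.card) *
          ∏ j ∈ univ \ D, ip (P (v j)) (P (u j)))))| ≤ N * Er := by
    refine (Finset.abs_sum_le_sum_abs _ _).trans ?_
    calc _ ≤ ∑ v ∈ 𝒜, ∑ u ∈ 𝒜, Bm ^ 4 * Er := by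
          refine Finset.sum_le_sum fun v hvA => ?_
          rw [← Finset.sum_sub_distrib]
          refine (Finset.abs_sum_le_sum_abs _ _).trans ?_
          exact Finset.sum_le_sum fun u huA => hpair v hvA u huA
      _ = N * Er := by
          rw [Finset.sum_const, Finset.sum_const, nsmul_eq_mul, nsmul_eq_mul, hN]
          ring
  refine hsum.trans ?_
  rw [hEr]
  have hGK : 0 < G ^ K := pow_pos hG0 K
  have hXP : 0 ≤ (X : ℝ) / P0 := by positivity
  have hNe : N * e ≤ η := by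
    have h4 : Real.exp (C / w) ≤ Real.exp (C / (Real.log (Real.log X)) ^ 2) := by
      refine Real.exp_le_exp.2 ?_
      have : 0 < (Real.log (Real.log X)) ^ 2 := by linarith
      gcongr
    have h5 : N * CX ^ K * (Real.exp (C / w) - 1) ≤
        N * CX ^ K * (Real.exp (C / (Real.log (Real.log X)) ^ 2) - 1) := by
      refine mul_le_mul_of_nonneg_left (by linarith) (by positivity)
    have h6 : N * (A ^ K * (K * CT)) / Real.sqrt L = N * (A ^ K * (K * (CT / Real.sqrt L))) := by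
      ring
    rw [he, mul_add]
    have h7 : N * (CX ^ K * (Real.exp (C / w) - 1)) = N * CX ^ K * (Real.exp (C / w) - 1) := by
      ring
    rw [h7, ← h6]
    linarith
  have hNB : N * (RR X ^ ((5 : ℝ) / 2) * B ^ (2 * K)) ≤ (X : ℝ) ^ ((3 : ℝ) / 5) := by
    have hBL : B ≤ (M + 1) * L ^ 2 := by
      rw [hB, hlR]
      have : (L / 5) ^ 2 ≤ L ^ 2 := by
        have : L / 5 ≤ L := by linarith
        gcongr
      calc M * (L / 5) ^ 2 ≤ (M + 1) * (L / 5) ^ 2 := by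
            refine mul_le_mul_of_nonneg_right (by linarith) (by positivity)
        _ ≤ (M + 1) * L ^ 2 := by gcongr
    have hRR : RR X ^ ((5 : ℝ) / 2) = (X : ℝ) ^ ((1 : ℝ) / 2) := by
      unfold RR
      rw [← Real.rpow_mul hXr.le]
      norm_num
    have hRp : 0 ≤ RR X ^ ((5 : ℝ) / 2) := (Real.rpow_pos_of_pos hR0 _).le
    have hBK : B ^ (2 * K) ≤ ((M + 1) * L ^ 2) ^ (2 * K) := by gcongr
    calc N * (RR X ^ ((5 : ℝ) / 2) * B ^ (2 * K))
        ≤ N * (RR X ^ ((5 : ℝ) / 2) * ((M + 1) * L ^ 2) ^ (2 * K)) :=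
          mul_le_mul_of_nonneg_left (mul_le_mul_of_nonneg_left hBK hRp) hN0
      _ = RR X ^ ((5 : ℝ) / 2) * (N * (M + 1) ^ (2 * K) * L ^ (4 * K)) := by
          rw [mul_pow, ← pow_mul]
          have : 2 * (2 * K) = 4 * K := by ring
          rw [this]
          ring
      _ ≤ RR X ^ ((5 : ℝ) / 2) * (X : ℝ) ^ ((1 : ℝ) / 10) :=
          mul_le_mul_of_nonneg_left t3 hRp
      _ = (X : ℝ) ^ ((3 : ℝ) / 5) := by
          rw [hRR, ← Real.rpow_add hXr]
          norm_num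
  calc N * (X / P0 * (G ^ K * e) + RR X ^ ((5 : ℝ) / 2) * B ^ (2 * K))
      = X / P0 * (G ^ K * (N * e)) + N * (RR X ^ ((5 : ℝ) / 2) * B ^ (2 * K)) := by ring
    _ ≤ X / P0 * (G ^ K * η) + (X : ℝ) ^ ((3 : ℝ) / 5) := by
        refine add_le_add ?_ hNB
        refine mul_le_mul_of_nonneg_left ?_ hXP
        exact mul_le_mul_of_nonneg_left hNe hGK.le

end Pool.Agent.Lib.BE
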