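import Pool.Agent.Lib.BE.SpecU

set_option autoImplicit false

namespace Pool.Agent.Lib.BE

open Finset
open Pool.Agent.Lib.MP_9f2731_nt.GP Pool.Agent.Lib.MP_9f2731_nt.GP.Sv
  Pool.Agent.Lib.MP_9f2731_nt.QL Pool.Agent.Lib.MP_9f2731_nt.QL.Sw Pool.Agent.Lib.MP_9f2731_nt.CG
  Pool.Agent.Lib.MP_9f2731_nt.CG.Ma Pool.Agent.Lib.MP_9f2731_nt.CG.Mf

private theorem YpU_log (X : ℕ) (hX : 1 ≤ X) : Real.log (RR X) = Real.log X / 5 := by
  unfold RR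
  rw [Real.log_rpow (by exact_mod_cast hX)]
  ring

/-- the union bound -/
private theorem YpU_union (X : ℕ) (T : Finset ℕ) (L : ℕ → ℕ) (f : ℕ → ℝ) (hf : ∀ b, 0 ≤ f b)
    (Q : ℕ → Prop) [DecidablePred Q] (hQ : ∀ b, Q b → ∃ p ∈ T, p ∣ L b) :
    ∑ b ∈ (Icc 1 X).filter Q, f b ≤
      ∑ p ∈ T, ∑ b ∈ (Icc 1 X).filter (fun b => p ∣ L b), f b := by
  have h1 : ∑ p ∈ T, ∑ b ∈ (Icc 1 X).filter (fun b => p ∣ L b), f b =
      ∑ b ∈ Icc 1 X, ∑ p ∈ T, if p ∣ L b then f b else 0 := by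
    rw [Finset.sum_comm]
    exact Finset.sum_congr rfl fun p _ => by rw [Finset.sum_filter]
  rw [h1, Finset.sum_filter]
  refine Finset.sum_le_sum fun b _ => ?_
  have h0 : ∀ p ∈ T, (0 : ℝ) ≤ if p ∣ L b then f b else 0 := by
    intro p _
    split_ifs
    · exact hf b
    · exact le_refl 0
  by_cases hq : Q b
  · rw [if_pos hq]
    obtain ⟨p, hp, hd⟩ := hQ b hq
    have h2 := Finset.single_le_sum (f := fun p => if p ∣ L b then f b else 0) h0 hp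
    have h3 : (if p ∣ L b then f b else 0) = f b := if_pos hd
    exact le_trans (le_of_eq h3.symm) h2
  · rw [if_neg hq]
    exact Finset.sum_nonneg h0

theorem tYpU (h1 : FpUStmt) (h2 : MfDStmt) (h3 : JdUStmt) : YpUStmt := by
  classical
  obtain ⟨C1, hC1, h1⟩ := h1
  obtain ⟨C2, hC2, h2⟩ := h2
  refine ⟨C1 * C2, by positivity, ?_⟩
  intro K r P bd 𝒜 hv hbd hip him t η ht ht4 hη
  obtain ⟨XC, hC⟩ := h1 K r P bd 𝒜 hv hbd hip him η hη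
  obtain ⟨κ, hκ⟩ : ∃ κ : ℝ, κ = t / 5 := ⟨_, rfl⟩
  have hκ0 : 0 < κ := by
    rw [hκ]
    positivity
  have hκ1 : κ ≤ 1 / 20 := by
    rw [hκ]
    linarith
  obtain ⟨η', hη'⟩ : ∃ η' : ℝ, η' = η / (2 * C1) := ⟨_, rfl⟩
  have hη'0 : 0 < η' := by
    rw [hη']
    positivity
  have hη'C : C1 * η' = η / 2 := by
    rw [hη']
    field_simp
  obtain ⟨XD, hD⟩ := h2 κ η' hκ0 (by linarith) hη'0
  obtain ⟨XE, hE⟩ := Filter.eventually_atTop.1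
    ((tendsto_rpow_atTop (by norm_num : (0 : ℝ) < 7 / 20)).eventually_ge_atTop (2 / η ^ 2))
  refine ⟨max XC (max XD (max XE (Real.exp 10))), fun X w V p0 a c l D hX hS hl hDc => ?_⟩
  have hXC : XC ≤ X := le_trans (le_max_left _ _) hX
  have hX' := le_trans (le_max_right XC _) hX
  have hXD : XD ≤ X := le_trans (le_max_left _ _) hX'
  have hX'' := le_trans (le_max_right XD _) hX'
  have hXE : XE ≤ X := le_trans (le_max_left _ _) hX''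
  have hX10 : Real.exp 10 ≤ X := le_trans (le_max_right _ _) hX''
  have hE' : 2 / η ^ 2 ≤ (X : ℝ) ^ ((7 : ℝ) / 20) := hE X hXE
  have hXr : (0 : ℝ) < X := lt_of_lt_of_le (Real.exp_pos _) hX10
  have hX1 : 1 ≤ X := by
    have : 0 < X := by exact_mod_cast hXr
    omega
  have hX1r : (1 : ℝ) ≤ X := by exact_mod_cast hX1
  obtain ⟨L, hL⟩ : ∃ L : ℝ, L = Real.log X := ⟨_, rfl⟩
  have hL10 : 10 ≤ L := by
    rw [hL, Real.le_log_iff_exp_le hXr]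
    exact hX10
  have hlR : Real.log (RR X) = L / 5 := by
    rw [hL]
    exact YpU_log X hX1
  have hVp : 1 ≤ V * p0 := Nat.mul_pos hS.hV hS.hp.pos
  have hd0 : 0 < dlV (V * p0) := dlV_pos hVp
  have hd1 : dlV (V * p0) ≤ 1 := dlV_le_one _
  have hJ0 : 0 ≤ JD P 𝒜 D := (h3 K r P 𝒜).2.2.2 hip him D
  have hCp := fun p : ℕ => hC X w V p0 p a c l D hXC hS
  obtain ⟨G, hG⟩ : ∃ G : ℝ, G = GG (V * p0) X := ⟨_, rfl⟩
  have hG1 : 1 ≤ G := by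
    rw [hG]
    unfold GG
    rw [hlR, le_div_iff₀ hd0]
    have : 1 ≤ L / 5 := by linarith
    have := one_le_pow₀ (n := 3) this
    linarith
  obtain ⟨Z, hZ⟩ : ∃ Z : ℝ, Z = G ^ K := ⟨_, rfl⟩
  have hZ1 : 1 ≤ Z := by
    rw [hZ]
    exact one_le_pow₀ hG1
  obtain ⟨J, hJ⟩ : ∃ J : ℝ, J = JD P 𝒜 D := ⟨_, rfl⟩
  rw [← hJ] at hJ0
  rw [← hG, ← hZ, ← hJ]
  rw [← hG, ← hZ, ← hJ] at hCp
  obtain ⟨E, hEd⟩ : ∃ E : ℕ → ℝ, E = (fun p : ℕ => (Real.log (p : ℝ) / Real.log (RR X)) ^ 2 +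
    1 / Real.sqrt (Real.log X)) := ⟨fun p : ℕ => (Real.log (p : ℝ) / Real.log (RR X)) ^ 2 +
    1 / Real.sqrt (Real.log X), rfl⟩
  have hE0 : ∀ p, 0 ≤ E p := by
    intro p
    rw [hEd]
    positivity
  have hRt : RR X ^ t = (X : ℝ) ^ κ := by
    unfold RR
    rw [← Real.rpow_mul hXr.le, hκ]
    congr 1
    ring
  have hXk0 : 0 ≤ (X : ℝ) ^ κ := (Real.rpow_pos_of_pos hXr κ).le
  obtain ⟨T, hT⟩ : ∃ T : Finset ℕ, T = QsV (V * p0) (RR X ^ t) := ⟨_, rfl⟩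
  have hTm : ∀ p, p ∈ T ↔ p ≤ ⌊(X : ℝ) ^ κ⌋₊ ∧ p.Prime ∧ ¬ p ∣ V * p0 := by
    intro p
    rw [hT, hRt]
    unfold QsV
    rw [Finset.mem_filter, Finset.mem_range]
    constructor
    · rintro ⟨h4, h5, h6⟩
      exact ⟨by omega, h5, h6⟩
    · rintro ⟨h4, h5, h6⟩
      exact ⟨by omega, h5, h6⟩
  have hTs : T ⊆ (Icc 1 ⌊(X : ℝ) ^ κ⌋₊).filter Nat.Prime := by
    intro p hp
    obtain ⟨h4, h5, h6⟩ := (hTm p).1 hp
    rw [Finset.mem_filter, Finset.mem_Icc]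
    exact ⟨⟨h5.one_lt.le, h4⟩, h5⟩
  obtain ⟨f, hf⟩ : ∃ f : ℕ → ℝ, f = fun b => UD (V * p0) X P 𝒜 a c D b ^ 2 *
      ∏ j ∈ D, AF (V * p0) (RR X) (qU X) (a j * b + c j) ^ 2 := ⟨_, rfl⟩
  have hf0 : ∀ b, 0 ≤ f b := by
    intro b
    rw [hf]
    exact mul_nonneg (sq_nonneg _) (Finset.prod_nonneg fun j _ => sq_nonneg _)
  have hun := YpU_union X T (fun b => a l * b + c l) f hf0
    (fun b => ¬ Yr (V * p0) X t (a l * b + c l)) (by
      intro b hb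
      unfold Yr at hb
      push Not at hb
      rw [hT]
      exact hb)
  have h4 : ∀ p ∈ T, ∑ b ∈ (Icc 1 X).filter (fun b => p ∣ a l * b + c l), f b ≤
      X * (Z * ((J + η) * C1)) * (1 / (p : ℝ) * E p) + (X : ℝ) ^ ((3 : ℝ) / 5) := by
    intro p hp
    obtain ⟨h5, h6, h7⟩ := (hTm p).1 hp
    have h8 : (p : ℝ) ≤ RR X := by
      refine ((Nat.le_floor_iff hXk0).1 h5).trans ?_
      unfold RR
      exact Real.rpow_le_rpow_of_exponent_le hX1r (by linarith)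
    have h9 := hCp p h6 h7 h8 hl hDc
    rw [hf]
    refine h9.trans (le_of_eq ?_)
    rw [hEd]
    ring
  have h5 : ∑ p ∈ T, 1 / (p : ℝ) * E p ≤ C2 * κ ^ 2 + η' := by
    refine le_trans ?_ (hD X hXD)
    simp only [hEd]
    refine Finset.sum_le_sum_of_subset_of_nonneg hTs fun p _ _ => by
      have := hE0 p
      positivity
  have h6 : (T.card : ℝ) ≤ (X : ℝ) ^ ((1 : ℝ) / 20) := by
    have h7 : T.card ≤ ⌊(X : ℝ) ^ κ⌋₊ := by
      refine (Finset.card_le_card hTs).trans ((Finset.card_filter_le _ _).trans ?_)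
      rw [Nat.card_Icc]
      omega
    calc (T.card : ℝ) ≤ (⌊(X : ℝ) ^ κ⌋₊ : ℝ) := by exact_mod_cast h7
      _ ≤ (X : ℝ) ^ κ := Nat.floor_le hXk0
      _ ≤ (X : ℝ) ^ ((1 : ℝ) / 20) := Real.rpow_le_rpow_of_exponent_le hX1r hκ1
  have h8 : (T.card : ℝ) * (X : ℝ) ^ ((3 : ℝ) / 5) ≤ (X : ℝ) ^ ((13 : ℝ) / 20) := by
    calc (T.card : ℝ) * (X : ℝ) ^ ((3 : ℝ) / 5)
        ≤ (X : ℝ) ^ ((1 : ℝ) / 20) * (X : ℝ) ^ ((3 : ℝ) / 5) :=
          mul_le_mul_of_nonneg_right h6 (Real.rpow_nonneg hXr.le _)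
      _ = (X : ℝ) ^ ((13 : ℝ) / 20) := by
          rw [← Real.rpow_add hXr]
          norm_num
  have h9 : (X : ℝ) ^ ((13 : ℝ) / 20) ≤ X * (Z * ((J + η) * (η / 2))) := by
    have h10 : (X : ℝ) = (X : ℝ) ^ ((13 : ℝ) / 20) * (X : ℝ) ^ ((7 : ℝ) / 20) := by
      rw [← Real.rpow_add hXr]
      norm_num
    have h11 : 0 < (X : ℝ) ^ ((13 : ℝ) / 20) := Real.rpow_pos_of_pos hXr _
    have h12 : 2 ≤ (X : ℝ) ^ ((7 : ℝ) / 20) * η ^ 2 := (div_le_iff₀ (by positivity)).1 hE'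
    have h13 : η * (η / 2) ≤ Z * ((J + η) * (η / 2)) := by
      have h14 : η * (η / 2) ≤ (J + η) * (η / 2) :=
        mul_le_mul_of_nonneg_right (by linarith) (by linarith)
      have h15 : 0 ≤ (J + η) * (η / 2) := by positivity
      nlinarith
    calc (X : ℝ) ^ ((13 : ℝ) / 20) ≤ (X : ℝ) ^ ((13 : ℝ) / 20) *
          ((X : ℝ) ^ ((7 : ℝ) / 20) * η ^ 2 / 2) := by
          have : 1 ≤ (X : ℝ) ^ ((7 : ℝ) / 20) * η ^ 2 / 2 := by linarith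
          exact le_mul_of_one_le_right h11.le this
      _ = X * (η * (η / 2)) := by
          nth_rewrite 3 [h10]
          ring
      _ ≤ X * (Z * ((J + η) * (η / 2))) := mul_le_mul_of_nonneg_left h13 hXr.le
  have h10 : C1 * (C2 * κ ^ 2 + η') ≤ C1 * C2 * t ^ 2 + η / 2 := by
    have h11 : κ ^ 2 ≤ t ^ 2 := by
      rw [hκ]
      nlinarith
    have h12 : C1 * C2 * κ ^ 2 ≤ C1 * C2 * t ^ 2 := by gcongr
    nlinarith
  have hfin : ∑ p ∈ T, ∑ b ∈ (Icc 1 X).filter (fun b => p ∣ a l * b + c l), f b ≤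
      X * (Z * ((J + η) * (C1 * C2 * t ^ 2 + η))) := by
    refine (Finset.sum_le_sum h4).trans ?_
    rw [Finset.sum_add_distrib, ← Finset.mul_sum, Finset.sum_const, nsmul_eq_mul]
    calc X * (Z * ((J + η) * C1)) * ∑ p ∈ T, 1 / (p : ℝ) * E p +
          (T.card : ℝ) * (X : ℝ) ^ ((3 : ℝ) / 5)
        ≤ X * (Z * ((J + η) * C1)) * (C2 * κ ^ 2 + η') + X * (Z * ((J + η) * (η / 2))) :=
          add_le_add (mul_le_mul_of_nonneg_left h5 (by positivity)) (h8.trans h9)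
      _ = X * (Z * ((J + η) * (C1 * (C2 * κ ^ 2 + η') + η / 2))) := by ring
      _ ≤ X * (Z * ((J + η) * (C1 * C2 * t ^ 2 + η))) := by
          have h11 : C1 * (C2 * κ ^ 2 + η') + η / 2 ≤ C1 * C2 * t ^ 2 + η := by linarith
          gcongr
  have hres := hun.trans hfin
  rw [hf] at hres
  refine le_trans (le_of_eq ?_) hres
  refine Finset.sum_congr ?_ fun _ _ => rfl
  ext b
  simp only [Finset.mem_filter]

end Pool.Agent.Lib.BE
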