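import Pool.Agent.Lib.BE.SpecU
import Pool.Agent.Lib.MP_9f2731_nt.SS.SpecB

/-!
PROJECT BU, module ChV (helper89): a positive proportion of the terms of the chain are primes (the places j, j < L, are the
bins of ObU; the equally spaced primes come from the theorem of Szemeredi).
-/

set_option autoImplicit false

namespace Pool.Agent.Lib.BE

open Finset
open Pool.Agent.Lib.MP_9f2731_nt.GP Pool.Agent.Lib.MP_9f2731_nt.CG
open Pool.Agent.Lib.MP_9f2731_nt.CG.Mf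

/-- SYSTEMS a_j m_j n + h_j, j < L (chains with ratio exactly g: a_j = g^j): all terms have at most C prime factors with an
ABSOLUTE constant C, a positive proportion of the terms (the places j in J) are primes, J contains k equally spaced places. -/
def ChVStmt : Prop := ∃ C : ℕ, ∀ k : ℕ, 1 ≤ k → ∃ L₀ : ℕ, ∀ L : ℕ, L₀ ≤ L → ∀ (a : ℕ → ℕ) (M : ℕ) (S : Set (ℕ × ℤ)),
  (∀ j, j < L → 1 ≤ a j) → 1 ≤ M → (∀ s ∈ S, 1 ≤ s.1) → ((fun s : ℕ × ℤ => (s.2 : ℚ) / s.1) '' S).Infinite →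
  (∀ s ∈ S, IsCoprime (M : ℤ) s.2 ∧ (∀ j, j < L → IsCoprime (a j : ℤ) s.2) ∧ ∀ s' ∈ S, IsCoprime (s'.1 : ℤ) s.2) →
  ∃ (m : ℕ → ℕ) (h : ℕ → ℤ) (J : Finset ℕ), (∀ j, j < L → (m j, h j) ∈ S) ∧
    (∀ i j, i < j → j < L → (m i : ℤ) * h j ≠ m j * h i) ∧
    J ⊆ Finset.range L ∧ (L : ℝ) / 10 ^ 6 ≤ (J.card : ℝ) ∧ (∃ x₀ d, 1 ≤ d ∧ ∀ i, i < k → x₀ + i * d ∈ J) ∧
    {n : ℕ | M ∣ n ∧ ∃ x : ℕ → ℕ, (∀ j, j < L → (x j : ℤ) = (a j : ℤ) * m j * n + h j ∧ 1 ≤ x j ∧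
        (x j).primeFactorsList.length ≤ C) ∧ ∀ j ∈ J, (x j).Prime}.Infinite

/-- pigeonhole: one element of a finite type works for arbitrarily large numbers -/
private theorem ChV_pigeon {S : Type} [Finite S] (P : S → ℕ → Prop)
    (h : ∀ Y : ℕ, ∃ s : S, ∃ N : ℕ, Y ≤ N ∧ P s N) : ∃ s : S, ∀ Y : ℕ, ∃ N : ℕ, Y ≤ N ∧ P s N := by
  classical
  have := Fintype.ofFinite S
  by_contra hcon
  push Not at hcon
  choose Y hY using hcon
  obtain ⟨s, N, hN, hP⟩ := h (∑ s, Y s)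
  exact hY s N (le_trans (Finset.single_le_sum (f := Y) (fun _ _ => Nat.zero_le _) (mem_univ s)) hN) hP

private theorem ChV_root (Y : ℕ) : ((Y ^ 5 : ℕ) : ℝ) ^ ((1 : ℝ) / 5) = Y := by
  have h : (Y : ℝ) ^ (5 : ℕ) = (Y : ℝ) ^ ((5 : ℕ) : ℝ) := (Real.rpow_natCast _ _).symm
  rw [Nat.cast_pow, h, ← Real.rpow_mul (Nat.cast_nonneg Y)]
  norm_num

/-- progressions in sets of places of density 10^(-6) -/
private theorem ChV_sz (h : MP_9f2731_nt.SS.S_Szm) (k : ℕ) (hk : 1 ≤ k) : ∃ L₀ : ℕ, 1 ≤ L₀ ∧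
    ∀ L : ℕ, L₀ ≤ L → ∀ J : Finset ℕ, (∀ j ∈ J, j < L) → (L : ℝ) / 10 ^ 6 ≤ (J.card : ℝ) →
    ∃ x₀ d : ℕ, 1 ≤ d ∧ ∀ i, i < k → x₀ + i * d ∈ J := by
  classical
  obtain ⟨D, hD1, hD⟩ := h k (1 / (2 * 10 ^ 6)) hk (by norm_num)
  refine ⟨D + 1, by omega, fun L hL J hJ hc => ?_⟩
  by_contra hcon
  push Not at hcon
  have hD0 : (0 : ℝ) < D := by exact_mod_cast hD1
  -- the blocks
  have hblk : ∀ b : ℕ, (((range D).filter (fun x => b * D + x ∈ J)).card : ℝ) ≤ 1 / (2 * 10 ^ 6) * D := by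
    intro b
    by_contra hb
    obtain ⟨e, d, hd, hed⟩ := hD ((range D).filter (fun x => b * D + x ∈ J)) (filter_subset _ _) (le_of_lt (not_le.1 hb))
    obtain ⟨i, hi, hni⟩ := hcon (b * D + e) d hd
    apply hni
    have h1 := (mem_filter.1 (hed i hi)).2
    rwa [← add_assoc] at h1
  have hsub : J ⊆ (range (L / D + 1)).biUnion (fun b => ((range D).filter (fun x => b * D + x ∈ J)).image
      (fun x => b * D + x)) := by
    intro j hj
    rw [mem_biUnion]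
    refine ⟨j / D, ?_, ?_⟩
    · rw [mem_range]
      have := hJ j hj
      exact Nat.lt_succ_of_le (Nat.div_le_div_right this.le)
    · rw [mem_image]
      have h1 : j / D * D + j % D = j := by
        rw [mul_comm]
        exact Nat.div_add_mod j D
      refine ⟨j % D, mem_filter.2 ⟨mem_range.2 (Nat.mod_lt _ hD1), ?_⟩, h1⟩
      rw [h1]
      exact hj
  have hcard : (J.card : ℝ) ≤ ((L / D : ℕ) + 1) * (1 / (2 * 10 ^ 6) * D) := by
    have h1 : (J.card : ℝ) ≤ ∑ b ∈ range (L / D + 1), (((range D).filter (fun x => b * D + x ∈ J)).card : ℝ) := by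
      have h2 : J.card ≤ ∑ b ∈ range (L / D + 1), ((range D).filter (fun x => b * D + x ∈ J)).card :=
        (card_le_card hsub).trans (card_biUnion_le.trans (sum_le_sum fun b _ => card_image_le))
      exact_mod_cast h2
    refine h1.trans ((sum_le_sum fun b _ => hblk b).trans ?_)
    rw [sum_const, card_range, nsmul_eq_mul]
    push_cast
    exact le_rfl
  have hdiv : ((L / D : ℕ) : ℝ) * D ≤ L := by
    exact_mod_cast Nat.div_mul_le_self L D
  have hLD : (D : ℝ) + 1 ≤ L := by exact_mod_cast hL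
  have h3 : ((L / D : ℕ) + 1) * (1 / (2 * 10 ^ 6) * (D : ℝ)) =
      (((L / D : ℕ) : ℝ) * D + D) / (2 * 10 ^ 6) := by ring
  rw [h3] at hcard
  have h4 : (((L / D : ℕ) : ℝ) * D + D) / (2 * 10 ^ 6) < (L : ℝ) / 10 ^ 6 := by
    rw [div_lt_div_iff₀ (by norm_num) (by norm_num)]
    nlinarith
  linarith

theorem tChV (h1 : ObUStmt) (h2 : HsPStmt) (h3 : ApPStmt) (h4 : MP_9f2731_nt.SS.S_Szm) : ChVStmt := by
  classical
  obtain ⟨C0, h1⟩ := h1
  refine ⟨C0 + 1, ?_⟩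
  intro k hk
  obtain ⟨L₀, hL₀, hsz⟩ := ChV_sz h4 k hk
  refine ⟨L₀, ?_⟩
  intro L hL a M S ha hM hS1 hInf hcop
  have hL1 : 1 ≤ L := hL₀.trans hL
  obtain ⟨n, C, hn1, hn⟩ := h1 L hL1
  -- the bound for the multipliers
  obtain ⟨B, hB⟩ : ∃ B : ℕ, B = M * ∑ j ∈ range L, a j := ⟨_, rfl⟩
  have haB : ∀ j, j < L → M * a j ≤ B := by
    intro j hj
    rw [hB]
    exact Nat.mul_le_mul_left _ (single_le_sum (f := a) (fun _ _ => Nat.zero_le _) (mem_range.2 hj))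
  have ha1 : ∀ j, j < L → 1 ≤ M * a j := fun j hj => Nat.mul_pos hM (ha j hj)
  have hB1 : 1 ≤ B := (ha1 0 hL1).trans (haB 0 hL1)
  obtain ⟨σ, hσ, hdvd, hne⟩ := h2 (L * n) B S hS1 hInf
  -- the place of an index
  obtain ⟨pl, hpl, hplL⟩ : ∃ pl : Fin (L * n) → ℕ, (∀ i s, pl (finProdFinEquiv (i, s)) = (i : ℕ)) ∧ ∀ l, pl l < L :=
    ⟨fun l => ((finProdFinEquiv.symm l).1 : ℕ), fun i s => by simp only [Equiv.symm_apply_apply],
      fun l => (finProdFinEquiv.symm l).1.isLt⟩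
  have hcop' : ∀ i j, IsCoprime (((σ i).1 * (M * a (pl i)) : ℕ) : ℤ) (σ j).2 := by
    intro i j
    rw [Nat.cast_mul, Nat.cast_mul]
    exact IsCoprime.mul_left ((hcop _ (hσ j)).2.2 _ (hσ i))
      (IsCoprime.mul_left (hcop _ (hσ j)).1 ((hcop _ (hσ j)).2.1 _ (hplL i)))
  have hch : ∀ p : ℕ, ∃ c : ℕ, p.Prime →
      ∀ l, ¬ (p : ℤ) ∣ (((σ l).1 * (M * a (pl l)) : ℕ) : ℤ) * c + (σ l).2 := by
    intro p
    by_cases hp : p.Prime
    · obtain ⟨c, hc⟩ := h3 (L * n) p (fun l => (σ l).1 * (M * a (pl l))) (fun l => (σ l).2) hp hcop' hdvd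
      exact ⟨c, fun _ => hc⟩
    · exact ⟨0, fun h => absurd h hp⟩
  choose cl hcl using hch
  obtain ⟨X0, hX0⟩ := hn (fun l => (σ l).1 * (M * a (pl l))) (fun l => (σ l).2) cl 0
    (fun l => Nat.mul_pos (hS1 _ (hσ l)) (ha1 _ (hplL l))) (fun p hp l => hcl p hp l)
    (fun i j hij => hne i j hij _ _ (ha1 _ (hplL i)) (haB _ (hplL i)) (ha1 _ (hplL j)) (haB _ (hplL j)))
  -- one set of places and one choice of the forms
  obtain ⟨⟨J0, c⟩, hJc⟩ := ChV_pigeon (S := Finset (Fin L) × (Fin L → Fin n))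
    (fun s N => (L : ℝ) / 10 ^ 6 ≤ (s.1.card : ℝ) ∧ ∀ i : Fin L, ∃ q : ℕ, 1 ≤ q ∧
      (q : ℤ) = (((σ (finProdFinEquiv (i, s.2 i))).1 * (M * a i) : ℕ) : ℤ) * N + (σ (finProdFinEquiv (i, s.2 i))).2 ∧
      q.primeFactorsList.length ≤ C0 + 1 ∧ (i ∈ s.1 → q.Prime)) (by
    intro Y
    obtain ⟨N, hN, -, hq, hall, hcard⟩ := hX0 (max ⌈X0⌉₊ (Y ^ 5))
      (le_trans (Nat.le_ceil X0) (by exact_mod_cast le_max_left _ _))
    have hYN : Y ≤ N := by
      have h5 : (Y : ℝ) ≤ N := by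
        rw [← ChV_root Y]
        refine le_trans (Real.rpow_le_rpow (Nat.cast_nonneg _) ?_ (by norm_num)) hN
        exact_mod_cast le_max_right _ _
      exact_mod_cast h5
    -- the occupied bins
    obtain ⟨O, hO⟩ : ∃ O : Finset (Fin L), O = univ.filter (fun i : Fin L => ∃ t : Fin n, ∃ p : ℕ, p.Prime ∧
      (p : ℤ) = (((σ (finProdFinEquiv (i, t))).1 * (M * a (pl (finProdFinEquiv (i, t)))) : ℕ) : ℤ) * N +
        (σ (finProdFinEquiv (i, t))).2) := ⟨_, rfl⟩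
    have hchoice : ∀ i : Fin L, ∃ t : Fin n, ∃ q : ℕ, 1 ≤ q ∧
        (q : ℤ) = (((σ (finProdFinEquiv (i, t))).1 * (M * a i) : ℕ) : ℤ) * N + (σ (finProdFinEquiv (i, t))).2 ∧
        q.primeFactorsList.length ≤ C0 + 1 ∧ (i ∈ O → q.Prime) := by
      intro i
      by_cases hi : i ∈ O
      · have h5 := hi
        rw [hO, mem_filter] at h5
        obtain ⟨-, t, p, hp, hpe⟩ := h5
        rw [hpl] at hpe
        refine ⟨t, p, hp.one_le, hpe, ?_, fun _ => hp⟩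
        rw [Nat.primeFactorsList_prime hp]
        simp
      · obtain ⟨t, q, hqe, hql⟩ := hall i
        obtain ⟨q', hq'1, hq'e, -⟩ := hq (finProdFinEquiv (i, t))
        have h6 : q = q' := by
          have h7 : (q : ℤ) = q' := by rw [hqe, hq'e]
          exact_mod_cast h7
        simp only [hpl] at hqe
        exact ⟨t, q, h6 ▸ hq'1, hqe, hql.trans (Nat.le_succ _), fun h => absurd h hi⟩
    choose c hc using hchoice
    refine ⟨(O, c), N, hYN, ?_, hc⟩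
    rw [hO]
    convert hcard)
  obtain ⟨J, hJ⟩ : ∃ J : Finset ℕ, J = J0.map Fin.valEmbedding := ⟨_, rfl⟩
  have hJL : ∀ j ∈ J, j < L := by
    intro j hj
    rw [hJ, mem_map] at hj
    obtain ⟨i, -, rfl⟩ := hj
    exact i.isLt
  have hJcard : (L : ℝ) / 10 ^ 6 ≤ (J.card : ℝ) := by
    rw [hJ, card_map]
    obtain ⟨N, -, h5, -⟩ := hJc 0
    exact h5
  obtain ⟨x₀, d, hd, hAP⟩ := hsz L hL J hJL hJcard
  -- the index of a place
  obtain ⟨idx, hidx⟩ : ∃ idx : ℕ → Fin (L * n), ∀ (j : ℕ) (hj : j < L),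
      idx j = finProdFinEquiv (⟨j, hj⟩, c ⟨j, hj⟩) :=
    ⟨fun j => if hj : j < L then finProdFinEquiv (⟨j, hj⟩, c ⟨j, hj⟩) else finProdFinEquiv (⟨0, hL1⟩, ⟨0, hn1⟩),
      fun j hj => dif_pos hj⟩
  refine ⟨fun j => (σ (idx j)).1, fun j => (σ (idx j)).2, J, fun j _ => hσ _, ?_,
    fun j hj => mem_range.2 (hJL j hj), hJcard, ⟨x₀, d, hd, hAP⟩, ?_⟩
  · intro i j hij hjL
    have h5 : idx i ≠ idx j := by
      intro he
      rw [hidx i (hij.trans hjL), hidx j hjL] at he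
      have h6 := congrArg Prod.fst (finProdFinEquiv.injective he)
      have h7 := congrArg Fin.val h6
      simp only at h7
      omega
    have h8 := hne _ _ h5 1 1 le_rfl hB1 le_rfl hB1
    rw [mul_one, mul_one] at h8
    exact h8
  · refine Set.infinite_of_forall_exists_gt fun N0 => ?_
    obtain ⟨N, hN0, -, hN⟩ := hJc (N0 + 1)
    choose q hq1 hq2 hq3 hq4 using hN
    refine ⟨M * N, ⟨Dvd.intro _ rfl, fun j => if hj : j < L then q ⟨j, hj⟩ else 0, fun j hj => ?_, fun j hj => ?_⟩, ?_⟩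
    · simp only [dif_pos hj]
      refine ⟨?_, hq1 _, hq3 _⟩
      rw [hq2 ⟨j, hj⟩, hidx j hj]
      push_cast
      ring
    · have hjL := hJL j hj
      simp only [dif_pos hjL]
      refine hq4 ⟨j, hjL⟩ ?_
      rw [hJ, mem_map] at hj
      obtain ⟨i, hi, hij⟩ := hj
      have h5 : (⟨j, hjL⟩ : Fin L) = i := Fin.ext hij.symm
      rw [h5]
      exact hi
    · calc N0 < N := hN0
        _ = 1 * N := (one_mul _).symm
        _ ≤ M * N := Nat.mul_le_mul_right _ hM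

end Pool.Agent.Lib.BE
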