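import Pool.Agent.Lib.BE.U.ObW

/-!
PROJECT BU, OP: the occupied bins theorem ObWStmt with the proportion 1/R (ObWStmt is ObQStmt (10 ^ 6)).
-/

set_option autoImplicit false

namespace Pool.Agent.Lib.BE

open Finset
open Pool.Agent.Lib.MP_9f2731_nt.GP Pool.Agent.Lib.MP_9f2731_nt.CG
open Pool.Agent.Lib.MP_9f2731_nt.CG.Mf

open Classical in
/-- OCCUPIED BINS FOR ARBITRARY ADMISSIBLE FORMS, all values rough, in every bin a value whose prime factors are at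
least its (1/C0)-th power, C0 ABSOLUTE, a proportion 1/R of the bins contains a prime. -/
def ObQStmt (R : ℝ) : Prop := ∃ C0 : ℕ, ∀ m : ℕ, 1 ≤ m → ∃ n C : ℕ, 1 ≤ n ∧ ∀ (M' : Fin (m * n) → ℕ) (h : Fin (m * n) → ℤ)
  (cl : ℕ → ℕ) (P : ℕ), (∀ l, 1 ≤ M' l) →
  (∀ p : ℕ, p.Prime → ∀ l, ¬ (p : ℤ) ∣ (M' l : ℤ) * cl p + h l) →
  (∀ i j, i ≠ j → (M' i : ℤ) * h j ≠ M' j * h i) →
  ∃ X0 : ℝ, ∀ X : ℕ, X0 ≤ X → ∃ N : ℕ, (X : ℝ) ^ ((1 : ℝ) / 5) ≤ N ∧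
    (∀ p : ℕ, p.Prime → p ≤ P → N ≡ cl p [MOD p]) ∧
    (∀ l, ∃ q : ℕ, 1 ≤ q ∧ (q : ℤ) = (M' l : ℤ) * N + h l ∧ ∀ p : ℕ, p.Prime → p ∣ q → q ≤ p ^ C) ∧
    (∀ i : Fin m, ∃ t : Fin n, ∃ q : ℕ, 1 ≤ q ∧ (q : ℤ) = (M' (finProdFinEquiv (i, t)) : ℤ) * N +
      h (finProdFinEquiv (i, t)) ∧ ∀ p : ℕ, p.Prime → p ∣ q → q ≤ p ^ C0) ∧
    (m : ℝ) / R ≤ ((univ.filter (fun i : Fin m => ∃ t : Fin n, ∃ p : ℕ, p.Prime ∧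
      (p : ℤ) = (M' (finProdFinEquiv (i, t)) : ℤ) * N + h (finProdFinEquiv (i, t)))).card : ℝ)


theorem obQ_of_obW (h : ObWStmt) : ObQStmt (10 ^ 6) := h

end Pool.Agent.Lib.BE
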