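import Pool.Agent.Lib.BE.SpecU

set_option autoImplicit false

namespace Pool.Agent.Lib.BE

open Finset
open Pool.Agent.Lib.MP_9f2731_nt.GP Pool.Agent.Lib.MP_9f2731_nt.GP.Sv
  Pool.Agent.Lib.MP_9f2731_nt.QL Pool.Agent.Lib.MP_9f2731_nt.QL.Sw Pool.Agent.Lib.MP_9f2731_nt.CG
  Pool.Agent.Lib.MP_9f2731_nt.CG.Ma Pool.Agent.Lib.MP_9f2731_nt.CG.Mf

private theorem R2U_log (X : ℕ) (hX : 1 ≤ X) : Real.log (RR X) = Real.log X / 5 := by
  unfold RR
  rw [Real.log_rpow (by exact_mod_cast hX)]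
  ring

private theorem R2U_dl (V : ℕ) (hV : 1 ≤ V) : 0 < dlV V ∧ dlV V ≤ 1 := by
  have hV0 : (0 : ℝ) < V := by exact_mod_cast hV
  have h1 : 0 < V.totient := Nat.totient_pos.2 hV
  have h1' : (0 : ℝ) < V.totient := by exact_mod_cast h1
  have h2 : (V.totient : ℝ) ≤ V := by exact_mod_cast Nat.totient_le V
  unfold dlV
  exact ⟨div_pos h1' hV0, (div_le_one hV0).2 h2⟩

/-- `G ≥ 1` for `X ≥ e^5` -/
private theorem R2U_GG (X W : ℕ) (hX : Real.exp 5 ≤ X) (hW : 1 ≤ W) : 1 ≤ GG W X := by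
  have hX0 : (0 : ℝ) < X := lt_of_lt_of_le (Real.exp_pos 5) hX
  have hX1 : 1 ≤ X := by
    have : (0 : ℝ) < (X : ℝ) := hX0
    exact Nat.one_le_iff_ne_zero.2 (by rintro rfl; simp at this)
  have h1 : 5 ≤ Real.log X := (Real.le_log_iff_exp_le hX0).2 hX
  have h2 : 1 ≤ Real.log (RR X) := by
    rw [R2U_log X hX1]
    linarith
  obtain ⟨h3, h4⟩ := R2U_dl W hW
  unfold GG
  rw [one_le_div h3]
  exact h4.trans (one_le_pow₀ h2)

/-- natural numbers at most `M`: `-(1 - m)(1 - n) ≤ M` -/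
private theorem R2U_nat (m n : ℕ) (M : ℝ) (hm : (m : ℝ) ≤ M) (hn : (n : ℝ) ≤ M) :
    0 ≤ (1 - (m : ℝ)) * (1 - (n : ℝ)) + M := by
  have hM : 0 ≤ M := (Nat.cast_nonneg m).trans hm
  rcases Nat.eq_zero_or_pos m with h | h
  · subst h
    push_cast
    have : (0 : ℝ) ≤ n := Nat.cast_nonneg n
    linarith
  · rcases Nat.eq_zero_or_pos n with h' | h'
    · subst h'
      push_cast
      have : (0 : ℝ) ≤ m := Nat.cast_nonneg m
      linarith
    · have h1 : (1 : ℝ) ≤ m := by exact_mod_cast h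
      have h2 : (1 : ℝ) ≤ n := by exact_mod_cast h'
      nlinarith [mul_nonneg (sub_nonneg.2 h1) (sub_nonneg.2 h2)]

open Classical in
/-- the pointwise inequality -/
private theorem R2U_pt (Q1 Q2 : Prop) (w U q1 q2 g1 g2 L M r1 r2 : ℝ) (m n : ℕ) (hL : 0 < L) (hm : (m : ℝ) ≤ M)
    (hn : (n : ℝ) ≤ M) (hw : Q1 → Q2 → w = L ^ 4 * U) (hg1 : g1 = q1 * (1 - m)) (hg2 : g2 = q2 * (1 - n))
    (hr1 : r1 = if Q1 then q1 * g1 / L ^ 4 else 0) (hr2 : r2 = if Q2 then q2 * g2 / L ^ 4 else 0) :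
    w ^ 2 * (r1 * r2) ≤ U ^ 2 * ((q1 * g1) * (q2 * g2)) + M * (if ¬ Q1 then U ^ 2 * (q1 ^ 2 * q2 ^ 2) else 0) +
      M * (if ¬ Q2 then U ^ 2 * (q1 ^ 2 * q2 ^ 2) else 0) := by
  have hM : 0 ≤ M := (Nat.cast_nonneg m).trans hm
  have hS : 0 ≤ U ^ 2 * (q1 ^ 2 * q2 ^ 2) := by positivity
  have h0 := R2U_nat m n M hm hn
  have h1 : 0 ≤ U ^ 2 * ((q1 * g1) * (q2 * g2)) + M * (U ^ 2 * (q1 ^ 2 * q2 ^ 2)) := by
    have : U ^ 2 * ((q1 * g1) * (q2 * g2)) + M * (U ^ 2 * (q1 ^ 2 * q2 ^ 2)) =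
        U ^ 2 * (q1 ^ 2 * q2 ^ 2) * ((1 - (m : ℝ)) * (1 - (n : ℝ)) + M) := by
      rw [hg1, hg2]
      ring
    rw [this]
    exact mul_nonneg hS h0
  have hMS : 0 ≤ M * (U ^ 2 * (q1 ^ 2 * q2 ^ 2)) := mul_nonneg hM hS
  by_cases c1 : Q1
  · by_cases c2 : Q2
    · rw [hw c1 c2, hr1, hr2, if_pos c1, if_pos c2, if_neg (not_not.2 c1), if_neg (not_not.2 c2)]
      have hL4 : L ^ 4 ≠ 0 := by positivity
      have : (L ^ 4 * U) ^ 2 * (q1 * g1 / L ^ 4 * (q2 * g2 / L ^ 4)) = U ^ 2 * ((q1 * g1) * (q2 * g2)) := by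
        field_simp
      rw [this]
      linarith
    · rw [hr2, if_neg c2, mul_zero, mul_zero, if_neg (not_not.2 c1), if_pos c2]
      linarith
  · rw [hr1, if_neg c1, zero_mul, mul_zero, if_pos c1]
    by_cases c2 : Q2
    · rw [if_neg (not_not.2 c2)]
      linarith
    · rw [if_pos c2]
      linarith

theorem tR2U (h1 : UsUStmt) (h2 : YpUStmt) (h3 : IdUStmt) (h4 : GaUStmt) (h5 : GtUStmt) (h6 : DgUStmt)
    (h7 : JdUStmt) : R2UStmt := by
  classical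
  obtain ⟨Ca, hCa, h2⟩ := h2
  refine ⟨Ca, hCa, ?_⟩
  intro t u ht htu hu K r P bd 𝒜 hV hbd hip him hbe η hη
  have ht4 : t ≤ 1 / 4 := htu.trans hu
  obtain ⟨C5, X5, hC5, h5⟩ := h5 t u ht htu hu
  obtain ⟨C6, hC6, h6⟩ := h6 t u ht htu hu
  have hCh : 0 < (1 + 1 / t) + C5 := by positivity
  obtain ⟨X1, h1⟩ := h1 K r P bd 𝒜 hV hbd ((1 + 1 / t) + C5) (η / 2) hCh (by positivity)
  obtain ⟨X2, h2⟩ := h2 K r P bd 𝒜 hV hbd hip him t η ht ht4 hη
  obtain ⟨j1, j2, j3, j4⟩ := h7 K r P 𝒜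
  refine ⟨max (max X1 X2) (max (max X5 (Real.exp 5)) ((2 / η) ^ ((5 : ℝ) / 2))), ?_⟩
  intro X w V p0 a c l j hX hS hlj hXX
  have hX1 : X1 ≤ X := (le_max_left _ _).trans ((le_max_left _ _).trans hX)
  have hX2 : X2 ≤ X := (le_max_right _ _).trans ((le_max_left _ _).trans hX)
  have hX5 : X5 ≤ X := (le_max_left _ _).trans ((le_max_left _ _).trans ((le_max_right _ _).trans hX))
  have hXe : Real.exp 5 ≤ X := (le_max_right _ _).trans ((le_max_left _ _).trans ((le_max_right _ _).trans hX))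
  have hXη : (2 / η) ^ ((5 : ℝ) / 2) ≤ X := (le_max_right _ _).trans ((le_max_right _ _).trans hX)
  have hXp : (0 : ℝ) < X := lt_of_lt_of_le (Real.exp_pos 5) hXe
  have hXn : 1 ≤ X := Nat.one_le_iff_ne_zero.2 (by rintro rfl; simp at hXp)
  have hW : 1 ≤ V * p0 := Nat.one_le_iff_ne_zero.2 (Nat.mul_ne_zero (by have := hS.hV; omega) hS.hp.ne_zero)
  have hGG : 1 ≤ GG (V * p0) X := R2U_GG X (V * p0) hXe hW
  have hlX : 5 ≤ Real.log X := (Real.le_log_iff_exp_le hXp).2 hXe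
  have hlR : 0 < Real.log (RR X) := by
    rw [R2U_log X hXn]
    linarith
  have hR0 : 0 ≤ RR X := by
    unfold RR
    positivity
  have hR1 : 1 < RR X := (Real.log_pos_iff hR0).1 hlR
  obtain ⟨ga1, ga2, ga3⟩ := h4 t u ht htu hu X (V * p0) hR1 hW
  have hcard : ({l, j} : Finset (Fin K)).card = 2 := Finset.card_pair hlj
  have hK : 2 ≤ K := by
    have := Finset.card_le_univ ({l, j} : Finset (Fin K))
    rwa [hcard, Fintype.card_fin] at this
  -- the three bounds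
  have b1 := h1 X w V p0 a c {l, j} (gU (V * p0) X t u) hX1 hS hcard.le ga2
    (fun n => (ga3 n).trans (mul_le_mul_of_nonneg_right (by linarith) (by positivity)))
    (fun b b' => (h5 X w V p0 K a c hX5 hS b b').trans (mul_le_mul_of_nonneg_right (by
      have : (0 : ℝ) < 1 + 1 / t := by positivity
      linarith) (by linarith)))
  have b2 := h2 X w V p0 a c l {l, j} hX2 hS (by simp) hcard.le
  have b3 := h2 X w V p0 a c j {l, j} hX2 hS (by simp) hcard.le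
  rw [hcard, j3 l j hlj] at b1
  rw [j3 l j hlj] at b2 b3
  have hJ : 0 ≤ Jq2 P 𝒜 l j := by
    rw [← j3 l j hlj]
    exact j4 hip him _
  -- the sum
  have key : ∑ b ∈ Icc 1 X, WWC (V * p0) X P 𝒜 a c b ^ 2 * (rhoU (V * p0) X t u (a l * b + c l) *
      rhoU (V * p0) X t u (a j * b + c j)) ≤
      ∑ b ∈ Icc 1 X, UD (V * p0) X P 𝒜 a c {l, j} b ^ 2 *
        ∏ i ∈ ({l, j} : Finset (Fin K)), (AF (V * p0) (RR X) (qU X) (a i * b + c i) *
          AF (V * p0) (RR X) (gU (V * p0) X t u) (a i * b + c i)) +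
      10 / t * (∑ b ∈ (Icc 1 X).filter (fun b => ¬ Yr (V * p0) X t (a l * b + c l)),
        UD (V * p0) X P 𝒜 a c {l, j} b ^ 2 *
          ∏ i ∈ ({l, j} : Finset (Fin K)), AF (V * p0) (RR X) (qU X) (a i * b + c i) ^ 2) +
      10 / t * (∑ b ∈ (Icc 1 X).filter (fun b => ¬ Yr (V * p0) X t (a j * b + c j)),
        UD (V * p0) X P 𝒜 a c {l, j} b ^ 2 *
          ∏ i ∈ ({l, j} : Finset (Fin K)), AF (V * p0) (RR X) (qU X) (a i * b + c i) ^ 2) := by
    rw [Finset.sum_filter, Finset.sum_filter, Finset.mul_sum, Finset.mul_sum, ← Finset.sum_add_distrib,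
      ← Finset.sum_add_distrib]
    refine Finset.sum_le_sum fun b hb => ?_
    obtain ⟨hb1, hb2⟩ := Finset.mem_Icc.1 hb
    have hn : ∀ i : Fin K, 1 ≤ a i * b + c i ∧ a i * b + c i ≤ X ^ 2 := by
      intro i
      have h8 := hS.ha1 i
      have h9 : 1 ≤ a i * b := Nat.one_le_iff_ne_zero.2 (Nat.mul_ne_zero (by omega) (by omega))
      have h10 : a i * b ≤ a i * X := Nat.mul_le_mul_left _ hb2
      have h11 := hXX i
      constructor
      · omega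
      · omega
    rw [Finset.prod_pair hlj, Finset.prod_pair hlj]
    refine R2U_pt (Yr (V * p0) X t (a l * b + c l)) (Yr (V * p0) X t (a j * b + c j)) _ _ _ _ _ _
      (Real.log (RR X)) (10 / t) _ _ (PrU (V * p0) X t u (a l * b + c l)).card
      (PrU (V * p0) X t u (a j * b + c j)).card hlR ?_ ?_ ?_ ?_ ?_ ?_ ?_
    · exact (h6 X (V * p0) _ hR1 hW (hn l).1 (hn l).2).1
    · exact (h6 X (V * p0) _ hR1 hW (hn j).1 (hn j).2).1
    · intro y1 y2
      have h12 := h3 K r P bd 𝒜 t hV ht (by linarith) hbe X (V * p0) b a c {l, j} hR1 hW (by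
        intro i hi
        rcases Finset.mem_insert.1 hi with h | h
        · rw [h]; exact y1
        · rw [Finset.mem_singleton.1 h]; exact y2)
      rw [hcard] at h12
      exact h12
    · exact ga1 _
    · exact ga1 _
    · rfl
    · rfl
  -- the numbers
  have htau : TTF (V * p0) (RR X) (qU X) (gU (V * p0) X t u) 1 1 = tau (V * p0) X t u := rfl
  rw [htau] at b1
  have hG0 : 0 < GG (V * p0) X := by linarith
  have hGK : 1 ≤ GG (V * p0) X ^ K := one_le_pow₀ hGG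
  have e1 : tau (V * p0) X t u ^ 2 * GG (V * p0) X ^ (K - 2) * Jq2 P 𝒜 l j =
      GG (V * p0) X ^ K * ((tau (V * p0) X t u / GG (V * p0) X) ^ 2 * Jq2 P 𝒜 l j) := by
    obtain ⟨k, rfl⟩ : ∃ k, K = k + 2 := ⟨K - 2, by omega⟩
    rw [Nat.add_sub_cancel, pow_add]
    field_simp
  have e2 : (X : ℝ) ^ ((3 : ℝ) / 5) ≤ X * (GG (V * p0) X ^ K * (η / 2)) := by
    have h13 : 2 / η ≤ (X : ℝ) ^ ((2 : ℝ) / 5) := by
      have h14 := Real.rpow_le_rpow (by positivity) hXη (show (0 : ℝ) ≤ 2 / 5 by norm_num)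
      rw [← Real.rpow_mul (by positivity)] at h14
      norm_num at h14
      exact h14
    have h15 : (X : ℝ) ^ ((3 : ℝ) / 5) * (X : ℝ) ^ ((2 : ℝ) / 5) = X := by
      rw [← Real.rpow_add hXp]
      norm_num
    have h16 : 0 < (X : ℝ) ^ ((3 : ℝ) / 5) := Real.rpow_pos_of_pos hXp _
    have h17 : (X : ℝ) ^ ((3 : ℝ) / 5) * (2 / η) ≤ X := by
      calc (X : ℝ) ^ ((3 : ℝ) / 5) * (2 / η) ≤ (X : ℝ) ^ ((3 : ℝ) / 5) * (X : ℝ) ^ ((2 : ℝ) / 5) :=
            mul_le_mul_of_nonneg_left h13 h16.le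
        _ = X := h15
    have h18 : (X : ℝ) ^ ((3 : ℝ) / 5) ≤ X * (η / 2) := by
      have : (X : ℝ) ^ ((3 : ℝ) / 5) = (X : ℝ) ^ ((3 : ℝ) / 5) * (2 / η) * (η / 2) := by
        field_simp
      rw [this]
      exact mul_le_mul_of_nonneg_right h17 (by positivity)
    refine h18.trans (mul_le_mul_of_nonneg_left ?_ hXp.le)
    exact le_mul_of_one_le_left (by positivity) hGK
  have b1' := (abs_le.1 b1).2
  have ht0 : 0 < 10 / t := by positivity
  have m2 := mul_le_mul_of_nonneg_left b2 ht0.le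
  have m3 := mul_le_mul_of_nonneg_left b3 ht0.le
  refine key.trans ?_
  have fin : (X : ℝ) * (tau (V * p0) X t u ^ 2 * GG (V * p0) X ^ (K - 2) * Jq2 P 𝒜 l j) +
      X * (GG (V * p0) X ^ K * (η / 2)) + X * (GG (V * p0) X ^ K * (η / 2)) +
      10 / t * (X * (GG (V * p0) X ^ K * ((Jq2 P 𝒜 l j + η) * (Ca * t ^ 2 + η)))) +
      10 / t * (X * (GG (V * p0) X ^ K * ((Jq2 P 𝒜 l j + η) * (Ca * t ^ 2 + η)))) =
      X * GG (V * p0) X ^ K * ((tau (V * p0) X t u / GG (V * p0) X) ^ 2 * Jq2 P 𝒜 l j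
      + 20 / t * ((Jq2 P 𝒜 l j + η) * (Ca * t ^ 2 + η)) + η) := by
    rw [e1]
    ring
  rw [← fin]
  linarith

end Pool.Agent.Lib.BE
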